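import Mathlib

set_option autoImplicit false

/-! # Powerful above a bound -/

namespace Pool.Agent.H70.PF

/-- every prime divisor `p > B` of `m` satisfies `p ^ 2 ∣ m` -/
def pwA (B : ℝ) (m : ℕ) : Prop := ∀ p : ℕ, p.Prime → B < p → p ∣ m → p ^ 2 ∣ m

/-- every prime divisor `p > B` of the integer `z` satisfies `p ^ 2 ∣ z` -/
def pwAZ (B : ℝ) (z : ℤ) : Prop :=
  ∀ p : ℕ, p.Prime → B < p → (p : ℤ) ∣ z → (p : ℤ) ^ 2 ∣ z

end Pool.Agent.H70.PF
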