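import Pool.Agent.H70.PF.Num
import Pool.Agent.H70.PF.Def3

set_option autoImplicit false

/-! # From one scale to all scales, primes above a growing bound -/

namespace Pool.Agent.H70.PF

open Finset Nat

private lemma br3_fs_congr {F F' : Finset ℕ} {y : ℕ} (h : ∀ n < y, n ∈ F ↔ n ∈ F') :
    fs F y = fs F' y := by
  unfold fs
  congr 1
  ext n
  rw [mem_filter, mem_filter]
  constructor
  · rintro ⟨h1, h2⟩; exact ⟨(h n h2).mp h1, h2⟩
  · rintro ⟨h1, h2⟩; exact ⟨(h n h2).mpr h1, h2⟩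

private lemma br3_Ev_congr {i : ℕ} {F F' : Finset ℕ} (h : ∀ n < 2 * 4 ^ (i + 1), n ∈ F ↔ n ∈ F') :
    Ev i F ↔ Ev i F' := by
  have e : ∀ p ∈ prm (4 ^ i) (4 ^ (i + 1)), fs F (2 * p) = fs F' (2 * p) := by
    intro p hp
    rw [mem_prm] at hp
    exact br3_fs_congr fun n hn => h n (by omega)
  unfold Ev
  constructor
  · rintro ⟨p, hp, h1, h2⟩
    rw [e p hp] at h1 h2
    exact ⟨p, hp, h1, h2⟩
  · rintro ⟨p, hp, h1, h2⟩
    rw [← e p hp] at h1 h2
    exact ⟨p, hp, h1, h2⟩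

private lemma br3_dvd {F : Finset ℕ} {p y d : ℕ} (hp : p.Prime) (hy : 2 * p ≤ y) (hd : d ∣ p ^ 2) :
    d ∣ fs F y ↔ d ∣ fs F (2 * p) := by
  have hsub : F.filter (fun n => n < 2 * p) ⊆ F.filter (fun n => n < y) := by
    intro n hn
    rw [mem_filter] at hn ⊢
    exact ⟨hn.1, by omega⟩
  have hs : ∑ n ∈ F.filter (fun n => n < y) \ F.filter (fun n => n < 2 * p), n ! + fs F (2 * p)
      = fs F y := Finset.sum_sdiff hsub
  rw [← hs]
  apply Nat.dvd_add_right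
  apply Finset.dvd_sum
  intro n hn
  rw [mem_sdiff, mem_filter, mem_filter] at hn
  have hn2 : 2 * p ≤ n := by
    by_contra hlt
    exact hn.2 ⟨hn.1.1, by omega⟩
  have h1 : p ∣ p ! := Nat.dvd_factorial hp.pos le_rfl
  have h2 : p ! * p ! ∣ (p + p)! := Nat.factorial_mul_factorial_dvd_factorial_add p p
  have h3 : (p + p)! ∣ n ! := Nat.factorial_dvd_factorial (by omega)
  exact hd.trans ((by rw [sq]; exact mul_dvd_mul h1 h1 : p ^ 2 ∣ p ! * p !).trans (h2.trans h3))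

private lemma br3_not_Ev {F : Finset ℕ} {i y : ℕ} {B : ℝ} (hy : 2 * 4 ^ (i + 1) ≤ y)
    (hB : B ≤ (4 : ℝ) ^ i) (h : pwA B (fs F y)) :
    ¬ Ev i F := by
  rintro ⟨p, hp, h1, h2⟩
  rw [mem_prm] at hp
  have hpy : 2 * p ≤ y := by omega
  apply h2
  rw [← br3_dvd hp.2.2 hpy dvd_rfl]
  apply h p hp.2.2 (hB.trans_lt (by exact_mod_cast hp.1))
  rw [br3_dvd hp.2.2 hpy (dvd_pow_self p two_ne_zero)]
  exact h1

/-- the scales -/
private def br3_s (i0 j : ℕ) : ℕ := i0 + 1 + 3 * j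

/-- the levels -/
private def br3_L (i0 : ℕ) : ℕ → ℕ
  | 0 => 1
  | j + 1 => 2 * 4 ^ (br3_s i0 j + 1)

private lemma br3_L_four (i0 j : ℕ) : 4 * br3_L i0 j ≤ 4 ^ br3_s i0 j := by
  cases j with
  | zero =>
    simp only [br3_L, br3_s]
    calc 4 * 1 = 4 ^ 1 := by norm_num
      _ ≤ 4 ^ (i0 + 1 + 3 * 0) := Nat.pow_le_pow_right (by norm_num) (by omega)
  | succ j =>
    simp only [br3_L, br3_s]
    have h1 : (4 : ℕ) ^ (i0 + 1 + 3 * (j + 1)) = 4 * 4 * 4 ^ (i0 + 1 + 3 * j + 1) := by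
      rw [show i0 + 1 + 3 * (j + 1) = 2 + (i0 + 1 + 3 * j + 1) by ring, pow_add]
      norm_num
    rw [h1]
    have h2 : 0 < 4 ^ (i0 + 1 + 3 * j + 1) := by positivity
    nlinarith

private lemma br3_L_le (i0 j : ℕ) : br3_L i0 j ≤ br3_L i0 (j + 1) := by
  have h1 := br3_L_four i0 j
  have h2 : (4 : ℕ) ^ br3_s i0 j ≤ 4 ^ (br3_s i0 j + 1) := Nat.pow_le_pow_right (by norm_num) (by omega)
  have h3 : br3_L i0 (j + 1) = 2 * 4 ^ (br3_s i0 j + 1) := rfl
  omega

private lemma br3_L_mono (i0 : ℕ) : Monotone (br3_L i0) := monotone_nat_of_le_succ (br3_L_le i0)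

private lemma br3_L_pos (i0 j : ℕ) : 1 ≤ br3_L i0 j := by
  have := br3_L_mono i0 (Nat.zero_le j)
  exact this

private lemma br3_L_big (i0 j : ℕ) : j < br3_L i0 (j + 1) := by
  have h3 : br3_L i0 (j + 1) = 2 * 4 ^ (br3_s i0 j + 1) := rfl
  rw [h3]
  have h1 : br3_s i0 j + 1 < 4 ^ (br3_s i0 j + 1) := Nat.lt_pow_self (by norm_num)
  have h2 : br3_s i0 j = i0 + 1 + 3 * j := rfl
  omega

/-- Fubini with a free factor -/
private lemma br3_split_le {D1 D2 : Finset ℕ} (hd : Disjoint D1 D2) (P Q : Finset ℕ → Prop)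
    (K : ℝ) (_hK : 0 ≤ K)
    (h1 : ∀ F1 ⊆ D1, ¬ Q F1 → ∀ F2 ⊆ D2, ¬ P (F1 ∪ F2))
    (h2 : ∀ F1 ⊆ D1, Q F1 → (num D2 (fun F2 => P (F1 ∪ F2)) : ℝ) ≤ K) :
    (num (D1 ∪ D2) P : ℝ) ≤ num D1 Q * K := by
  classical
  rw [num_split hd, num_eq D1 Q]
  push_cast
  have h3 : ∀ F1 ∈ D1.powerset, (num D2 (fun F2 => P (F1 ∪ F2)) : ℝ) ≤ if Q F1 then K else 0 := by
    intro F1 hF1
    rw [mem_powerset] at hF1
    split_ifs with hQ
    · exact h2 F1 hF1 hQ
    · have h4 : num D2 (fun F2 => P (F1 ∪ F2)) = 0 := by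
        rw [num_eq, Finset.card_eq_zero, filter_eq_empty_iff]
        intro F2 hF2
        rw [mem_powerset] at hF2
        exact h1 F1 hF1 hQ F2 hF2
      rw [h4, Nat.cast_zero]
  refine (Finset.sum_le_sum h3).trans ?_
  rw [← Finset.sum_filter, Finset.sum_const, nsmul_eq_mul]

private lemma br3_claim {i0 N : ℕ} {V Z : Finset ℕ} (hVZ : Disjoint V Z)
    (hV : ∀ x : ℕ, i0 ≤ x → 4 * x ≤ N → x ^ 15 ≤ ((V ∩ Finset.Ioc x (4 * x)).card) ^ 16)
    (h : ∀ i ≥ i0, ∀ D X : Finset ℕ, Disjoint X D →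
      (4 ^ (i - 1)) ^ 15 ≤ ((D ∩ Finset.Ioc (4 ^ (i - 1)) (4 ^ i)).card) ^ 16 →
      (num D (fun F => ¬ Ev i (X ∪ F)) : ℝ) ≤ 2 ^ D.card * (1 - 1 / (64 * ((i : ℝ) + 1))))
    (J : ℕ) (hJ : br3_L i0 J ≤ N) :
    (num (V ∩ Finset.Ico 1 (br3_L i0 J)) (fun F => ∀ j < J, ¬ Ev (br3_s i0 j) (Z ∪ F)) : ℝ)
      ≤ 2 ^ (V ∩ Finset.Ico 1 (br3_L i0 J)).card *
        ∏ j ∈ range J, (1 - 1 / (64 * ((br3_s i0 j : ℝ) + 1))) := by
  induction J with
  | zero =>
    have h2 := num_le (V ∩ Finset.Ico 1 (br3_L i0 0)) (fun F => ∀ j < 0, ¬ Ev (br3_s i0 j) (Z ∪ F))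
    rw [range_zero, prod_empty, mul_one]
    exact_mod_cast h2
  | succ J ih =>
    have hLL := br3_L_le i0 J
    have hL1 := br3_L_pos i0 J
    have ih' := ih (hLL.trans hJ)
    have hU : V ∩ Finset.Ico 1 (br3_L i0 (J + 1)) = (V ∩ Finset.Ico 1 (br3_L i0 J)) ∪
        (V ∩ Finset.Ico (br3_L i0 J) (br3_L i0 (J + 1))) := by
      rw [← Finset.inter_union_distrib_left, Finset.Ico_union_Ico_eq_Ico hL1 hLL]
    have hd : Disjoint (V ∩ Finset.Ico 1 (br3_L i0 J))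
        (V ∩ Finset.Ico (br3_L i0 J) (br3_L i0 (J + 1))) :=
      (Finset.Ico_disjoint_Ico_consecutive _ _ _).mono Finset.inter_subset_right
        Finset.inter_subset_right
    have hf0 : (0 : ℝ) ≤ 1 - 1 / (64 * ((br3_s i0 J : ℝ) + 1)) := by
      have h1 : (0 : ℝ) ≤ (br3_s i0 J : ℝ) := Nat.cast_nonneg _
      have h2 : 1 / (64 * ((br3_s i0 J : ℝ) + 1)) ≤ 1 := by
        rw [div_le_one (by positivity)]
        linarith
      linarith
    have hkey := br3_split_le hd (fun F => ∀ j < J + 1, ¬ Ev (br3_s i0 j) (Z ∪ F))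
      (fun F => ∀ j < J, ¬ Ev (br3_s i0 j) (Z ∪ F))
      (2 ^ (V ∩ Finset.Ico (br3_L i0 J) (br3_L i0 (J + 1))).card *
        (1 - 1 / (64 * ((br3_s i0 J : ℝ) + 1))))
      (by positivity) (by
        intro F1 hF1 hQ F2 hF2 hP
        apply hQ
        intro j hj hE
        apply hP j (by omega)
        rw [br3_Ev_congr (F' := Z ∪ F1)]
        · exact hE
        · intro n hn
          rw [mem_union, mem_union, mem_union]
          constructor
          · rintro (h1 | h1 | h1)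
            · exact Or.inl h1
            · exact Or.inr h1
            · have h2 := (mem_inter.mp (hF2 h1)).2
              rw [Finset.mem_Ico] at h2
              have h3 : br3_L i0 (j + 1) ≤ br3_L i0 J := br3_L_mono i0 hj
              have h4 : br3_L i0 (j + 1) = 2 * 4 ^ (br3_s i0 j + 1) := rfl
              omega
          · rintro (h1 | h1)
            · exact Or.inl h1
            · exact Or.inr (Or.inl h1)) (by
        intro F1 hF1 _
        have hXD : Disjoint (Z ∪ F1) (V ∩ Finset.Ico (br3_L i0 J) (br3_L i0 (J + 1))) := by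
          rw [Finset.disjoint_union_left]
          exact ⟨(hVZ.mono_left Finset.inter_subset_left).symm, hd.mono_left hF1⟩
        have hs1 : 1 ≤ br3_s i0 J := by unfold br3_s; omega
        have hpow : 4 ^ br3_s i0 J = 4 * 4 ^ (br3_s i0 J - 1) := by
          rw [← pow_succ']
          congr 1
          omega
        have hint : (V ∩ Finset.Ico (br3_L i0 J) (br3_L i0 (J + 1))) ∩
            Finset.Ioc (4 ^ (br3_s i0 J - 1)) (4 ^ br3_s i0 J) =
            V ∩ Finset.Ioc (4 ^ (br3_s i0 J - 1)) (4 * 4 ^ (br3_s i0 J - 1)) := by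
          rw [← hpow]
          ext n
          rw [mem_inter, mem_inter, mem_inter, Finset.mem_Ico, Finset.mem_Ioc]
          constructor
          · rintro ⟨⟨h1, _⟩, h3⟩
            exact ⟨h1, h3⟩
          · rintro ⟨h1, h3⟩
            refine ⟨⟨h1, ?_, ?_⟩, h3⟩
            · have := br3_L_four i0 J
              omega
            · have h4 : br3_L i0 (J + 1) = 2 * 4 ^ (br3_s i0 J + 1) := rfl
              rw [h4, pow_succ]
              omega
        have hx := hV (4 ^ (br3_s i0 J - 1)) (by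
            have h5 : br3_s i0 J - 1 < 4 ^ (br3_s i0 J - 1) := Nat.lt_pow_self (by norm_num)
            have h6 : br3_s i0 J = i0 + 1 + 3 * J := rfl
            omega) (by
            have h4 : br3_L i0 (J + 1) = 2 * 4 ^ (br3_s i0 J + 1) := rfl
            rw [h4, pow_succ] at hJ
            omega)
        have h1 := h (br3_s i0 J) (by unfold br3_s; omega) _ _ hXD (by rw [hint]; exact hx)
        refine le_trans ?_ h1
        have h2 : num (V ∩ Finset.Ico (br3_L i0 J) (br3_L i0 (J + 1)))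
            (fun F2 => ∀ j < J + 1, ¬ Ev (br3_s i0 j) (Z ∪ (F1 ∪ F2))) ≤
            num (V ∩ Finset.Ico (br3_L i0 J) (br3_L i0 (J + 1)))
              (fun F => ¬ Ev (br3_s i0 J) (Z ∪ F1 ∪ F)) := num_mono fun F _ hF => by
                rw [Finset.union_assoc]
                exact hF J (by omega)
        exact_mod_cast h2)
    rw [hU]
    refine hkey.trans ?_
    have h5 := mul_le_mul_of_nonneg_right ih' (show (0 : ℝ) ≤
      2 ^ (V ∩ Finset.Ico (br3_L i0 J) (br3_L i0 (J + 1))).card *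
      (1 - 1 / (64 * ((br3_s i0 J : ℝ) + 1))) by positivity)
    refine h5.trans (le_of_eq ?_)
    rw [prod_range_succ, Finset.card_union_of_disjoint hd, pow_add]
    ring

private lemma br3_prod (i0 J : ℕ) :
    ∏ j ∈ range J, (1 - 1 / (64 * ((br3_s i0 j : ℝ) + 1)))
      ≤ Real.exp (-(1 / 192) * (Real.log ((i0 : ℝ) + 2 + 3 * J) - Real.log ((i0 : ℝ) + 2))) := by
  induction J with
  | zero => simp
  | succ J ih =>
    have hi : (0 : ℝ) ≤ (i0 : ℝ) := Nat.cast_nonneg _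
    have hJ : (0 : ℝ) ≤ (J : ℝ) := Nat.cast_nonneg _
    rw [prod_range_succ]
    obtain ⟨t, ht⟩ : ∃ t : ℝ, t = (i0 : ℝ) + 2 + 3 * J := ⟨_, rfl⟩
    have ht0 : 0 < t := by rw [ht]; positivity
    have hs : (br3_s i0 J : ℝ) + 1 = t := by
      rw [ht]; unfold br3_s; push_cast; ring
    have ht1 : 1 ≤ 64 * t := by rw [ht]; linarith
    have hf0 : (0 : ℝ) ≤ 1 - 1 / (64 * t) := by
      have : 1 / (64 * t) ≤ 1 := by rw [div_le_one (by positivity)]; exact ht1
      linarith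
    rw [hs]
    have h1 : 1 - 1 / (64 * t) ≤ Real.exp (-(1 / 192) * (Real.log (t + 3) - Real.log t)) := by
      have h2 : Real.log (t + 3) - Real.log t ≤ 3 / t := by
        rw [← Real.log_div (by positivity) ht0.ne']
        have h3 := Real.log_le_sub_one_of_pos (show 0 < (t + 3) / t by positivity)
        have h4 : (t + 3) / t - 1 = 3 / t := by field_simp; ring
        linarith
      have h5 : 1 - 1 / (64 * t) ≤ Real.exp (-(1 / (64 * t))) := by
        have := Real.add_one_le_exp (-(1 / (64 * t)))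
        linarith
      refine h5.trans (Real.exp_le_exp.mpr ?_)
      have h6 : 1 / (64 * t) = (1 / 192) * (3 / t) := by field_simp; norm_num
      rw [h6]
      linarith
    rw [← ht] at ih
    have h7 := mul_le_mul ih h1 hf0 (Real.exp_pos _).le
    refine h7.trans (le_of_eq ?_)
    rw [← Real.exp_add]
    congr 1
    have h8 : (i0 : ℝ) + 2 + 3 * ((J + 1 : ℕ) : ℝ) = t + 3 := by rw [ht]; push_cast; ring
    rw [h8]
    ring

/-- one block `(A, A ^ 2]` -/
private lemma br3_block (i1 x0 : ℕ) (h : ∀ i ≥ i1, ∀ D X : Finset ℕ, Disjoint X D →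
      (4 ^ (i - 1)) ^ 15 ≤ ((D ∩ Finset.Ioc (4 ^ (i - 1)) (4 ^ i)).card) ^ 16 →
      (num D (fun F => ¬ Ev i (X ∪ F)) : ℝ) ≤ 2 ^ D.card * (1 - 1 / (64 * ((i : ℝ) + 1)))) :
    ∃ C : ℝ, 0 < C ∧ ∀ A M : ℕ, 2 ≤ A → A ≤ M → ∀ V Z : Finset ℕ,
      V ⊆ Finset.Icc 1 M → Disjoint V Z →
      (∀ x : ℕ, x0 ≤ x → 4 * x ≤ M → x ^ 15 ≤ ((V ∩ Finset.Ioc x (4 * x)).card) ^ 16) →
      (num V (fun F => ∃ y, A < y ∧ y ≤ A ^ 2 ∧ y ≤ M + 1 ∧
        pwA (Real.exp (Real.sqrt (Real.log y))) (fs (Z ∪ F) y)) : ℝ)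
        ≤ C * 2 ^ V.card * (Real.log A) ^ (-(1 / 384 : ℝ)) := by
  classical
  obtain ⟨K, hK⟩ : ∃ K : ℝ, K = ((i1 : ℝ) + x0 + 3) / Real.sqrt (Real.log 2) + 2 := ⟨_, rfl⟩
  have hlog2 : 0 < Real.log 2 := Real.log_pos (by norm_num)
  have hs2 : 0 < Real.sqrt (Real.log 2) := Real.sqrt_pos.mpr hlog2
  have hi1' : (0 : ℝ) ≤ (i1 : ℝ) := Nat.cast_nonneg _
  have hx0' : (0 : ℝ) ≤ (x0 : ℝ) := Nat.cast_nonneg _
  have hK0 : 0 < K := by rw [hK]; positivity
  refine ⟨Real.exp ((1 / 192) * Real.log (3 * K)), Real.exp_pos _, ?_⟩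
  intro A M hA hAM V Z hVM hVZ hV
  have hlogA2 : Real.log 2 ≤ Real.log A := Real.log_le_log (by norm_num) (by exact_mod_cast hA)
  have hlogA : 0 < Real.log A := lt_of_lt_of_le hlog2 hlogA2
  have hsA : Real.sqrt (Real.log 2) ≤ Real.sqrt (Real.log A) := Real.sqrt_le_sqrt hlogA2
  have hsA0 : 0 < Real.sqrt (Real.log A) := lt_of_lt_of_le hs2 hsA
  obtain ⟨i0, hi0⟩ : ∃ i0 : ℕ, i0 = i1 + x0 + ⌈2 * Real.sqrt (Real.log A)⌉₊ := ⟨_, rfl⟩
  have hi1 : i1 ≤ i0 := by omega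
  have hx0 : x0 ≤ i0 := by omega
  have hceil : 2 * Real.sqrt (Real.log A) ≤ (i0 : ℝ) := by
    have h1 := Nat.le_ceil (2 * Real.sqrt (Real.log A))
    have h2 : (⌈2 * Real.sqrt (Real.log A)⌉₊ : ℝ) ≤ (i0 : ℝ) := by
      exact_mod_cast (by omega : ⌈2 * Real.sqrt (Real.log A)⌉₊ ≤ i0)
    linarith
  have hi0K : (i0 : ℝ) + 2 ≤ K * Real.sqrt (Real.log A) := by
    have h1 : (⌈2 * Real.sqrt (Real.log A)⌉₊ : ℝ) < 2 * Real.sqrt (Real.log A) + 1 :=
      Nat.ceil_lt_add_one (by positivity)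
    have h2 : (i0 : ℝ) = (i1 : ℝ) + x0 + (⌈2 * Real.sqrt (Real.log A)⌉₊ : ℝ) := by
      rw [hi0]; push_cast; ring
    have h3 : (i1 : ℝ) + x0 + 3 ≤
        ((i1 : ℝ) + x0 + 3) / Real.sqrt (Real.log 2) * Real.sqrt (Real.log A) := by
      rw [div_mul_eq_mul_div, le_div_iff₀ hs2]
      exact mul_le_mul_of_nonneg_left hsA (by positivity)
    rw [hK, add_mul]
    linarith
  -- the largest admissible level
  have hex : ∃ J, A < br3_L i0 (J + 1) := ⟨A, br3_L_big i0 A⟩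
  obtain ⟨J, hJ1, hJ2⟩ : ∃ J, br3_L i0 J ≤ A ∧ A < br3_L i0 (J + 1) := by
    refine ⟨Nat.find hex, ?_, Nat.find_spec hex⟩
    rcases Nat.eq_zero_or_pos (Nat.find hex) with h0 | h0
    · rw [h0]
      have : br3_L i0 0 = 1 := rfl
      omega
    · have h1 := Nat.find_min hex (show Nat.find hex - 1 < Nat.find hex by omega)
      rw [not_lt, Nat.sub_add_cancel h0] at h1
      exact h1
  have hL1 := br3_L_pos i0 J
  have hU : V = (V ∩ Finset.Ico 1 (br3_L i0 J)) ∪ (V ∩ Finset.Ico (br3_L i0 J) (M + 1)) := by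
    rw [← Finset.inter_union_distrib_left, Finset.Ico_union_Ico_eq_Ico hL1 (by omega)]
    ext n
    rw [mem_inter, Finset.mem_Ico]
    constructor
    · intro hn
      have := hVM hn
      rw [Finset.mem_Icc] at this
      exact ⟨hn, by omega⟩
    · exact fun hn => hn.1
  have hd : Disjoint (V ∩ Finset.Ico 1 (br3_L i0 J)) (V ∩ Finset.Ico (br3_L i0 J) (M + 1)) :=
    (Finset.Ico_disjoint_Ico_consecutive _ _ _).mono Finset.inter_subset_right
      Finset.inter_subset_right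
  have hkey := br3_split_le hd (fun F => ∃ y, A < y ∧ y ≤ A ^ 2 ∧ y ≤ M + 1 ∧
        pwA (Real.exp (Real.sqrt (Real.log y))) (fs (Z ∪ F) y))
    (fun F => ∀ j < J, ¬ Ev (br3_s i0 j) (Z ∪ F)) (2 ^ (V ∩ Finset.Ico (br3_L i0 J) (M + 1)).card)
    (by positivity) (by
      rintro F1 hF1 hQ F2 hF2 ⟨y, hy1, hyA, hy2, hy3⟩
      apply hQ
      intro j hj hE
      have h3 : br3_L i0 (j + 1) ≤ br3_L i0 J := br3_L_mono i0 hj
      have h4 : br3_L i0 (j + 1) = 2 * 4 ^ (br3_s i0 j + 1) := rfl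
      have hBy : Real.exp (Real.sqrt (Real.log y)) ≤ (4 : ℝ) ^ (br3_s i0 j) := by
        have hy0 : (0 : ℝ) < y := by exact_mod_cast (by omega : 0 < y)
        have h5 : Real.log y ≤ 2 * Real.log A := by
          have h6 : Real.log y ≤ Real.log ((A : ℝ) ^ 2) :=
            Real.log_le_log hy0 (by exact_mod_cast hyA)
          rw [Real.log_pow] at h6
          exact_mod_cast h6
        have h7 : Real.sqrt (Real.log y) ≤ 2 * Real.sqrt (Real.log A) := by
          have h8 : Real.sqrt (Real.log y) ≤ Real.sqrt (2 ^ 2 * Real.log A) :=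
            Real.sqrt_le_sqrt (by linarith)
          rw [Real.sqrt_mul (by norm_num), Real.sqrt_sq (by norm_num)] at h8
          exact h8
        have h9 : Real.sqrt (Real.log y) ≤ (i0 : ℝ) := h7.trans hceil
        have h10 : (br3_s i0 j : ℝ) = (i0 : ℝ) + 1 + 3 * j := by
          unfold br3_s; push_cast; ring
        have hj0 : (0 : ℝ) ≤ (j : ℝ) := Nat.cast_nonneg _
        calc Real.exp (Real.sqrt (Real.log y)) ≤ Real.exp ((br3_s i0 j : ℕ) * 1) := by
              apply Real.exp_le_exp.mpr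
              rw [mul_one, h10]
              linarith
          _ = Real.exp 1 ^ (br3_s i0 j) := by rw [Real.exp_nat_mul]
          _ ≤ 4 ^ (br3_s i0 j) := by
              apply pow_le_pow_left₀ (Real.exp_pos _).le
              have := Real.exp_one_lt_d9
              linarith
      apply br3_not_Ev (i := br3_s i0 j) (by omega) hBy hy3
      rw [br3_Ev_congr (F' := Z ∪ F1)]
      · exact hE
      · intro n hn
        rw [mem_union, mem_union, mem_union]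
        constructor
        · rintro (h1 | h1 | h1)
          · exact Or.inl h1
          · exact Or.inr h1
          · have h2 := (mem_inter.mp (hF2 h1)).2
            rw [Finset.mem_Ico] at h2
            omega
        · rintro (h1 | h1)
          · exact Or.inl h1
          · exact Or.inr (Or.inl h1)) (by
      intro F1 _ _
      have h1 := num_le (V ∩ Finset.Ico (br3_L i0 J) (M + 1))
        (fun F2 => ∃ y, A < y ∧ y ≤ A ^ 2 ∧ y ≤ M + 1 ∧
          pwA (Real.exp (Real.sqrt (Real.log y))) (fs (Z ∪ (F1 ∪ F2)) y))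
      exact_mod_cast h1)
  rw [← hU] at hkey
  refine hkey.trans ?_
  have hc := br3_claim hVZ (fun x hx hx2 => hV x (hx0.trans hx) (hx2.trans hAM))
    (fun i hi => h i (hi1.trans hi)) J hJ1
  have hp := br3_prod i0 J
  have h2M : (2 : ℝ) ^ (V ∩ Finset.Ico 1 (br3_L i0 J)).card *
      2 ^ (V ∩ Finset.Ico (br3_L i0 J) (M + 1)).card = 2 ^ V.card := by
    rw [← pow_add, ← Finset.card_union_of_disjoint hd, ← hU]
  have hi : (0 : ℝ) ≤ (i0 : ℝ) := Nat.cast_nonneg _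
  have hJ0 : (0 : ℝ) ≤ (J : ℝ) := Nat.cast_nonneg _
  -- comparison of the product with the logarithm of `A`
  have hlog : Real.log A ≤ 3 * ((i0 : ℝ) + 2 + 3 * J) := by
    have h1 : (A : ℝ) ≤ 2 * 4 ^ (i0 + 2 + 3 * J) := by
      have h2 : br3_L i0 (J + 1) = 2 * 4 ^ (i0 + 2 + 3 * J) := by
        change 2 * 4 ^ (br3_s i0 J + 1) = _
        unfold br3_s
        congr 2
        ring
      rw [h2] at hJ2
      exact_mod_cast hJ2.le
    have h3 : Real.log A ≤ Real.log (2 * 4 ^ (i0 + 2 + 3 * J)) :=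
      Real.log_le_log (by exact_mod_cast (by omega : 0 < A)) h1
    rw [Real.log_mul (by norm_num) (by positivity), Real.log_pow] at h3
    have h4 : Real.log 4 = 2 * Real.log 2 := by
      rw [show (4 : ℝ) = 2 ^ 2 by norm_num, Real.log_pow]; push_cast; ring
    have h5 : Real.log 2 < 0.7 := by
      have := Real.log_two_lt_d9; linarith
    rw [h4] at h3
    push_cast at h3
    nlinarith
  have hfin : ∏ j ∈ range J, (1 - 1 / (64 * ((br3_s i0 j : ℝ) + 1)))
      ≤ Real.exp ((1 / 192) * Real.log (3 * K)) * Real.log A ^ (-(1 / 384 : ℝ)) := by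
    refine hp.trans ?_
    rw [Real.rpow_def_of_pos hlogA, ← Real.exp_add, Real.exp_le_exp]
    have h1 : Real.log (Real.log A) ≤ Real.log 3 + Real.log ((i0 : ℝ) + 2 + 3 * J) := by
      rw [← Real.log_mul (by norm_num) (by positivity)]
      exact Real.log_le_log hlogA hlog
    have h2 : Real.log (3 * K) = Real.log 3 + Real.log K :=
      Real.log_mul (by norm_num) hK0.ne'
    have h3 : Real.log ((i0 : ℝ) + 2) ≤ Real.log K + (1 / 2) * Real.log (Real.log A) := by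
      have h4 := Real.log_le_log (by positivity) hi0K
      rw [Real.log_mul hK0.ne' hsA0.ne', Real.log_sqrt hlogA.le] at h4
      linarith
    rw [h2]
    linarith
  calc (num (V ∩ Finset.Ico 1 (br3_L i0 J)) (fun F => ∀ j < J, ¬ Ev (br3_s i0 j) (Z ∪ F)) : ℝ) *
        2 ^ (V ∩ Finset.Ico (br3_L i0 J) (M + 1)).card
      ≤ (2 ^ (V ∩ Finset.Ico 1 (br3_L i0 J)).card *
          ∏ j ∈ range J, (1 - 1 / (64 * ((br3_s i0 j : ℝ) + 1)))) *
        2 ^ (V ∩ Finset.Ico (br3_L i0 J) (M + 1)).card :=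
        mul_le_mul_of_nonneg_right hc (by positivity)
    _ = 2 ^ V.card * ∏ j ∈ range J, (1 - 1 / (64 * ((br3_s i0 j : ℝ) + 1))) := by
        rw [← h2M]; ring
    _ ≤ 2 ^ V.card * (Real.exp ((1 / 192) * Real.log (3 * K)) *
        Real.log A ^ (-(1 / 384 : ℝ))) := mul_le_mul_of_nonneg_left hfin (by positivity)
    _ = _ := by ring

theorem branch3 (h : ∃ i0 : ℕ, ∀ i ≥ i0, ∀ D X : Finset ℕ, Disjoint X D →
      (4 ^ (i - 1)) ^ 15 ≤ ((D ∩ Finset.Ioc (4 ^ (i - 1)) (4 ^ i)).card) ^ 16 →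
      (num D (fun F => ¬ Ev i (X ∪ F)) : ℝ) ≤ 2 ^ D.card * (1 - 1 / (64 * ((i : ℝ) + 1)))) :
    ∃ c : ℝ, 0 < c ∧ ∀ x0 : ℕ, ∃ C : ℝ, ∀ N M : ℕ, 2 ≤ N → N ≤ M → ∀ V Z : Finset ℕ,
      V ⊆ Finset.Icc 1 M → Disjoint V Z →
      (∀ x : ℕ, x0 ≤ x → 4 * x ≤ M → x ^ 15 ≤ ((V ∩ Finset.Ioc x (4 * x)).card) ^ 16) →
      (num V (fun F => ∃ y, N < y ∧ y ≤ M + 1 ∧
        pwA (Real.exp (Real.sqrt (Real.log y))) (fs (Z ∪ F) y)) : ℝ)
        ≤ C * 2 ^ V.card * (Real.log N) ^ (-c) := by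
  classical
  obtain ⟨i1, h⟩ := h
  refine ⟨1 / 384, by norm_num, ?_⟩
  intro x0
  obtain ⟨C2, hC2, hB⟩ := br3_block i1 x0 h
  obtain ⟨r, hr⟩ : ∃ r : ℝ, r = (2 : ℝ) ^ (-(1 / 384 : ℝ)) := ⟨_, rfl⟩
  have hr0 : 0 < r := by rw [hr]; positivity
  have hr1 : r < 1 := by
    rw [hr]
    exact Real.rpow_lt_one_of_one_lt_of_neg (by norm_num) (by norm_num)
  refine ⟨C2 * (1 - r)⁻¹, ?_⟩
  intro N M hN hNM V Z hVM hVZ hV
  have hlogN : 0 < Real.log N := Real.log_pos (by exact_mod_cast (by omega : 1 < N))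
  have hNj : ∀ j : ℕ, j < N ^ (2 ^ j) := by
    intro j
    calc j < 2 ^ j := Nat.lt_pow_self (by norm_num)
      _ < 2 ^ (2 ^ j) := Nat.lt_pow_self (by norm_num)
      _ ≤ N ^ (2 ^ j) := Nat.pow_le_pow_left hN _
  have hsq : ∀ j : ℕ, (N ^ (2 ^ j)) ^ 2 = N ^ (2 ^ (j + 1)) := by
    intro j
    rw [← pow_mul, pow_succ]
  have hcov : num V (fun F => ∃ y, N < y ∧ y ≤ M + 1 ∧
        pwA (Real.exp (Real.sqrt (Real.log y))) (fs (Z ∪ F) y)) ≤
      num V (fun F => ∃ j ∈ range (M + 1), ∃ y, N ^ (2 ^ j) < y ∧ y ≤ (N ^ (2 ^ j)) ^ 2 ∧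
        y ≤ M + 1 ∧ pwA (Real.exp (Real.sqrt (Real.log y))) (fs (Z ∪ F) y)) := by
    apply num_mono
    rintro F _ ⟨y, hy1, hy2, hy3⟩
    have hex : ∃ j, y ≤ N ^ (2 ^ (j + 1)) := ⟨y, by
      have := hNj (y + 1)
      omega⟩
    refine ⟨Nat.find hex, ?_, y, ?_, ?_, hy2, hy3⟩
    · rw [mem_range]
      rcases Nat.eq_zero_or_pos (Nat.find hex) with h0 | h0
      · omega
      · have h1 := Nat.find_min hex (show Nat.find hex - 1 < Nat.find hex by omega)
        rw [not_le, Nat.sub_add_cancel h0] at h1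
        have h2 := hNj (Nat.find hex)
        omega
    · rcases Nat.eq_zero_or_pos (Nat.find hex) with h0 | h0
      · rw [h0]; simpa using hy1
      · have h1 := Nat.find_min hex (show Nat.find hex - 1 < Nat.find hex by omega)
        rw [not_le, Nat.sub_add_cancel h0] at h1
        exact h1
    · rw [hsq]
      exact Nat.find_spec hex
  have hcov2 := hcov.trans (num_exists V (range (M + 1)) (fun j F => ∃ y, N ^ (2 ^ j) < y ∧
    y ≤ (N ^ (2 ^ j)) ^ 2 ∧ y ≤ M + 1 ∧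
      pwA (Real.exp (Real.sqrt (Real.log y))) (fs (Z ∪ F) y)))
  have hterm : ∀ j ∈ range (M + 1), (num V (fun F => ∃ y, N ^ (2 ^ j) < y ∧
      y ≤ (N ^ (2 ^ j)) ^ 2 ∧ y ≤ M + 1 ∧
      pwA (Real.exp (Real.sqrt (Real.log y))) (fs (Z ∪ F) y)) : ℝ) ≤
      (C2 * 2 ^ V.card * (Real.log N) ^ (-(1 / 384 : ℝ))) * r ^ j := by
    intro j _
    have hpos : 0 ≤ (C2 * 2 ^ V.card * (Real.log N) ^ (-(1 / 384 : ℝ))) * r ^ j := by positivity
    rcases Nat.lt_or_ge M (N ^ (2 ^ j)) with hlt | hge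
    · have h0 : num V (fun F => ∃ y, N ^ (2 ^ j) < y ∧
        y ≤ (N ^ (2 ^ j)) ^ 2 ∧ y ≤ M + 1 ∧
        pwA (Real.exp (Real.sqrt (Real.log y))) (fs (Z ∪ F) y)) = 0 := by
        rw [num_eq, Finset.card_eq_zero, filter_eq_empty_iff]
        rintro F _ ⟨y, h1, _, h3, _⟩
        omega
      rw [h0, Nat.cast_zero]
      exact hpos
    · have hA2 : 2 ≤ N ^ (2 ^ j) := by
        calc 2 ≤ N := hN
          _ = N ^ 1 := (pow_one N).symm
          _ ≤ N ^ (2 ^ j) := Nat.pow_le_pow_right (by omega) (Nat.one_le_two_pow)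
      have h1 := hB (N ^ (2 ^ j)) M hA2 hge V Z hVM hVZ hV
      refine h1.trans (le_of_eq ?_)
      have h2 : Real.log ((N ^ (2 ^ j) : ℕ) : ℝ) = (2 : ℝ) ^ j * Real.log N := by
        push_cast
        rw [Real.log_pow]
        push_cast
        ring
      rw [h2, Real.mul_rpow (by positivity) hlogN.le]
      have h3 : ((2 : ℝ) ^ j) ^ (-(1 / 384 : ℝ)) = r ^ j := by
        rw [hr, ← Real.rpow_natCast, ← Real.rpow_mul (by norm_num), ← Real.rpow_natCast,
          ← Real.rpow_mul (by norm_num), mul_comm]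
      rw [h3]
      ring
  have hgeom : ∑ j ∈ range (M + 1), r ^ j ≤ (1 - r)⁻¹ := by
    rw [geom_sum_eq hr1.ne, ← neg_div_neg_eq, neg_sub, neg_sub, div_eq_mul_inv]
    have h1 : 0 < (1 - r)⁻¹ := inv_pos.mpr (by linarith)
    have h2 : 1 - r ^ (M + 1) ≤ 1 := by
      have : 0 < r ^ (M + 1) := by positivity
      linarith
    calc (1 - r ^ (M + 1)) * (1 - r)⁻¹ ≤ 1 * (1 - r)⁻¹ := mul_le_mul_of_nonneg_right h2 h1.le
      _ = _ := one_mul _
  calc (num V (fun F => ∃ y, N < y ∧ y ≤ M + 1 ∧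
        pwA (Real.exp (Real.sqrt (Real.log y))) (fs (Z ∪ F) y)) : ℝ)
      ≤ ∑ j ∈ range (M + 1), (num V (fun F => ∃ y, N ^ (2 ^ j) < y ∧
          y ≤ (N ^ (2 ^ j)) ^ 2 ∧ y ≤ M + 1 ∧
          pwA (Real.exp (Real.sqrt (Real.log y))) (fs (Z ∪ F) y)) : ℝ) := by
        exact_mod_cast hcov2
    _ ≤ ∑ j ∈ range (M + 1), (C2 * 2 ^ V.card * (Real.log N) ^ (-(1 / 384 : ℝ))) * r ^ j :=
        Finset.sum_le_sum hterm
    _ = (C2 * 2 ^ V.card * (Real.log N) ^ (-(1 / 384 : ℝ))) * ∑ j ∈ range (M + 1), r ^ j := by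
        rw [Finset.mul_sum]
    _ ≤ (C2 * 2 ^ V.card * (Real.log N) ^ (-(1 / 384 : ℝ))) * (1 - r)⁻¹ :=
        mul_le_mul_of_nonneg_left hgeom (by positivity)
    _ = _ := by ring

end Pool.Agent.H70.PF
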