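import Mathlib

set_option autoImplicit false

/-! # Asymptotic form of the multi-scale bound -/

namespace Pool.Agent.H70.PF

private lemma asyW_log3 : (1.09 : ℝ) ≤ Real.log 3 := by
  have h1 := Real.one_sub_inv_le_log_of_pos (x := 3 / Real.exp 1) (by positivity)
  rw [Real.log_div (by norm_num) (Real.exp_pos _).ne', Real.log_exp, inv_div] at h1
  have h2 := Real.exp_one_lt_d9
  linarith

private lemma asyW_loglog {x : ℝ} (hx : 3 ≤ x) : (0.08 : ℝ) ≤ Real.log (Real.log x) := by
  have h1 : (1.09 : ℝ) ≤ Real.log x := asyW_log3.trans (Real.log_le_log (by norm_num) hx)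
  have h2 := Real.one_sub_inv_le_log_of_pos (x := Real.log x) (by linarith)
  have h3 : (Real.log x)⁻¹ ≤ (1.09 : ℝ)⁻¹ := inv_anti₀ (by norm_num) h1
  have h4 : (1.09 : ℝ)⁻¹ ≤ 0.92 := by norm_num
  linarith

theorem asy_W {α : Type*} (N u : α → ℕ) (f : α → ℝ) (hf : ∀ a, f a ≤ 1) (i0 : ℕ)
    (h : ∀ a, ∀ n lam d : ℕ, i0 ≤ Nat.log 2 (N a) → Nat.log 2 (N a) + 3 ≤ 2 ^ lam →
      N a ≤ 2 ^ d * u a →
      240 * (n + 1) * (2 * lam + d + 27) ≤ Nat.log 2 (N a) → f a ≤ 4 * (3 / 5 : ℝ) ^ (n + 1)) :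
    ∃ c : ℝ, 0 < c ∧ ∃ C : ℝ, ∀ a, 3 ≤ N a → 1 ≤ u a → u a ≤ N a →
      f a ≤ C * Real.exp (-(c * Real.log (N a) /
        (Real.log (Real.log (N a)) + Real.log ((N a : ℝ) / u a)))) := by
  refine ⟨1 / 600000, by norm_num, 4 * Real.exp (i0 + 2), ?_⟩
  intro a hN hu huN
  have hNr : (3 : ℝ) ≤ N a := by exact_mod_cast hN
  have hur : (1 : ℝ) ≤ u a := by exact_mod_cast hu
  have huNr : (u a : ℝ) ≤ N a := by exact_mod_cast huN
  have hlN : (1.09 : ℝ) ≤ Real.log (N a) :=
    asyW_log3.trans (Real.log_le_log (by norm_num) hNr)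
  have hll := asyW_loglog hNr
  have hq1 : (1 : ℝ) ≤ (N a : ℝ) / u a := by
    rw [le_div_iff₀ (by linarith)]
    linarith
  have hlq : 0 ≤ Real.log ((N a : ℝ) / u a) := Real.log_nonneg hq1
  set D : ℝ := Real.log (Real.log (N a)) + Real.log ((N a : ℝ) / u a) with hD
  have hD0 : (0.08 : ℝ) ≤ D := by linarith
  set X : ℝ := Real.log (N a) / D with hX
  have hX0 : 0 ≤ X := div_nonneg (by linarith) (by linarith)
  have hform : 1 / 600000 * Real.log (N a) / D = X / 600000 := by
    rw [hX]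
    ring
  rw [hform]
  have hlog2 := Real.log_two_gt_d9
  have hlog2' := Real.log_two_lt_d9
  -- `l`
  set l := Nat.log 2 (N a) with hl
  have hl1 : 2 ^ l ≤ N a := Nat.pow_log_le_self 2 (by omega)
  have hl2 : N a < 2 ^ (l + 1) := Nat.lt_pow_succ_log_self (by norm_num) _
  have hl1' : (l : ℝ) * Real.log 2 ≤ Real.log (N a) := by
    rw [← Real.log_pow]
    apply Real.log_le_log (by positivity)
    exact_mod_cast hl1
  have hl2' : Real.log (N a) ≤ ((l : ℝ) + 1) * Real.log 2 := by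
    have : Real.log (N a) ≤ Real.log ((2 : ℝ) ^ (l + 1)) := by
      apply Real.log_le_log (by linarith)
      exact_mod_cast hl2.le
    rw [Real.log_pow] at this
    push_cast at this
    exact this
  have hl0 : 1 ≤ l := by
    by_contra hc
    have : l = 0 := by omega
    rw [this] at hl2
    omega
  have hl0' : (1 : ℝ) ≤ l := by exact_mod_cast hl0
  have hlN2 : Real.log (N a) ≤ l + 1 := by nlinarith
  have hexp1 : f a ≤ 4 * Real.exp (i0 + 2) * Real.exp (-(X / 600000)) ∨
      (i0 ≤ l ∧ (i0 + 2 : ℝ) < X / 600000) := by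
    by_cases hc : (i0 + 2 : ℝ) < X / 600000
    · right
      refine ⟨?_, hc⟩
      by_contra hil
      push Not at hil
      have h1 : (l : ℝ) + 1 ≤ i0 := by exact_mod_cast hil
      have h2 : X ≤ i0 / 0.08 := by
        rw [hX, div_le_div_iff₀ (by linarith) (by norm_num)]
        have h3 : (0 : ℝ) ≤ i0 := by positivity
        nlinarith
      have h4 : (i0 : ℝ) / 0.08 = 12.5 * i0 := by ring
      have h5 : (0 : ℝ) ≤ i0 := by positivity
      rw [h4] at h2
      linarith
    · left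
      push Not at hc
      have h1 : (1 : ℝ) ≤ Real.exp (i0 + 2) * Real.exp (-(X / 600000)) := by
        rw [← Real.exp_add]
        apply Real.one_le_exp
        linarith
      have h2 := hf a
      linarith
  rcases hexp1 with h0 | ⟨hil, hbig⟩
  · exact h0
  -- `lam`
  set lam := Nat.clog 2 (l + 3) with hlam
  have hlam1 : l + 3 ≤ 2 ^ lam := Nat.le_pow_clog (by norm_num) _
  have hlam0 : 0 < lam := Nat.clog_pos (by norm_num) (by omega)
  have hlam2 : 2 ^ (lam - 1) < l + 3 :=
    Nat.pow_pred_clog_lt_self (b := 2) (by norm_num) (x := l + 3) (by omega)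
  have hlam3 : (lam : ℝ) ≤ 5 + 2 * Real.log (Real.log (N a)) := by
    have h1 : ((lam - 1 : ℕ) : ℝ) * Real.log 2 ≤ Real.log ((l : ℝ) + 3) := by
      rw [← Real.log_pow]
      apply Real.log_le_log (by positivity)
      have : ((2 ^ (lam - 1) : ℕ) : ℝ) ≤ ((l + 3 : ℕ) : ℝ) := by exact_mod_cast hlam2.le
      push_cast at this
      exact this
    have h2 : (l : ℝ) + 3 ≤ 5 * Real.log (N a) := by nlinarith
    have h3 : Real.log ((l : ℝ) + 3) ≤ Real.log 5 + Real.log (Real.log (N a)) := by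
      rw [← Real.log_mul (by norm_num) (by linarith)]
      exact Real.log_le_log (by positivity) h2
    have h4 : Real.log 5 ≤ 2 := by
      have : Real.log 5 ≤ Real.log (2 ^ 2 * (5 / 4)) := by norm_num
      rw [Real.log_mul (by norm_num) (by norm_num), Real.log_pow] at this
      have h5 := Real.log_le_sub_one_of_pos (x := 5 / 4) (by norm_num)
      push_cast at this
      linarith
    have h5 : ((lam - 1 : ℕ) : ℝ) = (lam : ℝ) - 1 := by
      rw [Nat.cast_sub hlam0]
      simp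
    rw [h5] at h1
    have h6 : (0 : ℝ) ≤ (lam : ℝ) - 1 := by
      have : (1 : ℝ) ≤ lam := by exact_mod_cast hlam0
      linarith
    nlinarith
  -- `d`
  have hexd : ∃ d : ℕ, N a ≤ 2 ^ d * u a := by
    refine ⟨N a, ?_⟩
    have h1 : N a < 2 ^ N a := Nat.lt_two_pow_self
    calc N a ≤ 2 ^ N a * 1 := by omega
      _ ≤ 2 ^ N a * u a := Nat.mul_le_mul_left _ hu
  obtain ⟨d, hd, hdm⟩ : ∃ d : ℕ, N a ≤ 2 ^ d * u a ∧ ∀ m < d, ¬ N a ≤ 2 ^ m * u a :=
    ⟨Nat.find hexd, Nat.find_spec hexd, fun m hm => Nat.find_min hexd hm⟩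
  have hd2 : (d : ℝ) ≤ 1 + 2 * Real.log ((N a : ℝ) / u a) := by
    rcases Nat.eq_zero_or_pos d with h1 | h1
    · rw [h1]
      push_cast
      linarith
    · have h2 := hdm (d - 1) (by omega)
      push Not at h2
      have h3 : ((2 : ℝ) ^ (d - 1)) * u a ≤ N a := by exact_mod_cast h2.le
      have h4 : ((d - 1 : ℕ) : ℝ) * Real.log 2 ≤ Real.log ((N a : ℝ) / u a) := by
        rw [← Real.log_pow]
        apply Real.log_le_log (by positivity)
        rw [le_div_iff₀ (by linarith)]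
        exact h3
      have h5 : ((d - 1 : ℕ) : ℝ) = (d : ℝ) - 1 := by
        rw [Nat.cast_sub h1]
        simp
      rw [h5] at h4
      have h6 : (0 : ℝ) ≤ (d : ℝ) - 1 := by
        have : (1 : ℝ) ≤ d := by exact_mod_cast h1
        linarith
      nlinarith
  set s := 2 * lam + d + 27 with hs
  have hsD : (s : ℝ) ≤ 500 * D := by
    rw [hs]
    push_cast
    nlinarith
  have hs0 : 0 < s := by omega
  have hs0' : (0 : ℝ) < s := by exact_mod_cast hs0
  -- the number of scales
  set m := l / (240 * s) with hm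
  have hm1 : 240 * s * m ≤ l := Nat.mul_div_le l (240 * s)
  have hm2 : l < 240 * s * (m + 1) := Nat.lt_mul_div_succ l (by positivity)
  have hm2' : (l : ℝ) < 240 * s * (m + 1) := by exact_mod_cast hm2
  have hXm : X ≤ 240000 * ((m : ℝ) + 1) := by
    rw [hX, div_le_iff₀ (by linarith)]
    have h1 : Real.log (N a) ≤ 2 * l := by linarith
    have h2 : (240 : ℝ) * s * (m + 1) ≤ 240 * (500 * D) * (m + 1) := by
      gcongr
    nlinarith
  have hm0 : 1 ≤ m := by
    by_contra hc
    have : m = 0 := Nat.lt_one_iff.mp (not_le.mp hc)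
    rw [this] at hXm
    push_cast at hXm
    have : (0 : ℝ) ≤ i0 := by positivity
    linarith
  have h1 := h a (m - 1) lam d hil hlam1 hd (by
    rw [Nat.sub_add_cancel hm0]
    calc 240 * m * (2 * lam + d + 27) = 240 * s * m := by rw [hs]; ring
      _ ≤ l := hm1)
  rw [Nat.sub_add_cancel hm0] at h1
  refine h1.trans ?_
  have h2 : (3 / 5 : ℝ) ^ m ≤ Real.exp (2 / 5) * Real.exp (-(X / 600000)) := by
    have h3 : Real.log (3 / 5) ≤ -(2 / 5) := by
      have := Real.log_le_sub_one_of_pos (x := 3 / 5) (by norm_num)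
      linarith
    have h4 : (3 / 5 : ℝ) ^ m = Real.exp (m * Real.log (3 / 5)) := by
      rw [mul_comm, Real.exp_mul, Real.exp_log (by norm_num), Real.rpow_natCast]
    rw [h4, ← Real.exp_add]
    apply Real.exp_le_exp.mpr
    have h5 : (0 : ℝ) ≤ m := by positivity
    nlinarith
  have h6 : Real.exp (2 / 5) ≤ Real.exp (i0 + 2) := by
    apply Real.exp_le_exp.mpr
    have : (0 : ℝ) ≤ i0 := by positivity
    linarith
  have h7 := Real.exp_pos (-(X / 600000))
  calc 4 * (3 / 5 : ℝ) ^ m ≤ 4 * (Real.exp (2 / 5) * Real.exp (-(X / 600000))) := by linarith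
    _ ≤ 4 * (Real.exp (i0 + 2) * Real.exp (-(X / 600000))) := by gcongr
    _ = 4 * Real.exp (i0 + 2) * Real.exp (-(X / 600000)) := by ring

end Pool.Agent.H70.PF
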