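import Pool.Agent.H70.PF.Par4
import Pool.Agent.H70.PF.AsyW

set_option autoImplicit false

/-! # The count of sums which are powerful above a bound -/

namespace Pool.Agent.H70.PF

open Finset Nat

/-- the bound `exp (N^(1/16))` is smaller than the least prime used -/
lemma bound_lt {N : ℕ} (hN : N ≠ 0) : Real.exp ((N : ℝ) ^ (1 / 16 : ℝ))
    < 4 ^ ((Nat.log 2 N + 2) * 2 ^ (Nat.log 2 N / 16)) := by
  obtain ⟨l, hl⟩ : ∃ l, l = Nat.log 2 N := ⟨_, rfl⟩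
  rw [← hl]
  have hNl : N < 2 ^ (l + 1) := by rw [hl]; exact Nat.lt_pow_succ_log_self (by norm_num) N
  have h1 : (N : ℝ) ^ (1 / 16 : ℝ) ≤ 2 * 2 ^ (l / 16) := by
    have h2 : (N : ℝ) ≤ (2 * 2 ^ (l / 16)) ^ 16 := by
      have h3 : N ≤ (2 * 2 ^ (l / 16)) ^ 16 := by
        refine hNl.le.trans ?_
        rw [← _root_.pow_succ', ← pow_mul]
        apply Nat.pow_le_pow_right (by norm_num)
        omega
      exact_mod_cast h3
    calc (N : ℝ) ^ (1 / 16 : ℝ) ≤ (((2 * 2 ^ (l / 16) : ℝ)) ^ 16) ^ (1 / 16 : ℝ) :=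
          Real.rpow_le_rpow (Nat.cast_nonneg N) h2 (by norm_num)
      _ = 2 * 2 ^ (l / 16) := by
          rw [← Real.rpow_natCast, ← Real.rpow_mul (by positivity)]
          norm_num
  have h4 : (4 : ℝ) ^ ((l + 2) * 2 ^ (l / 16))
      = Real.exp (((l + 2) * 2 ^ (l / 16) : ℕ) * Real.log 4) := by
    rw [Real.exp_nat_mul, Real.exp_log (by norm_num)]
  rw [h4]
  apply Real.exp_lt_exp.mpr
  have h5 : (1 : ℝ) < Real.log 4 := by
    have e1 := Real.exp_one_lt_d9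
    rw [Real.lt_log_iff_exp_lt (by norm_num)]
    linarith
  refine lt_of_le_of_lt h1 ?_
  have h6 : (2 : ℝ) * 2 ^ (l / 16) ≤ (((l + 2) * 2 ^ (l / 16) : ℕ) : ℝ) := by
    push_cast
    have : (2 : ℝ) ≤ (l : ℝ) + 2 := by
      have : (0 : ℝ) ≤ l := Nat.cast_nonneg l
      linarith
    gcongr
  have h7 : (0 : ℝ) < (2 : ℝ) * 2 ^ (l / 16) := by positivity
  nlinarith

theorem main_count3 : ∃ c : ℝ, 0 < c ∧ ∃ C : ℝ, ∀ N : ℕ, 3 ≤ N → ∀ U : Finset ℕ, U ⊆ Icc 1 N →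
    U.Nonempty → ∀ R : ℤ,
    (num U (fun F => pwAZ (Real.exp ((N : ℝ) ^ (1 / 16 : ℝ)))
      (R + ((∑ j ∈ F, j ! : ℕ) : ℤ))) : ℝ)
      ≤ C * 2 ^ U.card * Real.exp (-(c * Real.log N
        / (Real.log (Real.log N) + Real.log ((N : ℝ) / U.card)))) := by
  obtain ⟨i0, hi01, hi0⟩ := sum_prm_double
  obtain ⟨c, hc, C, hC⟩ := asy_W (α := {x : ℕ × Finset ℕ × ℤ // x.2.1 ⊆ Icc 1 x.1})
    (fun x => x.1.1) (fun x => x.1.2.1.card)
    (fun x => (num x.1.2.1 (fun F => pwAZ (Real.exp ((x.1.1 : ℝ) ^ (1 / 16 : ℝ)))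
      (x.1.2.2 + ((∑ j ∈ F, j ! : ℕ) : ℤ))) : ℝ) / 2 ^ x.1.2.1.card)
    (fun x => by
      rw [div_le_one (by positivity)]
      exact_mod_cast num_le _ _) i0
    (fun x n lam d hi hlam hd hbig => by
      obtain ⟨⟨N, U, R⟩, hU⟩ := x
      simp only at hU hi hlam hd hbig ⊢
      have hN : N ≠ 0 := by
        rintro rfl
        have h1 : 240 * (n + 1) * (2 * lam + d + 27) ≤ 0 := by simpa using hbig
        have h2 : 0 < 240 * (n + 1) * (2 * lam + d + 27) := by positivity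
        omega
      exact par4 hi0 hU hN hi hlam hd hbig (bound_lt hN) R)
  refine ⟨c, hc, C, fun N hN U hU hne R => ?_⟩
  have hUN : U.card ≤ N := by
    calc U.card ≤ (Icc 1 N).card := card_le_card hU
      _ = N := by rw [Nat.card_Icc]; omega
  have h := hC ⟨⟨N, U, R⟩, hU⟩ hN (card_pos.mpr hne) hUN
  simp only at h
  rw [div_le_iff₀ (by positivity)] at h
  linarith

end Pool.Agent.H70.PF
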