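import Pool.Agent.H70.PF.AsyS

namespace Pool.Agent.H70.PF

private lemma as2_pow1 (m : ℕ) (hm : 60 ≤ m) : 2 * m + 2 ≤ 2 ^ (m - 53) := by
  induction m, hm using Nat.le_induction with
  | base => norm_num
  | succ n hn ih =>
    have h1 : 2 ^ (n + 1 - 53) = 2 * 2 ^ (n - 53) := by
      rw [← pow_succ']
      congr 1
      omega
    rw [h1]
    omega

private lemma as2_pow2 (m : ℕ) (hm : 20 ≤ m) : 25600 * (m + 1) ≤ 2 ^ m := by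
  induction m, hm using Nat.le_induction with
  | base => norm_num
  | succ n hn ih =>
    rw [pow_succ]
    omega

private lemma as2_u {i u : ℕ} (h : (4 ^ (i - 1)) ^ 15 ≤ u ^ 16) : 2 ^ (30 * (i - 1) / 16) ≤ u := by
  by_contra hlt
  rw [not_le] at hlt
  have h1 : u ^ 16 < (2 ^ (30 * (i - 1) / 16)) ^ 16 := Nat.pow_lt_pow_left hlt (by norm_num)
  have h2 : ((2 : ℕ) ^ (30 * (i - 1) / 16)) ^ 16 ≤ (4 ^ (i - 1)) ^ 15 := by
    rw [← pow_mul, show (4 : ℕ) = 2 ^ 2 by norm_num, ← pow_mul, ← pow_mul]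
    apply Nat.pow_le_pow_right (by norm_num)
    have := Nat.div_mul_le_self (30 * (i - 1)) 16
    omega
  omega

private lemma as2_nat {i j k T : ℕ} (hj : j = i / 20) (hj2 : 120 ≤ j) (hk : k = 6 * j + j / 2)
    (hT : T = 30 * (i - 1) / 16) :
    (22 ^ k * (8 * (4 * (i + 1)))) * 2 ^ (3 * j) + (4 ^ i / 2 ^ (3 * j) + 1) * (4 * (i + 1)) +
      (2 ^ (3 * j) + 1) ≤ 2 ^ T := by
  have hi1 : i + 1 ≤ 20 * (j + 1) := by omega
  have hi2 : 20 * j ≤ i := by omega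
  have e22 : (22 : ℕ) ^ k ≤ 2 ^ (5 * k) := by
    rw [pow_mul]
    exact Nat.pow_le_pow_left (by norm_num) _
  -- common bound
  have hX1 : 2 ^ (5 * k) * 2 ^ (3 * j) ≤ 2 ^ (37 * j + 39) := by
    rw [← pow_add]
    apply Nat.pow_le_pow_right (by norm_num)
    omega
  have hdiv : 4 ^ i / 2 ^ (3 * j) = 2 ^ (2 * i - 3 * j) := by
    rw [show (4 : ℕ) = 2 ^ 2 by norm_num, ← pow_mul]
    exact Nat.pow_div (by omega) (by norm_num)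
  have hX2 : 2 ^ (2 * i - 3 * j) + 1 ≤ 2 ^ (37 * j + 39) := by
    have h1 : 2 ^ (2 * i - 3 * j) ≤ 2 ^ (37 * j + 38) := by
      apply Nat.pow_le_pow_right (by norm_num)
      omega
    have h2 : (1 : ℕ) ≤ 2 ^ (37 * j + 38) := Nat.one_le_two_pow
    rw [pow_succ 2 (37 * j + 38)]
    omega
  have hX3 : 2 ^ (3 * j) + 1 ≤ 2 ^ (37 * j + 39) := by
    have h1 : 2 ^ (3 * j) ≤ 2 ^ (37 * j + 38) := by
      apply Nat.pow_le_pow_right (by norm_num)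
      omega
    have h2 : (1 : ℕ) ≤ 2 ^ (37 * j + 38) := Nat.one_le_two_pow
    rw [pow_succ 2 (37 * j + 38)]
    omega
  rw [hdiv]
  have hm := as2_pow1 (j / 2) (by omega)
  have hTj : 37 * j + 39 + 6 + 5 + (j / 2 - 53) ≤ T := by omega
  obtain ⟨X, hX⟩ : ∃ X : ℕ, X = 2 ^ (37 * j + 39) := ⟨_, rfl⟩
  rw [← hX] at hX1 hX2 hX3
  have a1 : (22 ^ k * (8 * (4 * (i + 1)))) * 2 ^ (3 * j) ≤ X * (32 * (i + 1)) := by
    calc (22 ^ k * (8 * (4 * (i + 1)))) * 2 ^ (3 * j)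
        ≤ (2 ^ (5 * k) * (8 * (4 * (i + 1)))) * 2 ^ (3 * j) :=
          Nat.mul_le_mul_right _ (Nat.mul_le_mul_right _ e22)
      _ = (2 ^ (5 * k) * 2 ^ (3 * j)) * (32 * (i + 1)) := by ring
      _ ≤ X * (32 * (i + 1)) := Nat.mul_le_mul_right _ hX1
  have a2 : (2 ^ (2 * i - 3 * j) + 1) * (4 * (i + 1)) ≤ X * (4 * (i + 1)) :=
    Nat.mul_le_mul_right _ hX2
  have a3 : 2 ^ (3 * j) + 1 ≤ X * (i + 1) := hX3.trans (Nat.le_mul_of_pos_right _ (by omega))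
  have a4 : X * (32 * (i + 1)) + X * (4 * (i + 1)) + X * (i + 1) ≤ X * (64 * 32 * (j + 1)) := by
    have : 32 * (i + 1) + 4 * (i + 1) + (i + 1) ≤ 64 * 32 * (j + 1) := by omega
    calc _ = X * (32 * (i + 1) + 4 * (i + 1) + (i + 1)) := by ring
      _ ≤ _ := Nat.mul_le_mul_left _ this
  have a5 : X * (64 * 32 * (j + 1)) ≤ 2 ^ T := by
    have b1 : j + 1 ≤ 2 ^ (j / 2 - 53) := by omega
    calc X * (64 * 32 * (j + 1)) ≤ X * (64 * 32 * 2 ^ (j / 2 - 53)) :=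
          Nat.mul_le_mul_left _ (Nat.mul_le_mul_left _ b1)
      _ = 2 ^ (37 * j + 39 + 6 + 5 + (j / 2 - 53)) := by
          rw [hX, pow_add 2 (37 * j + 39 + 6 + 5), pow_add 2 (37 * j + 39 + 6),
            pow_add 2 (37 * j + 39)]
          norm_num
          ring
      _ ≤ 2 ^ T := Nat.pow_le_pow_right (by norm_num) hTj
  omega

private lemma as2_err {i j k : ℕ} (hj : j = i / 20) (hj2 : 120 ≤ j) (hk : k = 6 * j + j / 2) :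
    1 / 4 ^ i + ((2 : ℝ) ^ (4 * (i + 1)) * Real.exp (-((4 * (i + 1) : ℕ) : ℝ)) +
      (4 / 3) * (1 + (((2 ^ (3 * j) : ℕ) : ℝ) + 1) ^ 2) / 2 ^ k) ≤ 1 / (64 * ((i : ℝ) + 1)) := by
  obtain ⟨m, hm⟩ : ∃ m : ℕ, m = j / 2 := ⟨_, rfl⟩
  have h2m : (0 : ℝ) < 2 ^ m := by positivity
  have hp := as2_pow2 m (by omega)
  have hi1 : i + 1 ≤ 40 * (m + 1) := by omega
  have b1 := asyS_exp (i + 1)
  have b2 : (1 : ℝ) / 2 ^ (i + 1) ≤ 1 / 2 ^ m := by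
    apply one_div_le_one_div_of_le h2m
    exact pow_le_pow_right₀ (by norm_num) (by omega)
  have b3 : (1 : ℝ) / 4 ^ i ≤ 1 / 2 ^ m := by
    apply one_div_le_one_div_of_le h2m
    calc (2 : ℝ) ^ m ≤ 2 ^ i := pow_le_pow_right₀ (by norm_num) (by omega)
      _ ≤ 4 ^ i := pow_le_pow_left₀ (by norm_num) (by norm_num) _
  have b4 : (4 / 3) * (1 + (((2 ^ (3 * j) : ℕ) : ℝ) + 1) ^ 2) / 2 ^ k ≤ 8 * (1 / 2 ^ m) := by
    obtain ⟨h, hh⟩ : ∃ h : ℝ, h = 2 ^ (3 * j) := ⟨_, rfl⟩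
    have hh1 : 1 ≤ h := by rw [hh]; exact one_le_pow₀ (by norm_num)
    have e1 : ((2 ^ (3 * j) : ℕ) : ℝ) = h := by rw [hh]; push_cast; rfl
    have e2 : (2 : ℝ) ^ k = h ^ 2 * 2 ^ m := by
      rw [hk, hh, ← pow_mul, pow_add, hm]
      congr 2
      ring
    rw [e1, e2, div_le_iff₀ (by positivity)]
    have e3 : 8 * (1 / 2 ^ m) * (h ^ 2 * 2 ^ m) = 8 * h ^ 2 := by field_simp
    rw [e3]
    nlinarith
  have b5 : 1 / (64 * (40 * ((m : ℝ) + 1))) ≤ 1 / (64 * ((i : ℝ) + 1)) := by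
    apply one_div_le_one_div_of_le (by positivity)
    have : (i : ℝ) + 1 ≤ 40 * ((m : ℝ) + 1) := by exact_mod_cast hi1
    linarith
  have b6 : 10 * (1 / 2 ^ m) ≤ 1 / (64 * (40 * ((m : ℝ) + 1))) := by
    rw [mul_one_div, div_le_div_iff₀ h2m (by positivity)]
    have : (25600 : ℝ) * ((m : ℝ) + 1) ≤ 2 ^ m := by exact_mod_cast hp
    linarith
  linarith

theorem asy_scale2 : ∃ i0 : ℕ, ∀ i ≥ i0, 1 ≤ i ∧ 1 / (8 * ((i : ℝ) + 1)) + 1 / 4 ^ i ≤ 1 / 2 ∧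
    ∀ u : ℕ, (4 ^ (i - 1)) ^ 15 ≤ u ^ 16 → ∃ h k : ℕ, 0 < h ∧
      (22 ^ k * (8 * (4 * (i + 1)))) * h + (4 ^ i / h + 1) * (4 * (i + 1)) + (h + 1) ≤ u ∧
      (2 : ℝ) ^ (4 * (i + 1)) * Real.exp (-((4 * (i + 1) : ℕ) : ℝ)) +
        (4 / 3) * (1 + ((h : ℝ) + 1) ^ 2) / 2 ^ k ≤ 1 / (64 * ((i : ℝ) + 1)) ∧
      1 / 4 ^ i + ((2 : ℝ) ^ (4 * (i + 1)) * Real.exp (-((4 * (i + 1) : ℕ) : ℝ)) +
        (4 / 3) * (1 + (h : ℝ)) / 2 ^ k) ≤ 1 / (64 * ((i : ℝ) + 1)) := by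
  refine ⟨2400, fun i hi => ⟨by omega, ?_, fun u hu => ?_⟩⟩
  · have f1 : 1 / (8 * ((i : ℝ) + 1)) ≤ 1 / 8 := by
      apply one_div_le_one_div_of_le (by norm_num)
      have : (0 : ℝ) ≤ (i : ℝ) := by positivity
      linarith
    have f2 : (1 : ℝ) / 4 ^ i ≤ 1 / 4 := by
      apply one_div_le_one_div_of_le (by norm_num)
      calc (4 : ℝ) = 4 ^ 1 := by norm_num
        _ ≤ 4 ^ i := pow_le_pow_right₀ (by norm_num) (by omega)
    linarith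
  · obtain ⟨j, hj⟩ : ∃ j : ℕ, j = i / 20 := ⟨_, rfl⟩
    obtain ⟨k, hk⟩ : ∃ k : ℕ, k = 6 * j + j / 2 := ⟨_, rfl⟩
    have hj2 : 120 ≤ j := by omega
    have hn := as2_nat hj hj2 hk rfl
    have he := as2_err hj hj2 hk
    have h4 : (0 : ℝ) ≤ 1 / 4 ^ i := by positivity
    refine ⟨2 ^ (3 * j), k, by positivity, hn.trans (as2_u hu), by linarith, ?_⟩
    have h5 : (4 / 3) * (1 + (((2 ^ (3 * j) : ℕ) : ℝ))) / 2 ^ k ≤
        (4 / 3) * (1 + (((2 ^ (3 * j) : ℕ) : ℝ) + 1) ^ 2) / 2 ^ k := by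
      apply div_le_div_of_nonneg_right _ (by positivity)
      have : (0 : ℝ) ≤ ((2 ^ (3 * j) : ℕ) : ℝ) := by positivity
      nlinarith
    linarith

end Pool.Agent.H70.PF
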