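import Pool.Agent.H70.PF.Num

set_option autoImplicit false

/-! # Sums of reciprocals of primes over blocks, from Chebyshev's bounds -/

namespace Pool.Agent.H70.PF

open Finset Nat

lemma prm_union {a b c : ℕ} (hab : a ≤ b) (hbc : b ≤ c) : prm a c = prm a b ∪ prm b c := by
  ext p
  rw [mem_union, mem_prm, mem_prm, mem_prm]
  constructor
  · rintro ⟨h1, h2, h3⟩
    rcases le_or_gt p b with h | h
    · exact Or.inl ⟨h1, h, h3⟩
    · exact Or.inr ⟨h, h2, h3⟩
  · rintro (⟨h1, h2, h3⟩ | ⟨h1, h2, h3⟩)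
    · exact ⟨h1, h2.trans hbc, h3⟩
    · exact ⟨lt_of_le_of_lt hab h1, h2, h3⟩

lemma prm_disj {a b c : ℕ} : Disjoint (prm a b) (prm b c) := by
  rw [Finset.disjoint_left]
  intro p hp hq
  rw [mem_prm] at hp hq
  omega

lemma sum_prm_add (f : ℕ → ℝ) {a b c : ℕ} (hab : a ≤ b) (hbc : b ≤ c) :
    ∑ p ∈ prm a c, f p = ∑ p ∈ prm a b, f p + ∑ p ∈ prm b c, f p := by
  rw [prm_union hab hbc, sum_union prm_disj]

lemma theta_eq_prm (n : ℕ) : Chebyshev.theta n = ∑ p ∈ prm 0 n, Real.log p := by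
  unfold Chebyshev.theta prm
  rw [Nat.floor_natCast]

lemma pow_aux (i : ℕ) (hi : 10 ≤ i) : 64 * (i + 1) ≤ 2 ^ i := by
  induction i, hi using Nat.le_induction with
  | base => norm_num
  | succ n hn ih => rw [pow_succ]; omega

lemma sqrt_four_pow (i : ℕ) : √((4 ^ (i + 1) : ℕ) : ℝ) = 2 ^ (i + 1) := by
  have : ((4 ^ (i + 1) : ℕ) : ℝ) = (2 ^ (i + 1)) ^ 2 := by
    push_cast
    rw [← pow_mul, mul_comm, pow_mul]
    norm_num
  rw [this, Real.sqrt_sq (by positivity)]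

lemma log_four_pow (i : ℕ) : Real.log ((4 ^ (i + 1) : ℕ) : ℝ) = 2 * (i + 1) * Real.log 2 := by
  push_cast
  rw [Real.log_pow, show (4 : ℝ) = 2 ^ 2 by norm_num, Real.log_pow]
  push_cast
  ring

lemma theta_block (i : ℕ) (hi : 10 ≤ i) :
    (4 : ℝ) ^ i ≤ ∑ p ∈ prm (4 ^ i) (4 ^ (i + 1)), Real.log p := by
  have h1 := Chebyshev.theta_ge (4 ^ (i + 1))
  have h2 : Chebyshev.theta ((4 ^ i : ℕ) : ℝ) ≤ Real.log 4 * ((4 ^ i : ℕ) : ℝ) :=
    Chebyshev.theta_le_log4_mul_x (by positivity)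
  rw [theta_eq_prm] at h1 h2
  rw [sum_prm_add _ (Nat.zero_le _) (Nat.pow_le_pow_right (by norm_num) (Nat.le_succ i))] at h1
  rw [sqrt_four_pow, log_four_pow] at h1
  have h3 : Real.log (((4 ^ (i + 1) : ℕ) : ℝ) + 1) ≤ 2 * (i + 1) * Real.log 2 + Real.log 2 := by
    rw [← log_four_pow, ← Real.log_mul (by positivity) (by norm_num)]
    apply Real.log_le_log (by positivity)
    have : (1 : ℝ) ≤ ((4 ^ (i + 1) : ℕ) : ℝ) := by
      exact_mod_cast Nat.one_le_pow _ _ (by norm_num)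
    linarith
  have hl : Real.log 4 = 2 * Real.log 2 := by
    rw [show (4 : ℝ) = 2 ^ 2 by norm_num, Real.log_pow]
    push_cast
    ring
  have l1 := Real.log_two_gt_d9
  have l2 := Real.log_two_lt_d9
  have h4 : (64 : ℝ) * (i + 1) ≤ 2 ^ i := by exact_mod_cast pow_aux i hi
  have h5 : (4 : ℝ) ^ i = 2 ^ i * 2 ^ i := by
    rw [← mul_pow]
    norm_num
  have h6 : (1 : ℝ) ≤ 2 ^ i := one_le_pow₀ (by norm_num)
  have h7 : ((4 ^ (i + 1) : ℕ) : ℝ) = 4 * (2 ^ i * 2 ^ i) := by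
    rw [← h5]
    push_cast
    ring
  have h8 : ((4 ^ i : ℕ) : ℝ) = 2 ^ i * 2 ^ i := by
    rw [← h5]
    push_cast
    ring
  rw [hl, h8] at h2
  rw [h7] at h1 h3
  rw [h5]
  rw [pow_succ] at h1
  set x : ℝ := 2 ^ i with hx
  set L := Real.log 2 with hL
  set j : ℝ := (i : ℝ) + 1 with hj
  have hj1 : 1 ≤ j := by
    rw [hj]
    have : (0 : ℝ) ≤ i := Nat.cast_nonneg i
    linarith
  have hjx : 64 * (j * x) ≤ x * x := by nlinarith
  have hjj : j ≤ j * x := by nlinarith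
  have k1 : (j * x) * L ≤ (j * x) * 0.7 :=
    mul_le_mul_of_nonneg_left (by linarith) (by positivity)
  have k2 : j * L ≤ j * 0.7 := mul_le_mul_of_nonneg_left (by linarith) (by positivity)
  have k3 : (x * x) * 0.69 ≤ (x * x) * L := mul_le_mul_of_nonneg_left (by linarith) (by positivity)
  nlinarith

/-- the sum of the reciprocals of the primes in a block `(4^i, 4^(i+1)]` -/
theorem sum_prm_ge : ∃ i0 : ℕ, ∀ i ≥ i0,
    (1 : ℝ) / (8 * (i + 1)) ≤ ∑ p ∈ prm (4 ^ i) (4 ^ (i + 1)), (1 : ℝ) / p := by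
  refine ⟨10, fun i hi => ?_⟩
  have h := theta_block i hi
  have hi0 : (0 : ℝ) < (i : ℝ) + 1 := by positivity
  have h1 : ∑ p ∈ prm (4 ^ i) (4 ^ (i + 1)), Real.log p ≤
      (8 * (i + 1) * 4 ^ i) * ∑ p ∈ prm (4 ^ i) (4 ^ (i + 1)), (1 : ℝ) / p := by
    rw [mul_sum]
    apply sum_le_sum
    intro p hp
    rw [mem_prm] at hp
    have hp0 : (0 : ℝ) < p := by exact_mod_cast hp.2.2.pos
    have hple : (p : ℝ) ≤ ((4 ^ (i + 1) : ℕ) : ℝ) := by exact_mod_cast hp.2.1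
    have hlog : Real.log p ≤ 2 * (i + 1) * Real.log 2 := by
      rw [← log_four_pow]
      exact Real.log_le_log hp0 hple
    have hlog2 : Real.log p ≤ 2 * (i + 1) := by
      have := Real.log_two_lt_d9
      nlinarith
    rw [mul_one_div, le_div_iff₀ hp0]
    have hple' : (p : ℝ) ≤ 4 * 4 ^ i := by
      refine hple.trans (le_of_eq ?_)
      push_cast
      ring
    have hlp : 0 ≤ Real.log p := Real.log_nonneg (by exact_mod_cast hp.2.2.one_lt.le)
    calc Real.log p * p ≤ (2 * (i + 1)) * (4 * 4 ^ i) :=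
          mul_le_mul hlog2 hple' hp0.le (by positivity)
      _ = 8 * (i + 1) * 4 ^ i := by ring
  have h2 : (4 : ℝ) ^ i ≤ (8 * (i + 1) * 4 ^ i) *
      ∑ p ∈ prm (4 ^ i) (4 ^ (i + 1)), (1 : ℝ) / p := h.trans h1
  rw [div_le_iff₀ (by positivity)]
  have h4 : (0 : ℝ) < 4 ^ i := by positivity
  have h3 : (4 : ℝ) ^ i * 1 ≤ 4 ^ i *
      ((∑ p ∈ prm (4 ^ i) (4 ^ (i + 1)), (1 : ℝ) / p) * (8 * (i + 1))) := by
    calc (4 : ℝ) ^ i * 1 = 4 ^ i := mul_one _
      _ ≤ _ := h2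
      _ = _ := by ring
  exact le_of_mul_le_mul_left h3 h4

lemma four_pow_le {a b : ℕ} (h : a ≤ b) : 4 ^ a ≤ 4 ^ b := Nat.pow_le_pow_right (by norm_num) h

lemma sum_prm_blocks (f : ℕ → ℝ) (b k : ℕ) :
    ∑ p ∈ prm (4 ^ b) (4 ^ (b + k)), f p =
      ∑ i ∈ range k, ∑ p ∈ prm (4 ^ (b + i)) (4 ^ (b + i + 1)), f p := by
  induction k with
  | zero =>
    rw [add_zero, sum_range_zero]
    apply sum_eq_zero
    intro p hp
    rw [mem_prm] at hp
    omega
  | succ k ih =>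
    rw [sum_range_succ, ← ih, ← sum_prm_add f (four_pow_le (by omega)) (four_pow_le (by omega))]
    rfl

/-- the sum of the reciprocals of the primes over `r` doublings of the exponent -/
theorem sum_prm_double : ∃ i0 : ℕ, 1 ≤ i0 ∧ ∀ a ≥ i0, ∀ r : ℕ,
    (r : ℝ) / 16 ≤ ∑ p ∈ prm (4 ^ a) (4 ^ (a * 2 ^ r)), (1 : ℝ) / p := by
  obtain ⟨i0, h0⟩ := sum_prm_ge
  refine ⟨i0 + 1, by omega, fun a ha r => ?_⟩
  induction r with
  | zero =>
    simp only [Nat.cast_zero, zero_div]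
    apply sum_nonneg
    intro p _
    positivity
  | succ r ih =>
    have hb1 : a ≤ a * 2 ^ r := Nat.le_mul_of_pos_right _ (by positivity)
    set b := a * 2 ^ r with hb
    have hb2 : a * 2 ^ (r + 1) = b + b := by rw [hb, pow_succ]; ring
    rw [hb2, sum_prm_add _ (four_pow_le hb1) (four_pow_le (Nat.le_add_left b b)), sum_prm_blocks]
    have hstep : (1 : ℝ) / 16 ≤
        ∑ i ∈ range b, ∑ p ∈ prm (4 ^ (b + i)) (4 ^ (b + i + 1)), (1 : ℝ) / p := by
      have hb0 : (0 : ℝ) < b := by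
        have : 0 < b := by omega
        exact_mod_cast this
      have : ∑ _i ∈ range b, (1 : ℝ) / (16 * b) ≤
          ∑ i ∈ range b, ∑ p ∈ prm (4 ^ (b + i)) (4 ^ (b + i + 1)), (1 : ℝ) / p := by
        apply sum_le_sum
        intro i hi
        rw [mem_range] at hi
        refine le_trans ?_ (h0 (b + i) (by omega))
        apply one_div_le_one_div_of_le
        · positivity
        · have : b + i + 1 ≤ 2 * b := by omega
          have : ((b + i : ℕ) : ℝ) + 1 ≤ 2 * b := by exact_mod_cast this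
          linarith
      rw [sum_const, card_range, nsmul_eq_mul] at this
      refine le_trans (le_of_eq ?_) this
      field_simp
    push_cast
    rw [add_div]
    exact add_le_add ih hstep

/-- a sub-sum close to a given value -/
theorem exists_sub_sum {ι : Type*} (S : Finset ι) (f : ι → ℝ) {d t : ℝ}
    (h0 : ∀ i ∈ S, 0 ≤ f i) (h1 : ∀ i ∈ S, f i ≤ d) (ht0 : 0 ≤ t) (hd : 0 ≤ d)
    (ht : t ≤ ∑ i ∈ S, f i) :
    ∃ S' ⊆ S, t ≤ ∑ i ∈ S', f i ∧ ∑ i ∈ S', f i ≤ t + d := by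
  classical
  induction S using Finset.induction_on with
  | empty =>
    refine ⟨∅, Finset.Subset.refl _, ht, ?_⟩
    rw [sum_empty]
    linarith
  | insert a S ha ih =>
    rcases le_or_gt t (∑ i ∈ S, f i) with h | h
    · obtain ⟨S', hS, h2, h3⟩ := ih (fun i hi => h0 i (mem_insert_of_mem hi))
        (fun i hi => h1 i (mem_insert_of_mem hi)) h
      exact ⟨S', hS.trans (subset_insert a S), h2, h3⟩
    · refine ⟨insert a S, Finset.Subset.refl _, ht, ?_⟩
      rw [sum_insert ha]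
      have := h1 a (mem_insert_self a S)
      linarith

end Pool.Agent.H70.PF
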