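import Pool.Agent.H70.PF.Block2
import Pool.Agent.H70.PF.Primes
import Pool.Agent.H70.PF.AsyS2

set_option autoImplicit false

/-! # One scale, free digits in an arbitrary set: some prime in `(4^i, 4^(i+1)]` divides the sum
exactly once -/

namespace Pool.Agent.H70.PF

open Finset Nat

lemma esy_one2 (x : ℕ → ℝ) (S : Finset ℕ) : esy x S 1 = ∑ i ∈ S, x i := by
  unfold esy
  rw [powersetCard_one, sum_map]
  refine sum_congr rfl fun i _ => ?_
  simp

lemma alt_three2 (x : ℕ → ℝ) (S : Finset ℕ) (h0 : ∀ i ∈ S, 0 ≤ x i) :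
    alt x S (2 * 1 + 1) ≤ 1 - ∑ i ∈ S, x i + (∑ i ∈ S, x i) ^ 2 / 2 := by
  have h1 : alt x S (2 * 1 + 1) = 1 - esy x S 1 + esy x S 2 := by
    unfold alt
    rw [show 2 * 1 + 1 = 3 by norm_num, sum_range_succ, sum_range_succ, sum_range_succ,
      range_zero, sum_empty, esy_zero]
    norm_num
    ring
  have h2 := esy_le x S h0 2
  have h3 : ((2 ! : ℕ) : ℝ) = 2 := by norm_num [Nat.factorial]
  rw [h3] at h2
  rw [h1, esy_one2]
  linarith

lemma fs_union_below2 {U X F : Finset ℕ} {y : ℕ} (hU : ∀ x ∈ U, x < y) (hX : Disjoint X U)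
    (hF : F ⊆ U) : fs (X ∪ F) y = (∑ n ∈ F, n !) + fs X y := by
  unfold fs
  rw [filter_union, sum_union, add_comm]
  · congr 1
    apply sum_congr _ fun _ _ => rfl
    apply filter_true_of_mem
    intro x hx
    exact hU x (hF hx)
  · rw [disjoint_left]
    intro x hx hx'
    rw [mem_filter] at hx hx'
    exact (disjoint_left.mp hX hx.1) (hF hx'.1)

theorem scale2 : ∃ i0 : ℕ, ∀ i ≥ i0, ∀ D X : Finset ℕ, Disjoint X D →
      (4 ^ (i - 1)) ^ 15 ≤ ((D ∩ Finset.Ioc (4 ^ (i - 1)) (4 ^ i)).card) ^ 16 →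
      (num D (fun F => ¬ Ev i (X ∪ F)) : ℝ) ≤ 2 ^ D.card * (1 - 1 / (64 * ((i : ℝ) + 1))) := by
  obtain ⟨i1, h1⟩ := asy_scale2
  obtain ⟨i2, h2⟩ := sum_prm_ge
  refine ⟨max i1 i2, fun i hi D X hXD hcardD => ?_⟩
  obtain ⟨hi1, hmu, hex⟩ := h1 i (le_trans (le_max_left _ _) hi)
  obtain ⟨h, k, hh0, hwin, hE1, hE2⟩ := hex _ hcardD
  have hsum := h2 i (le_trans (le_max_right _ _) hi)
  set w := 4 * (i + 1) with hw
  set U1 := D ∩ Finset.Ioc (4 ^ (i - 1)) (4 ^ i) with hU1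
  set N := 4 ^ i - (h + 1) with hN
  set U := U1.filter (fun n => n ≤ N) with hU
  have hUc : U1.card ≤ U.card + (h + 1) := by
    rw [hU, ← card_filter_add_card_filter_not (s := U1) (fun n => n ≤ N)]
    apply Nat.add_le_add_left
    calc (U1.filter (fun n => ¬ n ≤ N)).card ≤ (Ioc N (4 ^ i)).card := by
          apply card_le_card
          intro x hx
          rw [mem_filter, hU1, mem_inter, mem_Ioc] at hx
          rw [mem_Ioc]
          omega
      _ ≤ h + 1 := by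
          rw [Nat.card_Ioc]
          omega
  have hU1c : U1.card ≤ 4 ^ i := by
    calc U1.card ≤ (Finset.Ioc (4 ^ (i - 1)) (4 ^ i)).card := card_le_card inter_subset_right
      _ ≤ 4 ^ i := by rw [Nat.card_Ioc]; exact Nat.sub_le _ _
  have hUN : U ⊆ Icc 1 N := by
    intro x hx
    rw [hU, mem_filter, hU1, mem_inter, mem_Ioc] at hx
    rw [mem_Icc]
    exact ⟨Nat.lt_of_le_of_lt (Nat.zero_le _) hx.1.2.1, hx.2⟩
  have hw0 : 0 < w := by omega
  have hwin2 : (22 ^ k * (8 * w)) * h + (N / h + 1) * w ≤ U.card := by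
    have e1 : N / h ≤ 4 ^ i / h := Nat.div_le_div_right (by omega)
    have e2 : (N / h + 1) * w ≤ (4 ^ i / h + 1) * w := Nat.mul_le_mul_right _ (by omega)
    omega
  have h4' : 4 ^ (i + 1) = 4 * 4 ^ i := by rw [_root_.pow_succ']
  have hi0 : (0 : ℝ) < (i : ℝ) + 1 := by positivity
  obtain ⟨G, hG, hG1, hG2⟩ := exists_sub_sum (prm (4 ^ i) (4 ^ (i + 1))) (fun p => (1 : ℝ) / p)
    (d := 1 / 4 ^ i) (t := 1 / (8 * ((i : ℝ) + 1))) (fun p _ => by positivity)
    (fun p hp => by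
      have e1 : (4 : ℝ) ^ i ≤ p := by exact_mod_cast (mem_prm.mp hp).1.le
      have e2 : (0 : ℝ) < 4 ^ i := by positivity
      exact one_div_le_one_div_of_le e2 e1) (by positivity) (by positivity) hsum
  set mu := ∑ p ∈ G, (1 : ℝ) / p with hmudef
  have hP : ∀ p ∈ G, p.Prime := fun p hp => (mem_prm.mp (hG hp)).2.2
  have hGlt : ∀ p ∈ G, 4 ^ i < p := fun p hp => (mem_prm.mp (hG hp)).1
  have hGcard : G.card + 1 ≤ 4 ^ (i + 1) := by
    have e1 : G.card ≤ 4 ^ (i + 1) - 4 ^ i := by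
      refine (card_le_card hG).trans ?_
      unfold prm
      refine (card_filter_le _ _).trans ?_
      rw [Nat.card_Ioc]
    have e2 : 1 ≤ 4 ^ i := Nat.one_le_pow _ _ (by norm_num)
    omega
  have hcard : (G.card + 1) ^ (2 * 1) ≤ 2 ^ w := by
    calc (G.card + 1) ^ (2 * 1) ≤ (4 ^ (i + 1)) ^ (2 * 1) := Nat.pow_le_pow_left hGcard _
      _ = 2 ^ w := by
        have : (4 : ℕ) = 2 ^ 2 := by norm_num
        rw [hw, this, ← pow_mul, ← pow_mul]
        congr 1
        ring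
  have hsq : ∑ p ∈ G, 1 / (p : ℝ) ^ 2 ≤ 1 / 4 ^ i := by
    have e0 : (0 : ℝ) < 4 ^ i := by positivity
    calc ∑ p ∈ G, 1 / (p : ℝ) ^ 2 ≤ ∑ p ∈ G, (1 / 4 ^ i) * ((1 : ℝ) / p) := by
          refine sum_le_sum fun p hp => ?_
          have e1 : (4 : ℝ) ^ i ≤ p := by exact_mod_cast (hGlt p hp).le
          have e2 : (0 : ℝ) < p := lt_of_lt_of_le e0 e1
          have e3 : (1 : ℝ) / (p : ℝ) ^ 2 = (1 / p) * (1 / p) := by
            rw [pow_two, one_div_mul_one_div]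
          rw [e3]
          gcongr
      _ = (1 / 4 ^ i) * mu := by rw [mul_sum]
      _ ≤ (1 / 4 ^ i) * 1 := by
          gcongr
          linarith
      _ = 1 / 4 ^ i := mul_one _
  -- the event over the digits in `U`
  have hUD : U ⊆ D := by
    intro x hx
    rw [hU, mem_filter, hU1, mem_inter] at hx
    exact hx.1.1
  have key : ∀ F1 ⊆ D \ U, (num U (fun F2 => ¬ Ev i (X ∪ (F1 ∪ F2))) : ℝ)
      ≤ 2 ^ U.card * (1 - 1 / (64 * ((i : ℝ) + 1))) := by
    intro F1 hF1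
    have hb := block_free G hP (U := U) (N := N) (J := 22 ^ k * (8 * w)) (w := w) (h := h) (k := k)
      (Y := 4 ^ i) (K := 1) hUN hh0 (by positivity) hw0 hwin2 (by omega)
      (fun p hp => (hGlt p hp).le) le_rfl hcard le_rfl (fun p => fs (X ∪ F1) (2 * p))
    rw [div_le_iff₀ (by positivity)] at hb
    have e2 : num U (fun F2 => ¬ Ev i (X ∪ (F1 ∪ F2)))
        ≤ num U (fun F => (∀ p ∈ G, ¬ p ∣ (∑ n ∈ F, n !) + fs (X ∪ F1) (2 * p))
        ∨ ∃ p ∈ G, p ^ 2 ∣ (∑ n ∈ F, n !) + fs (X ∪ F1) (2 * p)) := by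
      apply num_mono
      intro F2 hF2 hF
      have e3 : ∀ p ∈ G, fs (X ∪ (F1 ∪ F2)) (2 * p)
          = (∑ n ∈ F2, n !) + fs (X ∪ F1) (2 * p) := by
        intro p hp
        rw [← union_assoc]
        apply fs_union_below2 (U := U) _ _ hF2
        · intro x hx
          have e4 := hUN hx
          rw [mem_Icc] at e4
          have := hGlt p hp
          omega
        · rw [disjoint_union_left]
          refine ⟨disjoint_of_subset_right hUD hXD, ?_⟩
          exact disjoint_of_subset_left hF1 sdiff_disjoint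
      by_cases h5 : ∀ p ∈ G, ¬ p ∣ (∑ n ∈ F2, n !) + fs (X ∪ F1) (2 * p)
      · exact Or.inl h5
      · push Not at h5
        obtain ⟨p, hp, hpd⟩ := h5
        refine Or.inr ⟨p, hp, ?_⟩
        by_contra h6
        apply hF
        refine ⟨p, hG hp, ?_, ?_⟩
        · rw [e3 p hp]
          exact hpd
        · rw [e3 p hp]
          exact h6
    have e2R : (num U (fun F2 => ¬ Ev i (X ∪ (F1 ∪ F2))) : ℝ)
        ≤ (num U (fun F => (∀ p ∈ G, ¬ p ∣ (∑ n ∈ F, n !) + fs (X ∪ F1) (2 * p))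
        ∨ ∃ p ∈ G, p ^ 2 ∣ (∑ n ∈ F, n !) + fs (X ∪ F1) (2 * p)) : ℝ) := by
      exact_mod_cast e2
    refine e2R.trans (hb.trans ?_)
    rw [mul_comm]
    apply mul_le_mul_of_nonneg_left _ (by positivity)
    have e1 := alt_three2 (fun p : ℕ => 1 / (p : ℝ)) G (fun p _ => by positivity)
    rw [← hmudef] at e1
    have e4 : ((h : ℝ) + 1) ^ (2 * 1) = ((h : ℝ) + 1) ^ 2 := by norm_num
    rw [e4]
    have hmu0 : 1 / (8 * ((i : ℝ) + 1)) ≤ mu := hG1
    have hmu1 : mu ≤ 1 / 2 := hG2.trans hmu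
    set y := 1 / ((i : ℝ) + 1) with hy
    have ey1 : 1 / (8 * ((i : ℝ) + 1)) = y / 8 := by
      rw [hy]
      field_simp
    have ey3 : 1 / (64 * ((i : ℝ) + 1)) = y / 64 := by
      rw [hy]
      field_simp
    have hy0 : 0 < y := by positivity
    rw [ey1] at hmu0
    rw [ey3] at hE1 hE2 ⊢
    have e5 : mu ^ 2 / 2 ≤ mu / 4 := by nlinarith
    linarith
  have hDU : D = (D \ U) ∪ U := (sdiff_union_of_subset hUD).symm
  have e1 : num D (fun F => ¬ Ev i (X ∪ F))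
      = ∑ F1 ∈ (D \ U).powerset, num U (fun F2 => ¬ Ev i (X ∪ (F1 ∪ F2))) := by
    conv_lhs => rw [hDU]
    rw [num_split sdiff_disjoint]
  rw [e1]
  push_cast
  calc ∑ F1 ∈ (D \ U).powerset, (num U (fun F2 => ¬ Ev i (X ∪ (F1 ∪ F2))) : ℝ)
      ≤ ∑ F1 ∈ (D \ U).powerset, 2 ^ U.card * (1 - 1 / (64 * ((i : ℝ) + 1))) :=
        sum_le_sum fun F1 hF1 => key F1 (mem_powerset.mp hF1)
    _ = 2 ^ (D \ U).card * (2 ^ U.card * (1 - 1 / (64 * ((i : ℝ) + 1)))) := by
        rw [sum_const, card_powerset, nsmul_eq_mul]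
        push_cast
        rfl
    _ = 2 ^ D.card * (1 - 1 / (64 * ((i : ℝ) + 1))) := by
        have e2 : D.card = (D \ U).card + U.card := (card_sdiff_add_card_eq_card hUD).symm
        rw [e2, pow_add]
        ring

end Pool.Agent.H70.PF
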