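import Pool.Agent.H70.PF.StDef
import Pool.Agent.H70.PF.MainW
import Pool.Agent.H70.PF.Scale2
import Pool.Agent.H70.PF.Branch3
import Pool.Agent.H70.PF.Prob3

set_option autoImplicit false

/-! # Powerful numbers among sums of distinct factorials: the final theorem -/

namespace Pool.Agent.H70.PF

open Finset Nat MeasureTheory ProbabilityTheory

lemma pwA_iff (B : ℝ) (m : ℕ) : pwA B m ↔ PowerfulAbove B (m : ℤ) := by
  unfold pwA PowerfulAbove
  constructor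
  · intro h p hp hB hpd
    have h1 : p ∣ m := by exact_mod_cast hpd
    exact_mod_cast h p hp hB h1
  · intro h p hp hB hpd
    have h1 : (p : ℤ) ∣ (m : ℤ) := by exact_mod_cast hpd
    exact_mod_cast h p hp hB h1

lemma above_mono {B B' : ℝ} (h : B ≤ B') {z : ℤ} (hz : PowerfulAbove B z) :
    PowerfulAbove B' z := fun p hp hB => hz p hp (lt_of_le_of_lt h hB)

/-- `b` times a powerful number -/
theorem above_mul (B : ℝ) (b q : ℤ) (hb : b ≠ 0) (hbB : (|b| : ℝ) ≤ B)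
    (hq : ∀ p : ℕ, p.Prime → (p : ℤ) ∣ q → (p : ℤ) ^ 2 ∣ q) : PowerfulAbove B (b * q) := by
  intro p hp hB hpd
  have h1 : ¬ (p : ℤ) ∣ b := by
    intro h
    have h2 := Int.le_of_dvd (abs_pos.mpr hb) ((dvd_abs _ _).mpr h)
    have h3 : (p : ℝ) ≤ (|b| : ℝ) := by
      rw [← Int.cast_abs]
      exact_mod_cast h2
    linarith
  have h2 : (p : ℤ) ∣ q := ((Nat.prime_iff_prime_int.mp hp).dvd_or_dvd hpd).resolve_left h1
  exact (hq p hp h2).mul_left b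

lemma sum_fact_lt (N : ℕ) : ∑ n ∈ Icc 1 N, n ! < (N + 1)! := by
  induction N with
  | zero => simp
  | succ N ih =>
    rw [Finset.sum_Icc_succ_top (by omega), Nat.factorial_succ (N + 1)]
    have := Nat.factorial_pos (N + 1)
    nlinarith

lemma sum_inj {M : ℕ} {F F' : Finset ℕ} (hF : F ⊆ Icc 1 M) (hF' : F' ⊆ Icc 1 M)
    (h : ∑ n ∈ F, n ! = ∑ n ∈ F', n !) : F = F' := by
  by_contra hne
  have e : Icc 1 M = Ioc 0 (0 + M) := by
    ext x
    rw [mem_Icc, mem_Ioc]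
    omega
  rw [e] at hF hF'
  apply diff_ne_zero hF hF' hne
  rw [h, sub_self]

lemma ncard_A_ge {N x : ℕ} (hN : 1 ≤ N) (hx : N ! ≤ x) :
    2 ^ (N - 1) ≤ {a : ℕ | a ∈ SumsOfFactorials ∧ a ≤ x}.ncard := by
  have hfin : {a : ℕ | a ∈ SumsOfFactorials ∧ a ≤ x}.Finite :=
    (Set.finite_Iic x).subset fun a ha => ha.2
  have h1 : ((Icc 1 (N - 1)).powerset.image (fun F => ∑ n ∈ F, n !)).card = 2 ^ (N - 1) := by
    rw [Finset.card_image_of_injOn, card_powerset, Nat.card_Icc]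
    · congr 1
    · intro F hF F' hF' h
      rw [mem_coe, mem_powerset] at hF hF'
      exact sum_inj hF hF' h
  rw [← h1, ← Set.ncard_coe_finset]
  apply Set.ncard_le_ncard _ hfin
  intro a ha
  rw [mem_coe, mem_image] at ha
  obtain ⟨F, hF, rfl⟩ := ha
  rw [mem_powerset] at hF
  refine ⟨⟨F, fun n hn => ?_, rfl⟩, ?_⟩
  · have := hF hn
    rw [mem_Icc] at this
    omega
  · have h2 : ∑ n ∈ F, n ! ≤ ∑ n ∈ Icc 1 (N - 1), n ! := sum_le_sum_of_subset hF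
    have h3 := sum_fact_lt (N - 1)
    have h4 : N - 1 + 1 = N := by omega
    rw [h4] at h3
    show ∑ n ∈ F, n ! ≤ x
    omega

lemma ncard_pow_le (B : ℝ) {N x : ℕ} (hx : x < (N + 1)!) :
    {a : ℕ | a ∈ SumsOfFactorials ∧ a ≤ x ∧ PowerfulAbove B a}.ncard
      ≤ num (Icc 1 N) (fun F => pwAZ B (0 + ((∑ j ∈ F, j ! : ℕ) : ℤ))) := by
  classical
  rw [num_eq]
  have h1 : {a : ℕ | a ∈ SumsOfFactorials ∧ a ≤ x ∧ PowerfulAbove B a}
      ⊆ (((Icc 1 N).powerset.filter (fun F => pwAZ B (0 + ((∑ j ∈ F, j ! : ℕ) : ℤ)))).image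
        (fun F => ∑ n ∈ F, n !) : Finset ℕ) := by
    rintro a ⟨⟨F, hF, rfl⟩, hx', hpw⟩
    rw [mem_coe, mem_image]
    refine ⟨F, ?_, rfl⟩
    rw [mem_filter, mem_powerset]
    refine ⟨?_, ?_⟩
    · intro n hn
      rw [mem_Icc]
      have h2 := hF n hn
      refine ⟨h2, ?_⟩
      have h3 : n ! ≤ ∑ n ∈ F, n ! := single_le_sum (f := fun n => n !) (fun _ _ => Nat.zero_le _) hn
      have h4 : n ! < (N + 1)! := lt_of_le_of_lt (h3.trans hx') hx
      have := (Nat.factorial_lt h2).mp h4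
      omega
    · rw [zero_add]
      exact hpw
  refine (Set.ncard_le_ncard h1 (Finset.finite_toSet _)).trans ?_
  rw [Set.ncard_coe_finset]
  exact Finset.card_image_le

lemma ncard_eq_num (D : Finset ℕ) (P : Finset ℕ → Prop) :
    {F : Finset ℕ | F ⊆ D ∧ P F}.ncard = num D P := (num_eq_ncard D P).symm

/-- count of powerful sums -/
theorem part_count : ∃ c : ℝ, 0 < c ∧ ∃ C : ℝ,
    (∀ N : ℕ, 3 ≤ N → ∀ x : ℕ, N.factorial ≤ x → x < (N + 1).factorial →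
      ({a : ℕ | a ∈ SumsOfFactorials ∧ a ≤ x ∧
          PowerfulAbove (Real.exp ((N : ℝ) ^ (1 / 16 : ℝ))) a}.ncard : ℝ)
        ≤ C * Real.exp (-(c * Real.log N / Real.log (Real.log N)))
          * ({a : ℕ | a ∈ SumsOfFactorials ∧ a ≤ x}.ncard : ℝ)) ∧
    (∀ N : ℕ, 3 ≤ N → ∀ U : Finset ℕ, U ⊆ Finset.Icc 1 N → U.Nonempty → ∀ R : ℤ,
      ({F : Finset ℕ | F ⊆ U ∧ PowerfulAbove (Real.exp ((N : ℝ) ^ (1 / 16 : ℝ)))
          (R + ∑ n ∈ F, (n.factorial : ℤ))}.ncard : ℝ)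
        ≤ C * 2 ^ U.card * Real.exp (-(c * Real.log N
          / (Real.log (Real.log N) + Real.log ((N : ℝ) / U.card))))) := by
  obtain ⟨c, hc, C, hC⟩ := main_count3
  refine ⟨c, hc, 2 * |C|, ?_, ?_⟩
  · intro N hN x hx hx'
    have h1 := hC N hN (Icc 1 N) subset_rfl ⟨1, by rw [mem_Icc]; omega⟩ 0
    have h2 : (Icc 1 N).card = N := by rw [Nat.card_Icc]; omega
    have hN0 : (N : ℝ) ≠ 0 := by
      have : (3 : ℝ) ≤ N := by exact_mod_cast hN
      linarith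
    rw [h2, div_self hN0, Real.log_one, add_zero] at h1
    have h3 := ncard_pow_le (Real.exp ((N : ℝ) ^ (1 / 16 : ℝ))) hx'
    have h4 := ncard_A_ge (by omega : 1 ≤ N) hx
    have h3R : ({a : ℕ | a ∈ SumsOfFactorials ∧ a ≤ x ∧
          PowerfulAbove (Real.exp ((N : ℝ) ^ (1 / 16 : ℝ))) a}.ncard : ℝ)
        ≤ (num (Icc 1 N) (fun F => pwAZ (Real.exp ((N : ℝ) ^ (1 / 16 : ℝ)))
          (0 + ((∑ j ∈ F, j ! : ℕ) : ℤ))) : ℝ) := by
      exact_mod_cast h3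
    have h4R : (2 : ℝ) ^ (N - 1) ≤ ({a : ℕ | a ∈ SumsOfFactorials ∧ a ≤ x}.ncard : ℝ) := by
      exact_mod_cast h4
    set E := Real.exp (-(c * Real.log N / Real.log (Real.log N))) with hE
    have hE0 : 0 < E := Real.exp_pos _
    have h5 : (2 : ℝ) ^ N = 2 * 2 ^ (N - 1) := by
      rw [← _root_.pow_succ']
      congr 1
      omega
    calc ({a : ℕ | a ∈ SumsOfFactorials ∧ a ≤ x ∧
          PowerfulAbove (Real.exp ((N : ℝ) ^ (1 / 16 : ℝ))) a}.ncard : ℝ)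
        ≤ C * 2 ^ N * E := h3R.trans h1
      _ ≤ |C| * 2 ^ N * E := by
          gcongr
          exact le_abs_self C
      _ = 2 * |C| * E * 2 ^ (N - 1) := by rw [h5]; ring
      _ ≤ _ := by
          gcongr
  · intro N hN U hU hne R
    have h1 := hC N hN U hU hne R
    rw [ncard_eq_num]
    have h2 : num U (fun F => PowerfulAbove (Real.exp ((N : ℝ) ^ (1 / 16 : ℝ)))
          (R + ∑ n ∈ F, (n.factorial : ℤ)))
        = num U (fun F => pwAZ (Real.exp ((N : ℝ) ^ (1 / 16 : ℝ)))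
          (R + ((∑ j ∈ F, j ! : ℕ) : ℤ))) := by
      apply num_congr
      intro F _
      rw [Nat.cast_sum]
      rfl
    rw [h2]
    refine h1.trans ?_
    have h3 : C ≤ 2 * |C| := by
      have := le_abs_self C
      have := abs_nonneg C
      linarith
    gcongr

lemma bound_mono (y : ℕ) : Real.exp (Real.sqrt (Real.log y))
    ≤ Real.exp (Real.sqrt (Real.log ((y + 1 : ℕ) : ℝ))) := by
  apply Real.exp_le_exp.mpr
  apply Real.sqrt_le_sqrt
  rcases Nat.eq_zero_or_pos y with h | h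
  · subst h
    norm_num
  · apply Real.log_le_log
    · exact_mod_cast h
    · push_cast
      linarith

/-- powerful initial sums: finite version -/
theorem part_branch : ∃ c : ℝ, 0 < c ∧ ∀ x0 : ℕ, ∃ C : ℝ, ∀ N M : ℕ, 2 ≤ N → N ≤ M →
    ∀ V Z : Finset ℕ, V ⊆ Finset.Icc 1 M → Disjoint V Z →
    (∀ x : ℕ, x0 ≤ x → 4 * x ≤ M →
      (x : ℝ) ^ (15 / 16 : ℝ) ≤ ((V ∩ Finset.Ioc x (4 * x)).card : ℝ)) →
    ({F : Finset ℕ | F ⊆ V ∧ ∃ y ∈ Finset.Icc N M,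
        PowerfulAbove (Real.exp (Real.sqrt (Real.log y)))
          (∑ n ∈ (Z ∪ F).filter (fun n => n ≤ y), (n.factorial : ℤ))}.ncard : ℝ)
      ≤ C * 2 ^ V.card * (Real.log N) ^ (-c) := by
  obtain ⟨c, hc, h⟩ := branch3 scale2
  refine ⟨c, hc, fun x0 => ?_⟩
  obtain ⟨C, hC⟩ := h x0
  refine ⟨C, fun N M hN hNM V Z hV hVZ hdens => ?_⟩
  refine le_trans ?_ (hC N M hN hNM V Z hV hVZ ?_)
  · rw [ncard_eq_num]
    refine Nat.cast_le.mpr (num_mono fun F _ hF => ?_)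
    have key : ∀ y, fs (Z ∪ F) (y + 1) = ∑ n ∈ (Z ∪ F).filter (fun n => n ≤ y), n ! := by
      intro y
      unfold fs
      apply sum_congr _ fun _ _ => rfl
      apply filter_congr
      intro n _
      omega
    obtain ⟨y, hy, hpw⟩ := hF
    rw [mem_Icc] at hy
    refine ⟨y + 1, by omega, by omega, ?_⟩
    rw [key, pwA_iff]
    have h1 := above_mono (bound_mono y) hpw
    rw [Nat.cast_sum]
    exact h1
  · intro x hx hx4
    have h1 := hdens x hx hx4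
    have h2 : ((x : ℝ) ^ (15 / 16 : ℝ)) ^ 16 = (x : ℝ) ^ 15 := by
      rw [← Real.rpow_natCast, ← Real.rpow_mul (Nat.cast_nonneg x)]
      norm_num
    have h3 : (x : ℝ) ^ 15 ≤ ((V ∩ Finset.Ioc x (4 * x)).card : ℝ) ^ 16 := by
      rw [← h2]
      exact pow_le_pow_left₀ (by positivity) h1 16
    exact_mod_cast h3

/-- powerful initial sums: almost sure version -/
theorem part_ae (V Z : Set ℕ) (hVZ : Disjoint V Z)
    (hV : ∃ x0 : ℕ, ∀ x : ℕ, x0 ≤ x →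
      (x : ℝ) ^ (15 / 16 : ℝ) ≤ ((V ∩ Set.Ioc x (4 * x)).ncard : ℝ))
    {Ω : Type} [MeasurableSpace Ω] (P : Measure Ω) [IsProbabilityMeasure P] (ξ : ℕ → Ω → Bool)
    (hm : ∀ n, Measurable (ξ n)) (hi : iIndepFun ξ P) (hh : ∀ n, P (ξ n ⁻¹' {true}) = 1 / 2) :
    ∀ᵐ ω ∂P, {y : ℕ | PowerfulAbove (Real.exp (Real.sqrt (Real.log y)))
      (∑ᶠ n ∈ {n : ℕ | 1 ≤ n ∧ n ≤ y ∧ (n ∈ Z ∨ (n ∈ V ∧ ξ n ω = true))},
        (n.factorial : ℤ))}.Finite := by
  classical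
  have h1 := almost_sure3 (branch3 scale2) V Z hVZ (by
    obtain ⟨x0, hx0⟩ := hV
    refine ⟨x0, fun x hx => ?_⟩
    have h1 := hx0 x hx
    have h2 : ((x : ℝ) ^ (15 / 16 : ℝ)) ^ 16 = (x : ℝ) ^ 15 := by
      rw [← Real.rpow_natCast, ← Real.rpow_mul (Nat.cast_nonneg x)]
      norm_num
    have h3 : (x : ℝ) ^ 15 ≤ ((V ∩ Set.Ioc x (4 * x)).ncard : ℝ) ^ 16 := by
      rw [← h2]
      exact pow_le_pow_left₀ (by positivity) h1 16
    exact_mod_cast h3) P ξ hm hi hh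
  filter_upwards [h1] with ω hω
  refine hω.subset ?_
  intro y hy
  show pwA _ _
  rw [pwA_iff]
  have h2 : (∑ᶠ n ∈ {n : ℕ | 1 ≤ n ∧ n ≤ y ∧ (n ∈ Z ∨ (n ∈ V ∧ ξ n ω = true))},
      (n.factorial : ℤ))
      = ((∑ n ∈ Finset.Icc 1 y, if n ∈ Z ∨ (n ∈ V ∧ ξ n ω = true) then n ! else 0 : ℕ) : ℤ) := by
    rw [← sum_filter, Nat.cast_sum]
    have h3 : {n : ℕ | 1 ≤ n ∧ n ≤ y ∧ (n ∈ Z ∨ (n ∈ V ∧ ξ n ω = true))}
        = (((Finset.Icc 1 y).filter (fun n => n ∈ Z ∨ (n ∈ V ∧ ξ n ω = true)) : Finset ℕ)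
          : Set ℕ) := by
      ext n
      rw [mem_coe, mem_filter, mem_Icc]
      show 1 ≤ n ∧ n ≤ y ∧ (n ∈ Z ∨ (n ∈ V ∧ ξ n ω = true)) ↔ _
      tauto
    rw [h3, finsum_mem_coe_finset]
  rw [← h2]
  exact above_mono (bound_mono y) hy

end Pool.Agent.H70.PF
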