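import Pool.Agent.H70.PF.Prod
import Pool.Agent.H70.PF.Primes

set_option autoImplicit false

/-! # Few sums of distinct factorials are powerful: several scales, fixed parameters -/

namespace Pool.Agent.H70.PF

open Finset Nat

lemma Win_card {s : ℕ → ℕ} {g Y J i : ℕ} {W : Finset ℕ} (h : Win s g Y J i W) :
    s i ≤ W.card := by
  cases i with
  | zero => exact h.1
  | succ i => exact h.1

lemma Win_int {s : ℕ → ℕ} {g Y J i : ℕ} {W : Finset ℕ} (h : Win s g Y J i W) :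
    ∃ m, W ⊆ Ioc m (m + g * s i) ∧ m + g * s i < Y := by
  cases i with
  | zero => exact h.2
  | succ i => exact h.2.1

lemma card_sub2 (P : Finset ℕ) : (sub2 P).card ≤ (P.card + 1) ^ 2 := card_small_subsets P 2

lemma card_Tf (G : ℕ → Finset ℕ) (i : ℕ) : (Tf G i).card = ∏ j ∈ range i, (sub2 (G j)).card := by
  unfold Tf
  rw [Fintype.card_piFinset, Fin.prod_univ_eq_prod_range (fun j => (sub2 (G j)).card) i]

lemma two_pow_le (n : ℕ) : (2 : ℝ) ^ n ≤ (4 / 3) ^ (3 * n) := by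
  rw [pow_mul]
  exact pow_le_pow_left₀ (by norm_num) (by norm_num) n

lemma sum_sub2_le (P : Finset ℕ) (h : ∑ p ∈ P, (1 : ℝ) / p ≤ 17 / 16) :
    ∑ A ∈ sub2 P, ∏ p ∈ A, (1 / (p : ℝ)) ≤ 3 := by
  have h1 : ∑ A ∈ sub2 P, ∏ p ∈ A, (1 / (p : ℝ))
      = ∑ j ∈ range 3, esy (fun p : ℕ => 1 / (p : ℝ)) P j := by
    unfold esy
    rw [← sum_fiberwise_of_maps_to (s := sub2 P) (t := range 3) (g := fun A => A.card)
      (fun A hA => by
        unfold sub2 at hA
        rw [mem_filter] at hA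
        rw [mem_range]
        omega)]
    refine sum_congr rfl fun j hj => ?_
    rw [mem_range] at hj
    apply sum_congr _ fun _ _ => rfl
    ext A
    unfold sub2
    rw [mem_filter, mem_filter, mem_powerset, mem_powersetCard]
    constructor
    · rintro ⟨⟨h1, _⟩, h2⟩
      exact ⟨h1, h2⟩
    · rintro ⟨h1, h2⟩
      exact ⟨⟨h1, by omega⟩, h2⟩
  have h0 : ∀ p ∈ P, (0 : ℝ) ≤ (fun p : ℕ => 1 / (p : ℝ)) p := fun p _ => by positivity
  have hmu : 0 ≤ ∑ p ∈ P, (1 : ℝ) / p := sum_nonneg fun p _ => by positivity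
  have e0 := esy_zero (fun p : ℕ => 1 / (p : ℝ)) P
  have e1 := esy_le (fun p : ℕ => 1 / (p : ℝ)) P h0 1
  have e2 := esy_le (fun p : ℕ => 1 / (p : ℝ)) P h0 2
  rw [h1, sum_range_succ, sum_range_succ, sum_range_succ, range_zero, sum_empty, e0]
  norm_num at e1 e2 ⊢
  norm_num at h hmu
  nlinarith

lemma alt_three_le (P : Finset ℕ) (hP : ∀ p ∈ P, p.Prime) (h1 : 1 ≤ ∑ p ∈ P, (1 : ℝ) / p)
    (h : ∑ p ∈ P, (1 : ℝ) / p ≤ 17 / 16) :
    0 ≤ alt (fun p : ℕ => 1 / (p : ℝ)) P 3 ∧ alt (fun p : ℕ => 1 / (p : ℝ)) P 3 ≤ 3 / 5 := by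
  have h0 : ∀ p ∈ P, (0 : ℝ) ≤ 1 / (p : ℝ) := fun p _ => by positivity
  have h0' : ∀ p ∈ P, (1 : ℝ) / (p : ℝ) ≤ 1 := by
    intro p hp
    have h3 : (1 : ℝ) ≤ p := by exact_mod_cast (hP p hp).one_lt.le
    rw [div_le_one (by linarith)]
    exact h3
  constructor
  · refine le_trans ?_ (prod_le_alt (fun p : ℕ => 1 / (p : ℝ)) P h0 h0' 1)
    exact prod_nonneg fun p hp => by linarith [h0' p hp]
  · have e1 : alt (fun p : ℕ => 1 / (p : ℝ)) P 3
        = 1 - esy (fun p : ℕ => 1 / (p : ℝ)) P 1 + esy (fun p : ℕ => 1 / (p : ℝ)) P 2 := by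
      unfold alt
      rw [sum_range_succ, sum_range_succ, sum_range_succ, range_zero, sum_empty, esy_zero]
      norm_num
      ring
    have e2 : esy (fun p : ℕ => 1 / (p : ℝ)) P 1 = ∑ p ∈ P, (1 : ℝ) / p := by
      unfold esy
      rw [powersetCard_one, sum_map]
      refine sum_congr rfl fun i _ => ?_
      simp
    have e3 := esy_le (fun p : ℕ => 1 / (p : ℝ)) P h0 2
    have e4 : ((2 ! : ℕ) : ℝ) = 2 := by norm_num [Nat.factorial]
    rw [e4] at e3
    rw [e1, e2]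
    set mu := ∑ p ∈ P, (1 : ℝ) / p
    nlinarith

end Pool.Agent.H70.PF
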