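import Pool.Agent.H70.PF.Fact

set_option autoImplicit false

/-! # Sums of distinct factorials modulo `q`, free digits in an arbitrary set -/

namespace Pool.Agent.H70.PF

open Finset Nat

lemma sum_coll_le2 {ι : Type*} (I : Finset ι) (q : ι → ℕ) {m w h Y B : ℕ} {W : Finset ℕ}
    (hW : W ⊆ Ioc m (m + h)) (hWc : W.card = w) (hY : m + h < Y)
    (hcop : ∀ i ∈ I, Nat.Coprime (m !) (q i)) (hI : I.card ≤ 2 ^ w)
    (hB : ∀ z : ℤ, z ≠ 0 → z.natAbs < Y ^ (h + 1) →
      (I.filter (fun i => (q i : ℤ) ∣ z)).card ≤ B) :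
    ∑ i ∈ I, coll Nat.factorial W (q i) ≤ 4 ^ w * (1 + B) := by
  classical
  rw [coll_eq_sum]
  rw [← sum_filter_add_sum_filter_not _ (fun P : Finset ℕ × Finset ℕ => P.1 = P.2)]
  have h1 : ∑ P ∈ (W.powerset ×ˢ W.powerset).filter
      (fun P : Finset ℕ × Finset ℕ => P.1 = P.2), (I.filter (fun i =>
        ((q i : ℤ) ∣ ((∑ n ∈ P.1, n ! : ℕ) : ℤ) - ((∑ n ∈ P.2, n ! : ℕ) : ℤ)))).card
      ≤ 2 ^ w * 2 ^ w := by
    calc _ ≤ ∑ P ∈ (W.powerset ×ˢ W.powerset).filter
          (fun P : Finset ℕ × Finset ℕ => P.1 = P.2), 2 ^ w :=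
          sum_le_sum fun P _ => (card_filter_le _ _).trans hI
      _ = ((W.powerset ×ˢ W.powerset).filter
          (fun P : Finset ℕ × Finset ℕ => P.1 = P.2)).card * 2 ^ w := by
          rw [sum_const, smul_eq_mul]
      _ ≤ 2 ^ w * 2 ^ w := by
          apply Nat.mul_le_mul_right
          calc _ ≤ (W.powerset.image (fun F => (F, F))).card := by
                apply card_le_card
                rintro ⟨F, F'⟩ hP
                rw [mem_filter, mem_product] at hP
                rw [mem_image]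
                refine ⟨F, hP.1.1, ?_⟩
                have := hP.2
                simp only at this
                rw [this]
            _ ≤ (W.powerset).card := card_image_le
            _ = 2 ^ w := by rw [card_powerset, hWc]
  have h2 : ∑ P ∈ (W.powerset ×ˢ W.powerset).filter
      (fun P : Finset ℕ × Finset ℕ => ¬ P.1 = P.2), (I.filter (fun i =>
        ((q i : ℤ) ∣ ((∑ n ∈ P.1, n ! : ℕ) : ℤ) - ((∑ n ∈ P.2, n ! : ℕ) : ℤ)))).card
      ≤ 4 ^ w * B := by
    calc _ ≤ ∑ P ∈ (W.powerset ×ˢ W.powerset).filter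
          (fun P : Finset ℕ × Finset ℕ => ¬ P.1 = P.2), B := by
          refine sum_le_sum fun P hP => ?_
          rw [mem_filter, mem_product, mem_powerset, mem_powerset] at hP
          obtain ⟨z, hz0, hz1, hz2⟩ := diff_form hY (hP.1.1.trans hW) (hP.1.2.trans hW) hP.2
          refine le_trans (card_le_card ?_) (hB z hz0 hz1)
          intro i hi
          rw [mem_filter] at hi ⊢
          refine ⟨hi.1, ?_⟩
          rw [hz2] at hi
          have hc : IsCoprime ((q i : ℤ)) ((m ! : ℕ) : ℤ) :=
            (Nat.isCoprime_iff_coprime.mpr (hcop i hi.1)).symm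
          exact hc.dvd_of_dvd_mul_left hi.2
      _ = ((W.powerset ×ˢ W.powerset).filter
          (fun P : Finset ℕ × Finset ℕ => ¬ P.1 = P.2)).card * B := by
          rw [sum_const, smul_eq_mul]
      _ ≤ 4 ^ w * B := by
          apply Nat.mul_le_mul_right
          refine (card_filter_le _ _).trans ?_
          rw [card_product, card_powerset, hWc, ← mul_pow]
          norm_num
  have h3 : (2 : ℕ) ^ w * 2 ^ w = 4 ^ w := by rw [← mul_pow]; norm_num
  calc _ ≤ 2 ^ w * 2 ^ w + 4 ^ w * B := Nat.add_le_add h1 h2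
    _ = 4 ^ w * (1 + B) := by rw [h3]; ring

/-- subset sums of factorials, with free digits in a union of sets `W j` each contained in a
short interval, are equidistributed modulo `q` on average over `q` -/
theorem equi2 {ι : Type*} (I : Finset ι) (q : ι → ℕ) {J w h k Y B : ℕ} (hJ : 0 < J) (hw : 0 < w)
    (W : ℕ → Finset ℕ) (m : ℕ → ℕ) (hWd : ∀ i < J, ∀ j < J, i ≠ j → Disjoint (W i) (W j))
    (hWc : ∀ j < J, (W j).card = w) (hWm : ∀ j < J, W j ⊆ Ioc (m j) (m j + h))
    (hY : ∀ j < J, m j + h < Y) (hq : ∀ i ∈ I, q i ≠ 0)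
    (hcop : ∀ i ∈ I, ∀ n < Y, Nat.Coprime (n !) (q i)) (hI : I.card ≤ 2 ^ w)
    (hB : ∀ z : ℤ, z ≠ 0 → z.natAbs < Y ^ (h + 1) →
      (I.filter (fun i => (q i : ℤ) ∣ z)).card ≤ B)
    (hk : 22 ^ k * (8 * w) ≤ J) (c : ∀ i, ZMod (q i)) :
    ∑ i ∈ I, |(cnt Nat.factorial ((range J).biUnion W) (q i) (c i) : ℝ) / 2 ^ (J * w)
        - 1 / q i|
      ≤ 2 ^ w * Real.exp (-w) + (4 / 3) * (1 + B) / 2 ^ k := by
  classical
  have h := dev_family Nat.factorial I q hq hJ hw W hWd hWc
    (fun i hi j hj n hn => by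
      have h1 := hWm j hj hn
      rw [mem_Ioc] at h1
      rw [ZMod.isUnit_iff_coprime]
      exact hcop i hi n (by have := hY j hj; omega))
    k (t := 8 * w) (by positivity) (by exact_mod_cast hk) (1 + B)
    (fun j hj => by
      have h1 := sum_coll_le2 I q (hWm j hj) (hWc j hj) (hY j hj)
        (fun i hi => hcop i hi _ (by have := hY j hj; omega)) hI hB
      exact_mod_cast h1) c
  have hcard : ((range J).biUnion W).card = J * w := by
    rw [card_biUnion]
    · rw [sum_congr rfl fun j hj => hWc j (mem_range.mp hj), sum_const, card_range, smul_eq_mul]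
    · intro i hi j hj hij
      exact hWd i (mem_range.mp hi) j (mem_range.mp hj) hij
  rw [hcard] at h
  refine h.trans ?_
  have h1 : (I.card : ℝ) ≤ 2 ^ w := by exact_mod_cast hI
  have h2 : Real.exp (-(8 * (w : ℝ)) / 8) = Real.exp (-w) := by
    congr 1
    ring
  rw [h2]
  gcongr

/-- many short intervals contain many elements of a large set -/
lemma exists_windows {U : Finset ℕ} {N h w J : ℕ} (hU : U ⊆ Icc 1 N) (hh : 0 < h)
    (hcard : J * h + (N / h + 1) * w ≤ U.card) :
    ∃ (W : ℕ → Finset ℕ) (m : ℕ → ℕ), (∀ i < J, ∀ j < J, i ≠ j → Disjoint (W i) (W j)) ∧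
      (∀ j < J, (W j).card = w) ∧ (∀ j < J, W j ⊆ Ioc (m j) (m j + h)) ∧
      (∀ j < J, W j ⊆ U) ∧ (∀ j < J, m j ≤ N) := by
  classical
  set B0 := N / h + 1 with hB0
  set S : ℕ → Finset ℕ := fun b => U ∩ Ioc (b * h) (b * h + h) with hS
  set G := (range B0).filter (fun b => w ≤ (S b).card) with hG
  have hSh : ∀ b, (S b).card ≤ h := by
    intro b
    calc (S b).card ≤ (Ioc (b * h) (b * h + h)).card := card_le_card inter_subset_right
      _ = h := by rw [Nat.card_Ioc]; omega
  have hcov : U ⊆ (range B0).biUnion S := by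
    intro x hx
    have h1 := hU hx
    rw [mem_Icc] at h1
    rw [mem_biUnion]
    refine ⟨(x - 1) / h, ?_, ?_⟩
    · rw [mem_range, hB0]
      have : (x - 1) / h ≤ N / h := Nat.div_le_div_right (by omega)
      omega
    · rw [hS]
      simp only [mem_inter, mem_Ioc]
      have h2 := Nat.div_add_mod (x - 1) h
      have h3 := Nat.mod_lt (x - 1) hh
      rw [mul_comm] at h2
      exact ⟨hx, by omega, by omega⟩
  have h1 : U.card ≤ ∑ b ∈ range B0, (S b).card :=
    (card_le_card hcov).trans card_biUnion_le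
  have h2 : ∑ b ∈ range B0, (S b).card ≤ G.card * h + B0 * w := by
    rw [← sum_filter_add_sum_filter_not (range B0) (fun b => w ≤ (S b).card)]
    apply Nat.add_le_add
    · calc ∑ b ∈ (range B0).filter (fun b => w ≤ (S b).card), (S b).card ≤ ∑ b ∈ G, h :=
          sum_le_sum fun b _ => hSh b
        _ = G.card * h := by rw [sum_const, smul_eq_mul]
    · calc ∑ b ∈ (range B0).filter (fun b => ¬ w ≤ (S b).card), (S b).card
          ≤ ∑ b ∈ (range B0).filter (fun b => ¬ w ≤ (S b).card), w := by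
            refine sum_le_sum fun b hb => ?_
            rw [mem_filter] at hb
            omega
        _ = ((range B0).filter (fun b => ¬ w ≤ (S b).card)).card * w := by
            rw [sum_const, smul_eq_mul]
        _ ≤ B0 * w := by
            apply Nat.mul_le_mul_right
            refine (card_filter_le _ _).trans ?_
            rw [card_range]
  have h3 : J ≤ G.card := by
    have h4 : J * h ≤ G.card * h := by omega
    exact Nat.le_of_mul_le_mul_right h4 hh
  obtain ⟨e⟩ : Nonempty (Fin J ↪ G) := by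
    apply Function.Embedding.nonempty_of_card_le
    rw [Fintype.card_fin, Fintype.card_coe]
    exact h3
  have hex : ∀ b : ℕ, ∃ T : Finset ℕ, T ⊆ S b ∧ (w ≤ (S b).card → T.card = w) := by
    intro b
    by_cases hb : w ≤ (S b).card
    · obtain ⟨T, hT1, hT2⟩ := exists_subset_card_eq hb
      exact ⟨T, hT1, fun _ => hT2⟩
    · exact ⟨∅, empty_subset _, fun h => absurd h hb⟩
  choose T hT1 hT2 using hex
  set g : ℕ → ℕ := fun j => if hj : j < J then ((e ⟨j, hj⟩ : G) : ℕ) else 0 with hg
  have hgG : ∀ j < J, g j ∈ G := by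
    intro j hj
    rw [hg]
    simp only
    rw [dif_pos hj]
    exact (e ⟨j, hj⟩).2
  have hginj : ∀ i < J, ∀ j < J, i ≠ j → g i ≠ g j := by
    intro i hi j hj hij h4
    rw [hg] at h4
    simp only at h4
    rw [dif_pos hi, dif_pos hj] at h4
    have h5 := e.injective (Subtype.ext h4)
    exact hij (Fin.mk.inj_iff.mp h5)
  refine ⟨fun j => T (g j), fun j => g j * h, ?_, ?_, ?_, ?_, ?_⟩
  · intro i hi j hj hij
    have h4 := hginj i hi j hj hij
    rw [disjoint_left]
    intro x hx hx'
    have h5 := hT1 _ hx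
    have h6 := hT1 _ hx'
    rw [hS] at h5 h6
    simp only [mem_inter, mem_Ioc] at h5 h6
    rcases lt_or_gt_of_ne h4 with h7 | h7
    · have : (g i + 1) * h ≤ g j * h := Nat.mul_le_mul_right _ h7
      rw [add_mul, one_mul] at this
      omega
    · have : (g j + 1) * h ≤ g i * h := Nat.mul_le_mul_right _ h7
      rw [add_mul, one_mul] at this
      omega
  · intro j hj
    have h4 := hgG j hj
    rw [hG, mem_filter] at h4
    exact hT2 _ h4.2
  · intro j hj
    exact (hT1 _).trans inter_subset_right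
  · intro j hj
    exact (hT1 _).trans inter_subset_left
  · intro j hj
    have h4 := hgG j hj
    rw [hG, mem_filter, mem_range, hB0] at h4
    calc g j * h ≤ N / h * h := Nat.mul_le_mul_right _ (by omega)
      _ ≤ N := Nat.div_mul_le_self N h

end Pool.Agent.H70.PF
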