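import Mathlib

set_option autoImplicit false

/-! # Bonferroni inequalities for numbers in `[0,1]` -/

namespace Pool.Agent.H70.PF

open Finset

variable {ι : Type*} [DecidableEq ι]

/-- elementary symmetric sums -/
def esy (x : ι → ℝ) (S : Finset ι) (j : ℕ) : ℝ := ∑ A ∈ S.powersetCard j, ∏ i ∈ A, x i

/-- alternating truncated sums -/
def alt (x : ι → ℝ) (S : Finset ι) (m : ℕ) : ℝ := ∑ j ∈ range m, (-1) ^ j * esy x S j

lemma esy_zero (x : ι → ℝ) (S : Finset ι) : esy x S 0 = 1 := by
  unfold esy
  simp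

lemma esy_empty_succ (x : ι → ℝ) (j : ℕ) : esy x ∅ (j + 1) = 0 := by
  unfold esy
  have : powersetCard (j + 1) (∅ : Finset ι) = ∅ := by
    apply powersetCard_eq_empty.mpr
    simp
  rw [this, sum_empty]

lemma esy_insert (x : ι → ℝ) {S : Finset ι} {p : ι} (hp : p ∉ S) (j : ℕ) :
    esy x (insert p S) (j + 1) = esy x S (j + 1) + x p * esy x S j := by
  unfold esy
  rw [powersetCard_succ_insert hp, sum_union]
  · congr 1
    rw [sum_image, mul_sum]
    · refine sum_congr rfl fun A hA => ?_
      rw [mem_powersetCard] at hA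
      rw [prod_insert (fun h => hp (hA.1 h))]
    · intro A hA A' hA' h
      rw [mem_coe, mem_powersetCard] at hA hA'
      have h1 : (insert p A).erase p = A := erase_insert (fun h => hp (hA.1 h))
      have h2 : (insert p A').erase p = A' := erase_insert (fun h => hp (hA'.1 h))
      rw [← h1, ← h2]
      exact congrArg (fun s => s.erase p) h
  · rw [disjoint_left]
    intro A hA hA'
    rw [mem_powersetCard] at hA
    rw [mem_image] at hA'
    obtain ⟨A', _, rfl⟩ := hA'
    exact hp (hA.1 (mem_insert_self p A'))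

lemma alt_insert (x : ι → ℝ) {S : Finset ι} {p : ι} (hp : p ∉ S) (m : ℕ) :
    alt x (insert p S) (m + 1) = alt x S (m + 1) - x p * alt x S m := by
  unfold alt
  rw [sum_range_succ' (fun j => (-1) ^ j * esy x (insert p S) j),
    sum_range_succ' (fun j => (-1) ^ j * esy x S j), esy_zero, esy_zero]
  have h1 : ∀ j ∈ range m, (-1 : ℝ) ^ (j + 1) * esy x (insert p S) (j + 1)
      = (-1) ^ (j + 1) * esy x S (j + 1) - x p * ((-1) ^ j * esy x S j) := by
    intro j _
    rw [esy_insert x hp]
    ring
  rw [sum_congr rfl h1, sum_sub_distrib, ← mul_sum]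
  ring

/-- Bonferroni -/
lemma bonf (x : ι → ℝ) (S : Finset ι) (h0 : ∀ i ∈ S, 0 ≤ x i) (h1 : ∀ i ∈ S, x i ≤ 1) :
    ∀ m : ℕ, 0 ≤ (-1 : ℝ) ^ (m + 1) * (alt x S m - ∏ i ∈ S, (1 - x i)) := by
  induction S using Finset.induction_on with
  | empty =>
    intro m
    rcases m with _ | m
    · unfold alt
      simp
    · have : alt x ∅ (m + 1) = 1 := by
        unfold alt
        rw [sum_range_succ', esy_zero]
        rw [sum_eq_zero]
        · simp
        · intro j _
          rw [esy_empty_succ, mul_zero]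
      rw [this]
      simp
  | insert p S hp ih =>
    intro m
    have ih' := ih (fun i hi => h0 i (mem_insert_of_mem hi))
      (fun i hi => h1 i (mem_insert_of_mem hi))
    have hp0 := h0 p (mem_insert_self p S)
    have hp1 := h1 p (mem_insert_self p S)
    rw [prod_insert hp]
    rcases m with _ | m
    · have hP : 0 ≤ ∏ i ∈ S, (1 - x i) :=
        prod_nonneg fun i hi => by linarith [h1 i (mem_insert_of_mem hi)]
      unfold alt
      rw [range_zero, sum_empty, zero_add, pow_one]
      nlinarith
    · rw [alt_insert x hp]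
      have h2 := ih' (m + 1)
      have h3 := ih' m
      have h4 : (-1 : ℝ) ^ (m + 1 + 1) * (alt x S (m + 1) - x p * alt x S m
            - (1 - x p) * ∏ i ∈ S, (1 - x i))
          = (-1 : ℝ) ^ (m + 1 + 1) * (alt x S (m + 1) - ∏ i ∈ S, (1 - x i))
            + x p * ((-1 : ℝ) ^ (m + 1) * (alt x S m - ∏ i ∈ S, (1 - x i))) := by
        rw [pow_succ (-1 : ℝ) (m + 1)]
        ring
      rw [h4]
      positivity

lemma prod_le_alt (x : ι → ℝ) (S : Finset ι) (h0 : ∀ i ∈ S, 0 ≤ x i) (h1 : ∀ i ∈ S, x i ≤ 1)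
    (K : ℕ) : ∏ i ∈ S, (1 - x i) ≤ alt x S (2 * K + 1) := by
  have h := bonf x S h0 h1 (2 * K + 1)
  have h2 : (-1 : ℝ) ^ (2 * K + 1 + 1) = 1 := by
    rw [show 2 * K + 1 + 1 = 2 * (K + 1) by ring, pow_mul]
    norm_num
  rw [h2, one_mul] at h
  linarith

lemma alt_le (x : ι → ℝ) (S : Finset ι) (h0 : ∀ i ∈ S, 0 ≤ x i) (h1 : ∀ i ∈ S, x i ≤ 1)
    (K : ℕ) : alt x S (2 * K + 1) ≤ ∏ i ∈ S, (1 - x i) + esy x S (2 * K) := by
  have h := bonf x S h0 h1 (2 * K)
  have h2 : (-1 : ℝ) ^ (2 * K + 1) = -1 := by
    rw [pow_succ, pow_mul]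
    norm_num
  have h3 : alt x S (2 * K + 1) = alt x S (2 * K) + esy x S (2 * K) := by
    unfold alt
    rw [sum_range_succ, pow_mul]
    norm_num
  rw [h2] at h
  rw [h3]
  linarith

lemma esy_le (x : ι → ℝ) (S : Finset ι) (h0 : ∀ i ∈ S, 0 ≤ x i) :
    ∀ j : ℕ, esy x S j ≤ (∑ i ∈ S, x i) ^ j / (j.factorial : ℝ) := by
  induction S using Finset.induction_on with
  | empty =>
    intro j
    rcases j with _ | j
    · rw [esy_zero]
      simp
    · rw [esy_empty_succ]
      positivity
  | insert p S hp ih =>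
    intro j
    have ih' := ih (fun i hi => h0 i (mem_insert_of_mem hi))
    have hp0 := h0 p (mem_insert_self p S)
    have hs0 : 0 ≤ ∑ i ∈ S, x i := sum_nonneg fun i hi => h0 i (mem_insert_of_mem hi)
    rcases j with _ | j
    · rw [esy_zero]
      simp
    · rw [esy_insert x hp, sum_insert hp]
      set s := ∑ i ∈ S, x i with hs
      have h1 : s ^ (j + 1) + (j + 1) * (x p * s ^ j) ≤ (x p + s) ^ (j + 1) := by
        have h2 : ∀ n : ℕ, s ^ (n + 1) + (n + 1) * (x p * s ^ n) ≤ (x p + s) ^ (n + 1) := by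
          intro n
          induction n with
          | zero => simp; linarith
          | succ n ihn =>
            have h3 : (x p + s) ^ (n + 1 + 1) = (x p + s) * (x p + s) ^ (n + 1) := by ring
            rw [h3]
            have h4 : (x p + s) * (s ^ (n + 1) + (n + 1) * (x p * s ^ n))
                ≤ (x p + s) * (x p + s) ^ (n + 1) :=
              mul_le_mul_of_nonneg_left ihn (by positivity)
            refine le_trans ?_ h4
            push_cast
            have h5 : 0 ≤ x p * x p * s ^ n * (n + 1) := by positivity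
            have h6 : (x p + s) * (s ^ (n + 1) + (n + 1) * (x p * s ^ n))
                = s ^ (n + 1 + 1) + (n + 1 + 1) * (x p * s ^ (n + 1))
                  + x p * x p * s ^ n * (n + 1) := by ring
            rw [h6]
            linarith
        exact h2 j
      have hf : ((j + 1).factorial : ℝ) = (j + 1) * (j.factorial : ℝ) := by
        rw [Nat.factorial_succ]
        push_cast
        ring
      have hf0 : (0 : ℝ) < (j.factorial : ℝ) := by exact_mod_cast j.factorial_pos
      calc esy x S (j + 1) + x p * esy x S j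
          ≤ s ^ (j + 1) / ((j + 1).factorial : ℝ) + x p * (s ^ j / (j.factorial : ℝ)) :=
            add_le_add (ih' (j + 1)) (mul_le_mul_of_nonneg_left (ih' j) hp0)
        _ = (s ^ (j + 1) + (j + 1) * (x p * s ^ j)) / ((j + 1).factorial : ℝ) := by
            rw [hf]
            field_simp
        _ ≤ (x p + s) ^ (j + 1) / ((j + 1).factorial : ℝ) := by gcongr

lemma alt_eq_sum (x : ι → ℝ) (S : Finset ι) (m : ℕ) :
    alt x S m = ∑ A ∈ S.powerset.filter (fun A => A.card < m),
      (-1) ^ A.card * ∏ i ∈ A, x i := by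
  unfold alt esy
  rw [← sum_fiberwise_of_maps_to (s := S.powerset.filter (fun A => A.card < m)) (t := range m)
    (g := fun A => A.card) (fun A hA => mem_range.mpr (mem_filter.mp hA).2)]
  refine sum_congr rfl fun j hj => ?_
  rw [mem_range] at hj
  rw [mul_sum]
  have h1 : (S.powerset.filter (fun A => A.card < m)).filter (fun A => A.card = j)
      = S.powersetCard j := by
    ext A
    rw [mem_filter, mem_filter, mem_powerset, mem_powersetCard]
    constructor
    · rintro ⟨⟨h1, _⟩, h2⟩
      exact ⟨h1, h2⟩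
    · rintro ⟨h1, h2⟩
      exact ⟨⟨h1, by omega⟩, h2⟩
  rw [h1]
  refine sum_congr rfl fun A hA => ?_
  rw [mem_powersetCard] at hA
  rw [hA.2]

/-- the number of small subsets -/
lemma card_small_subsets (S : Finset ι) (m : ℕ) :
    (S.powerset.filter (fun A => A.card ≤ m)).card ≤ (S.card + 1) ^ m := by
  have h1 : (S.powerset.filter (fun A => A.card ≤ m)).card
      = ∑ j ∈ range (m + 1), S.card.choose j := by
    rw [card_eq_sum_card_fiberwise (f := fun A => A.card) (t := range (m + 1))
      (fun A hA => by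
        have := (mem_filter.mp (mem_coe.mp hA)).2
        rw [mem_coe, mem_range]
        simp only
        omega)]
    refine sum_congr rfl fun j hj => ?_
    rw [mem_range] at hj
    rw [← card_powersetCard]
    congr 1
    ext A
    rw [mem_filter, mem_filter, mem_powerset, mem_powersetCard]
    constructor
    · rintro ⟨⟨h1, _⟩, h2⟩
      exact ⟨h1, h2⟩
    · rintro ⟨h1, h2⟩
      exact ⟨⟨h1, by omega⟩, h2⟩
  rw [h1, add_pow]
  apply sum_le_sum
  intro j hj
  rw [mem_range] at hj
  rw [one_pow, mul_one]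
  calc S.card.choose j ≤ S.card ^ j := Nat.choose_le_pow _ _
    _ = S.card ^ j * 1 := by ring
    _ ≤ S.card ^ j * m.choose j := Nat.mul_le_mul_left _ (Nat.choose_pos (by omega))

end Pool.Agent.H70.PF
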