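import Pool.Agent.H70.PF.Def2
import Pool.Agent.H70.PF.Fact2
import Pool.Agent.H70.PF.Sieve

set_option autoImplicit false

/-! # Sums of lazy collision probabilities over families of moduli -/

namespace Pool.Agent.H70.PF

open Finset Nat

/-- the number of moduli dividing the difference of two subset sums -/
private def tauN {ι : Type*} (I : Finset ι) (q : ι → ℕ) (P : Finset ℕ × Finset ℕ) : ℕ :=
  (I.filter (fun i =>
    ((q i : ℤ) ∣ ((∑ n ∈ P.1, n ! : ℕ) : ℤ) - ((∑ n ∈ P.2, n ! : ℕ) : ℤ)))).card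

private lemma tau_sum_plz {ι : Type*} (I : Finset ι) (q : ι → ℕ) (W : Finset ℕ) :
    ∑ i ∈ I, plz Nat.factorial W (q i)
      = (∑ V ∈ W.powerset, (∑ P ∈ V.powerset ×ˢ V.powerset, (tauN I q P : ℝ)) / 4 ^ V.card)
        / 2 ^ W.card := by
  unfold plz
  rw [← sum_div, sum_comm]
  congr 1
  refine sum_congr rfl fun V _ => ?_
  rw [← sum_div]
  congr 1
  have h := coll_eq_sum I q V
  have h2 : (∑ i ∈ I, (coll Nat.factorial V (q i) : ℝ))
      = ((∑ i ∈ I, coll Nat.factorial V (q i) : ℕ) : ℝ) := by push_cast; rfl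
  rw [h2, h, Nat.cast_sum]
  rfl

private lemma tau_half (W : Finset ℕ) :
    ∑ V ∈ W.powerset, (2 : ℝ) ^ V.card / 4 ^ V.card = (3 / 2) ^ W.card := by
  have h1 : ∏ _n ∈ W, (1 + (1 / 2 : ℝ)) = ∑ V ∈ W.powerset, ∏ _n ∈ V, (1 / 2 : ℝ) :=
    prod_one_add W
  rw [prod_const] at h1
  have h2 : (1 : ℝ) + 1 / 2 = 3 / 2 := by norm_num
  rw [h2] at h1
  rw [h1]
  refine sum_congr rfl fun V _ => ?_
  rw [prod_const, ← div_pow]
  norm_num

private lemma tau_gen {ι : Type*} (I : Finset ι) (q : ι → ℕ) (W : Finset ℕ)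
    (f : Finset ℕ × Finset ℕ → ℝ) (hf0 : ∀ P, 0 ≤ f P)
    (hf : ∀ P : Finset ℕ × Finset ℕ, P.1 ⊆ W → P.2 ⊆ W → P.1 ≠ P.2 → (tauN I q P : ℝ) ≤ f P)
    (hI : (I.card : ℝ) ≤ (4 / 3) ^ W.card) :
    ∑ i ∈ I, plz Nat.factorial W (q i)
      ≤ 1 + (∑ V ∈ W.powerset, (∑ P ∈ V.powerset ×ˢ V.powerset, f P) / 4 ^ V.card)
        / 2 ^ W.card := by
  classical
  rw [tau_sum_plz]
  have h1 : ∀ V ∈ W.powerset, (∑ P ∈ V.powerset ×ˢ V.powerset, (tauN I q P : ℝ)) / 4 ^ V.card
      ≤ I.card * ((2 : ℝ) ^ V.card / 4 ^ V.card)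
        + (∑ P ∈ V.powerset ×ˢ V.powerset, f P) / 4 ^ V.card := by
    intro V hV
    rw [mem_powerset] at hV
    rw [← mul_div_assoc, ← add_div]
    apply div_le_div_of_nonneg_right _ (by positivity)
    have h2 : ∀ P ∈ V.powerset ×ˢ V.powerset, (tauN I q P : ℝ)
        ≤ (if P.1 = P.2 then (I.card : ℝ) else 0) + f P := by
      intro P hP
      rw [mem_product, mem_powerset, mem_powerset] at hP
      by_cases h : P.1 = P.2
      · rw [if_pos h]
        have : (tauN I q P : ℝ) ≤ I.card := by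
          unfold tauN
          exact_mod_cast card_filter_le _ _
        linarith [hf0 P]
      · rw [if_neg h, zero_add]
        exact hf P (hP.1.trans hV) (hP.2.trans hV) h
    refine (sum_le_sum h2).trans ?_
    rw [sum_add_distrib]
    apply _root_.add_le_add _ (le_refl _)
    rw [← sum_filter, sum_const, nsmul_eq_mul, mul_comm]
    apply mul_le_mul_of_nonneg_left _ (Nat.cast_nonneg _)
    have h3 : ((V.powerset ×ˢ V.powerset).filter
        (fun P : Finset ℕ × Finset ℕ => P.1 = P.2)).card ≤ 2 ^ V.card := by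
      calc _ ≤ (V.powerset.image (fun F => (F, F))).card := by
            apply card_le_card
            rintro ⟨F, F'⟩ hP
            rw [mem_filter, mem_product] at hP
            rw [mem_image]
            refine ⟨F, hP.1.1, ?_⟩
            have := hP.2
            simp only at this
            rw [this]
        _ ≤ (V.powerset).card := card_image_le
        _ = 2 ^ V.card := by rw [card_powerset]
    exact_mod_cast h3
  have h4 := sum_le_sum h1
  rw [sum_add_distrib, ← mul_sum, tau_half] at h4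
  have h5 : (I.card : ℝ) * (3 / 2) ^ W.card / 2 ^ W.card ≤ 1 := by
    rw [mul_div_assoc, ← div_pow]
    have h6 : (3 / 2 / 2 : ℝ) ^ W.card = ((4 / 3) ^ W.card)⁻¹ := by
      rw [← inv_pow]
      congr 1
      norm_num
    rw [h6]
    have h7 : (0 : ℝ) < (4 / 3) ^ W.card := by positivity
    rw [← div_eq_mul_inv, div_le_one h7]
    exact hI
  calc _ ≤ ((I.card : ℝ) * (3 / 2) ^ W.card
        + ∑ V ∈ W.powerset, (∑ P ∈ V.powerset ×ˢ V.powerset, f P) / 4 ^ V.card)
          / 2 ^ W.card := div_le_div_of_nonneg_right h4 (by positivity)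
    _ = (I.card : ℝ) * (3 / 2) ^ W.card / 2 ^ W.card
        + (∑ V ∈ W.powerset, (∑ P ∈ V.powerset ×ˢ V.powerset, f P) / 4 ^ V.card)
          / 2 ^ W.card := by rw [add_div]
    _ ≤ _ := _root_.add_le_add h5 (le_refl _)

theorem sum_plz_le {ι : Type*} (I : Finset ι) (q : ι → ℕ) {m h Y : ℕ} {B : ℝ} {W : Finset ℕ}
    (hW : W ⊆ Ioc m (m + h)) (hY : m + h < Y) (hcop : ∀ i ∈ I, Nat.Coprime (m !) (q i))
    (hI : (I.card : ℝ) ≤ (4 / 3) ^ W.card) (hB0 : 0 ≤ B)
    (hB : ∀ z : ℤ, z ≠ 0 → z.natAbs < Y ^ (h + 1) →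
      ((I.filter (fun i => (q i : ℤ) ∣ z)).card : ℝ) ≤ B) :
    ∑ i ∈ I, plz Nat.factorial W (q i) ≤ 1 + B := by
  refine (tau_gen I q W (fun _ => B) (fun _ => hB0) ?_ hI).trans ?_
  · intro P h1 h2 hne
    obtain ⟨z, hz0, hz1, hz2⟩ := diff_form hY (h1.trans hW) (h2.trans hW) hne
    refine le_trans ?_ (hB z hz0 hz1)
    have : tauN I q P ≤ (I.filter (fun i => (q i : ℤ) ∣ z)).card := by
      unfold tauN
      apply card_le_card
      intro i hi
      rw [mem_filter] at hi ⊢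
      refine ⟨hi.1, ?_⟩
      rw [hz2] at hi
      have hc : IsCoprime ((q i : ℤ)) ((m ! : ℕ) : ℤ) :=
        (Nat.isCoprime_iff_coprime.mpr (hcop i hi.1)).symm
      exact hc.dvd_of_dvd_mul_left hi.2
    exact_mod_cast this
  · apply _root_.add_le_add (le_refl _)
    have h1 : ∀ V ∈ W.powerset,
        (∑ _P ∈ V.powerset ×ˢ V.powerset, B) / (4 : ℝ) ^ V.card = B := by
      intro V _
      rw [sum_const, card_product, card_powerset, ← mul_pow, nsmul_eq_mul]
      push_cast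
      norm_num
    rw [sum_congr rfl h1, sum_const, card_powerset, nsmul_eq_mul]
    push_cast
    rw [mul_div_assoc, mul_comm, div_mul_cancel₀]
    positivity

private lemma tau_mem_Tf {G : ℕ → Finset ℕ} {i : ℕ} {x : Fin i → Finset ℕ} :
    x ∈ Tf G i ↔ ∀ j : Fin i, x j ⊆ G j ∧ (x j).card ≤ 2 := by
  unfold Tf sub2
  rw [Fintype.mem_piFinset]
  simp only [mem_filter, mem_powerset]

private lemma tau_qq_succ {i : ℕ} (x : Fin (i + 1) → Finset ℕ) :
    qq x = qq (fun j : Fin i => x j.castSucc) * ∏ p ∈ x (Fin.last i), p := by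
  unfold qq
  rw [Fin.prod_univ_castSucc]

private lemma tau_count (G : ℕ → Finset ℕ) (i : ℕ) {m Y D : ℕ} (hmY : m < Y)
    (hG : ∀ p ∈ G i, p.Prime) (hGY : ∀ p ∈ G i, Y ≤ p) (z d : ℤ) (hd : d = (m ! : ℤ) * z)
    (hD : ((G i).filter (fun p : ℕ => (p : ℤ) ∣ z)).card ≤ D) :
    ((Tf G (i + 1)).filter (fun x => (qq x : ℤ) ∣ d)).card
      ≤ (D + 1) ^ 2 * ((Tf G i).filter (fun x => (qq x : ℤ) ∣ d)).card := by
  classical
  set H := (G i).filter (fun p : ℕ => (p : ℤ) ∣ z) with hH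
  have hdiv : ∀ p ∈ G i, (p : ℤ) ∣ d → (p : ℤ) ∣ z := by
    intro p hp hpd
    rw [hd] at hpd
    have hpp := hG p hp
    rcases (Nat.prime_iff_prime_int.mp hpp).dvd_or_dvd hpd with h | h
    · exfalso
      have h1 : p ∣ m ! := by exact_mod_cast h
      rw [hpp.dvd_factorial] at h1
      have := hGY p hp
      omega
    · exact h
  have h1 : ((Tf G (i + 1)).filter (fun x => (qq x : ℤ) ∣ d)).card
      ≤ ((H.powerset.filter (fun A => A.card ≤ 2)) ×ˢ
        ((Tf G i).filter (fun x => (qq x : ℤ) ∣ d))).card := by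
    apply card_le_card_of_injOn
      (fun x => (x (Fin.last i), fun j : Fin i => x j.castSucc))
    · intro x hx
      rw [mem_coe, mem_filter, tau_mem_Tf] at hx
      obtain ⟨hx1, hx2⟩ := hx
      rw [tau_qq_succ] at hx2
      push_cast at hx2
      rw [mem_coe, mem_product, mem_filter, mem_filter, mem_powerset, tau_mem_Tf]
      refine ⟨⟨?_, (hx1 (Fin.last i)).2⟩, fun j => hx1 j.castSucc, ?_⟩
      · intro p hp
        have hpG : p ∈ G i := by
          have := (hx1 (Fin.last i)).1 hp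
          simpa using this
        rw [hH, mem_filter]
        refine ⟨hpG, hdiv p hpG ?_⟩
        have h2 : (p : ℤ) ∣ ∏ p ∈ x (Fin.last i), (p : ℤ) :=
          dvd_prod_of_mem (fun p : ℕ => (p : ℤ)) hp
        exact h2.trans ((dvd_mul_left _ _).trans hx2)
      · exact (dvd_mul_right _ _).trans hx2
    · intro x _ y _ hxy
      have e1 := congrArg Prod.fst hxy
      have e2 := congrArg Prod.snd hxy
      simp only at e1 e2
      funext j
      refine Fin.lastCases ?_ (fun j => ?_) j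
      · exact e1
      · exact congrFun e2 j
  rw [card_product] at h1
  refine h1.trans (Nat.mul_le_mul_right _ ?_)
  exact (card_small_subsets H 2).trans (Nat.pow_le_pow_left (by omega) 2)

theorem Lam_succ (G : ℕ → Finset ℕ) (i : ℕ) {m h Y D : ℕ} {W : Finset ℕ}
    (hW : W ⊆ Ioc m (m + h)) (hY : m + h < Y) (hG : ∀ j ≤ i, ∀ p ∈ G j, p.Prime)
    (hGY : ∀ j ≤ i, ∀ p ∈ G j, Y ≤ p)
    (_hGd : ∀ j ≤ i, ∀ j' ≤ i, j ≠ j' → Disjoint (G j) (G j'))
    (hT : ((Tf G (i + 1)).card : ℝ) ≤ (4 / 3) ^ W.card)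
    (hD : ∀ z : ℤ, z ≠ 0 → z.natAbs < Y ^ (h + 1) →
      ((G i).filter (fun p : ℕ => (p : ℤ) ∣ z)).card ≤ D) :
    Lam G (i + 1) W ≤ 1 + ((D : ℝ) + 1) ^ 2 * Lam G i W := by
  have key := tau_gen (Tf G (i + 1)) (fun x => qq x) W
    (fun P => ((D : ℝ) + 1) ^ 2 * (tauN (Tf G i) (fun x => qq x) P : ℝ))
    (fun P => by positivity) (by
      intro P h1 h2 hne
      obtain ⟨z, hz0, hz1, hz2⟩ := diff_form hY (h1.trans hW) (h2.trans hW) hne
      have h3 := tau_count G i (m := m) (Y := Y) (D := D) (by omega) (hG i le_rfl)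
        (hGY i le_rfl) z _ hz2 (hD z hz0 hz1)
      unfold tauN
      exact_mod_cast h3) hT
  unfold Lam
  refine key.trans (_root_.add_le_add (le_refl _) ?_)
  rw [tau_sum_plz]
  apply le_of_eq
  simp only [← mul_sum]
  rw [← mul_div_assoc, mul_sum]
  congr 1
  refine sum_congr rfl fun V _ => ?_
  rw [mul_div_assoc]

theorem sum_inv_qq (G : ℕ → Finset ℕ) (i : ℕ) :
    ∑ x ∈ Tf G i, (1 : ℝ) / (qq x : ℝ)
      = ∏ j : Fin i, ∑ A ∈ sub2 (G j), ∏ p ∈ A, (1 / (p : ℝ)) := by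
  rw [prod_univ_sum]
  unfold Tf
  refine sum_congr rfl fun x _ => ?_
  unfold qq
  push_cast
  simp only [one_div, prod_inv_distrib]

end Pool.Agent.H70.PF
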