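import Pool.Agent.H70.PF.Lazy
import Pool.Agent.H70.PF.Tau

set_option autoImplicit false

/-! # The multi-scale recursion -/

namespace Pool.Agent.H70.PF

open Finset Nat

namespace Rec

lemma win_card {s : ℕ → ℕ} {g Y J : ℕ} : ∀ (i : ℕ) (W : Finset ℕ), Win s g Y J i W → s i ≤ W.card
  | 0, _, h => h.1
  | _ + 1, _, h => h.1

lemma win_int {s : ℕ → ℕ} {g Y J : ℕ} : ∀ (i : ℕ) (W : Finset ℕ), Win s g Y J i W →
    ∃ m, W ⊆ Ioc m (m + g * s i) ∧ m + g * s i < Y
  | 0, _, h => h.2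
  | _ + 1, _, h => h.2.1

lemma win_lt {s : ℕ → ℕ} {g Y J i : ℕ} {W : Finset ℕ} (h : Win s g Y J i W) :
    ∀ n ∈ W, n < Y := by
  obtain ⟨m, hm, hY⟩ := win_int i W h
  intro n hn
  have := (mem_Ioc.mp (hm hn)).2
  omega

lemma Lam_zero (G : ℕ → Finset ℕ) (W : Finset ℕ) : Lam G 0 W = 1 := by
  have h1 : Tf G 0 = {fun j => j.elim0} := by
    apply Finset.eq_singleton_iff_unique_mem.mpr
    constructor
    · rw [Tf, Fintype.mem_piFinset]
      intro j
      exact j.elim0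
    · intro x _
      funext j
      exact j.elim0
  rw [Lam, h1, Finset.sum_singleton]
  have h2 : qq (fun j : Fin 0 => (j.elim0 : Finset ℕ)) = 1 := by
    simp [qq]
  rw [h2, plz_one]

lemma mem_G {G : ℕ → Finset ℕ} {i : ℕ} {x : Fin i → Finset ℕ} (hx : x ∈ Tf G i) (j : Fin i) :
    x j ⊆ G j := by
  rw [Tf, Fintype.mem_piFinset] at hx
  have := hx j
  rw [sub2, mem_filter, mem_powerset] at this
  exact this.1

end Rec

open Rec

theorem Lam_win (G : ℕ → Finset ℕ) (s : ℕ → ℕ) {g Y J D k n : ℕ} (hs : 0 < s 0)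
    (hsm : ∀ i < n, s i ≤ s (i + 1))
    (hG : ∀ j ≤ n, ∀ p ∈ G j, p.Prime) (hGY : ∀ j ≤ n, ∀ p ∈ G j, Y ≤ p)
    (hGd : ∀ j ≤ n, ∀ j' ≤ n, j ≠ j' → Disjoint (G j) (G j'))
    (hGs : ∀ j ≤ n, ∑ A ∈ sub2 (G j), ∏ p ∈ A, (1 / (p : ℝ)) ≤ 3)
    (hk : 1 ≤ k) (hJ : 22 ^ k * (16 * k) ≤ J) (hkD : 6 * (D + 1) ^ 2 ≤ 2 ^ k)
    (hT : ∀ i ≤ n, ((Tf G (i + 1)).card : ℝ) ≤ (4 / 3) ^ (s i))
    (hD : ∀ i ≤ n, ∀ z : ℤ, z ≠ 0 → z.natAbs < Y ^ (g * s i + 1) →
      ((G i).filter (fun p : ℕ => (p : ℤ) ∣ z)).card ≤ D) :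
    ∀ i ≤ n, ∀ W : Finset ℕ, Win s g Y J i W →
      Lam G (i + 1) W ≤ 2 * ((D : ℝ) + 1) ^ 2 * 3 ^ (i + 1) := by
  have hspos : ∀ i ≤ n, 0 < s i := by
    intro i
    induction i with
    | zero => intro _; exact hs
    | succ i ih =>
      intro hi
      exact lt_of_lt_of_le (ih (by omega)) (hsm i (by omega))
  have hD1 : (1 : ℝ) ≤ ((D : ℝ) + 1) ^ 2 := by
    have : (0 : ℝ) ≤ D := Nat.cast_nonneg D
    nlinarith
  -- the one-step bound
  have hstep : ∀ i ≤ n, ∀ W : Finset ℕ, Win s g Y J i W →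
      Lam G (i + 1) W ≤ 1 + ((D : ℝ) + 1) ^ 2 * Lam G i W := by
    intro i hi W hW
    obtain ⟨m, hm, hY⟩ := win_int i W hW
    apply Lam_succ G i hm hY (fun j hj => hG j (hj.trans hi)) (fun j hj => hGY j (hj.trans hi))
      (fun j hj j' hj' => hGd j (hj.trans hi) j' (hj'.trans hi))
    · refine (hT i hi).trans ?_
      exact pow_le_pow_right₀ (by norm_num) (win_card i W hW)
    · exact hD i hi
  intro i
  induction i with
  | zero =>
    intro hi W hW
    have h1 := hstep 0 hi W hW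
    rw [Lam_zero, mul_one] at h1
    have : (3 : ℝ) ^ (0 + 1) = 3 := by norm_num
    rw [this]
    linarith
  | succ i ih =>
    intro hi W hW
    have h1 := hstep (i + 1) hi W hW
    have hin : i ≤ n := by omega
    obtain ⟨_, _, S, Ws, hJS, hdis, hwin, hWeq⟩ := hW
    have hScard : 22 ^ k * (16 * k) ≤ S.card := hJ.trans hJS
    have hSpos : (0 : ℝ) < S.card := by
      have : 0 < 22 ^ k * (16 * k) := by positivity
      exact_mod_cast lt_of_lt_of_le this hScard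
    have h2 : Lam G (i + 1) W ≤ 2 * 3 ^ (i + 1) := by
      have h3 : ∀ x ∈ Tf G (i + 1), plz Nat.factorial W (qq x) ≤ 1 / (qq x : ℝ) +
          (3 / 2 ^ k) * ((∑ j ∈ S, plz Nat.factorial (Ws j) (qq x)) / S.card) := by
        intro x hx
        have hpr : ∀ j : Fin (i + 1), ∀ p ∈ x j, p.Prime ∧ Y ≤ p := by
          intro j p hp
          have hj : (j : ℕ) ≤ n := by have := j.2; omega
          exact ⟨hG j hj p (mem_G hx j hp), hGY j hj p (mem_G hx j hp)⟩
        have hq0 : qq x ≠ 0 := by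
          rw [qq]
          exact Finset.prod_ne_zero_iff.mpr fun j _ => Finset.prod_ne_zero_iff.mpr fun p hp =>
            (hpr j p hp).1.ne_zero
        have h4 := (dev_lazy Nat.factorial hq0 S Ws hdis (fun j hj => by
            rw [← Finset.card_pos]
            exact lt_of_lt_of_le (hspos i hin) (win_card i _ (hwin j hj)))
          (fun j hj a ha => by
            have haY := win_lt (hwin j hj) a ha
            rw [ZMod.isUnit_iff_coprime, qq]
            refine Nat.Coprime.prod_right fun j' _ => Nat.Coprime.prod_right fun p hp => ?_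
            have hp' := hpr j' p hp
            rw [Nat.coprime_comm, Nat.Prime.coprime_iff_not_dvd hp'.1, hp'.1.dvd_factorial]
            omega) k hk hScard).2
        rw [← hWeq] at h4
        exact h4
      have h5 : Lam G (i + 1) W ≤ ∑ x ∈ Tf G (i + 1), (1 / (qq x : ℝ) +
          (3 / 2 ^ k) * ((∑ j ∈ S, plz Nat.factorial (Ws j) (qq x)) / S.card)) :=
        Finset.sum_le_sum h3
      rw [Finset.sum_add_distrib, ← Finset.mul_sum, ← Finset.sum_div, Finset.sum_comm,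
        sum_inv_qq] at h5
      have h6 : ∏ j : Fin (i + 1), ∑ A ∈ sub2 (G j), ∏ p ∈ A, (1 / (p : ℝ)) ≤ 3 ^ (i + 1) := by
        calc _ ≤ ∏ j : Fin (i + 1), (3 : ℝ) := by
              apply Finset.prod_le_prod
              · intro j _
                exact Finset.sum_nonneg fun A _ => Finset.prod_nonneg fun p _ => by positivity
              · intro j _
                exact hGs j (by have := j.2; omega)
          _ = 3 ^ (i + 1) := by simp
      have h7 : (∑ j ∈ S, ∑ x ∈ Tf G (i + 1), plz Nat.factorial (Ws j) (qq x)) / S.card ≤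
          2 * ((D : ℝ) + 1) ^ 2 * 3 ^ (i + 1) := by
        rw [div_le_iff₀ hSpos]
        calc _ ≤ ∑ j ∈ S, 2 * ((D : ℝ) + 1) ^ 2 * 3 ^ (i + 1) :=
              Finset.sum_le_sum fun j hj => ih hin (Ws j) (hwin j hj)
          _ = _ := by rw [Finset.sum_const, nsmul_eq_mul]; ring
      have h8 : (3 / 2 ^ k : ℝ) * (2 * ((D : ℝ) + 1) ^ 2) ≤ 1 := by
        rw [div_mul_eq_mul_div, div_le_one (by positivity)]
        have : (6 * ((D : ℝ) + 1) ^ 2) ≤ 2 ^ k := by exact_mod_cast hkD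
        linarith
      have h9 : (3 / 2 ^ k : ℝ) * ((∑ j ∈ S, ∑ x ∈ Tf G (i + 1),
          plz Nat.factorial (Ws j) (qq x)) / S.card) ≤ 3 ^ (i + 1) := by
        calc _ ≤ (3 / 2 ^ k : ℝ) * (2 * ((D : ℝ) + 1) ^ 2 * 3 ^ (i + 1)) :=
              mul_le_mul_of_nonneg_left h7 (by positivity)
          _ = (3 / 2 ^ k : ℝ) * (2 * ((D : ℝ) + 1) ^ 2) * 3 ^ (i + 1) := by ring
          _ ≤ 1 * 3 ^ (i + 1) := mul_le_mul_of_nonneg_right h8 (by positivity)
          _ = 3 ^ (i + 1) := one_mul _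
      linarith
    have h10 : ((D : ℝ) + 1) ^ 2 * Lam G (i + 1) W ≤ ((D : ℝ) + 1) ^ 2 * (2 * 3 ^ (i + 1)) :=
      mul_le_mul_of_nonneg_left h2 (by positivity)
    have h11 : (1 : ℝ) ≤ ((D : ℝ) + 1) ^ 2 * 3 ^ (i + 1) := by
      have : (1 : ℝ) ≤ 3 ^ (i + 1) := one_le_pow₀ (by norm_num)
      nlinarith
    have h12 : 2 * ((D : ℝ) + 1) ^ 2 * 3 ^ (i + 1 + 1) =
        3 * (((D : ℝ) + 1) ^ 2 * (2 * 3 ^ (i + 1))) := by ring
    rw [h12]
    linarith

end Pool.Agent.H70.PF
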