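import Pool.Agent.H70.PF.Def2

set_option autoImplicit false

/-! # Nested windows inside a large set -/

namespace Pool.Agent.H70.PF

open Finset Nat

/-- windows of level `i` inside `U` -/
def wn (U : Finset ℕ) (s : ℕ → ℕ) (g J : ℕ) : ℕ → ℕ → Finset ℕ
  | 0, b => U ∩ Ioc (b * (g * s 0)) (b * (g * s 0) + g * s 0)
  | i + 1, b => ((range (g * J)).filter
      (fun c => s i ≤ (wn U s g J i (b * (g * J) + c)).card)).biUnion
      (fun c => wn U s g J i (b * (g * J) + c))

lemma interval_sub {b c K h : ℕ} (hc : c < K) {x : ℕ}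
    (hx : x ∈ Ioc ((b * K + c) * h) ((b * K + c) * h + h)) :
    x ∈ Ioc (b * (K * h)) (b * (K * h) + K * h) := by
  rw [mem_Ioc] at hx ⊢
  have e1 : (b * K + c) * h = b * (K * h) + c * h := by ring
  have e2 : (c + 1) * h ≤ K * h := Nat.mul_le_mul_right _ hc
  rw [add_mul, one_mul] at e2
  omega

lemma interval_disj {b b' h : ℕ} (hb : b ≠ b') :
    Disjoint (Ioc (b * h) (b * h + h)) (Ioc (b' * h) (b' * h + h)) := by
  rw [disjoint_left]
  intro x hx hx'
  rw [mem_Ioc] at hx hx'
  rcases lt_or_gt_of_ne hb with h1 | h1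
  · have : (b + 1) * h ≤ b' * h := Nat.mul_le_mul_right _ h1
    rw [add_mul, one_mul] at this
    omega
  · have : (b' + 1) * h ≤ b * h := Nat.mul_le_mul_right _ h1
    rw [add_mul, one_mul] at this
    omega

lemma exists_index {x h : ℕ} (hh : 0 < h) (hx : 1 ≤ x) :
    x ∈ Ioc ((x - 1) / h * h) ((x - 1) / h * h + h) := by
  rw [mem_Ioc]
  have h2 := Nat.div_add_mod (x - 1) h
  have h3 := Nat.mod_lt (x - 1) hh
  rw [mul_comm] at h2
  omega

/-- a big interval is covered by its pieces -/
lemma interval_cover {b K h : ℕ} (hh : 0 < h) (U : Finset ℕ) :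
    U ∩ Ioc (b * (K * h)) (b * (K * h) + K * h)
      ⊆ (range K).biUnion (fun c => U ∩ Ioc ((b * K + c) * h) ((b * K + c) * h + h)) := by
  intro x hx
  rw [mem_inter, mem_Ioc] at hx
  have h1 := exists_index (x := x) hh (by omega)
  rw [mem_Ioc] at h1
  set q := (x - 1) / h with hq
  have h2 : b * K ≤ q := by
    have e1 : b * K * h < (q + 1) * h := by
      rw [add_mul, one_mul, mul_assoc]
      omega
    have := Nat.lt_of_mul_lt_mul_right e1
    omega
  have h3 : q < b * K + K := by
    have e1 : q * h < (b * K + K) * h := by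
      have : (b * K + K) * h = b * (K * h) + K * h := by ring
      rw [this]
      omega
    exact Nat.lt_of_mul_lt_mul_right e1
  rw [mem_biUnion]
  refine ⟨q - b * K, ?_, ?_⟩
  · rw [mem_range]
    omega
  · have : b * K + (q - b * K) = q := by omega
    rw [this, mem_inter, mem_Ioc]
    exact ⟨hx.1, h1⟩

section

variable {U : Finset ℕ} {n g J : ℕ} {s : ℕ → ℕ}

lemma wn_sub (hsR : ∀ i < n, s (i + 1) = (g * J) * s i) :
    ∀ i ≤ n, ∀ b, wn U s g J i b ⊆ U ∩ Ioc (b * (g * s i)) (b * (g * s i) + g * s i) := by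
  intro i
  induction i with
  | zero =>
    intro _ b
    exact subset_rfl
  | succ i ih =>
    intro hi b x hx
    have e : g * s (i + 1) = (g * J) * (g * s i) := by
      rw [hsR i (by omega)]
      ring
    unfold wn at hx
    rw [mem_biUnion] at hx
    obtain ⟨c, hc, hx⟩ := hx
    rw [mem_filter, mem_range] at hc
    have h1 := ih (by omega) _ hx
    rw [mem_inter] at h1 ⊢
    refine ⟨h1.1, ?_⟩
    rw [e]
    exact interval_sub hc.1 h1.2

lemma wn_disj (hsR : ∀ i < n, s (i + 1) = (g * J) * s i) {i : ℕ} (hi : i ≤ n) {b b' : ℕ}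
    (hb : b ≠ b') : Disjoint (wn U s g J i b) (wn U s g J i b') :=
  disjoint_of_subset_left ((wn_sub hsR i hi b).trans inter_subset_right)
    (disjoint_of_subset_right ((wn_sub hsR i hi b').trans inter_subset_right)
      (interval_disj hb))

lemma wn_card_le (hsR : ∀ i < n, s (i + 1) = (g * J) * s i) {i : ℕ} (hi : i ≤ n) (b : ℕ) :
    (wn U s g J i b).card ≤ g * s i := by
  calc (wn U s g J i b).card ≤ (Ioc (b * (g * s i)) (b * (g * s i) + g * s i)).card :=
        card_le_card ((wn_sub hsR i hi b).trans inter_subset_right)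
    _ = g * s i := by rw [Nat.card_Ioc]; omega

lemma wn_succ_card (hsR : ∀ i < n, s (i + 1) = (g * J) * s i) {i : ℕ} (hi : i + 1 ≤ n) (b : ℕ) :
    (wn U s g J (i + 1) b).card = ∑ c ∈ (range (g * J)).filter
      (fun c => s i ≤ (wn U s g J i (b * (g * J) + c)).card),
        (wn U s g J i (b * (g * J) + c)).card := by
  rw [wn, card_biUnion]
  intro c _ c' _ hcc
  exact wn_disj hsR (by omega) (by omega)

/-- the elements lost by discarding poor windows -/
lemma sum_good_bad {κ : Type*} (S : Finset κ) (f : κ → ℕ) (t : ℕ) :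
    ∑ c ∈ S, f c ≤ ∑ c ∈ S.filter (fun c => t ≤ f c), f c + S.card * t := by
  rw [← sum_filter_add_sum_filter_not S (fun c => t ≤ f c)]
  apply Nat.add_le_add_left
  calc ∑ c ∈ S.filter (fun c => ¬ t ≤ f c), f c ≤ ∑ c ∈ S.filter (fun c => ¬ t ≤ f c), t := by
        refine sum_le_sum fun c hc => ?_
        rw [mem_filter] at hc
        omega
    _ = (S.filter (fun c => ¬ t ≤ f c)).card * t := by rw [sum_const, smul_eq_mul]
    _ ≤ S.card * t := Nat.mul_le_mul_right _ (card_filter_le _ _)

lemma wn_loss (hg : 0 < g) (hs : ∀ i ≤ n, 0 < s i)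
    (hsR : ∀ i < n, s (i + 1) = (g * J) * s i) :
    ∀ i ≤ n, ∀ b, (U ∩ Ioc (b * (g * s i)) (b * (g * s i) + g * s i)).card
      ≤ (wn U s g J i b).card + i * s i := by
  intro i
  induction i with
  | zero =>
    intro _ b
    rw [wn]
    omega
  | succ i ih =>
    intro hi b
    have e : g * s (i + 1) = (g * J) * (g * s i) := by
      rw [hsR i (by omega)]
      ring
    have hgs : 0 < g * s i := Nat.mul_pos hg (hs i (by omega))
    have h1 := card_le_card (interval_cover (b := b) (K := g * J) hgs U)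
    rw [← e] at h1
    have h2 : ((range (g * J)).biUnion (fun c => U ∩ Ioc ((b * (g * J) + c) * (g * s i))
        ((b * (g * J) + c) * (g * s i) + g * s i))).card
        ≤ ∑ c ∈ range (g * J), ((wn U s g J i (b * (g * J) + c)).card + i * s i) := by
      refine card_biUnion_le.trans (sum_le_sum fun c _ => ?_)
      exact ih (by omega) _
    rw [sum_add_distrib, sum_const, card_range, smul_eq_mul] at h2
    have h3 := sum_good_bad (range (g * J)) (fun c => (wn U s g J i (b * (g * J) + c)).card) (s i)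
    rw [card_range] at h3
    rw [wn_succ_card hsR hi]
    have h4 : (i + 1) * s (i + 1) = g * J * s i + g * J * (i * s i) := by
      rw [hsR i (by omega)]
      ring
    rw [h4]
    omega

lemma wn_win {N Y : ℕ} (hU : U ⊆ Icc 1 N) (hg : 0 < g) (hs : ∀ i ≤ n, 0 < s i)
    (hsm : ∀ i ≤ n, s i ≤ s n) (hsR : ∀ i < n, s (i + 1) = (g * J) * s i)
    (hY : N + g * s n < Y) :
    ∀ i ≤ n, ∀ b, s i ≤ (wn U s g J i b).card → Win s g Y J i (wn U s g J i b) := by
  intro i
  have hint : ∀ i ≤ n, ∀ b, s i ≤ (wn U s g J i b).card →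
      ∃ m, wn U s g J i b ⊆ Ioc m (m + g * s i) ∧ m + g * s i < Y := by
    intro i hi b hb
    refine ⟨b * (g * s i), (wn_sub hsR i hi b).trans inter_subset_right, ?_⟩
    have h1 : (wn U s g J i b).Nonempty := by
      rw [← card_pos]
      exact lt_of_lt_of_le (hs i hi) hb
    obtain ⟨x, hx⟩ := h1
    have h2 := wn_sub hsR i hi b hx
    rw [mem_inter, mem_Ioc] at h2
    have h3 := hU h2.1
    rw [mem_Icc] at h3
    have h4 : g * s i ≤ g * s n := Nat.mul_le_mul_left _ (hsm i hi)
    omega
  induction i with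
  | zero =>
    intro hi b hb
    exact ⟨hb, hint 0 hi b hb⟩
  | succ i ih =>
    intro hi b hb
    refine ⟨hb, hint (i + 1) hi b hb, (range (g * J)).filter
      (fun c => s i ≤ (wn U s g J i (b * (g * J) + c)).card),
      fun c => wn U s g J i (b * (g * J) + c), ?_, ?_, ?_, ?_⟩
    · have h1 : s (i + 1) ≤ ((range (g * J)).filter
          (fun c => s i ≤ (wn U s g J i (b * (g * J) + c)).card)).card * (g * s i) := by
        refine hb.trans ?_
        rw [wn_succ_card hsR hi]
        calc _ ≤ ∑ c ∈ (range (g * J)).filter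
              (fun c => s i ≤ (wn U s g J i (b * (g * J) + c)).card), g * s i :=
              sum_le_sum fun c _ => wn_card_le hsR (by omega) _
          _ = _ := by rw [sum_const, smul_eq_mul]
      rw [hsR i (by omega)] at h1
      have hgs : 0 < g * s i := Nat.mul_pos hg (hs i (by omega))
      have h2 : J * (g * s i) ≤ ((range (g * J)).filter
          (fun c => s i ≤ (wn U s g J i (b * (g * J) + c)).card)).card * (g * s i) := by
        calc J * (g * s i) = g * J * s i := by ring
          _ ≤ _ := h1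
      exact Nat.le_of_mul_le_mul_right h2 hgs
    · intro c _ c' _ hcc
      exact wn_disj hsR (by omega) (by omega)
    · intro c hc
      rw [mem_filter] at hc
      exact ih (by omega) _ hc.2
    · rfl

end

theorem exists_tower {U : Finset ℕ} {N n g J Y Rf Jf : ℕ} (s : ℕ → ℕ) (hU : U ⊆ Icc 1 N)
    (hg : 0 < g) (hs : 0 < s 0) (hsR : ∀ i < n, s (i + 1) = (g * J) * s i) (hJ : 0 < J)
    (hcov : N ≤ g * (Rf * s n)) (hY : N + g * s n < Y)
    (hUc : Jf * (g * s n) + (n + 1) * (Rf * s n) ≤ U.card) :
    ∃ (S : Finset ℕ) (Ws : ℕ → Finset ℕ), Jf ≤ S.card ∧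
      (∀ a ∈ S, ∀ b ∈ S, a ≠ b → Disjoint (Ws a) (Ws b)) ∧
      (∀ a ∈ S, Win s g Y J n (Ws a)) ∧ ∀ a ∈ S, Ws a ⊆ U := by
  have hgJ : 1 ≤ g * J := Nat.mul_pos hg hJ
  have hstep : ∀ i < n, s i ≤ s (i + 1) := by
    intro i hi
    rw [hsR i hi]
    exact Nat.le_mul_of_pos_left _ hgJ
  have hpos : ∀ i ≤ n, 0 < s i := by
    intro i
    induction i with
    | zero => intro _; exact hs
    | succ i ih => intro hi; exact lt_of_lt_of_le (ih (by omega)) (hstep i (by omega))
  have hsm : ∀ i ≤ n, s i ≤ s n := by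
    intro i hi
    obtain ⟨j, hj⟩ := Nat.exists_eq_add_of_le hi
    have : ∀ j, i + j ≤ n → s i ≤ s (i + j) := by
      intro j
      induction j with
      | zero => intro _; exact le_rfl
      | succ j ihj =>
        intro h
        exact (ihj (by omega)).trans (hstep (i + j) (by omega))
    rw [hj]
    exact this j (by omega)
  have hgs : 0 < g * s n := Nat.mul_pos hg (hpos n le_rfl)
  refine ⟨(range Rf).filter (fun b => s n ≤ (wn U s g J n b).card), fun b => wn U s g J n b,
    ?_, ?_, ?_, ?_⟩
  · have h1 : U ⊆ (range Rf).biUnion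
        (fun b => U ∩ Ioc (b * (g * s n)) (b * (g * s n) + g * s n)) := by
      intro x hx
      have h2 := hU hx
      rw [mem_Icc] at h2
      have h3 := exists_index (x := x) hgs h2.1
      rw [mem_Ioc] at h3
      rw [mem_biUnion]
      refine ⟨(x - 1) / (g * s n), ?_, ?_⟩
      · rw [mem_range]
        have h4 : (x - 1) / (g * s n) * (g * s n) < Rf * (g * s n) := by
          have : g * (Rf * s n) = Rf * (g * s n) := by ring
          rw [this] at hcov
          omega
        exact Nat.lt_of_mul_lt_mul_right h4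
      · rw [mem_inter, mem_Ioc]
        exact ⟨hx, h3⟩
    have h2 : U.card ≤ ∑ b ∈ range Rf, ((wn U s g J n b).card + n * s n) := by
      refine (card_le_card h1).trans (card_biUnion_le.trans (sum_le_sum fun b _ => ?_))
      exact wn_loss hg hpos hsR n le_rfl b
    rw [sum_add_distrib, sum_const, card_range, smul_eq_mul] at h2
    have h3 := sum_good_bad (range Rf) (fun b => (wn U s g J n b).card) (s n)
    rw [card_range] at h3
    have h4 : ∑ b ∈ (range Rf).filter (fun b => s n ≤ (wn U s g J n b).card),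
        (wn U s g J n b).card
        ≤ ((range Rf).filter (fun b => s n ≤ (wn U s g J n b).card)).card * (g * s n) := by
      calc _ ≤ ∑ b ∈ (range Rf).filter (fun b => s n ≤ (wn U s g J n b).card), g * s n :=
            sum_le_sum fun b _ => wn_card_le hsR le_rfl b
        _ = _ := by rw [sum_const, smul_eq_mul]
    have h5 : (n + 1) * (Rf * s n) = Rf * (n * s n) + Rf * s n := by ring
    have h6 : Jf * (g * s n)
        ≤ ((range Rf).filter (fun b => s n ≤ (wn U s g J n b).card)).card * (g * s n) := by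
      omega
    exact Nat.le_of_mul_le_mul_right h6 hgs
  · intro a _ b _ hab
    exact wn_disj hsR le_rfl hab
  · intro a ha
    rw [mem_filter] at ha
    exact wn_win hU hg hpos hsm hsR hY n le_rfl a ha.2
  · intro a _
    exact (wn_sub hsR n le_rfl a).trans inter_subset_left

end Pool.Agent.H70.PF
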