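import Pool.Agent.H70.PF.Def3
import Pool.Agent.H70.PF.Fixed3
import Pool.Agent.H70.PF.Recur
import Pool.Agent.H70.PF.Tower

set_option autoImplicit false

/-! # Few sums of distinct factorials are powerful: several scales, abstract parameters -/

namespace Pool.Agent.H70.PF

open Finset Nat

theorem abs4 {B : ℝ} {U : Finset ℕ} {N n g J Y Rf k kf D : ℕ} (G : ℕ → Finset ℕ) (s : ℕ → ℕ)
    (hU : U ⊆ Icc 1 N) (hG : ∀ j ≤ n, ∀ p ∈ G j, p.Prime) (hGY : ∀ j ≤ n, ∀ p ∈ G j, Y ≤ p)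
    (hGB : ∀ j ≤ n, ∀ p ∈ G j, B < p)
    (hGd : ∀ j ≤ n, ∀ j' ≤ n, j ≠ j' → Disjoint (G j) (G j'))
    (hG1 : ∀ j ≤ n, 1 ≤ ∑ p ∈ G j, (1 : ℝ) / p) (hG2 : ∀ j ≤ n, ∑ p ∈ G j, (1 : ℝ) / p ≤ 17 / 16)
    (hg : 0 < g) (hs : 0 < s 0) (hsR : ∀ i < n, s (i + 1) = (g * J) * s i) (hJ0 : 0 < J)
    (hk : 1 ≤ k) (hJ : 22 ^ k * (16 * k) ≤ J) (hkD : 6 * (D + 1) ^ 2 ≤ 2 ^ k)
    (hT : ∀ i ≤ n, ((Tf G (i + 1)).card : ℝ) ≤ (4 / 3) ^ (s i))
    (hD : ∀ i ≤ n, ∀ z : ℤ, z ≠ 0 → z.natAbs < Y ^ (g * s i + 1) →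
      ((G i).filter (fun p : ℕ => (p : ℤ) ∣ z)).card ≤ D)
    (hcov : N ≤ g * (Rf * s n)) (hY : N + g * s n < Y) (hkf : 1 ≤ kf)
    (hUc : 22 ^ kf * (16 * kf) * (g * s n) + (n + 1) * (Rf * s n) ≤ U.card)
    (hP : (((range (n + 1)).biUnion G).card : ℝ) ≤ (4 / 3) ^ (s n))
    (hE1 : (3 / 2 ^ kf) * (2 * ((D : ℝ) + 1) ^ 2 * 3 ^ (n + 1)) ≤ (1 / 2) ^ (n + 1))
    (hE2 : (3 / 2 ^ kf) * (1 + (g * s n : ℕ)) ≤ (1 / 2 : ℝ) ^ (n + 1))
    (hE3 : ∑ j ∈ range (n + 1), ∑ p ∈ G j, 1 / (p : ℝ) ^ 2 ≤ (1 / 2) ^ (n + 1)) (R : ℤ) :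
    (num U (fun F => pwAZ B (R + ((∑ j ∈ F, j ! : ℕ) : ℤ))) : ℝ) / 2 ^ U.card
      ≤ 4 * (3 / 5) ^ (n + 1) := by
  obtain ⟨S, Ws, hS, hWd, hWin, hWU⟩ := exists_tower (U := U) (N := N) (n := n) (g := g) (J := J)
    (Y := Y) (Rf := Rf) (Jf := 22 ^ kf * (16 * kf)) s hU hg hs hsR hJ0 hcov hY hUc
  have hgJ : 1 ≤ g * J := Nat.mul_pos hg hJ0
  have hsm : ∀ i < n, s i ≤ s (i + 1) := by
    intro i hi
    rw [hsR i hi]
    exact Nat.le_mul_of_pos_left _ hgJ
  have hspos : ∀ i ≤ n, 0 < s i := by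
    intro i
    induction i with
    | zero => intro _; exact hs
    | succ i ih => intro hi; exact lt_of_lt_of_le (ih (by omega)) (hsm i (by omega))
  have hLam := Lam_win G s (g := g) (Y := Y) (J := J) (D := D) (k := k) (n := n) hs hsm hG hGY hGd
    (fun j hj => sum_sub2_le (G j) (hG2 j hj)) hk hJ hkD hT hD n le_rfl
  have hY1 : 1 < Y := by
    have := hspos n le_rfl
    have : 0 < g * s n := Nat.mul_pos hg this
    omega
  have hB2 : ∀ a ∈ S, ∑ j ∈ range (n + 1), ∑ p ∈ G j, plz Nat.factorial (Ws a) (p ^ 2)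
      ≤ 1 + ((g * s n : ℕ) : ℝ) := by
    intro a ha
    obtain ⟨m, hm1, hm2⟩ := Win_int (hWin a ha)
    have e1 : ∑ j ∈ range (n + 1), ∑ p ∈ G j, plz Nat.factorial (Ws a) (p ^ 2)
        = ∑ p ∈ (range (n + 1)).biUnion G, plz Nat.factorial (Ws a) (p ^ 2) := by
      rw [sum_biUnion]
      intro x hx y hy hxy
      rw [mem_coe, mem_range] at hx hy
      exact hGd x (by omega) y (by omega) hxy
    have hPp : ∀ p ∈ (range (n + 1)).biUnion G, p.Prime ∧ Y ≤ p := by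
      intro p hp
      rw [mem_biUnion] at hp
      obtain ⟨j, hj, hp⟩ := hp
      rw [mem_range] at hj
      exact ⟨hG j (by omega) p hp, hGY j (by omega) p hp⟩
    rw [e1]
    apply sum_plz_le ((range (n + 1)).biUnion G) (fun p => p ^ 2) hm1 hm2
    · intro p hp
      exact Nat.Coprime.pow_right 2 (coprime_of_lt (hPp p hp).1 (by omega) (hPp p hp).2)
    · refine hP.trans ?_
      exact pow_le_pow_right₀ (by norm_num) (Win_card (hWin a ha))
    · positivity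
    · intro z hz hzY
      have h1 := few_primes ((range (n + 1)).biUnion G) (fun p hp => (hPp p hp).1) hY1
        (fun p hp => (hPp p hp).2) hz hzY
      refine le_trans ?_ (Nat.cast_le.mpr h1)
      refine Nat.cast_le.mpr (card_le_card ?_)
      intro p hp
      rw [mem_filter] at hp ⊢
      refine ⟨hp.1, dvd_trans ?_ hp.2⟩
      push_cast
      exact dvd_pow_self _ (by norm_num)
  -- the shift as a residue modulo `p^2`
  set c : ℕ → ℕ := fun p => (R % ((p : ℤ) ^ 2)).toNat with hc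
  have hcp : ∀ p : ℕ, p.Prime → ((p : ℤ) ^ 2) ∣ R - (c p : ℤ) := by
    intro p hp
    have hp0 : (0 : ℤ) < (p : ℤ) ^ 2 := by
      have := hp.pos
      positivity
    have f1 : ((R % ((p : ℤ) ^ 2)).toNat : ℤ) = R % ((p : ℤ) ^ 2) :=
      Int.toNat_of_nonneg (Int.emod_nonneg _ hp0.ne')
    rw [hc]
    simp only
    rw [f1]
    exact Int.dvd_self_sub_emod
  have hb1 := block_tower G (i := n + 1) (k := kf) (Y := Y)
    (B := 2 * ((D : ℝ) + 1) ^ 2 * 3 ^ (n + 1)) (B2 := 1 + ((g * s n : ℕ) : ℝ))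
    (fun j hj => hG j (by omega)) (fun j hj => hGY j (by omega))
    (fun j hj j' hj' => hGd j (by omega) j' (by omega)) S Ws hkf hS hWd
    (fun a ha => by
      rw [← card_pos]
      exact lt_of_lt_of_le (hspos n le_rfl) (Win_card (hWin a ha)))
    (fun a ha x hx => by
      obtain ⟨m, hm1, hm2⟩ := Win_int (hWin a ha)
      have := hm1 hx
      rw [mem_Ioc] at this
      omega) (fun a ha => hLam (Ws a) (hWin a ha)) hB2 (U := U) (biUnion_subset.mpr hWU) c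
  refine le_trans ?_ (hb1.trans ?_)
  · apply div_le_div_of_nonneg_right _ (by positivity)
    have h3 : num U (fun F => pwAZ B (R + ((∑ j ∈ F, j ! : ℕ) : ℤ)))
        ≤ num U (fun F => (∀ j < n + 1, ∀ p ∈ G j, ¬ p ∣ (∑ n ∈ F, n !) + c p)
        ∨ ∃ j < n + 1, ∃ p ∈ G j, p ^ 2 ∣ (∑ n ∈ F, n !) + c p) := by
      apply num_mono
      intro F _ hF
      by_cases h4 : ∀ j < n + 1, ∀ p ∈ G j, ¬ p ∣ (∑ n ∈ F, n !) + c p
      · exact Or.inl h4
      · push Not at h4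
        obtain ⟨j, hj, p, hp, hpd⟩ := h4
        have hpp := hG j (by omega) p hp
        have f2 : R + ((∑ j ∈ F, j ! : ℕ) : ℤ)
            = (((∑ n ∈ F, n !) + c p : ℕ) : ℤ) + (R - (c p : ℤ)) := by
          push_cast
          ring
        have f3 : (p : ℤ) ∣ R + ((∑ j ∈ F, j ! : ℕ) : ℤ) := by
          rw [f2]
          apply dvd_add
          · exact_mod_cast hpd
          · exact (dvd_pow_self _ (by norm_num)).trans (hcp p hpp)
        have f4 := hF p hpp (hGB j (by omega) p hp) f3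
        have f5 : (p : ℤ) ^ 2 ∣ (((∑ n ∈ F, n !) + c p : ℕ) : ℤ) := by
          rw [f2] at f4
          exact (dvd_add_left (hcp p hpp)).mp f4
        exact Or.inr ⟨j, hj, p, hp, by exact_mod_cast f5⟩
    exact_mod_cast h3
  · have h5 : ∏ j ∈ range (n + 1), alt (fun p : ℕ => 1 / (p : ℝ)) (G j) 3
        ≤ (3 / 5) ^ (n + 1) := by
      calc ∏ j ∈ range (n + 1), alt (fun p : ℕ => 1 / (p : ℝ)) (G j) 3
          ≤ ∏ j ∈ range (n + 1), (3 / 5 : ℝ) := by
            apply prod_le_prod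
            · intro j hj
              rw [mem_range] at hj
              exact (alt_three_le (G j) (hG j (by omega)) (hG1 j (by omega))
                (hG2 j (by omega))).1
            · intro j hj
              rw [mem_range] at hj
              exact (alt_three_le (G j) (hG j (by omega)) (hG1 j (by omega))
                (hG2 j (by omega))).2
        _ = (3 / 5) ^ (n + 1) := by rw [prod_const, card_range]
    have h6 : (1 / 2 : ℝ) ^ (n + 1) ≤ (3 / 5) ^ (n + 1) :=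
      pow_le_pow_left₀ (by norm_num) (by norm_num) _
    linarith

end Pool.Agent.H70.PF
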