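import Mathlib

namespace Pool.Agent.H70.PF

open Filter Topology

theorem asyS_pow (i : ℕ) (hi : 20 ≤ i) : 512 * (i + 1) ^ 2 ≤ 2 ^ i := by
  induction i, hi using Nat.le_induction with
  | base => norm_num
  | succ n hn ih =>
    have : 512 * (n + 1 + 1) ^ 2 ≤ 2 * (512 * (n + 1) ^ 2) := by nlinarith
    calc 512 * (n + 1 + 1) ^ 2 ≤ 2 * (512 * (n + 1) ^ 2) := this
      _ ≤ 2 * 2 ^ n := by omega
      _ = 2 ^ (n + 1) := by ring

theorem asyS_nat (i : ℕ) (hi : 20 ≤ i) :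
    0 < 4 ^ (i - 1) / (4 * (i + 1)) ∧
    22 ^ (i / 5) * (8 * (4 * (i + 1))) ≤ 4 ^ (i - 1) / (4 * (i + 1)) ∧
    4 ^ (i - 1) + 4 ^ (i - 1) / (4 * (i + 1)) * (4 * (i + 1)) < 4 ^ i := by
  have h1 : (22 : ℕ) ^ (i / 5) ≤ 2 ^ i := by
    calc (22 : ℕ) ^ (i / 5) ≤ 32 ^ (i / 5) := Nat.pow_le_pow_left (by norm_num) _
      _ = 2 ^ (5 * (i / 5)) := by rw [pow_mul]; norm_num
      _ ≤ 2 ^ i := Nat.pow_le_pow_right (by norm_num) (by omega)
  have h4 : (4 : ℕ) * 4 ^ (i - 1) = 2 ^ i * 2 ^ i := by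
    rw [← pow_succ', ← mul_pow]
    norm_num
    omega
  have h2 : 22 ^ (i / 5) * (8 * (4 * (i + 1))) ≤ 4 ^ (i - 1) / (4 * (i + 1)) := by
    rw [Nat.le_div_iff_mul_le (by omega)]
    have h3 := asyS_pow i hi
    have h5 : 22 ^ (i / 5) * (8 * (4 * (i + 1))) * (4 * (i + 1)) ≤
        2 ^ i * (128 * (i + 1) ^ 2) := by
      calc 22 ^ (i / 5) * (8 * (4 * (i + 1))) * (4 * (i + 1))
          = 22 ^ (i / 5) * (128 * (i + 1) ^ 2) := by ring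
        _ ≤ _ := Nat.mul_le_mul_right _ h1
    have h6 : 2 ^ i * (512 * (i + 1) ^ 2) ≤ 2 ^ i * 2 ^ i := Nat.mul_le_mul_left _ h3
    have h7 : 2 ^ i * (512 * (i + 1) ^ 2) = 4 * (2 ^ i * (128 * (i + 1) ^ 2)) := by ring
    omega
  refine ⟨?_, h2, ?_⟩
  · have : 0 < 22 ^ (i / 5) * (8 * (4 * (i + 1))) := by positivity
    omega
  · have h8 : 4 ^ (i - 1) / (4 * (i + 1)) * (4 * (i + 1)) ≤ 4 ^ (i - 1) := Nat.div_mul_le_self _ _
    have h9 : (4 : ℕ) ^ i = 4 * 4 ^ (i - 1) := by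
      rw [← pow_succ']
      congr 1
      omega
    have h10 : 0 < (4 : ℕ) ^ (i - 1) := by positivity
    omega

theorem asyS_exp (m : ℕ) : (2 : ℝ) ^ (4 * m) * Real.exp (-((4 * m : ℕ) : ℝ)) ≤ 1 / 2 ^ m := by
  have h1 : Real.exp (-((4 * m : ℕ) : ℝ)) = (Real.exp (-1)) ^ (4 * m) := by
    rw [← Real.exp_nat_mul]
    congr 1
    ring
  have h2 : Real.exp (-1) ≤ 3 / 8 := by
    rw [Real.exp_neg]
    have h3 := Real.exp_one_gt_d9
    rw [inv_le_comm₀ (Real.exp_pos _) (by norm_num)]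
    norm_num at *
    linarith
  rw [h1, ← mul_pow, pow_mul]
  have h4 : (2 * Real.exp (-1)) ^ 4 ≤ 1 / 2 := by
    calc (2 * Real.exp (-1)) ^ 4 ≤ (2 * (3 / 8)) ^ 4 := by
          apply pow_le_pow_left₀
          · have := Real.exp_pos (-1); linarith
          · linarith
      _ ≤ 1 / 2 := by norm_num
  calc ((2 * Real.exp (-1)) ^ 4) ^ m ≤ (1 / 2) ^ m := by
        apply pow_le_pow_left₀ _ h4
        positivity
    _ = 1 / 2 ^ m := by rw [one_div_pow]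

theorem asyS_ev1 : ∀ᶠ m : ℕ in atTop, (m : ℝ) * (1 / 2 ^ m) ≤ 1 / 64 := by
  have h := tendsto_pow_const_div_const_pow_of_one_lt 1 (r := (2 : ℝ)) (by norm_num)
  have h2 := h.eventually_le_const (show (0 : ℝ) < 1 / 64 by norm_num)
  filter_upwards [h2] with m hm
  rw [pow_one] at hm
  rw [mul_one_div]
  exact hm

theorem asyS_ev2 : ∀ᶠ k : ℕ in atTop,
    (5 * (k : ℝ) + 5) * ((4 / 3) * (1 + (20 * (k : ℝ) + 21) ^ 2) / 2 ^ k) ≤ 1 / 64 := by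
  have h := tendsto_pow_const_div_const_pow_of_one_lt 3 (r := (2 : ℝ)) (by norm_num)
  have h2 := h.eventually_le_const (show (0 : ℝ) < 1 / (64 * 30000) by norm_num)
  filter_upwards [h2, eventually_ge_atTop 1] with k hk hk1
  have hk1' : (1 : ℝ) ≤ (k : ℝ) := by exact_mod_cast hk1
  have h3 : (5 * (k : ℝ) + 5) * ((4 / 3) * (1 + (20 * (k : ℝ) + 21) ^ 2) / 2 ^ k)
      = ((5 * (k : ℝ) + 5) * ((4 / 3) * (1 + (20 * (k : ℝ) + 21) ^ 2))) / 2 ^ k := by ring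
  rw [h3]
  have h4 : (5 * (k : ℝ) + 5) * ((4 / 3) * (1 + (20 * (k : ℝ) + 21) ^ 2)) ≤ 30000 * (k : ℝ) ^ 3 := by
    have a1 : 5 * (k : ℝ) + 5 ≤ 10 * k := by linarith
    have a2 : (20 * (k : ℝ) + 21) ^ 2 ≤ (41 * k) ^ 2 := by
      apply pow_le_pow_left₀ (by positivity)
      linarith
    have a3 : 1 + (20 * (k : ℝ) + 21) ^ 2 ≤ 1682 * (k : ℝ) ^ 2 := by nlinarith
    calc (5 * (k : ℝ) + 5) * ((4 / 3) * (1 + (20 * (k : ℝ) + 21) ^ 2))
        ≤ (10 * k) * ((4 / 3) * (1682 * (k : ℝ) ^ 2)) := by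
          apply mul_le_mul a1 _ (by positivity) (by positivity)
          linarith
      _ = (10 * (4 / 3) * 1682) * (k : ℝ) ^ 3 := by ring
      _ ≤ 30000 * (k : ℝ) ^ 3 := by
          apply mul_le_mul_of_nonneg_right (by norm_num) (by positivity)
  calc _ ≤ (30000 * (k : ℝ) ^ 3) / 2 ^ k := by
        apply div_le_div_of_nonneg_right h4 (by positivity)
    _ = 30000 * ((k : ℝ) ^ 3 / 2 ^ k) := by ring
    _ ≤ 30000 * (1 / (64 * 30000)) := by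
        apply mul_le_mul_of_nonneg_left hk (by norm_num)
    _ = 1 / 64 := by norm_num

theorem asy_scale : ∃ i0 : ℕ, ∀ i ≥ i0, 1 ≤ i ∧ ∃ J k : ℕ, 0 < J ∧
    22 ^ k * (8 * (4 * (i + 1))) ≤ J ∧ 4 ^ (i - 1) + J * (4 * (i + 1)) < 4 ^ i ∧
    (2 : ℝ) ^ (4 * (i + 1)) * Real.exp (-((4 * (i + 1) : ℕ) : ℝ)) +
      (4 / 3) * (1 + (((4 * (i + 1) : ℕ) : ℝ) + 1) ^ 2) / 2 ^ k ≤ 1 / (32 * ((i : ℝ) + 1)) ∧
    1 / (8 * ((i : ℝ) + 1)) + 1 / 4 ^ i ≤ 1 / 2 := by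
  obtain ⟨m0, hm0⟩ := eventually_atTop.1 asyS_ev1
  obtain ⟨k0, hk0⟩ := eventually_atTop.1 asyS_ev2
  refine ⟨20 + m0 + 5 * k0, fun i hi => ⟨by omega, ?_⟩⟩
  obtain ⟨b1, b2, b3⟩ := asyS_nat i (by omega)
  refine ⟨4 ^ (i - 1) / (4 * (i + 1)), i / 5, b1, b2, b3, ?_, ?_⟩
  · have hi0 : (0 : ℝ) < (i : ℝ) + 1 := by positivity
    have c1 := hm0 (i + 1) (by omega)
    have c2 := hk0 (i / 5) (by omega)
    have c3 := asyS_exp (i + 1)
    have d1 : (2 : ℝ) ^ (4 * (i + 1)) * Real.exp (-((4 * (i + 1) : ℕ) : ℝ)) ≤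
        1 / (64 * ((i : ℝ) + 1)) := by
      refine c3.trans ?_
      rw [le_div_iff₀ (by positivity)]
      push_cast at c1
      nlinarith
    have hk : (i : ℝ) ≤ 5 * ((i / 5 : ℕ) : ℝ) + 4 := by
      have : i ≤ 5 * (i / 5) + 4 := by omega
      exact_mod_cast this
    have d2 : (4 / 3) * (1 + (((4 * (i + 1) : ℕ) : ℝ) + 1) ^ 2) / 2 ^ (i / 5) ≤
        1 / (64 * ((i : ℝ) + 1)) := by
      have e1 : (((4 * (i + 1) : ℕ) : ℝ) + 1) ^ 2 ≤ (20 * ((i / 5 : ℕ) : ℝ) + 21) ^ 2 := by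
        apply pow_le_pow_left₀ (by positivity)
        push_cast at hk ⊢
        linarith
      have e2 : (4 / 3) * (1 + (((4 * (i + 1) : ℕ) : ℝ) + 1) ^ 2) / 2 ^ (i / 5) ≤
          (4 / 3) * (1 + (20 * ((i / 5 : ℕ) : ℝ) + 21) ^ 2) / 2 ^ (i / 5) := by
        apply div_le_div_of_nonneg_right _ (by positivity)
        linarith
      have e3 : (0 : ℝ) ≤ (4 / 3) * (1 + (20 * ((i / 5 : ℕ) : ℝ) + 21) ^ 2) / 2 ^ (i / 5) := by
        positivity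
      rw [le_div_iff₀ (by positivity)]
      have e4 : ((i : ℝ) + 1) * ((4 / 3) * (1 + (20 * ((i / 5 : ℕ) : ℝ) + 21) ^ 2) / 2 ^ (i / 5)) ≤
          1 / 64 := by
        refine le_trans ?_ c2
        apply mul_le_mul_of_nonneg_right _ e3
        linarith
      have e5 := mul_le_mul_of_nonneg_left e2 hi0.le
      nlinarith
    have d3 : 1 / (64 * ((i : ℝ) + 1)) + 1 / (64 * ((i : ℝ) + 1)) = 1 / (32 * ((i : ℝ) + 1)) := by
      field_simp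
      norm_num
    linarith
  · have f1 : 1 / (8 * ((i : ℝ) + 1)) ≤ 1 / 8 := by
      apply one_div_le_one_div_of_le (by norm_num)
      have : (0 : ℝ) ≤ (i : ℝ) := by positivity
      linarith
    have f2 : (1 : ℝ) / 4 ^ i ≤ 1 / 4 := by
      apply one_div_le_one_div_of_le (by norm_num)
      calc (4 : ℝ) = 4 ^ 1 := by norm_num
        _ ≤ 4 ^ i := pow_le_pow_right₀ (by norm_num) (by omega)
    linarith

end Pool.Agent.H70.PF
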