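import Mathlib

set_option autoImplicit false

/-! # Counting subsets with a property -/

namespace Pool.Agent.H70.PF

open Finset Nat

/-- the number of subsets of `D` with the property `P` -/
noncomputable def num (D : Finset ℕ) (P : Finset ℕ → Prop) : ℕ :=
  (@Finset.filter _ P (Classical.decPred P) D.powerset).card

/-- the sum of `n !` over the elements `n < y` of `F` -/
def fs (F : Finset ℕ) (y : ℕ) : ℕ := ∑ n ∈ F.filter (fun n => n < y), n !

/-- `m` is powerful (or zero) -/
def pw (m : ℕ) : Prop := ∀ p : ℕ, p.Prime → p ∣ m → p ^ 2 ∣ m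

/-- the primes in `(a, b]` -/
def prm (a b : ℕ) : Finset ℕ := (Ioc a b).filter Nat.Prime

lemma mem_prm {a b p : ℕ} : p ∈ prm a b ↔ a < p ∧ p ≤ b ∧ p.Prime := by
  unfold prm
  rw [mem_filter, mem_Ioc, and_assoc]

/-- some prime in `(4^i, 4^(i+1)]` divides exactly once all sums of the elements of `F` below `y`,
for all `y ≥ 2 p` -/
def Ev (i : ℕ) (F : Finset ℕ) : Prop :=
  ∃ p ∈ prm (4 ^ i) (4 ^ (i + 1)), p ∣ fs F (2 * p) ∧ ¬ p ^ 2 ∣ fs F (2 * p)

lemma num_eq (D : Finset ℕ) (P : Finset ℕ → Prop) [DecidablePred P] :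
    num D P = (D.powerset.filter P).card := by
  unfold num
  congr

lemma num_eq_ncard (D : Finset ℕ) (P : Finset ℕ → Prop) :
    num D P = {F : Finset ℕ | F ⊆ D ∧ P F}.ncard := by
  classical
  rw [num_eq, ← Set.ncard_coe_finset]
  congr 1
  ext F
  rw [mem_coe, mem_filter, mem_powerset]
  rfl

lemma num_le (D : Finset ℕ) (P : Finset ℕ → Prop) : num D P ≤ 2 ^ D.card := by
  classical
  rw [num_eq, ← card_powerset]
  exact card_filter_le _ _

lemma num_mono {D : Finset ℕ} {P Q : Finset ℕ → Prop} (h : ∀ F ⊆ D, P F → Q F) :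
    num D P ≤ num D Q := by
  classical
  rw [num_eq, num_eq]
  apply card_le_card
  intro F hF
  rw [mem_filter, mem_powerset] at hF ⊢
  exact ⟨hF.1, h F hF.1 hF.2⟩

lemma num_congr {D : Finset ℕ} {P Q : Finset ℕ → Prop} (h : ∀ F ⊆ D, P F ↔ Q F) :
    num D P = num D Q :=
  le_antisymm (num_mono fun F hF => (h F hF).mp) (num_mono fun F hF => (h F hF).mpr)

lemma num_or (D : Finset ℕ) (P Q : Finset ℕ → Prop) :
    num D (fun F => P F ∨ Q F) ≤ num D P + num D Q := by
  classical
  rw [num_eq, num_eq, num_eq, filter_or]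
  exact card_union_le _ _

lemma num_add_not (D : Finset ℕ) (P : Finset ℕ → Prop) :
    num D P + num D (fun F => ¬ P F) = 2 ^ D.card := by
  classical
  rw [num_eq, num_eq, ← card_powerset]
  exact card_filter_add_card_filter_not _

lemma num_exists {ι : Type*} (D : Finset ℕ) (I : Finset ι) (P : ι → Finset ℕ → Prop) :
    num D (fun F => ∃ i ∈ I, P i F) ≤ ∑ i ∈ I, num D (P i) := by
  classical
  rw [num_eq, sum_congr rfl fun i _ => num_eq D (P i)]
  have h : D.powerset.filter (fun F => ∃ i ∈ I, P i F)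
      = I.biUnion (fun i => D.powerset.filter (P i)) := by
    ext F
    simp only [mem_filter, mem_biUnion]
    constructor
    · rintro ⟨h1, i, hi, h2⟩
      exact ⟨i, hi, h1, h2⟩
    · rintro ⟨i, hi, h1, h2⟩
      exact ⟨h1, i, hi, h2⟩
  rw [h]
  exact card_biUnion_le

/-- Fubini -/
lemma num_split {D1 D2 : Finset ℕ} (h : Disjoint D1 D2) (P : Finset ℕ → Prop) :
    num (D1 ∪ D2) P = ∑ F1 ∈ D1.powerset, num D2 (fun F2 => P (F1 ∪ F2)) := by
  classical
  rw [num_eq, sum_congr rfl fun F1 _ => num_eq D2 (fun F2 => P (F1 ∪ F2))]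
  rw [card_eq_sum_card_fiberwise (f := fun F => F ∩ D1) (t := D1.powerset)
    (fun F _ => by
      rw [mem_coe, mem_powerset]
      exact inter_subset_right)]
  refine sum_congr rfl fun F1 hF1 => ?_
  rw [mem_powerset] at hF1
  have hinj : Set.InjOn (fun F2 => F1 ∪ F2) (D2.powerset.filter (fun F2 => P (F1 ∪ F2)) : Set _) := by
    intro A hA B hB hAB
    rw [mem_coe, mem_filter, mem_powerset] at hA hB
    have e : ∀ C : Finset ℕ, C ⊆ D2 → (F1 ∪ C) ∩ D2 = C := by
      intro C hC
      rw [union_inter_distrib_right, disjoint_iff_inter_eq_empty.mp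
        (disjoint_of_subset_left hF1 h), empty_union, inter_eq_left]
      exact hC
    rw [← e A hA.1, ← e B hB.1]
    exact congrArg (fun s => s ∩ D2) hAB
  rw [← Finset.card_image_of_injOn hinj]
  congr 1
  ext F
  rw [mem_filter, mem_filter, mem_powerset, mem_image]
  constructor
  · rintro ⟨⟨h1, h2⟩, h3⟩
    have h4 : F1 ∪ (F ∩ D2) = F := by
      rw [← h3, ← inter_union_distrib_left]
      exact inter_eq_left.mpr h1
    refine ⟨F ∩ D2, ?_, h4⟩
    rw [mem_filter, mem_powerset, h4]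
    exact ⟨inter_subset_right, h2⟩
  · rintro ⟨F2, h1, h2⟩
    rw [mem_filter, mem_powerset] at h1
    subst h2
    refine ⟨⟨union_subset_union hF1 h1.1, h1.2⟩, ?_⟩
    rw [union_inter_distrib_right, inter_eq_left.mpr hF1, disjoint_iff_inter_eq_empty.mp
      (disjoint_of_subset_left h1.1 h.symm), union_empty]

end Pool.Agent.H70.PF
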