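import Pool.Agent.H70.PF.Fact
import Pool.Agent.H70.PF.Sieve
import Pool.Agent.H70.PF.Num

set_option autoImplicit false

/-! # Sieving a sum of factorials by primes beyond all indices -/

namespace Pool.Agent.H70.PF

open Finset Nat

lemma cnt_eq_num (A : Finset ℕ) (q : ℕ) (c : ZMod q) :
    cnt Nat.factorial A q c = num A (fun F => ((∑ n ∈ F, n ! : ℕ) : ZMod q) = c) := by
  rw [num_eq]
  rfl

/-- few large primes divide a small number -/
lemma few_primes (P : Finset ℕ) (hP : ∀ p ∈ P, p.Prime) {Y w : ℕ} (hY : 1 < Y)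
    (hPY : ∀ p ∈ P, Y ≤ p) {z : ℤ} (hz : z ≠ 0) (hzY : z.natAbs < Y ^ (w + 1)) :
    (P.filter (fun p : ℕ => (p : ℤ) ∣ z)).card ≤ w := by
  set Q := P.filter (fun p : ℕ => (p : ℤ) ∣ z) with hQ
  have h1 : (∏ p ∈ Q, p) ∣ z.natAbs := by
    apply Finset.prod_primes_dvd
    · intro p hp
      rw [hQ, mem_filter] at hp
      exact (hP p hp.1).prime
    · intro p hp
      rw [hQ, mem_filter] at hp
      exact Int.natCast_dvd.mp hp.2
  have h2 : Y ^ Q.card ≤ ∏ p ∈ Q, p := by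
    apply Finset.pow_card_le_prod
    intro p hp
    rw [hQ, mem_filter] at hp
    exact hPY p hp.1
  have h3 := Nat.le_of_dvd (Int.natAbs_pos.mpr hz) h1
  have h4 : Y ^ Q.card < Y ^ (w + 1) := by omega
  have h5 := (Nat.pow_lt_pow_iff_right hY).mp h4
  omega

lemma crt (A : Finset ℕ) (hA : ∀ p ∈ A, p.Prime) (c : ℕ → ℕ) :
    ∃ z : ℕ, ∀ p ∈ A, z ≡ c p [MOD p] := by
  have h := Nat.chineseRemainderOfFinset c (fun p => p) A (fun p hp => (hA p hp).ne_zero)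
    (fun p hp p' hp' hne => (Nat.coprime_primes (hA p hp) (hA p' hp')).mpr hne)
  exact ⟨h.1, h.2⟩

lemma all_dvd_iff (A : Finset ℕ) (hA : ∀ p ∈ A, p.Prime) {c : ℕ → ℕ} {z : ℕ}
    (hz : ∀ p ∈ A, z ≡ c p [MOD p]) (s : ℕ) :
    (∀ p ∈ A, p ∣ s + c p) ↔ (∏ p ∈ A, p) ∣ s + z := by
  have h1 : ∀ p ∈ A, (p ∣ s + c p ↔ p ∣ s + z) := by
    intro p hp
    have h2 : s + z ≡ s + c p [MOD p] := Nat.ModEq.add_left s (hz p hp)
    exact (h2.dvd_iff (dvd_refl p)).symm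
  constructor
  · intro h
    apply Finset.prod_primes_dvd
    · intro p hp
      exact (hA p hp).prime
    · intro p hp
      exact (h1 p hp).mp (h p hp)
  · intro h p hp
    exact (h1 p hp).mpr ((dvd_prod_of_mem (fun p => p) hp).trans h)

lemma eq_neg_iff (q s z : ℕ) : ((s : ℕ) : ZMod q) = -(z : ZMod q) ↔ q ∣ s + z := by
  rw [← ZMod.natCast_eq_zero_iff, Nat.cast_add, eq_neg_iff_add_eq_zero]

/-- the products of at most `2K` primes of `P'` -/
lemma family (P' : Finset ℕ) (hP : ∀ p ∈ P', p.Prime) {M J w k Y K : ℕ} (hJ : 0 < J)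
    (hw : 0 < w) (hY : M + J * w < Y) (hY1 : 1 < Y) (hPY : ∀ p ∈ P', Y ≤ p)
    (hcard : (P'.card + 1) ^ (2 * K) ≤ 2 ^ w) (hk : 22 ^ k * (8 * w) ≤ J)
    (z : Finset ℕ → ℕ) :
    ∑ A ∈ P'.powerset.filter (fun A => A.card < 2 * K + 1),
      |(cnt Nat.factorial (Ioc M (M + J * w)) (∏ p ∈ A, p) (-(z A : ZMod (∏ p ∈ A, p))) : ℝ)
        / 2 ^ (J * w) - 1 / ((∏ p ∈ A, p : ℕ) : ℝ)|
      ≤ 2 ^ w * Real.exp (-w) + (4 / 3) * (1 + (w + 1) ^ (2 * K)) / 2 ^ k := by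
  have hI : (P'.powerset.filter (fun A => A.card < 2 * K + 1)).card ≤ 2 ^ w := by
    refine le_trans ?_ hcard
    refine le_trans (le_of_eq ?_) (card_small_subsets P' (2 * K))
    congr 1
    apply filter_congr
    intro A _
    omega
  have h := equi (P'.powerset.filter (fun A => A.card < 2 * K + 1)) (fun A => ∏ p ∈ A, p)
    (M := M) (J := J) (w := w) (k := k) (Y := Y) (B := (w + 1) ^ (2 * K)) hJ hw hY
    (fun A hA => by
      rw [mem_filter, mem_powerset] at hA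
      exact prod_ne_zero_iff.mpr fun p hp => (hP p (hA.1 hp)).ne_zero)
    (fun A hA => by
      rw [mem_filter, mem_powerset] at hA
      apply Nat.Coprime.prod_right
      intro p hp
      apply Nat.Coprime.symm
      rw [Nat.Prime.coprime_iff_not_dvd (hP p (hA.1 hp)), (hP p (hA.1 hp)).dvd_factorial]
      have := hPY p (hA.1 hp)
      omega) hI
    (fun x hx hxY => by
      have h1 := few_primes P' hP hY1 hPY hx hxY
      have h2 := card_small_subsets (P'.filter (fun p : ℕ => (p : ℤ) ∣ x)) (2 * K)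
      refine le_trans (card_le_card ?_) (h2.trans (Nat.pow_le_pow_left (by omega) _))
      intro A hA
      rw [mem_filter, mem_filter, mem_powerset] at hA
      rw [mem_filter, mem_powerset]
      refine ⟨?_, by omega⟩
      intro p hp
      rw [mem_filter]
      refine ⟨hA.1.1 hp, ?_⟩
      refine dvd_trans ?_ hA.2
      exact_mod_cast dvd_prod_of_mem (fun p => p) hp) hk
    (fun A => -(z A : ZMod (∏ p ∈ A, p)))
  refine h.trans (le_of_eq ?_)
  push_cast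
  rfl

theorem block (P' : Finset ℕ) (hP : ∀ p ∈ P', p.Prime) {M J w k Y K : ℕ} (hJ : 0 < J)
    (hw : 0 < w) (hY : M + J * w < Y) (hY1 : 1 < Y) (hPY : ∀ p ∈ P', Y ≤ p)
    (hcard : (P'.card + 1) ^ (2 * K) ≤ 2 ^ w) (hk : 22 ^ k * (8 * w) ≤ J)
    (c : ℕ → ℕ) :
    (num (Ioc M (M + J * w)) (fun F => ∀ p ∈ P', ¬ p ∣ (∑ n ∈ F, n !) + c p) : ℝ) / 2 ^ (J * w)
      ≤ alt (fun p : ℕ => 1 / (p : ℝ)) P' (2 * K + 1)
        + (2 ^ w * Real.exp (-w) + (4 / 3) * (1 + (w + 1) ^ (2 * K)) / 2 ^ k) := by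
  classical
  set U := Ioc M (M + J * w) with hU
  have hex : ∀ A : Finset ℕ, ∃ z : ℕ, A ⊆ P' → ∀ p ∈ A, z ≡ c p [MOD p] := by
    intro A
    by_cases hA : A ⊆ P'
    · obtain ⟨z, hz⟩ := crt A (fun p hp => hP p (hA hp)) c
      exact ⟨z, fun _ => hz⟩
    · exact ⟨0, fun h => absurd h hA⟩
  choose z hz using hex
  have hfam := family P' hP hJ hw hY hY1 hPY hcard hk z
  rw [← hU] at hfam
  set I := P'.powerset.filter (fun A => A.card < 2 * K + 1) with hI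
  -- the pointwise inequality
  have h1 : ∀ F : Finset ℕ, (if (∀ p ∈ P', ¬ p ∣ (∑ n ∈ F, n !) + c p) then (1 : ℝ) else 0)
      ≤ ∑ A ∈ I, (-1) ^ A.card *
        (if ((∑ n ∈ F, n ! : ℕ) : ZMod (∏ p ∈ A, p)) = -(z A : ZMod (∏ p ∈ A, p))
          then (1 : ℝ) else 0) := by
    intro F
    have h2 := prod_le_alt (fun p => if p ∣ (∑ n ∈ F, n !) + c p then (1 : ℝ) else 0) P'
      (fun p _ => by split_ifs <;> norm_num) (fun p _ => by split_ifs <;> norm_num) K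
    rw [alt_eq_sum] at h2
    refine le_trans (le_of_eq ?_) (h2.trans (le_of_eq ?_))
    · by_cases hF : ∀ p ∈ P', ¬ p ∣ (∑ n ∈ F, n !) + c p
      · rw [if_pos hF, eq_comm]
        apply prod_eq_one
        intro p hp
        rw [if_neg (hF p hp), sub_zero]
      · rw [if_neg hF, eq_comm]
        push Not at hF
        obtain ⟨p, hp, hpd⟩ := hF
        apply prod_eq_zero hp
        rw [if_pos hpd, sub_self]
    · refine sum_congr rfl fun A hA => ?_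
      rw [mem_filter, mem_powerset] at hA
      congr 1
      have h3 := all_dvd_iff A (fun p hp => hP p (hA.1 hp)) (hz A hA.1) (∑ n ∈ F, n !)
      rw [← eq_neg_iff] at h3
      by_cases h4 : ∀ p ∈ A, p ∣ (∑ n ∈ F, n !) + c p
      · rw [if_pos (h3.mp h4)]
        apply prod_eq_one
        intro p hp
        rw [if_pos (h4 p hp)]
      · rw [if_neg (fun h => h4 (h3.mpr h))]
        push Not at h4
        obtain ⟨p, hp, hpd⟩ := h4
        apply prod_eq_zero hp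
        rw [if_neg hpd]
  have h2 : (num U (fun F => ∀ p ∈ P', ¬ p ∣ (∑ n ∈ F, n !) + c p) : ℝ)
      ≤ ∑ A ∈ I, (-1) ^ A.card *
        (cnt Nat.factorial U (∏ p ∈ A, p) (-(z A : ZMod (∏ p ∈ A, p))) : ℝ) := by
    rw [num_eq, card_filter]
    push_cast
    refine (sum_le_sum fun F _ => h1 F).trans (le_of_eq ?_)
    rw [sum_comm]
    refine sum_congr rfl fun A _ => ?_
    rw [← mul_sum]
    congr 1
    unfold cnt
    rw [card_filter]
    push_cast
    rfl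
  have h3 : ∀ A ∈ I, (-1 : ℝ) ^ A.card *
        (cnt Nat.factorial U (∏ p ∈ A, p) (-(z A : ZMod (∏ p ∈ A, p))) : ℝ) / 2 ^ (J * w)
      ≤ (-1) ^ A.card * ∏ p ∈ A, (1 / (p : ℝ))
        + |(cnt Nat.factorial U (∏ p ∈ A, p) (-(z A : ZMod (∏ p ∈ A, p))) : ℝ)
        / 2 ^ (J * w) - 1 / ((∏ p ∈ A, p : ℕ) : ℝ)| := by
    intro A _
    have h4 : ∏ p ∈ A, (1 / (p : ℝ)) = 1 / ((∏ p ∈ A, p : ℕ) : ℝ) := by
      rw [prod_div_distrib, prod_const_one]
      push_cast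
      rfl
    rw [h4]
    set x := (cnt Nat.factorial U (∏ p ∈ A, p) (-(z A : ZMod (∏ p ∈ A, p))) : ℝ)
    set y := 1 / ((∏ p ∈ A, p : ℕ) : ℝ)
    rcases neg_one_pow_eq_or ℝ A.card with h5 | h5
    · rw [h5]
      have := le_abs_self (x / 2 ^ (J * w) - y)
      rw [one_mul, one_mul]
      linarith
    · rw [h5]
      have := neg_abs_le (x / 2 ^ (J * w) - y)
      rw [neg_one_mul, neg_one_mul, neg_div]
      linarith
  calc (num U (fun F => ∀ p ∈ P', ¬ p ∣ (∑ n ∈ F, n !) + c p) : ℝ) / 2 ^ (J * w)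
      ≤ (∑ A ∈ I, (-1) ^ A.card *
        (cnt Nat.factorial U (∏ p ∈ A, p) (-(z A : ZMod (∏ p ∈ A, p))) : ℝ)) / 2 ^ (J * w) := by
        gcongr
    _ = ∑ A ∈ I, (-1 : ℝ) ^ A.card *
        (cnt Nat.factorial U (∏ p ∈ A, p) (-(z A : ZMod (∏ p ∈ A, p))) : ℝ) / 2 ^ (J * w) := by
        rw [sum_div]
    _ ≤ _ := sum_le_sum h3
    _ = alt (fun p : ℕ => 1 / (p : ℝ)) P' (2 * K + 1) + _ := by
        rw [sum_add_distrib, alt_eq_sum]
    _ ≤ _ := by
        gcongr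

theorem block_sq (P' : Finset ℕ) (hP : ∀ p ∈ P', p.Prime) {M J w k Y : ℕ} (hJ : 0 < J)
    (hw : 0 < w) (hY : M + J * w < Y) (hY1 : 1 < Y) (hPY : ∀ p ∈ P', Y ≤ p)
    (hcard : P'.card ≤ 2 ^ w) (hk : 22 ^ k * (8 * w) ≤ J) (c : ℕ → ℕ) :
    (num (Ioc M (M + J * w)) (fun F => ∃ p ∈ P', p ^ 2 ∣ (∑ n ∈ F, n !) + c p) : ℝ) / 2 ^ (J * w)
      ≤ ∑ p ∈ P', 1 / (p : ℝ) ^ 2
        + (2 ^ w * Real.exp (-w) + (4 / 3) * (1 + w) / 2 ^ k) := by
  have h := equi P' (fun p => p ^ 2) (M := M) (J := J) (w := w) (k := k) (Y := Y) (B := w)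
    hJ hw hY (fun p hp => pow_ne_zero _ (hP p hp).ne_zero)
    (fun p hp => by
      apply Nat.Coprime.pow_right
      apply Nat.Coprime.symm
      rw [Nat.Prime.coprime_iff_not_dvd (hP p hp), (hP p hp).dvd_factorial]
      have := hPY p hp
      omega) hcard
    (fun x hx hxY => by
      refine le_trans (card_le_card ?_) (few_primes P' hP hY1 hPY hx hxY)
      intro p hp
      rw [mem_filter] at hp ⊢
      refine ⟨hp.1, dvd_trans ?_ hp.2⟩
      push_cast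
      exact dvd_pow_self _ (by norm_num)) hk
    (fun p => -((c p : ℕ) : ZMod (p ^ 2)))
  have h1 : (num (Ioc M (M + J * w)) (fun F => ∃ p ∈ P', p ^ 2 ∣ (∑ n ∈ F, n !) + c p) : ℝ)
      ≤ ∑ p ∈ P', (cnt Nat.factorial (Ioc M (M + J * w)) (p ^ 2)
        (-((c p : ℕ) : ZMod (p ^ 2))) : ℝ) := by
    have h2 := num_exists (Ioc M (M + J * w)) P' (fun p F => p ^ 2 ∣ (∑ n ∈ F, n !) + c p)
    have h3 : ∀ p ∈ P', num (Ioc M (M + J * w)) (fun F => p ^ 2 ∣ (∑ n ∈ F, n !) + c p)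
        = cnt Nat.factorial (Ioc M (M + J * w)) (p ^ 2) (-((c p : ℕ) : ZMod (p ^ 2))) := by
      intro p _
      rw [cnt_eq_num]
      apply num_congr
      intro F _
      rw [eq_neg_iff]
    rw [sum_congr rfl h3] at h2
    exact_mod_cast h2
  calc (num (Ioc M (M + J * w)) (fun F => ∃ p ∈ P', p ^ 2 ∣ (∑ n ∈ F, n !) + c p) : ℝ)
        / 2 ^ (J * w)
      ≤ (∑ p ∈ P', (cnt Nat.factorial (Ioc M (M + J * w)) (p ^ 2)
        (-((c p : ℕ) : ZMod (p ^ 2))) : ℝ)) / 2 ^ (J * w) := by gcongr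
    _ = ∑ p ∈ P', (cnt Nat.factorial (Ioc M (M + J * w)) (p ^ 2)
        (-((c p : ℕ) : ZMod (p ^ 2))) : ℝ) / 2 ^ (J * w) := by rw [sum_div]
    _ ≤ ∑ p ∈ P', (1 / (p : ℝ) ^ 2 + |(cnt Nat.factorial (Ioc M (M + J * w)) (p ^ 2)
        (-((c p : ℕ) : ZMod (p ^ 2))) : ℝ) / 2 ^ (J * w) - 1 / ((p ^ 2 : ℕ) : ℝ)|) := by
        refine sum_le_sum fun p _ => ?_
        have := le_abs_self ((cnt Nat.factorial (Ioc M (M + J * w)) (p ^ 2)
          (-((c p : ℕ) : ZMod (p ^ 2))) : ℝ) / 2 ^ (J * w) - 1 / ((p ^ 2 : ℕ) : ℝ))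
        have h4 : (1 : ℝ) / (p : ℝ) ^ 2 = 1 / ((p ^ 2 : ℕ) : ℝ) := by push_cast; rfl
        rw [h4]
        linarith
    _ ≤ _ := by
        rw [sum_add_distrib]
        gcongr

end Pool.Agent.H70.PF
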