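import Pool.Agent.H70.PF.Fact2
import Pool.Agent.H70.PF.Block

set_option autoImplicit false

/-! # Sieving a sum of factorials by large primes, free digits in an arbitrary set -/

namespace Pool.Agent.H70.PF

open Finset Nat

/-- the products of at most `2K` primes of `P'` -/
lemma family2 (P' : Finset ℕ) (hP : ∀ p ∈ P', p.Prime) {J w h k Y K : ℕ} (hJ : 0 < J)
    (hw : 0 < w) (W : ℕ → Finset ℕ) (m : ℕ → ℕ)
    (hWd : ∀ i < J, ∀ j < J, i ≠ j → Disjoint (W i) (W j))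
    (hWc : ∀ j < J, (W j).card = w) (hWm : ∀ j < J, W j ⊆ Ioc (m j) (m j + h))
    (hY : ∀ j < J, m j + h < Y) (hY1 : 1 < Y) (hPY : ∀ p ∈ P', Y ≤ p)
    (hcard : (P'.card + 1) ^ (2 * K) ≤ 2 ^ w) (hk : 22 ^ k * (8 * w) ≤ J)
    (z : Finset ℕ → ℕ) :
    ∑ A ∈ P'.powerset.filter (fun A => A.card < 2 * K + 1),
      |(cnt Nat.factorial ((range J).biUnion W) (∏ p ∈ A, p)
        (-(z A : ZMod (∏ p ∈ A, p))) : ℝ)
        / 2 ^ (J * w) - 1 / ((∏ p ∈ A, p : ℕ) : ℝ)|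
      ≤ 2 ^ w * Real.exp (-w) + (4 / 3) * (1 + (h + 1) ^ (2 * K)) / 2 ^ k := by
  have hI : (P'.powerset.filter (fun A => A.card < 2 * K + 1)).card ≤ 2 ^ w := by
    refine le_trans ?_ hcard
    refine le_trans (le_of_eq ?_) (card_small_subsets P' (2 * K))
    congr 1
    apply filter_congr
    intro A _
    omega
  have h := equi2 (P'.powerset.filter (fun A => A.card < 2 * K + 1)) (fun A => ∏ p ∈ A, p)
    (J := J) (w := w) (h := h) (k := k) (Y := Y) (B := (h + 1) ^ (2 * K)) hJ hw W m hWd hWc hWm hY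
    (fun A hA => by
      rw [mem_filter, mem_powerset] at hA
      exact prod_ne_zero_iff.mpr fun p hp => (hP p (hA.1 hp)).ne_zero)
    (fun A hA n hn => by
      rw [mem_filter, mem_powerset] at hA
      apply Nat.Coprime.prod_right
      intro p hp
      apply Nat.Coprime.symm
      rw [Nat.Prime.coprime_iff_not_dvd (hP p (hA.1 hp)), (hP p (hA.1 hp)).dvd_factorial]
      have := hPY p (hA.1 hp)
      omega) hI
    (fun x hx hxY => by
      have h1 := few_primes P' hP hY1 hPY hx hxY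
      have h2 := card_small_subsets (P'.filter (fun p : ℕ => (p : ℤ) ∣ x)) (2 * K)
      refine le_trans (card_le_card ?_) (h2.trans (Nat.pow_le_pow_left (by omega) _))
      intro A hA
      rw [mem_filter, mem_filter, mem_powerset] at hA
      rw [mem_filter, mem_powerset]
      refine ⟨?_, by omega⟩
      intro p hp
      rw [mem_filter]
      refine ⟨hA.1.1 hp, ?_⟩
      refine dvd_trans ?_ hA.2
      exact_mod_cast dvd_prod_of_mem (fun p => p) hp) hk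
    (fun A => -(z A : ZMod (∏ p ∈ A, p)))
  refine h.trans (le_of_eq ?_)
  push_cast
  rfl

theorem block2 (P' : Finset ℕ) (hP : ∀ p ∈ P', p.Prime) {J w h k Y K : ℕ} (hJ : 0 < J)
    (hw : 0 < w) (W : ℕ → Finset ℕ) (m : ℕ → ℕ)
    (hWd : ∀ i < J, ∀ j < J, i ≠ j → Disjoint (W i) (W j))
    (hWc : ∀ j < J, (W j).card = w) (hWm : ∀ j < J, W j ⊆ Ioc (m j) (m j + h))
    (hY : ∀ j < J, m j + h < Y) (hY1 : 1 < Y) (hPY : ∀ p ∈ P', Y ≤ p)
    (hcard : (P'.card + 1) ^ (2 * K) ≤ 2 ^ w) (hk : 22 ^ k * (8 * w) ≤ J)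
    (c : ℕ → ℕ) :
    (num ((range J).biUnion W) (fun F => ∀ p ∈ P', ¬ p ∣ (∑ n ∈ F, n !) + c p) : ℝ) / 2 ^ (J * w)
      ≤ alt (fun p : ℕ => 1 / (p : ℝ)) P' (2 * K + 1)
        + (2 ^ w * Real.exp (-w) + (4 / 3) * (1 + (h + 1) ^ (2 * K)) / 2 ^ k) := by
  classical
  set U := (range J).biUnion W with hU
  have hex : ∀ A : Finset ℕ, ∃ z : ℕ, A ⊆ P' → ∀ p ∈ A, z ≡ c p [MOD p] := by
    intro A
    by_cases hA : A ⊆ P'
    · obtain ⟨z, hz⟩ := crt A (fun p hp => hP p (hA hp)) c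
      exact ⟨z, fun _ => hz⟩
    · exact ⟨0, fun h => absurd h hA⟩
  choose z hz using hex
  have hfam := family2 P' hP hJ hw W m hWd hWc hWm hY hY1 hPY hcard hk z
  rw [← hU] at hfam
  set I := P'.powerset.filter (fun A => A.card < 2 * K + 1) with hI
  -- the pointwise inequality
  have h1 : ∀ F : Finset ℕ, (if (∀ p ∈ P', ¬ p ∣ (∑ n ∈ F, n !) + c p) then (1 : ℝ) else 0)
      ≤ ∑ A ∈ I, (-1) ^ A.card *
        (if ((∑ n ∈ F, n ! : ℕ) : ZMod (∏ p ∈ A, p)) = -(z A : ZMod (∏ p ∈ A, p))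
          then (1 : ℝ) else 0) := by
    intro F
    have h2 := prod_le_alt (fun p => if p ∣ (∑ n ∈ F, n !) + c p then (1 : ℝ) else 0) P'
      (fun p _ => by split_ifs <;> norm_num) (fun p _ => by split_ifs <;> norm_num) K
    rw [alt_eq_sum] at h2
    refine le_trans (le_of_eq ?_) (h2.trans (le_of_eq ?_))
    · by_cases hF : ∀ p ∈ P', ¬ p ∣ (∑ n ∈ F, n !) + c p
      · rw [if_pos hF, eq_comm]
        apply prod_eq_one
        intro p hp
        rw [if_neg (hF p hp), sub_zero]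
      · rw [if_neg hF, eq_comm]
        push Not at hF
        obtain ⟨p, hp, hpd⟩ := hF
        apply prod_eq_zero hp
        rw [if_pos hpd, sub_self]
    · refine sum_congr rfl fun A hA => ?_
      rw [mem_filter, mem_powerset] at hA
      congr 1
      have h3 := all_dvd_iff A (fun p hp => hP p (hA.1 hp)) (hz A hA.1) (∑ n ∈ F, n !)
      rw [← eq_neg_iff] at h3
      by_cases h4 : ∀ p ∈ A, p ∣ (∑ n ∈ F, n !) + c p
      · rw [if_pos (h3.mp h4)]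
        apply prod_eq_one
        intro p hp
        rw [if_pos (h4 p hp)]
      · rw [if_neg (fun h => h4 (h3.mpr h))]
        push Not at h4
        obtain ⟨p, hp, hpd⟩ := h4
        apply prod_eq_zero hp
        rw [if_neg hpd]
  have h2 : (num U (fun F => ∀ p ∈ P', ¬ p ∣ (∑ n ∈ F, n !) + c p) : ℝ)
      ≤ ∑ A ∈ I, (-1) ^ A.card *
        (cnt Nat.factorial U (∏ p ∈ A, p) (-(z A : ZMod (∏ p ∈ A, p))) : ℝ) := by
    rw [num_eq, card_filter]
    push_cast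
    refine (sum_le_sum fun F _ => h1 F).trans (le_of_eq ?_)
    rw [sum_comm]
    refine sum_congr rfl fun A _ => ?_
    rw [← mul_sum]
    congr 1
    unfold cnt
    rw [card_filter]
    push_cast
    rfl
  have h3 : ∀ A ∈ I, (-1 : ℝ) ^ A.card *
        (cnt Nat.factorial U (∏ p ∈ A, p) (-(z A : ZMod (∏ p ∈ A, p))) : ℝ) / 2 ^ (J * w)
      ≤ (-1) ^ A.card * ∏ p ∈ A, (1 / (p : ℝ))
        + |(cnt Nat.factorial U (∏ p ∈ A, p) (-(z A : ZMod (∏ p ∈ A, p))) : ℝ)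
        / 2 ^ (J * w) - 1 / ((∏ p ∈ A, p : ℕ) : ℝ)| := by
    intro A _
    have h4 : ∏ p ∈ A, (1 / (p : ℝ)) = 1 / ((∏ p ∈ A, p : ℕ) : ℝ) := by
      rw [prod_div_distrib, prod_const_one]
      push_cast
      rfl
    rw [h4]
    set x := (cnt Nat.factorial U (∏ p ∈ A, p) (-(z A : ZMod (∏ p ∈ A, p))) : ℝ)
    set y := 1 / ((∏ p ∈ A, p : ℕ) : ℝ)
    rcases neg_one_pow_eq_or ℝ A.card with h5 | h5
    · rw [h5]
      have := le_abs_self (x / 2 ^ (J * w) - y)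
      rw [one_mul, one_mul]
      linarith
    · rw [h5]
      have := neg_abs_le (x / 2 ^ (J * w) - y)
      rw [neg_one_mul, neg_one_mul, neg_div]
      linarith
  calc (num U (fun F => ∀ p ∈ P', ¬ p ∣ (∑ n ∈ F, n !) + c p) : ℝ) / 2 ^ (J * w)
      ≤ (∑ A ∈ I, (-1) ^ A.card *
        (cnt Nat.factorial U (∏ p ∈ A, p) (-(z A : ZMod (∏ p ∈ A, p))) : ℝ)) / 2 ^ (J * w) := by
        gcongr
    _ = ∑ A ∈ I, (-1 : ℝ) ^ A.card *
        (cnt Nat.factorial U (∏ p ∈ A, p) (-(z A : ZMod (∏ p ∈ A, p))) : ℝ) / 2 ^ (J * w) := by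
        rw [sum_div]
    _ ≤ _ := sum_le_sum h3
    _ = alt (fun p : ℕ => 1 / (p : ℝ)) P' (2 * K + 1) + _ := by
        rw [sum_add_distrib, alt_eq_sum]
    _ ≤ _ := by
        gcongr

theorem block_sq2 (P' : Finset ℕ) (hP : ∀ p ∈ P', p.Prime) {J w h k Y : ℕ} (hJ : 0 < J)
    (hw : 0 < w) (W : ℕ → Finset ℕ) (m : ℕ → ℕ)
    (hWd : ∀ i < J, ∀ j < J, i ≠ j → Disjoint (W i) (W j))
    (hWc : ∀ j < J, (W j).card = w) (hWm : ∀ j < J, W j ⊆ Ioc (m j) (m j + h))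
    (hY : ∀ j < J, m j + h < Y) (hY1 : 1 < Y) (hPY : ∀ p ∈ P', Y ≤ p)
    (hcard : P'.card ≤ 2 ^ w) (hk : 22 ^ k * (8 * w) ≤ J) (c : ℕ → ℕ) :
    (num ((range J).biUnion W) (fun F => ∃ p ∈ P', p ^ 2 ∣ (∑ n ∈ F, n !) + c p) : ℝ)
        / 2 ^ (J * w)
      ≤ ∑ p ∈ P', 1 / (p : ℝ) ^ 2
        + (2 ^ w * Real.exp (-w) + (4 / 3) * (1 + h) / 2 ^ k) := by
  have h := equi2 P' (fun p => p ^ 2) (J := J) (w := w) (h := h) (k := k) (Y := Y) (B := h)
    hJ hw W m hWd hWc hWm hY (fun p hp => pow_ne_zero _ (hP p hp).ne_zero)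
    (fun p hp n hn => by
      apply Nat.Coprime.pow_right
      apply Nat.Coprime.symm
      rw [Nat.Prime.coprime_iff_not_dvd (hP p hp), (hP p hp).dvd_factorial]
      have := hPY p hp
      omega) hcard
    (fun x hx hxY => by
      refine le_trans (card_le_card ?_) (few_primes P' hP hY1 hPY hx hxY)
      intro p hp
      rw [mem_filter] at hp ⊢
      refine ⟨hp.1, dvd_trans ?_ hp.2⟩
      push_cast
      exact dvd_pow_self _ (by norm_num)) hk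
    (fun p => -((c p : ℕ) : ZMod (p ^ 2)))
  set U := (range J).biUnion W with hU
  have h1 : (num U (fun F => ∃ p ∈ P', p ^ 2 ∣ (∑ n ∈ F, n !) + c p) : ℝ)
      ≤ ∑ p ∈ P', (cnt Nat.factorial U (p ^ 2) (-((c p : ℕ) : ZMod (p ^ 2))) : ℝ) := by
    have h2 := num_exists U P' (fun p F => p ^ 2 ∣ (∑ n ∈ F, n !) + c p)
    have h3 : ∀ p ∈ P', num U (fun F => p ^ 2 ∣ (∑ n ∈ F, n !) + c p)
        = cnt Nat.factorial U (p ^ 2) (-((c p : ℕ) : ZMod (p ^ 2))) := by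
      intro p _
      rw [cnt_eq_num]
      apply num_congr
      intro F _
      rw [eq_neg_iff]
    rw [sum_congr rfl h3] at h2
    exact_mod_cast h2
  calc (num U (fun F => ∃ p ∈ P', p ^ 2 ∣ (∑ n ∈ F, n !) + c p) : ℝ) / 2 ^ (J * w)
      ≤ (∑ p ∈ P', (cnt Nat.factorial U (p ^ 2)
        (-((c p : ℕ) : ZMod (p ^ 2))) : ℝ)) / 2 ^ (J * w) := by gcongr
    _ = ∑ p ∈ P', (cnt Nat.factorial U (p ^ 2)
        (-((c p : ℕ) : ZMod (p ^ 2))) : ℝ) / 2 ^ (J * w) := by rw [sum_div]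
    _ ≤ ∑ p ∈ P', (1 / (p : ℝ) ^ 2 + |(cnt Nat.factorial U (p ^ 2)
        (-((c p : ℕ) : ZMod (p ^ 2))) : ℝ) / 2 ^ (J * w) - 1 / ((p ^ 2 : ℕ) : ℝ)|) := by
        refine sum_le_sum fun p _ => ?_
        have := le_abs_self ((cnt Nat.factorial U (p ^ 2)
          (-((c p : ℕ) : ZMod (p ^ 2))) : ℝ) / 2 ^ (J * w) - 1 / ((p ^ 2 : ℕ) : ℝ))
        have h4 : (1 : ℝ) / (p : ℝ) ^ 2 = 1 / ((p ^ 2 : ℕ) : ℝ) := by push_cast; rfl
        rw [h4]
        linarith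
    _ ≤ _ := by
        rw [sum_add_distrib]
        gcongr

/-- free digits in an arbitrary set `U`, the other digits and an arbitrary shift depending on the
prime fixed -/
theorem block_free (P' : Finset ℕ) (hP : ∀ p ∈ P', p.Prime) {U : Finset ℕ} {N J w h k Y K : ℕ}
    (hU : U ⊆ Icc 1 N) (hh : 0 < h) (hJ : 0 < J) (hw : 0 < w)
    (hUc : J * h + (N / h + 1) * w ≤ U.card) (hY : N + h < Y) (hPY : ∀ p ∈ P', Y ≤ p)
    (hK : 1 ≤ K) (hcard : (P'.card + 1) ^ (2 * K) ≤ 2 ^ w) (hk : 22 ^ k * (8 * w) ≤ J)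
    (c : ℕ → ℕ) :
    (num U (fun F => (∀ p ∈ P', ¬ p ∣ (∑ n ∈ F, n !) + c p)
        ∨ ∃ p ∈ P', p ^ 2 ∣ (∑ n ∈ F, n !) + c p) : ℝ) / 2 ^ U.card
      ≤ (alt (fun p : ℕ => 1 / (p : ℝ)) P' (2 * K + 1)
        + (2 ^ w * Real.exp (-w) + (4 / 3) * (1 + (h + 1) ^ (2 * K)) / 2 ^ k))
      + (∑ p ∈ P', 1 / (p : ℝ) ^ 2
        + (2 ^ w * Real.exp (-w) + (4 / 3) * (1 + h) / 2 ^ k)) := by
  classical
  obtain ⟨W, m, hWd, hWc, hWm, hWU, hmN⟩ := exists_windows hU hh hUc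
  set U0 := (range J).biUnion W with hU0
  have hU0U : U0 ⊆ U := by
    rw [hU0, biUnion_subset]
    intro j hj
    exact hWU j (mem_range.mp hj)
  have hU0c : U0.card = J * w := by
    rw [hU0, card_biUnion]
    · rw [sum_congr rfl fun j hj => hWc j (mem_range.mp hj), sum_const, card_range, smul_eq_mul]
    · intro i hi j hj hij
      exact hWd i (mem_range.mp hi) j (mem_range.mp hj) hij
  have hcard2 : P'.card ≤ 2 ^ w := by
    refine le_trans ?_ hcard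
    calc P'.card ≤ P'.card + 1 := by omega
      _ = (P'.card + 1) ^ 1 := (pow_one _).symm
      _ ≤ _ := Nat.pow_le_pow_right (by omega) (by omega)
  set E := (alt (fun p : ℕ => 1 / (p : ℝ)) P' (2 * K + 1)
        + (2 ^ w * Real.exp (-w) + (4 / 3) * (1 + (h + 1) ^ (2 * K)) / 2 ^ k))
      + (∑ p ∈ P', 1 / (p : ℝ) ^ 2
        + (2 ^ w * Real.exp (-w) + (4 / 3) * (1 + h) / 2 ^ k)) with hE
  have key : ∀ F1 ⊆ U \ U0, (num U0 (fun F2 => (∀ p ∈ P', ¬ p ∣ (∑ n ∈ F1 ∪ F2, n !) + c p)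
        ∨ ∃ p ∈ P', p ^ 2 ∣ (∑ n ∈ F1 ∪ F2, n !) + c p) : ℝ) ≤ 2 ^ (J * w) * E := by
    intro F1 hF1
    set c' : ℕ → ℕ := fun p => (∑ n ∈ F1, n !) + c p with hc'
    have hb1 := block2 P' hP (J := J) (w := w) (h := h) (k := k) (Y := Y) (K := K) hJ hw W m
      hWd hWc hWm (fun j hj => by have := hmN j hj; omega) (by omega) hPY hcard hk c'
    have hb2 := block_sq2 P' hP (J := J) (w := w) (h := h) (k := k) (Y := Y) hJ hw W m
      hWd hWc hWm (fun j hj => by have := hmN j hj; omega) (by omega) hPY hcard2 hk c'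
    rw [div_le_iff₀ (by positivity), ← hU0] at hb1 hb2
    have e0 : num U0 (fun F2 => (∀ p ∈ P', ¬ p ∣ (∑ n ∈ F1 ∪ F2, n !) + c p)
        ∨ ∃ p ∈ P', p ^ 2 ∣ (∑ n ∈ F1 ∪ F2, n !) + c p)
        = num U0 (fun F => (∀ p ∈ P', ¬ p ∣ (∑ n ∈ F, n !) + c' p)
        ∨ ∃ p ∈ P', p ^ 2 ∣ (∑ n ∈ F, n !) + c' p) := by
      apply num_congr
      intro F2 hF2
      have e1 : ∀ p, (∑ n ∈ F1 ∪ F2, n !) + c p = (∑ n ∈ F2, n !) + c' p := by
        intro p
        rw [sum_union (disjoint_of_subset_left hF1 (disjoint_of_subset_right hF2 sdiff_disjoint)),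
          hc']
        ring
      simp_rw [e1]
    rw [e0]
    have h2 := num_or U0 (fun F => ∀ p ∈ P', ¬ p ∣ (∑ n ∈ F, n !) + c' p)
      (fun F => ∃ p ∈ P', p ^ 2 ∣ (∑ n ∈ F, n !) + c' p)
    have h3 : (num U0 (fun F => (∀ p ∈ P', ¬ p ∣ (∑ n ∈ F, n !) + c' p)
        ∨ ∃ p ∈ P', p ^ 2 ∣ (∑ n ∈ F, n !) + c' p) : ℝ)
        ≤ (num U0 (fun F => ∀ p ∈ P', ¬ p ∣ (∑ n ∈ F, n !) + c' p) : ℝ)
          + (num U0 (fun F => ∃ p ∈ P', p ^ 2 ∣ (∑ n ∈ F, n !) + c' p) : ℝ) := by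
      exact_mod_cast h2
    rw [hE, mul_add]
    linarith
  have hUU : U = (U \ U0) ∪ U0 := (sdiff_union_of_subset hU0U).symm
  have e1 : num U (fun F => (∀ p ∈ P', ¬ p ∣ (∑ n ∈ F, n !) + c p)
        ∨ ∃ p ∈ P', p ^ 2 ∣ (∑ n ∈ F, n !) + c p)
      = ∑ F1 ∈ (U \ U0).powerset, num U0 (fun F2 =>
        (∀ p ∈ P', ¬ p ∣ (∑ n ∈ F1 ∪ F2, n !) + c p)
        ∨ ∃ p ∈ P', p ^ 2 ∣ (∑ n ∈ F1 ∪ F2, n !) + c p) := by
    conv_lhs => rw [hUU]
    rw [num_split sdiff_disjoint]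
  rw [div_le_iff₀ (by positivity), e1]
  push_cast
  calc _ ≤ ∑ F1 ∈ (U \ U0).powerset, 2 ^ (J * w) * E :=
        sum_le_sum fun F1 hF1 => key F1 (mem_powerset.mp hF1)
    _ = 2 ^ (U \ U0).card * (2 ^ (J * w) * E) := by
        rw [sum_const, card_powerset, nsmul_eq_mul]
        push_cast
        rfl
    _ = E * 2 ^ U.card := by
        have e2 : U.card = (U \ U0).card + J * w := by
          rw [← hU0c]
          exact (card_sdiff_add_card_eq_card hU0U).symm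
        rw [e2, pow_add]
        ring

end Pool.Agent.H70.PF
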