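import Mathlib

set_option autoImplicit false

/-! # Subset sums modulo `q`: characters -/

namespace Pool.Agent.H70.PF

open Finset

section single

variable {q : ℕ} [NeZero q]

/-- the additive character `y ↦ e(y/q)` -/
noncomputable def chr (y : ZMod q) : ℂ := ZMod.stdAddChar y

lemma chr_add (x y : ZMod q) : chr (x + y) = chr x * chr y := AddChar.map_add_eq_mul _ _ _

lemma chr_zero : chr (0 : ZMod q) = 1 := AddChar.map_zero_eq_one _

lemma norm_chr (x : ZMod q) : ‖chr x‖ = 1 := by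
  unfold chr
  exact AddChar.norm_apply _ _

lemma chr_sum {ι : Type*} (s : Finset ι) (f : ι → ZMod q) :
    chr (∑ i ∈ s, f i) = ∏ i ∈ s, chr (f i) := by
  classical
  induction s using Finset.induction_on with
  | empty => simp [chr_zero]
  | insert a s ha ih => rw [sum_insert ha, prod_insert ha, chr_add, ih]

lemma sum_chr (b : ZMod q) : ∑ a : ZMod q, chr (a * b) = if b = 0 then (q : ℂ) else 0 := by
  have h := AddChar.sum_mulShift b (ZMod.isPrimitive_stdAddChar q)
  unfold chr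
  rw [h, ZMod.card]
  split_ifs <;> simp

/-- quadratic distance of `a` from `0` seen by the digits in `A` -/
noncomputable def ss (v : ℕ → ℕ) (A : Finset ℕ) (a : ZMod q) : ℝ :=
  ∑ n ∈ A, ‖1 - chr (a * (v n : ZMod q))‖ ^ 2

/-- absolute value of the characteristic function -/
noncomputable def ph (v : ℕ → ℕ) (A : Finset ℕ) (a : ZMod q) : ℝ :=
  ∏ n ∈ A, (‖1 + chr (a * (v n : ZMod q))‖ / 2)

lemma ph_nonneg (v : ℕ → ℕ) (A : Finset ℕ) (a : ZMod q) : 0 ≤ ph v A a :=
  prod_nonneg fun _ _ => by positivity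

lemma ss_nonneg (v : ℕ → ℕ) (A : Finset ℕ) (a : ZMod q) : 0 ≤ ss v A a :=
  sum_nonneg fun _ _ => by positivity

lemma prod_char (v : ℕ → ℕ) (A : Finset ℕ) (a : ZMod q) :
    ∏ n ∈ A, (1 + chr (a * (v n : ZMod q)))
      = ∑ F ∈ A.powerset, chr (a * ((∑ n ∈ F, v n : ℕ) : ZMod q)) := by
  rw [prod_one_add]
  refine sum_congr rfl fun F _ => ?_
  rw [← chr_sum]
  push_cast
  rw [mul_sum]

/-- the number of subsets with prescribed sum, by characters -/
lemma count_char (v : ℕ → ℕ) (A : Finset ℕ) (c : ZMod q) :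
    ∑ a : ZMod q, chr (-(a * c)) * ∏ n ∈ A, (1 + chr (a * (v n : ZMod q)))
      = (q : ℂ) * ((A.powerset.filter
          (fun F => ((∑ n ∈ F, v n : ℕ) : ZMod q) = c)).card : ℂ) := by
  have h1 : ∀ a : ZMod q, chr (-(a * c)) * ∏ n ∈ A, (1 + chr (a * (v n : ZMod q)))
      = ∑ F ∈ A.powerset, chr (a * (((∑ n ∈ F, v n : ℕ) : ZMod q) - c)) := by
    intro a
    rw [prod_char, mul_sum]
    refine sum_congr rfl fun F _ => ?_
    rw [← chr_add]
    congr 1
    ring
  rw [sum_congr rfl fun a _ => h1 a, sum_comm]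
  rw [sum_congr rfl fun F _ => sum_chr _]
  rw [← sum_filter, sum_const, nsmul_eq_mul, mul_comm]
  congr 3
  ext F
  simp only [mem_filter, sub_eq_zero]

lemma norm_prod_char (v : ℕ → ℕ) (A : Finset ℕ) (a : ZMod q) :
    ‖∏ n ∈ A, (1 + chr (a * (v n : ZMod q)))‖ = 2 ^ A.card * ph v A a := by
  rw [norm_prod, ph, prod_div_distrib, prod_const]
  field_simp

lemma ph_zero (v : ℕ → ℕ) (A : Finset ℕ) : ph v A (0 : ZMod q) = 1 := by
  unfold ph
  apply prod_eq_one
  intro n _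
  rw [zero_mul, chr_zero]
  norm_num

/-- deviation from equidistribution -/
lemma dev_le (v : ℕ → ℕ) (A : Finset ℕ) (c : ZMod q) :
    |((A.powerset.filter (fun F => ((∑ n ∈ F, v n : ℕ) : ZMod q) = c)).card : ℝ) / 2 ^ A.card
        - 1 / q| ≤ (1 / q) * ∑ a ∈ (univ : Finset (ZMod q)).erase 0, ph v A a := by
  have hq : (0 : ℝ) < q := by exact_mod_cast Nat.pos_of_ne_zero (NeZero.ne q)
  have h1 := count_char v A c
  rw [← add_sum_erase _ _ (mem_univ (0 : ZMod q))] at h1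
  have h2 : chr (-((0 : ZMod q) * c)) * ∏ n ∈ A, (1 + chr ((0 : ZMod q) * (v n : ZMod q)))
      = 2 ^ A.card := by
    rw [zero_mul, neg_zero, chr_zero, one_mul]
    rw [prod_congr rfl fun n _ => by rw [zero_mul, chr_zero], prod_const]
    norm_num
  rw [h2] at h1
  set N : ℝ := ((A.powerset.filter (fun F => ((∑ n ∈ F, v n : ℕ) : ZMod q) = c)).card : ℝ)
    with hN
  have h3 : ‖((q : ℂ) * (N : ℂ) - 2 ^ A.card)‖
      ≤ ∑ a ∈ (univ : Finset (ZMod q)).erase 0, 2 ^ A.card * ph v A a := by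
    have : (q : ℂ) * (N : ℂ) - 2 ^ A.card
        = ∑ a ∈ (univ : Finset (ZMod q)).erase 0,
          chr (-(a * c)) * ∏ n ∈ A, (1 + chr (a * (v n : ZMod q))) := by
      rw [hN, Complex.ofReal_natCast, ← h1]
      ring
    rw [this]
    refine (norm_sum_le _ _).trans (sum_le_sum fun a _ => ?_)
    rw [norm_mul, norm_chr, one_mul, norm_prod_char]
  have h4 : ‖((q : ℂ) * (N : ℂ) - 2 ^ A.card)‖ = |(q : ℝ) * N - 2 ^ A.card| := by
    have : ((q : ℂ) * (N : ℂ) - 2 ^ A.card) = (((q : ℝ) * N - 2 ^ A.card : ℝ) : ℂ) := by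
      push_cast
      ring
    rw [this, Complex.norm_real, Real.norm_eq_abs]
  rw [h4, ← mul_sum] at h3
  have h5 : N / 2 ^ A.card - 1 / q = ((q : ℝ) * N - 2 ^ A.card) / (2 ^ A.card * q) := by
    field_simp
  rw [h5, abs_div, abs_of_pos (by positivity : (0 : ℝ) < 2 ^ A.card * q), div_le_iff₀
    (by positivity)]
  calc |(q : ℝ) * N - 2 ^ A.card|
      ≤ 2 ^ A.card * ∑ a ∈ (univ : Finset (ZMod q)).erase 0, ph v A a := h3
    _ = (1 / q * ∑ a ∈ (univ : Finset (ZMod q)).erase 0, ph v A a) * (2 ^ A.card * q) := by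
        field_simp

/-- collisions, by characters -/
lemma coll_char (v : ℕ → ℕ) (A : Finset ℕ) :
    4 ^ A.card * ∑ a : ZMod q, ph v A a ^ 2
      = (q : ℝ) * (((A.powerset ×ˢ A.powerset).filter
          (fun P => ((∑ n ∈ P.1, v n : ℕ) : ZMod q) = ((∑ n ∈ P.2, v n : ℕ) : ZMod q))).card
            : ℝ) := by
  have h1 : ∀ a : ZMod q, ((4 ^ A.card * ph v A a ^ 2 : ℝ) : ℂ)
      = ∑ P ∈ A.powerset ×ˢ A.powerset,
        chr (a * (((∑ n ∈ P.1, v n : ℕ) : ZMod q) - ((∑ n ∈ P.2, v n : ℕ) : ZMod q))) := by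
    intro a
    have h2 : ((4 ^ A.card * ph v A a ^ 2 : ℝ) : ℂ)
        = ((‖∏ n ∈ A, (1 + chr (a * (v n : ZMod q)))‖ ^ 2 : ℝ) : ℂ) := by
      rw [norm_prod_char, mul_pow, ← pow_mul, mul_comm A.card 2, pow_mul]
      norm_num
    rw [h2, Complex.ofReal_pow, ← Complex.mul_conj', prod_char, map_sum, sum_mul_sum,
      sum_product]
    refine sum_congr rfl fun F _ => sum_congr rfl fun F' _ => ?_
    have h3 : (starRingEnd ℂ) (chr (a * ((∑ n ∈ F', v n : ℕ) : ZMod q)))
        = chr (-(a * ((∑ n ∈ F', v n : ℕ) : ZMod q))) := by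
      unfold chr
      rw [AddChar.map_neg_eq_conj]
    rw [h3, ← chr_add]
    congr 1
    ring
  have h2 : ((4 ^ A.card * ∑ a : ZMod q, ph v A a ^ 2 : ℝ) : ℂ)
      = (((q : ℝ) * (((A.powerset ×ˢ A.powerset).filter
          (fun P => ((∑ n ∈ P.1, v n : ℕ) : ZMod q) = ((∑ n ∈ P.2, v n : ℕ) : ZMod q))).card
            : ℝ) : ℝ) : ℂ) := by
    rw [mul_sum, Complex.ofReal_sum, sum_congr rfl fun a _ => h1 a, sum_comm,
      sum_congr rfl fun P _ => sum_chr _, ← sum_filter, sum_const, nsmul_eq_mul, mul_comm]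
    push_cast
    congr 3
    ext P
    simp only [mem_filter, sub_eq_zero]
  exact_mod_cast h2

lemma sq_half (z : ℂ) (hz : ‖z‖ = 1) : (‖1 + z‖ / 2) ^ 2 = 1 - ‖1 - z‖ ^ 2 / 4 := by
  have h := parallelogram_law_with_norm ℝ (1 : ℂ) z
  rw [hz, norm_one] at h
  nlinarith

lemma ph_sq_ge (v : ℕ → ℕ) (A : Finset ℕ) (a : ZMod q) : 1 - ss v A a / 4 ≤ ph v A a ^ 2 := by
  classical
  unfold ph ss
  rw [← prod_pow]
  rw [prod_congr rfl fun n _ => sq_half _ (norm_chr _)]
  have key : ∀ (B : Finset ℕ) (f : ℕ → ℝ), (∀ n ∈ B, 0 ≤ f n) → (∀ n ∈ B, f n ≤ 1) →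
      1 - ∑ n ∈ B, f n ≤ ∏ n ∈ B, (1 - f n) := by
    intro B f h0 h1
    induction B using Finset.induction_on with
    | empty => simp
    | insert b B hb ih =>
      rw [sum_insert hb, prod_insert hb]
      have ih' := ih (fun n hn => h0 n (mem_insert_of_mem hn))
        (fun n hn => h1 n (mem_insert_of_mem hn))
      have hb0 := h0 b (mem_insert_self b B)
      have hb1 := h1 b (mem_insert_self b B)
      have hp : ∏ n ∈ B, (1 - f n) ≤ 1 := by
        apply prod_le_one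
        · intro n hn
          linarith [h1 n (mem_insert_of_mem hn)]
        · intro n hn
          linarith [h0 n (mem_insert_of_mem hn)]
      nlinarith
  have h2 := key A (fun n => ‖1 - chr (a * (v n : ZMod q))‖ ^ 2 / 4)
    (fun n _ => by positivity) (fun n _ => by
      have h3 : ‖1 - chr (a * (v n : ZMod q))‖ ≤ 2 := by
        refine (norm_sub_le _ _).trans ?_
        rw [norm_chr, norm_one]
        norm_num
      have h4 := norm_nonneg (1 - chr (a * (v n : ZMod q)))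
      nlinarith)
  rw [sum_div]
  exact h2

lemma ph_le (v : ℕ → ℕ) (A : Finset ℕ) (a : ZMod q) :
    ph v A a ≤ Real.exp (-(ss v A a) / 8) := by
  have h1 : ph v A a ^ 2 ≤ Real.exp (-(ss v A a) / 8) ^ 2 := by
    unfold ph ss
    rw [← prod_pow, prod_congr rfl fun n _ => sq_half _ (norm_chr _)]
    have h2 : Real.exp (-(∑ n ∈ A, ‖1 - chr (a * (v n : ZMod q))‖ ^ 2) / 8) ^ 2
        = ∏ n ∈ A, Real.exp (-(‖1 - chr (a * (v n : ZMod q))‖ ^ 2 / 4)) := by
      rw [← Real.exp_sum, ← Real.exp_nat_mul]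
      congr 1
      rw [sum_neg_distrib, ← sum_div]
      push_cast
      ring
    rw [h2]
    apply prod_le_prod
    · intro n _
      rw [← sq_half _ (norm_chr _)]
      positivity
    · intro n _
      have := Real.add_one_le_exp (-(‖1 - chr (a * (v n : ZMod q))‖ ^ 2 / 4))
      linarith
  exact (pow_le_pow_iff_left₀ (ph_nonneg v A a) (Real.exp_pos _).le (by norm_num)).mp h1

end single

end Pool.Agent.H70.PF
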