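import Pool.Agent.H70.PF.Grow
import Pool.Agent.H70.PF.Num

set_option autoImplicit false

/-! # Definitions for the multi-scale argument -/

namespace Pool.Agent.H70.PF

open Finset Nat

/-- lazy characteristic function: `∏ (1 - |1 - e(a v_n / q)|^2 / 8)` -/
noncomputable def lz {q : ℕ} [NeZero q] (v : ℕ → ℕ) (A : Finset ℕ) (a : ZMod q) : ℝ :=
  ∏ n ∈ A, (1 - ‖1 - chr (a * (v n : ZMod q))‖ ^ 2 / 8)

/-- lazy collision probability: choose a random subset `V` of `A`, then two random subsets of `V` -/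
noncomputable def plz (v : ℕ → ℕ) (A : Finset ℕ) (q : ℕ) : ℝ :=
  (∑ V ∈ A.powerset, (coll v V q : ℝ) / 4 ^ V.card) / 2 ^ A.card

/-- the subsets of `P` with at most two elements -/
def sub2 (P : Finset ℕ) : Finset (Finset ℕ) := P.powerset.filter (fun A => A.card ≤ 2)

/-- choices of at most two elements in each of `G 0, ..., G (i-1)` -/
def Tf (G : ℕ → Finset ℕ) (i : ℕ) : Finset (Fin i → Finset ℕ) :=
  Fintype.piFinset (fun j : Fin i => sub2 (G j))

/-- the modulus attached to a choice -/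
def qq {i : ℕ} (x : Fin i → Finset ℕ) : ℕ := ∏ j : Fin i, ∏ p ∈ x j, p

/-- the sum of the lazy collision probabilities over all choices -/
noncomputable def Lam (G : ℕ → Finset ℕ) (i : ℕ) (W : Finset ℕ) : ℝ :=
  ∑ x ∈ Tf G i, plz Nat.factorial W (qq x)

/-- windows of level `i`: sets of at least `s i` integers in an interval of length `g * s i`
below `Y`, which are disjoint unions of at least `J` windows of the preceding level -/
def Win (s : ℕ → ℕ) (g Y J : ℕ) : ℕ → Finset ℕ → Prop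
  | 0, W => s 0 ≤ W.card ∧ ∃ m, W ⊆ Ioc m (m + g * s 0) ∧ m + g * s 0 < Y
  | i + 1, W => s (i + 1) ≤ W.card ∧
      (∃ m, W ⊆ Ioc m (m + g * s (i + 1)) ∧ m + g * s (i + 1) < Y) ∧
      ∃ (S : Finset ℕ) (Ws : ℕ → Finset ℕ), J ≤ S.card ∧
        (∀ a ∈ S, ∀ b ∈ S, a ≠ b → Disjoint (Ws a) (Ws b)) ∧
        (∀ a ∈ S, Win s g Y J i (Ws a)) ∧ W = S.biUnion Ws

end Pool.Agent.H70.PF
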