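import Pool.Agent.H70.PF.Grow

set_option autoImplicit false

/-! # Sums of distinct factorials modulo `q` -/

namespace Pool.Agent.H70.PF

open Finset Nat

lemma factorial_le_mul_pow {m Y : ℕ} : ∀ k : ℕ, m + k < Y → (m + k)! ≤ m ! * Y ^ k
  | 0, _ => by simp
  | k + 1, h => by
    have ih := factorial_le_mul_pow (m := m) (Y := Y) k (by omega)
    have h1 : (m + (k + 1))! = (m + k + 1) * (m + k)! := by
      rw [← Nat.factorial_succ]
      rfl
    rw [h1, pow_succ]
    calc (m + k + 1) * (m + k)! ≤ Y * (m ! * Y ^ k) := Nat.mul_le_mul (by omega) ih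
      _ = m ! * (Y ^ k * Y) := by ring

/-- a difference of two different sums of distinct factorials with indices in `(m, m + w]` -/
lemma diff_ne_zero {m w : ℕ} {F F' : Finset ℕ} (hF : F ⊆ Ioc m (m + w))
    (hF' : F' ⊆ Ioc m (m + w)) (hne : F ≠ F') :
    ((∑ n ∈ F, n ! : ℕ) : ℤ) - ((∑ n ∈ F', n ! : ℕ) : ℤ) ≠ 0 := by
  have key : ∀ G G' : Finset ℕ, G ⊆ Ioc m (m + w) → G' ⊆ Ioc m (m + w) →
      ∀ n0 ∈ G, n0 ∉ G' → (∀ n < n0, n ∈ G ↔ n ∈ G') →
      ∑ n ∈ G, n ! ≠ ∑ n ∈ G', n ! := by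
    intro G G' hG hG' n0 hn0 hn0' hlt heq
    have h1 : ∑ n ∈ G, n ! = (∑ n ∈ G.filter (fun n => n < n0), n !)
        + (n0 ! + ∑ n ∈ G.filter (fun n => n0 < n), n !) := by
      rw [← sum_filter_add_sum_filter_not G (fun n => n < n0)]
      congr 1
      have : G.filter (fun n => ¬ n < n0) = insert n0 (G.filter (fun n => n0 < n)) := by
        ext n
        simp only [mem_filter, mem_insert]
        constructor
        · rintro ⟨h, h'⟩
          rcases (not_lt.mp h').eq_or_lt with h2 | h2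
          · exact Or.inl h2.symm
          · exact Or.inr ⟨h, h2⟩
        · rintro (rfl | ⟨h, h'⟩)
          · exact ⟨hn0, lt_irrefl _⟩
          · exact ⟨h, by omega⟩
      rw [this, sum_insert (by simp)]
    have h2 : ∑ n ∈ G', n ! = (∑ n ∈ G'.filter (fun n => n < n0), n !)
        + ∑ n ∈ G'.filter (fun n => n0 < n), n ! := by
      rw [← sum_filter_add_sum_filter_not G' (fun n => n < n0)]
      congr 1
      apply sum_congr _ (fun _ _ => rfl)
      ext n
      simp only [mem_filter]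
      constructor
      · rintro ⟨h, h'⟩
        refine ⟨h, lt_of_le_of_ne (not_lt.mp h') ?_⟩
        rintro rfl
        exact hn0' h
      · rintro ⟨h, h'⟩
        exact ⟨h, by omega⟩
    have h3 : G.filter (fun n => n < n0) = G'.filter (fun n => n < n0) := by
      ext n
      simp only [mem_filter]
      constructor
      · rintro ⟨h, h'⟩
        exact ⟨(hlt n h').mp h, h'⟩
      · rintro ⟨h, h'⟩
        exact ⟨(hlt n h').mpr h, h'⟩
    rw [h1, h2, h3] at heq
    have h4 : n0 ! + ∑ n ∈ G.filter (fun n => n0 < n), n !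
        = ∑ n ∈ G'.filter (fun n => n0 < n), n ! := by omega
    have h5 : ∀ H : Finset ℕ, (n0 + 1)! ∣ ∑ n ∈ H.filter (fun n => n0 < n), n ! := by
      intro H
      apply dvd_sum
      intro n hn
      rw [mem_filter] at hn
      exact Nat.factorial_dvd_factorial (by omega)
    have h6 : (n0 + 1)! ∣ n0 ! := by
      have := h5 G'
      rw [← h4] at this
      exact (Nat.dvd_add_left (h5 G)).mp this
    have h7 := Nat.le_of_dvd (Nat.factorial_pos _) h6
    have h8 := hG hn0
    rw [mem_Ioc] at h8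
    rw [Nat.factorial_succ] at h7
    have h9 := Nat.factorial_pos n0
    nlinarith
  have hex : ∃ n, ¬ (n ∈ F ↔ n ∈ F') := by
    by_contra h
    push Not at h
    exact hne (Finset.ext h)
  intro h0
  have heq : ∑ n ∈ F, n ! = ∑ n ∈ F', n ! := by
    have := sub_eq_zero.mp h0
    exact_mod_cast this
  have hspec := Nat.find_spec hex
  have hmin : ∀ n < Nat.find hex, n ∈ F ↔ n ∈ F' := by
    intro n hn
    have := Nat.find_min hex hn
    push Not at this
    exact this
  by_cases h1 : Nat.find hex ∈ F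
  · have h2 : Nat.find hex ∉ F' := fun h => hspec ⟨fun _ => h, fun _ => h1⟩
    exact key F F' hF hF' _ h1 h2 hmin heq
  · have h2 : Nat.find hex ∈ F' := by
      by_contra h
      exact hspec ⟨fun h' => absurd h' h1, fun h' => absurd h' h⟩
    exact key F' F hF' hF _ h2 h1 (fun n hn => (hmin n hn).symm) heq.symm

/-- the difference is `m !` times a small nonzero integer -/
lemma diff_form {m w Y : ℕ} (hY : m + w < Y) {F F' : Finset ℕ} (hF : F ⊆ Ioc m (m + w))
    (hF' : F' ⊆ Ioc m (m + w)) (hne : F ≠ F') :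
    ∃ z : ℤ, z ≠ 0 ∧ z.natAbs < Y ^ (w + 1) ∧
      ((∑ n ∈ F, n ! : ℕ) : ℤ) - ((∑ n ∈ F', n ! : ℕ) : ℤ) = (m ! : ℤ) * z := by
  have hm : ∀ G : Finset ℕ, G ⊆ Ioc m (m + w) →
      ∃ y : ℕ, y < Y ^ (w + 1) ∧ ∑ n ∈ G, n ! = m ! * y := by
    intro G hG
    have h1 : m ! ∣ ∑ n ∈ G, n ! := by
      apply dvd_sum
      intro n hn
      have := hG hn
      rw [mem_Ioc] at this
      exact Nat.factorial_dvd_factorial (by omega)
    obtain ⟨y, hy⟩ := h1
    refine ⟨y, ?_, hy⟩
    have h2 : m ! * y ≤ w * (m ! * Y ^ w) := by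
      rw [← hy]
      calc ∑ n ∈ G, n ! ≤ ∑ n ∈ G, m ! * Y ^ w := by
            refine sum_le_sum fun n hn => ?_
            have h3 := hG hn
            rw [mem_Ioc] at h3
            obtain ⟨k, rfl⟩ := Nat.exists_eq_add_of_le (le_of_lt h3.1)
            refine (factorial_le_mul_pow (Y := Y) k (by omega)).trans ?_
            exact Nat.mul_le_mul_left _ (Nat.pow_le_pow_right (by omega) (by omega))
        _ = G.card * (m ! * Y ^ w) := by rw [sum_const, smul_eq_mul]
        _ ≤ w * (m ! * Y ^ w) := by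
            apply Nat.mul_le_mul_right
            calc G.card ≤ (Ioc m (m + w)).card := card_le_card hG
              _ = w := by rw [Nat.card_Ioc]; omega
    have h4 : m ! * y ≤ m ! * (w * Y ^ w) := by
      calc m ! * y ≤ w * (m ! * Y ^ w) := h2
        _ = m ! * (w * Y ^ w) := by ring
    have h5 := Nat.le_of_mul_le_mul_left h4 (Nat.factorial_pos m)
    refine h5.trans_lt ?_
    rw [pow_succ, mul_comm]
    exact Nat.mul_lt_mul_of_pos_left (by omega) (Nat.pow_pos (by omega))
  obtain ⟨y, hy1, hy2⟩ := hm F hF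
  obtain ⟨y', hy1', hy2'⟩ := hm F' hF'
  have h0 := diff_ne_zero hF hF' hne
  refine ⟨(y : ℤ) - y', ?_, ?_, ?_⟩
  · intro h
    apply h0
    rw [hy2, hy2']
    push_cast
    rw [← mul_sub, h, mul_zero]
  · omega
  · rw [hy2, hy2']
    push_cast
    ring

lemma coll_eq_sum {ι : Type*} (I : Finset ι) (q : ι → ℕ) (A : Finset ℕ) :
    ∑ i ∈ I, coll Nat.factorial A (q i)
      = ∑ P ∈ A.powerset ×ˢ A.powerset, (I.filter (fun i =>
        ((q i : ℤ) ∣ ((∑ n ∈ P.1, n ! : ℕ) : ℤ) - ((∑ n ∈ P.2, n ! : ℕ) : ℤ)))).card := by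
  classical
  unfold coll
  simp_rw [card_filter]
  rw [sum_comm]
  refine sum_congr rfl fun P _ => sum_congr rfl fun i _ => ?_
  have h1 : (((∑ n ∈ P.1, n ! : ℕ) : ZMod (q i)) = ((∑ n ∈ P.2, n ! : ℕ) : ZMod (q i)))
      ↔ ((q i : ℤ) ∣ ((∑ n ∈ P.1, n ! : ℕ) : ℤ) - ((∑ n ∈ P.2, n ! : ℕ) : ℤ)) := by
    have h2 := ZMod.intCast_eq_intCast_iff_dvd_sub ((∑ n ∈ P.2, n ! : ℕ) : ℤ)
      ((∑ n ∈ P.1, n ! : ℕ) : ℤ) (q i)
    rw [← h2, Int.cast_natCast, Int.cast_natCast]
    exact eq_comm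
  by_cases h : (((∑ n ∈ P.1, n ! : ℕ) : ZMod (q i)) = ((∑ n ∈ P.2, n ! : ℕ) : ZMod (q i)))
  · rw [if_pos h, if_pos (h1.mp h)]
  · rw [if_neg h, if_neg (fun h' => h (h1.mpr h'))]

lemma sum_coll_le {ι : Type*} (I : Finset ι) (q : ι → ℕ) {m w Y B : ℕ} (hY : m + w < Y)
    (hcop : ∀ i ∈ I, Nat.Coprime (m !) (q i)) (hI : I.card ≤ 2 ^ w)
    (hB : ∀ z : ℤ, z ≠ 0 → z.natAbs < Y ^ (w + 1) →
      (I.filter (fun i => (q i : ℤ) ∣ z)).card ≤ B) :
    ∑ i ∈ I, coll Nat.factorial (Ioc m (m + w)) (q i) ≤ 4 ^ w * (1 + B) := by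
  classical
  rw [coll_eq_sum]
  have hcard : (Ioc m (m + w)).card = w := by rw [Nat.card_Ioc]; omega
  rw [← sum_filter_add_sum_filter_not _ (fun P : Finset ℕ × Finset ℕ => P.1 = P.2)]
  have h1 : ∑ P ∈ ((Ioc m (m + w)).powerset ×ˢ (Ioc m (m + w)).powerset).filter
      (fun P : Finset ℕ × Finset ℕ => P.1 = P.2), (I.filter (fun i =>
        ((q i : ℤ) ∣ ((∑ n ∈ P.1, n ! : ℕ) : ℤ) - ((∑ n ∈ P.2, n ! : ℕ) : ℤ)))).card
      ≤ 2 ^ w * 2 ^ w := by
    calc _ ≤ ∑ P ∈ ((Ioc m (m + w)).powerset ×ˢ (Ioc m (m + w)).powerset).filter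
          (fun P : Finset ℕ × Finset ℕ => P.1 = P.2), 2 ^ w :=
          sum_le_sum fun P _ => (card_filter_le _ _).trans hI
      _ = (((Ioc m (m + w)).powerset ×ˢ (Ioc m (m + w)).powerset).filter
          (fun P : Finset ℕ × Finset ℕ => P.1 = P.2)).card * 2 ^ w := by
          rw [sum_const, smul_eq_mul]
      _ ≤ 2 ^ w * 2 ^ w := by
          apply Nat.mul_le_mul_right
          calc _ ≤ ((Ioc m (m + w)).powerset.image (fun F => (F, F))).card := by
                apply card_le_card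
                rintro ⟨F, F'⟩ hP
                rw [mem_filter, mem_product] at hP
                rw [mem_image]
                refine ⟨F, hP.1.1, ?_⟩
                have := hP.2
                simp only at this
                rw [this]
            _ ≤ ((Ioc m (m + w)).powerset).card := card_image_le
            _ = 2 ^ w := by rw [card_powerset, hcard]
  have h2 : ∑ P ∈ ((Ioc m (m + w)).powerset ×ˢ (Ioc m (m + w)).powerset).filter
      (fun P : Finset ℕ × Finset ℕ => ¬ P.1 = P.2), (I.filter (fun i =>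
        ((q i : ℤ) ∣ ((∑ n ∈ P.1, n ! : ℕ) : ℤ) - ((∑ n ∈ P.2, n ! : ℕ) : ℤ)))).card
      ≤ 4 ^ w * B := by
    calc _ ≤ ∑ P ∈ ((Ioc m (m + w)).powerset ×ˢ (Ioc m (m + w)).powerset).filter
          (fun P : Finset ℕ × Finset ℕ => ¬ P.1 = P.2), B := by
          refine sum_le_sum fun P hP => ?_
          rw [mem_filter, mem_product, mem_powerset, mem_powerset] at hP
          obtain ⟨z, hz0, hz1, hz2⟩ := diff_form hY hP.1.1 hP.1.2 hP.2
          refine le_trans (card_le_card ?_) (hB z hz0 hz1)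
          intro i hi
          rw [mem_filter] at hi ⊢
          refine ⟨hi.1, ?_⟩
          rw [hz2] at hi
          have hc : IsCoprime ((q i : ℤ)) ((m ! : ℕ) : ℤ) :=
            (Nat.isCoprime_iff_coprime.mpr (hcop i hi.1)).symm
          exact hc.dvd_of_dvd_mul_left hi.2
      _ = (((Ioc m (m + w)).powerset ×ˢ (Ioc m (m + w)).powerset).filter
          (fun P : Finset ℕ × Finset ℕ => ¬ P.1 = P.2)).card * B := by
          rw [sum_const, smul_eq_mul]
      _ ≤ 4 ^ w * B := by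
          apply Nat.mul_le_mul_right
          refine (card_filter_le _ _).trans ?_
          rw [card_product, card_powerset, hcard, ← mul_pow]
          norm_num
  have h3 : (2 : ℕ) ^ w * 2 ^ w = 4 ^ w := by rw [← mul_pow]; norm_num
  calc _ ≤ 2 ^ w * 2 ^ w + 4 ^ w * B := Nat.add_le_add h1 h2
    _ = 4 ^ w * (1 + B) := by rw [h3]; ring

lemma biUnion_Ioc (M w : ℕ) : ∀ J : ℕ,
    (range J).biUnion (fun j => Ioc (M + j * w) (M + j * w + w)) = Ioc M (M + J * w)
  | 0 => by simp
  | J + 1 => by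
    rw [range_add_one, biUnion_insert, biUnion_Ioc M w J]
    ext n
    rw [mem_union, mem_Ioc, mem_Ioc, mem_Ioc, add_mul, one_mul]
    constructor
    · rintro (⟨h1, h2⟩ | ⟨h1, h2⟩)
      · exact ⟨by omega, by omega⟩
      · exact ⟨by omega, by omega⟩
    · rintro ⟨h1, h2⟩
      by_cases h : n ≤ M + J * w
      · exact Or.inr ⟨h1, h⟩
      · exact Or.inl ⟨by omega, by omega⟩

/-- subset sums of factorials are equidistributed modulo `q` on average over `q` -/
theorem equi {ι : Type*} (I : Finset ι) (q : ι → ℕ) {M J w k Y B : ℕ} (hJ : 0 < J) (hw : 0 < w)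
    (hY : M + J * w < Y) (hq : ∀ i ∈ I, q i ≠ 0)
    (hcop : ∀ i ∈ I, Nat.Coprime ((M + J * w)!) (q i)) (hI : I.card ≤ 2 ^ w)
    (hB : ∀ z : ℤ, z ≠ 0 → z.natAbs < Y ^ (w + 1) →
      (I.filter (fun i => (q i : ℤ) ∣ z)).card ≤ B)
    (hk : 22 ^ k * (8 * w) ≤ J) (c : ∀ i, ZMod (q i)) :
    ∑ i ∈ I, |(cnt Nat.factorial (Ioc M (M + J * w)) (q i) (c i) : ℝ) / 2 ^ (J * w)
        - 1 / q i|
      ≤ 2 ^ w * Real.exp (-w) + (4 / 3) * (1 + B) / 2 ^ k := by
  classical
  have hcopn : ∀ i ∈ I, ∀ n, n ≤ M + J * w → Nat.Coprime (n !) (q i) := fun i hi n hn =>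
    Nat.Coprime.coprime_dvd_left (Nat.factorial_dvd_factorial hn) (hcop i hi)
  have hjw : ∀ j < J, M + j * w + w ≤ M + J * w := by
    intro j hj
    have : (j + 1) * w ≤ J * w := Nat.mul_le_mul_right _ hj
    rw [add_mul, one_mul] at this
    omega
  have h := dev_family Nat.factorial I q hq hJ hw (fun j => Ioc (M + j * w) (M + j * w + w))
    (fun i _ j _ hij => by
      rw [disjoint_left]
      intro n hn hn'
      rw [mem_Ioc] at hn hn'
      rcases lt_or_gt_of_ne hij with h | h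
      · have : (i + 1) * w ≤ j * w := Nat.mul_le_mul_right _ h
        rw [add_mul, one_mul] at this
        omega
      · have : (j + 1) * w ≤ i * w := Nat.mul_le_mul_right _ h
        rw [add_mul, one_mul] at this
        omega)
    (fun j _ => by rw [Nat.card_Ioc]; omega)
    (fun i hi j hj n hn => by
      rw [mem_Ioc] at hn
      rw [ZMod.isUnit_iff_coprime]
      exact hcopn i hi n (by have := hjw j hj; omega))
    k (t := 8 * w) (by positivity) (by exact_mod_cast hk) (1 + B)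
    (fun j hj => by
      have h1 := sum_coll_le I q (m := M + j * w) (w := w) (Y := Y) (B := B)
        (by have := hjw j hj; omega)
        (fun i hi => hcopn i hi _ (by have := hjw j hj; omega)) hI hB
      exact_mod_cast h1) c
  rw [biUnion_Ioc] at h
  have hcard : (Ioc M (M + J * w)).card = J * w := by rw [Nat.card_Ioc]; omega
  rw [hcard] at h
  refine h.trans ?_
  have h1 : (I.card : ℝ) ≤ 2 ^ w := by exact_mod_cast hI
  have h2 : Real.exp (-(8 * (w : ℝ)) / 8) = Real.exp (-w) := by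
    congr 1
    ring
  rw [h2]
  gcongr

end Pool.Agent.H70.PF
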