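import Pool.Agent.H70.PF.Char

set_option autoImplicit false

/-! # Growth of the sets of bad frequencies, equidistribution on average -/

namespace Pool.Agent.H70.PF

open Finset

section single

variable {q : ℕ} [NeZero q]

lemma norm_one_sub_chr_add (x y : ZMod q) :
    ‖1 - chr (x + y)‖ ^ 2 ≤ 2 * ‖1 - chr x‖ ^ 2 + 2 * ‖1 - chr y‖ ^ 2 := by
  have h1 : 1 - chr (x + y) = (1 - chr x) + chr x * (1 - chr y) := by
    rw [chr_add]
    ring
  have h2 : ‖1 - chr (x + y)‖ ≤ ‖1 - chr x‖ + ‖1 - chr y‖ := by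
    rw [h1]
    refine (norm_add_le _ _).trans ?_
    rw [norm_mul, norm_chr, one_mul]
  have h3 := norm_nonneg (1 - chr (x + y))
  nlinarith [sq_nonneg (‖1 - chr x‖ - ‖1 - chr y‖)]

lemma norm_one_sub_chr_neg (x : ZMod q) : ‖1 - chr (-x)‖ = ‖1 - chr x‖ := by
  have h1 : chr x * (1 - chr (-x)) = chr x - 1 := by
    rw [mul_sub, ← chr_add, add_neg_cancel, chr_zero, mul_one]
  have h2 : ‖chr x * (1 - chr (-x))‖ = ‖1 - chr (-x)‖ := by rw [norm_mul, norm_chr, one_mul]
  rw [← h2, h1, norm_sub_rev]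

lemma ss_add (v : ℕ → ℕ) (A : Finset ℕ) (a b : ZMod q) :
    ss v A (a + b) ≤ 2 * ss v A a + 2 * ss v A b := by
  unfold ss
  rw [mul_sum, mul_sum, ← sum_add_distrib]
  refine sum_le_sum fun n _ => ?_
  rw [add_mul]
  exact norm_one_sub_chr_add _ _

lemma ss_neg (v : ℕ → ℕ) (A : Finset ℕ) (a : ZMod q) : ss v A (-a) = ss v A a := by
  unfold ss
  refine sum_congr rfl fun n _ => ?_
  rw [neg_mul, norm_one_sub_chr_neg]

lemma ss_zero (v : ℕ → ℕ) (A : Finset ℕ) : ss v A (0 : ZMod q) = 0 := by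
  unfold ss
  refine sum_eq_zero fun n _ => ?_
  rw [zero_mul, chr_zero, sub_self, norm_zero]
  norm_num

lemma norm_one_sub_sq (z : ℂ) (hz : ‖z‖ = 1) : ‖1 - z‖ ^ 2 = 2 - 2 * z.re := by
  have h1 : ‖1 - z‖ ^ 2 = Complex.normSq (1 - z) := (Complex.normSq_eq_norm_sq _).symm
  have h2 : Complex.normSq z = 1 := by rw [Complex.normSq_eq_norm_sq, hz]; norm_num
  rw [Complex.normSq_apply] at h2
  rw [h1, Complex.normSq_apply]
  simp only [Complex.sub_re, Complex.one_re, Complex.sub_im, Complex.one_im]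
  nlinarith

lemma sum_ss (v : ℕ → ℕ) (A : Finset ℕ) (hv : ∀ n ∈ A, IsUnit (v n : ZMod q)) {a : ZMod q}
    (ha : a ≠ 0) : ∑ j : ZMod q, ss v A (j * a) = 2 * A.card * q := by
  unfold ss
  rw [sum_comm]
  have h1 : ∀ n ∈ A, ∑ j : ZMod q, ‖1 - chr (j * a * (v n : ZMod q))‖ ^ 2 = 2 * q := by
    intro n hn
    have h2 : a * (v n : ZMod q) ≠ 0 := by
      intro h
      exact ha ((hv n hn).mul_left_eq_zero.mp h)
    have h3 := sum_chr (a * (v n : ZMod q))
    rw [if_neg h2] at h3
    have h4 : ∑ j : ZMod q, (chr (j * (a * (v n : ZMod q)))).re = 0 := by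
      rw [← Complex.re_sum, h3, Complex.zero_re]
    calc ∑ j : ZMod q, ‖1 - chr (j * a * (v n : ZMod q))‖ ^ 2
        = ∑ j : ZMod q, (2 - 2 * (chr (j * (a * (v n : ZMod q)))).re) := by
          refine sum_congr rfl fun j _ => ?_
          rw [norm_one_sub_sq _ (norm_chr _), mul_assoc]
      _ = 2 * q := by
          rw [sum_sub_distrib, ← mul_sum, h4, sum_const, card_univ, ZMod.card]
          simp [mul_comm]
  rw [sum_congr rfl h1, sum_const, nsmul_eq_mul]
  ring

lemma exists_large (v : ℕ → ℕ) (A : Finset ℕ) (hv : ∀ n ∈ A, IsUnit (v n : ZMod q)) {a : ZMod q}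
    (ha : a ≠ 0) : ∃ j : ZMod q, 2 * (A.card : ℝ) ≤ ss v A (j * a) := by
  by_contra hcon
  push Not at hcon
  have h1 : ∑ j : ZMod q, ss v A (j * a) < ∑ _j : ZMod q, 2 * (A.card : ℝ) := by
    apply sum_lt_sum_of_nonempty univ_nonempty
    intro j _
    exact hcon j
  rw [sum_ss v A hv ha, sum_const, card_univ, ZMod.card, nsmul_eq_mul] at h1
  linarith

/-- the set of frequencies at distance at most `t` from `0` -/
noncomputable def ball (q : ℕ) [NeZero q] (v : ℕ → ℕ) (A : Finset ℕ) (t : ℝ) :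
    Finset (ZMod q) := univ.filter (fun a => ss v A a ≤ t)

lemma mem_ball {v : ℕ → ℕ} {A : Finset ℕ} {t : ℝ} {a : ZMod q} :
    a ∈ ball q v A t ↔ ss v A a ≤ t := by
  unfold ball
  rw [mem_filter]
  exact ⟨fun h => h.2, fun h => ⟨mem_univ _, h⟩⟩

lemma grow (v : ℕ → ℕ) (A : Finset ℕ) (hv : ∀ n ∈ A, IsUnit (v n : ZMod q)) {a : ZMod q}
    (ha : a ≠ 0) {t : ℝ} (hat : ss v A a ≤ t) (ht : 4 * t < 2 * A.card) :
    2 * (ball q v A t).card ≤ (ball q v A (22 * t)).card := by
  classical
  have ht0 : 0 ≤ t := (ss_nonneg v A a).trans hat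
  obtain ⟨j0, hj0⟩ := exists_large v A hv ha
  have hex : ∃ j : ℕ, 4 * t < ss v A ((j : ZMod q) * a) := by
    refine ⟨j0.val, ?_⟩
    rw [ZMod.natCast_zmod_val]
    linarith
  obtain ⟨j, hj, hmin⟩ : ∃ j : ℕ, 4 * t < ss v A ((j : ZMod q) * a) ∧
      ∀ m < j, ss v A ((m : ZMod q) * a) ≤ 4 * t := by
    refine ⟨Nat.find hex, Nat.find_spec hex, fun m hm => ?_⟩
    have := Nat.find_min hex hm
    linarith
  have hj1 : j ≠ 0 := by
    rintro rfl
    rw [Nat.cast_zero, zero_mul, ss_zero] at hj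
    linarith
  obtain ⟨m, rfl⟩ := Nat.exists_eq_succ_of_ne_zero hj1
  have hm := hmin m (Nat.lt_succ_self m)
  set g : ZMod q := ((m.succ : ℕ) : ZMod q) * a with hg
  have hg10 : ss v A g ≤ 10 * t := by
    have h1 : g = (m : ZMod q) * a + a := by
      rw [hg]
      push_cast
      ring
    rw [h1]
    refine (ss_add v A _ _).trans ?_
    linarith
  have hinj : Function.Injective (fun b : ZMod q => g + b) := add_right_injective g
  have hdis : Disjoint (ball q v A t) ((ball q v A t).image (fun b => g + b)) := by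
    rw [disjoint_left]
    intro b hb hb'
    rw [mem_image] at hb'
    obtain ⟨b', hb'1, hb'2⟩ := hb'
    rw [mem_ball] at hb hb'1
    have h1 : g = b + -b' := by rw [← hb'2]; ring
    have h2 := ss_add v A b (-b')
    rw [ss_neg, ← h1] at h2
    linarith
  have hsub : ball q v A t ∪ (ball q v A t).image (fun b => g + b) ⊆ ball q v A (22 * t) := by
    intro b hb
    rw [mem_union, mem_image] at hb
    rw [mem_ball]
    rcases hb with hb | ⟨b', hb', rfl⟩
    · rw [mem_ball] at hb
      linarith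
    · rw [mem_ball] at hb'
      refine (ss_add v A _ _).trans ?_
      linarith
  have h1 := card_le_card hsub
  rw [card_union_of_disjoint hdis, card_image_of_injective _ hinj] at h1
  omega

lemma grow_iter (v : ℕ → ℕ) (A : Finset ℕ) (hv : ∀ n ∈ A, IsUnit (v n : ZMod q)) {a : ZMod q}
    (ha : a ≠ 0) {t : ℝ} (hat : ss v A a ≤ t) (hA : 0 < A.card) (k : ℕ)
    (hk : 22 ^ k * t ≤ A.card) :
    2 ^ k * (ball q v A t).card ≤ (ball q v A (22 ^ k * t)).card := by
  have ht0 : 0 ≤ t := (ss_nonneg v A a).trans hat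
  have hA' : (0 : ℝ) < A.card := by exact_mod_cast hA
  induction k with
  | zero => simp
  | succ k ih =>
    have h0 : (0 : ℝ) ≤ 22 ^ k * t := by positivity
    have h1 : (22 : ℝ) ^ (k + 1) * t = 22 * (22 ^ k * t) := by ring
    rw [h1] at hk ⊢
    have h2 := ih (by linarith)
    have h3 : ss v A a ≤ 22 ^ k * t := by
      refine hat.trans ?_
      have : (1 : ℝ) ≤ 22 ^ k := one_le_pow₀ (by norm_num)
      nlinarith
    have h4 := grow v A hv ha h3 (by linarith)
    calc 2 ^ (k + 1) * (ball q v A t).card = 2 * (2 ^ k * (ball q v A t).card) := by ring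
      _ ≤ 2 * (ball q v A (22 ^ k * t)).card := by omega
      _ ≤ _ := h4

lemma ph_le_one (v : ℕ → ℕ) (A : Finset ℕ) (a : ZMod q) : ph v A a ≤ 1 := by
  refine (ph_le v A a).trans ?_
  rw [Real.exp_le_one_iff]
  have := ss_nonneg v A a
  linarith

/-- the sum of the characteristic function over nonzero frequencies -/
lemma sum_ph_le (v : ℕ → ℕ) (A : Finset ℕ) (hv : ∀ n ∈ A, IsUnit (v n : ZMod q))
    (hA : 0 < A.card) (k : ℕ) {t T : ℝ} (hk : 22 ^ k * t ≤ T) (hT : T ≤ A.card) :
    ∑ a ∈ (univ : Finset (ZMod q)).erase 0, ph v A a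
      ≤ q * Real.exp (-t / 8) + (ball q v A T).card / 2 ^ k := by
  classical
  rw [← sum_filter_add_sum_filter_not _ (fun a => ss v A a ≤ t), add_comm]
  apply add_le_add
  · calc ∑ a ∈ ((univ : Finset (ZMod q)).erase 0).filter (fun a => ¬ ss v A a ≤ t), ph v A a
        ≤ ∑ a ∈ ((univ : Finset (ZMod q)).erase 0).filter (fun a => ¬ ss v A a ≤ t),
          Real.exp (-t / 8) := by
          refine sum_le_sum fun a ha => (ph_le v A a).trans ?_
          rw [mem_filter] at ha
          apply Real.exp_le_exp.mpr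
          have := ha.2
          push Not at this
          linarith
      _ ≤ ∑ a : ZMod q, Real.exp (-t / 8) := by
          apply sum_le_sum_of_subset_of_nonneg
          · intro a _
            exact mem_univ a
          · intro a _ _
            exact (Real.exp_pos _).le
      _ = q * Real.exp (-t / 8) := by rw [sum_const, card_univ, ZMod.card, nsmul_eq_mul]
  · calc ∑ a ∈ ((univ : Finset (ZMod q)).erase 0).filter (fun a => ss v A a ≤ t), ph v A a
        ≤ ∑ a ∈ ((univ : Finset (ZMod q)).erase 0).filter (fun a => ss v A a ≤ t), (1 : ℝ) :=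
          sum_le_sum fun a _ => ph_le_one v A a
      _ = ((((univ : Finset (ZMod q)).erase 0).filter (fun a => ss v A a ≤ t)).card : ℝ) := by
          rw [sum_const, nsmul_eq_mul, mul_one]
      _ ≤ (ball q v A T).card / 2 ^ k := by
          rcases (((univ : Finset (ZMod q)).erase 0).filter
            (fun a => ss v A a ≤ t)).eq_empty_or_nonempty with h | ⟨a, h⟩
          · rw [h, card_empty, Nat.cast_zero]
            positivity
          · rw [mem_filter, mem_erase] at h
            have h1 := grow_iter v A hv h.1.1 h.2 hA k (hk.trans hT)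
            have h2 : (ball q v A (22 ^ k * t)).card ≤ (ball q v A T).card := by
              apply card_le_card
              intro b hb
              rw [mem_ball] at hb ⊢
              exact hb.trans hk
            have h3 : (((univ : Finset (ZMod q)).erase 0).filter
                (fun a => ss v A a ≤ t)).card ≤ (ball q v A t).card := by
              apply card_le_card
              intro b hb
              rw [mem_filter] at hb
              rw [mem_ball]
              exact hb.2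
            rw [le_div_iff₀ (by positivity)]
            have h4 : (((univ : Finset (ZMod q)).erase 0).filter
                (fun a => ss v A a ≤ t)).card * 2 ^ k ≤ (ball q v A T).card := by
              calc _ ≤ (ball q v A t).card * 2 ^ k := Nat.mul_le_mul_right _ h3
                _ = 2 ^ k * (ball q v A t).card := by ring
                _ ≤ _ := h1.trans h2
            exact_mod_cast h4

/-- the large balls are controlled by the collisions in the windows -/
lemma card_ball_le (v : ℕ → ℕ) {J : ℕ} (W : ℕ → Finset ℕ)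
    (hW : ∀ i < J, ∀ j < J, i ≠ j → Disjoint (W i) (W j)) :
    3 * (J : ℝ) * (ball q v ((range J).biUnion W) J).card
      ≤ 4 * ∑ j ∈ range J, ∑ a : ZMod q, ph v (W j) a ^ 2 := by
  classical
  have hss : ∀ a : ZMod q, ss v ((range J).biUnion W) a = ∑ j ∈ range J, ss v (W j) a := by
    intro a
    unfold ss
    rw [sum_biUnion]
    intro i hi j hj hij
    exact hW i (mem_range.mp (mem_coe.mp hi)) j (mem_range.mp (mem_coe.mp hj)) hij
  rw [sum_comm]
  calc 3 * (J : ℝ) * (ball q v ((range J).biUnion W) J).card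
      = ∑ a ∈ ball q v ((range J).biUnion W) J, 3 * (J : ℝ) := by
        rw [sum_const, nsmul_eq_mul]
        ring
    _ ≤ ∑ a ∈ ball q v ((range J).biUnion W) J, 4 * ∑ j ∈ range J, ph v (W j) a ^ 2 := by
        refine sum_le_sum fun a ha => ?_
        rw [mem_ball, hss] at ha
        have h1 : ∑ j ∈ range J, (1 - ss v (W j) a / 4) ≤ ∑ j ∈ range J, ph v (W j) a ^ 2 :=
          sum_le_sum fun j _ => ph_sq_ge v (W j) a
        rw [sum_sub_distrib, ← sum_div, sum_const, card_range, nsmul_eq_mul, mul_one] at h1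
        linarith
    _ ≤ ∑ a : ZMod q, 4 * ∑ j ∈ range J, ph v (W j) a ^ 2 := by
        apply sum_le_sum_of_subset_of_nonneg (subset_univ _)
        intro a _ _
        positivity
    _ = 4 * ∑ a : ZMod q, ∑ j ∈ range J, ph v (W j) a ^ 2 := by rw [mul_sum]

end single

/-- the number of pairs of subsets of `A` with the same sum modulo `q` -/
def coll (v : ℕ → ℕ) (A : Finset ℕ) (q : ℕ) : ℕ :=
  ((A.powerset ×ˢ A.powerset).filter
    (fun P => ((∑ n ∈ P.1, v n : ℕ) : ZMod q) = ((∑ n ∈ P.2, v n : ℕ) : ZMod q))).card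

/-- the number of subsets of `A` with sum congruent to `c` modulo `q` -/
def cnt (v : ℕ → ℕ) (A : Finset ℕ) (q : ℕ) (c : ZMod q) : ℕ :=
  (A.powerset.filter (fun F => ((∑ n ∈ F, v n : ℕ) : ZMod q) = c)).card

/-- one modulus -/
lemma dev_one (v : ℕ → ℕ) {q : ℕ} (hq : q ≠ 0) {J w : ℕ} (hJ : 0 < J) (hw : 0 < w)
    (W : ℕ → Finset ℕ) (hW : ∀ i < J, ∀ j < J, i ≠ j → Disjoint (W i) (W j))
    (hc : ∀ j < J, (W j).card = w) (hv : ∀ j < J, ∀ n ∈ W j, IsUnit (v n : ZMod q))
    (k : ℕ) {t : ℝ} (ht : 0 ≤ t) (hk : 22 ^ k * t ≤ J) (c : ZMod q) :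
    |(cnt v ((range J).biUnion W) q c : ℝ) / 2 ^ ((range J).biUnion W).card - 1 / q|
      ≤ Real.exp (-t / 8) + (4 / (3 * J)) / 2 ^ k *
        ∑ j ∈ range J, (coll v (W j) q : ℝ) / 4 ^ w := by
  haveI : NeZero q := ⟨hq⟩
  have hq0 : (0 : ℝ) < q := by exact_mod_cast Nat.pos_of_ne_zero hq
  have hJ0 : (0 : ℝ) < J := by exact_mod_cast hJ
  set U := (range J).biUnion W with hU
  have hcard : U.card = J * w := by
    rw [hU, card_biUnion]
    · rw [sum_congr rfl fun j hj => hc j (mem_range.mp hj), sum_const, card_range, smul_eq_mul]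
    · intro i hi j hj hij
      exact hW i (mem_range.mp hi) j (mem_range.mp hj) hij
  have hJU : (J : ℝ) ≤ U.card := by
    rw [hcard]
    push_cast
    have : (1 : ℝ) ≤ w := by exact_mod_cast hw
    nlinarith
  have h1 := dev_le v U c
  have h2 := sum_ph_le v U (fun n hn => by
    rw [hU, mem_biUnion] at hn
    obtain ⟨j, hj, hn⟩ := hn
    exact hv j (mem_range.mp hj) n hn) (by rw [hcard]; positivity) k hk hJU
  have h3 := card_ball_le (q := q) v W hW
  rw [← hU] at h3
  have h4 : ∀ j ∈ range J, ∑ a : ZMod q, ph v (W j) a ^ 2 = q * ((coll v (W j) q : ℝ) / 4 ^ w) := by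
    intro j hj
    have h5 := coll_char (q := q) v (W j)
    rw [hc j (mem_range.mp hj)] at h5
    unfold coll
    field_simp
    rw [mul_comm]
    exact h5
  rw [sum_congr rfl h4, ← mul_sum] at h3
  refine h1.trans ?_
  set Sc := ∑ j ∈ range J, (coll v (W j) q : ℝ) / 4 ^ w with hSc
  have h5 : ((ball q v U J).card : ℝ) ≤ 4 / (3 * J) * (q * Sc) := by
    rw [div_mul_eq_mul_div, le_div_iff₀ (by positivity)]
    linarith
  calc 1 / (q : ℝ) * ∑ a ∈ (univ : Finset (ZMod q)).erase 0, ph v U a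
      ≤ 1 / (q : ℝ) * (q * Real.exp (-t / 8) + (ball q v U J).card / 2 ^ k) :=
        mul_le_mul_of_nonneg_left h2 (by positivity)
    _ ≤ 1 / (q : ℝ) * (q * Real.exp (-t / 8) + (4 / (3 * J) * (q * Sc)) / 2 ^ k) := by
        gcongr
    _ = Real.exp (-t / 8) + (4 / (3 * J)) / 2 ^ k * Sc := by
        field_simp

/-- a family of moduli -/
theorem dev_family (v : ℕ → ℕ) {ι : Type*} (I : Finset ι) (q : ι → ℕ) (hq : ∀ i ∈ I, q i ≠ 0)
    {J w : ℕ} (hJ : 0 < J) (hw : 0 < w)
    (W : ℕ → Finset ℕ) (hW : ∀ i < J, ∀ j < J, i ≠ j → Disjoint (W i) (W j))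
    (hc : ∀ j < J, (W j).card = w)
    (hv : ∀ i ∈ I, ∀ j < J, ∀ n ∈ W j, IsUnit (v n : ZMod (q i)))
    (k : ℕ) {t : ℝ} (ht : 0 ≤ t) (hk : 22 ^ k * t ≤ J) (B : ℝ)
    (hB : ∀ j < J, (∑ i ∈ I, coll v (W j) (q i) : ℝ) ≤ 4 ^ w * B) (c : ∀ i, ZMod (q i)) :
    ∑ i ∈ I, |(cnt v ((range J).biUnion W) (q i) (c i) : ℝ) / 2 ^ ((range J).biUnion W).card
        - 1 / q i|
      ≤ I.card * Real.exp (-t / 8) + (4 / 3) * B / 2 ^ k := by
  have hJ0 : (0 : ℝ) < J := by exact_mod_cast hJ
  calc _ ≤ ∑ i ∈ I, (Real.exp (-t / 8) + (4 / (3 * J)) / 2 ^ k *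
        ∑ j ∈ range J, (coll v (W j) (q i) : ℝ) / 4 ^ w) :=
        sum_le_sum fun i hi => dev_one v (hq i hi) hJ hw W hW hc (hv i hi) k ht hk (c i)
    _ = I.card * Real.exp (-t / 8) + (4 / (3 * J)) / 2 ^ k *
        ∑ j ∈ range J, (∑ i ∈ I, (coll v (W j) (q i) : ℝ)) / 4 ^ w := by
        rw [sum_add_distrib, sum_const, nsmul_eq_mul, ← mul_sum, sum_comm]
        congr 2
        refine sum_congr rfl fun j _ => ?_
        rw [sum_div]
    _ ≤ I.card * Real.exp (-t / 8) + (4 / (3 * J)) / 2 ^ k * ∑ j ∈ range J, B := by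
        gcongr with j hj
        rw [div_le_iff₀ (by positivity)]
        have := hB j (mem_range.mp hj)
        linarith
    _ = I.card * Real.exp (-t / 8) + (4 / 3) * B / 2 ^ k := by
        rw [sum_const, card_range, nsmul_eq_mul]
        field_simp

end Pool.Agent.H70.PF
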