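import Pool.Agent.H70.PF.Def2
import Pool.Agent.H70.PF.Fact2

set_option autoImplicit false

/-! # Lazy characteristic functions -/

namespace Pool.Agent.H70.PF

open Finset Nat

theorem plz_nonneg (v : ℕ → ℕ) (A : Finset ℕ) (q : ℕ) : 0 ≤ plz v A q := by
  unfold plz
  positivity

theorem plz_one (v : ℕ → ℕ) (A : Finset ℕ) : plz v A 1 = 1 := by
  unfold plz
  have h1 : ∀ V ∈ A.powerset, (coll v V 1 : ℝ) / 4 ^ V.card = 1 := by
    intro V _
    have h2 : coll v V 1 = 4 ^ V.card := by
      unfold coll
      rw [filter_true_of_mem (fun P _ => Subsingleton.elim _ _), card_product, card_powerset,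
        ← mul_pow]
      norm_num
    rw [h2]
    push_cast
    exact div_self (by positivity)
  rw [sum_congr rfl h1, sum_const, card_powerset, nsmul_eq_mul, mul_one]
  push_cast
  exact div_self (by positivity)

section lazysec

variable {q : ℕ} [NeZero q]

private lemma lazy_term_bounds (z : ℂ) (hz : ‖z‖ = 1) :
    0 ≤ ‖1 - z‖ ^ 2 ∧ ‖1 - z‖ ^ 2 ≤ 4 := by
  have h3 : ‖1 - z‖ ≤ 2 := by
    refine (norm_sub_le _ _).trans ?_
    rw [hz, norm_one]
    norm_num
  have h4 := norm_nonneg (1 - z)
  exact ⟨by positivity, by nlinarith⟩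

private lemma lazy_exp_le (x : ℝ) (h0 : 0 ≤ x) (h4 : x ≤ 4) :
    Real.exp (-(Real.log 2 / 4) * x) ≤ 1 - x / 8 := by
  have hc := convexOn_exp.2 (Set.mem_univ (-Real.log 2)) (Set.mem_univ (0 : ℝ))
  have h1 := hc (show (0 : ℝ) ≤ x / 4 by linarith) (show (0 : ℝ) ≤ 1 - x / 4 by linarith)
    (by ring)
  simp only [smul_eq_mul, mul_zero, add_zero, Real.exp_zero, mul_one] at h1
  rw [Real.exp_neg, Real.exp_log (by norm_num)] at h1
  have h2 : -(Real.log 2 / 4) * x = x / 4 * -Real.log 2 := by ring
  rw [h2]
  linarith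

private lemma lazy_ge (v : ℕ → ℕ) (A : Finset ℕ) (a : ZMod q) :
    Real.exp (-(Real.log 2 / 4) * ss v A a) ≤ lz v A a := by
  unfold lz ss
  rw [mul_sum, Real.exp_sum]
  apply prod_le_prod
  · intro n _
    exact (Real.exp_pos _).le
  · intro n _
    have h := lazy_term_bounds _ (norm_chr (a * (v n : ZMod q)))
    exact lazy_exp_le _ h.1 h.2

private lemma lazy_le (v : ℕ → ℕ) (A : Finset ℕ) (a : ZMod q) :
    lz v A a ≤ Real.exp (-(ss v A a) / 8) := by
  unfold lz ss
  have h2 : Real.exp (-(∑ n ∈ A, ‖1 - chr (a * (v n : ZMod q))‖ ^ 2) / 8)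
      = ∏ n ∈ A, Real.exp (-(‖1 - chr (a * (v n : ZMod q))‖ ^ 2 / 8)) := by
    rw [← Real.exp_sum]
    congr 1
    rw [sum_neg_distrib, ← sum_div]
    ring
  rw [h2]
  apply prod_le_prod
  · intro n _
    have h := lazy_term_bounds _ (norm_chr (a * (v n : ZMod q)))
    linarith [h.2]
  · intro n _
    have := Real.add_one_le_exp (-(‖1 - chr (a * (v n : ZMod q))‖ ^ 2 / 8))
    linarith

private lemma lazy_zero (v : ℕ → ℕ) (A : Finset ℕ) : lz v A (0 : ZMod q) = 1 := by
  unfold lz
  apply prod_eq_one
  intro n _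
  rw [zero_mul, chr_zero]
  norm_num

/-- the sum of the lazy characteristic function -/
theorem sum_lz (v : ℕ → ℕ) (A : Finset ℕ) :
    ∑ a : ZMod q, lz v A a = (q : ℝ) * plz v A q := by
  have h1 : ∀ a : ZMod q, lz v A a = (∑ V ∈ A.powerset, ph v V a ^ 2) / 2 ^ A.card := by
    intro a
    unfold lz
    have h2 : ∀ n ∈ A, (1 - ‖1 - chr (a * (v n : ZMod q))‖ ^ 2 / 8)
        = (1 + (‖1 + chr (a * (v n : ZMod q))‖ / 2) ^ 2) / 2 := by
      intro n _
      rw [sq_half _ (norm_chr _)]
      ring
    rw [prod_congr rfl h2, prod_div_distrib, prod_const, prod_one_add]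
    congr 1
    refine sum_congr rfl fun V _ => ?_
    unfold ph
    rw [prod_pow]
  rw [sum_congr rfl fun a _ => h1 a, ← sum_div, sum_comm]
  unfold plz
  rw [← mul_div_assoc, mul_sum]
  congr 1
  refine sum_congr rfl fun V _ => ?_
  have h5 := coll_char (q := q) v V
  unfold coll
  rw [← mul_div_assoc, eq_div_iff (by positivity), mul_comm]
  exact h5

/-- Jensen -/
private lemma lazy_jensen (v : ℕ → ℕ) (S : Finset ℕ) (W : ℕ → Finset ℕ) (hS : 0 < S.card)
    (hW : ∀ a ∈ S, ∀ b ∈ S, a ≠ b → Disjoint (W a) (W b)) (a : ZMod q) :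
    Real.exp (-(Real.log 2 / (4 * S.card)) * ss v (S.biUnion W) a)
      ≤ (∑ j ∈ S, lz v (W j) a) / S.card := by
  have hS' : (0 : ℝ) < S.card := by exact_mod_cast hS
  have hss : ss v (S.biUnion W) a = ∑ j ∈ S, ss v (W j) a := by
    unfold ss
    rw [sum_biUnion]
    intro i hi j hj hij
    exact hW i (mem_coe.mp hi) j (mem_coe.mp hj) hij
  have h1 := convexOn_exp.map_sum_le (t := S) (w := fun _ => (1 : ℝ) / S.card)
    (p := fun j => -(Real.log 2 / 4) * ss v (W j) a) (fun _ _ => by positivity)
    (by rw [sum_const, nsmul_eq_mul]; field_simp) (fun _ _ => Set.mem_univ _)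
  simp only [smul_eq_mul] at h1
  rw [← mul_sum, ← mul_sum] at h1
  have h2 : -(Real.log 2 / (4 * S.card)) * ss v (S.biUnion W) a
      = 1 / S.card * (-(Real.log 2 / 4) * ∑ j ∈ S, ss v (W j) a) := by
    rw [hss]
    field_simp
  rw [h2]
  refine h1.trans ?_
  rw [← mul_sum, div_eq_mul_one_div (∑ j ∈ S, lz v (W j) a),
    mul_comm (∑ j ∈ S, lz v (W j) a)]
  apply mul_le_mul_of_nonneg_left _ (by positivity)
  exact sum_le_sum fun j _ => lazy_ge v (W j) a

private lemma lazy_main (v : ℕ → ℕ) (S : Finset ℕ) (W : ℕ → Finset ℕ)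
    (hW : ∀ a ∈ S, ∀ b ∈ S, a ≠ b → Disjoint (W a) (W b)) (hne : ∀ j ∈ S, (W j).Nonempty)
    (hv : ∀ j ∈ S, ∀ n ∈ W j, IsUnit (v n : ZMod q)) (k : ℕ) (hk : 1 ≤ k)
    (hS : 22 ^ k * (16 * k) ≤ S.card) :
    ∑ a ∈ (univ : Finset (ZMod q)).erase 0, Real.exp (-(ss v (S.biUnion W) a) / 8)
      ≤ (3 / 2 ^ k) * (q * ((∑ j ∈ S, plz v (W j) q) / S.card)) := by
  classical
  have hS16 : 16 ≤ S.card := by
    have h1 : 1 ≤ 22 ^ k := Nat.one_le_pow _ _ (by norm_num)
    nlinarith
  have hS0 : 0 < S.card := by omega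
  have hSr : (16 : ℝ) ≤ S.card := by exact_mod_cast hS16
  have hSk : (22 : ℝ) ^ k * (16 * k) ≤ S.card := by exact_mod_cast hS
  set U := S.biUnion W with hU
  have hJU : S.card ≤ U.card := by
    rw [hU, card_biUnion]
    · calc S.card = ∑ j ∈ S, 1 := by simp
        _ ≤ ∑ j ∈ S, (W j).card := sum_le_sum fun j hj => card_pos.mpr (hne j hj)
    · intro i hi j hj hij
      exact hW i hi j hj hij
  have hvU : ∀ n ∈ U, IsUnit (v n : ZMod q) := by
    intro n hn
    rw [hU, mem_biUnion] at hn
    obtain ⟨j, hj, hn⟩ := hn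
    exact hv j hj n hn
  set G : ZMod q → ℝ := fun a => Real.exp (-(Real.log 2 / (4 * S.card)) * ss v U a) with hG
  have hG0 : ∀ a, 0 ≤ G a := fun a => (Real.exp_pos _).le
  have hlog0 : 0 < Real.log 2 := Real.log_pos (by norm_num)
  have hlog1 : Real.log 2 ≤ 1 := by
    have := Real.log_two_lt_d9
    linarith
  have hGL : ∑ a : ZMod q, G a ≤ q * ((∑ j ∈ S, plz v (W j) q) / S.card) := by
    calc ∑ a : ZMod q, G a ≤ ∑ a : ZMod q, (∑ j ∈ S, lz v (W j) a) / S.card :=
          sum_le_sum fun a _ => lazy_jensen v S W hS0 hW a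
      _ = (∑ j ∈ S, (q : ℝ) * plz v (W j) q) / S.card := by
          rw [← sum_div, sum_comm]
          congr 1
          exact sum_congr rfl fun j _ => sum_lz v (W j)
      _ = q * ((∑ j ∈ S, plz v (W j) q) / S.card) := by
          rw [← mul_sum, mul_div_assoc]
  have h2k : (0 : ℝ) < 2 ^ k := by positivity
  have key1 : ∑ a ∈ ((univ : Finset (ZMod q)).erase 0).filter
      (fun a => ¬ ss v U a ≤ 16 * k), Real.exp (-(ss v U a) / 8)
      ≤ (1 / 2 ^ k) * ∑ a : ZMod q, G a := by
    calc _ ≤ ∑ a ∈ ((univ : Finset (ZMod q)).erase 0).filter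
          (fun a => ¬ ss v U a ≤ 16 * k), (1 / 2 ^ k) * G a := by
          refine sum_le_sum fun a ha => ?_
          rw [mem_filter] at ha
          have hs := ha.2
          push Not at hs
          have e1 : -(ss v U a) / 8 = -(ss v U a) / 16 + -(ss v U a) / 16 := by ring
          rw [e1, Real.exp_add]
          apply mul_le_mul _ _ (Real.exp_pos _).le (by positivity)
          · calc Real.exp (-(ss v U a) / 16) ≤ Real.exp (-(k : ℝ)) := by
                  apply Real.exp_le_exp.mpr
                  linarith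
              _ = Real.exp (-1) ^ k := by
                  rw [← Real.exp_nat_mul]
                  congr 1
                  ring
              _ ≤ (1 / 2) ^ k := by
                  apply pow_le_pow_left₀ (Real.exp_pos _).le
                  rw [Real.exp_neg, one_div]
                  apply inv_anti₀ (by norm_num)
                  have := Real.add_one_le_exp (1 : ℝ)
                  linarith
              _ = 1 / 2 ^ k := by rw [div_pow, one_pow]
          · rw [hG]
            apply Real.exp_le_exp.mpr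
            have hs0 := ss_nonneg v U a
            have h3 : Real.log 2 / (4 * S.card) ≤ 1 / 16 := by
              rw [div_le_div_iff₀ (by positivity) (by norm_num)]
              nlinarith
            nlinarith
      _ ≤ ∑ a : ZMod q, (1 / 2 ^ k) * G a := by
          apply sum_le_sum_of_subset_of_nonneg (subset_univ _)
          intro a _ _
          exact mul_nonneg (by positivity) (hG0 a)
      _ = (1 / 2 ^ k) * ∑ a : ZMod q, G a := by rw [mul_sum]
  have key2 : ∑ a ∈ ((univ : Finset (ZMod q)).erase 0).filter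
      (fun a => ss v U a ≤ 16 * k), Real.exp (-(ss v U a) / 8)
      ≤ (2 / 2 ^ k) * ∑ a : ZMod q, G a := by
    have hGs : 0 ≤ ∑ a : ZMod q, G a := sum_nonneg fun a _ => hG0 a
    calc _ ≤ ∑ a ∈ ((univ : Finset (ZMod q)).erase 0).filter
          (fun a => ss v U a ≤ 16 * k), (1 : ℝ) := by
          refine sum_le_sum fun a _ => ?_
          rw [Real.exp_le_one_iff]
          have := ss_nonneg v U a
          linarith
      _ = ((((univ : Finset (ZMod q)).erase 0).filter
          (fun a => ss v U a ≤ 16 * k)).card : ℝ) := by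
          rw [sum_const, nsmul_eq_mul, mul_one]
      _ ≤ (2 / 2 ^ k) * ∑ a : ZMod q, G a := by
          rcases (((univ : Finset (ZMod q)).erase 0).filter
            (fun a => ss v U a ≤ 16 * k)).eq_empty_or_nonempty with h | ⟨a, h⟩
          · rw [h, card_empty, Nat.cast_zero]
            positivity
          · rw [mem_filter, mem_erase] at h
            have hJU' : (S.card : ℝ) ≤ U.card := by exact_mod_cast hJU
            have h1 := grow_iter v U hvU h.1.1 h.2 (by omega) k (hSk.trans hJU')
            have h2 : (ball q v U (22 ^ k * (16 * k))).card ≤ (ball q v U S.card).card := by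
              apply card_le_card
              intro b hb
              rw [mem_ball] at hb ⊢
              exact hb.trans hSk
            have h3 : (((univ : Finset (ZMod q)).erase 0).filter
                (fun a => ss v U a ≤ 16 * k)).card ≤ (ball q v U (16 * k)).card := by
              apply card_le_card
              intro b hb
              rw [mem_filter] at hb
              rw [mem_ball]
              exact hb.2
            have h4 : ((((univ : Finset (ZMod q)).erase 0).filter
                (fun a => ss v U a ≤ 16 * k)).card : ℝ) * 2 ^ k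
                ≤ (ball q v U S.card).card := by
              have : (((univ : Finset (ZMod q)).erase 0).filter
                (fun a => ss v U a ≤ 16 * k)).card * 2 ^ k
                  ≤ (ball q v U S.card).card := by
                calc _ ≤ (ball q v U (16 * k)).card * 2 ^ k := Nat.mul_le_mul_right _ h3
                  _ = 2 ^ k * (ball q v U (16 * k)).card := by ring
                  _ ≤ _ := h1.trans h2
              exact_mod_cast this
            have h5 : ((ball q v U S.card).card : ℝ) ≤ 2 * ∑ a : ZMod q, G a := by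
              calc ((ball q v U S.card).card : ℝ) = ∑ a ∈ ball q v U S.card, (1 : ℝ) := by
                    rw [sum_const, nsmul_eq_mul, mul_one]
                _ ≤ ∑ a ∈ ball q v U S.card, 2 * G a := by
                    refine sum_le_sum fun a ha => ?_
                    rw [mem_ball] at ha
                    have hs0 := ss_nonneg v U a
                    have g1 : Real.exp (-Real.log 2) ≤ G a := by
                      rw [hG]
                      apply Real.exp_le_exp.mpr
                      have g2 : Real.log 2 / (4 * S.card) * ss v U a ≤ Real.log 2 := by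
                        rw [div_mul_eq_mul_div, div_le_iff₀ (by positivity)]
                        nlinarith
                      linarith
                    rw [Real.exp_neg, Real.exp_log (by norm_num)] at g1
                    linarith
                _ ≤ ∑ a : ZMod q, 2 * G a := by
                    apply sum_le_sum_of_subset_of_nonneg (subset_univ _)
                    intro a _ _
                    exact mul_nonneg (by norm_num) (hG0 a)
                _ = 2 * ∑ a : ZMod q, G a := by rw [mul_sum]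
            rw [div_mul_eq_mul_div, le_div_iff₀ h2k]
            exact h4.trans h5
  rw [← sum_filter_add_sum_filter_not _ (fun a => ss v U a ≤ 16 * k)]
  have h3 : (3 / 2 ^ k) * ∑ a : ZMod q, G a
      ≤ (3 / 2 ^ k) * (q * ((∑ j ∈ S, plz v (W j) q) / S.card)) :=
    mul_le_mul_of_nonneg_left hGL (by positivity)
  refine le_trans ?_ h3
  have h4 : (3 / 2 ^ k : ℝ) * ∑ a : ZMod q, G a
      = (2 / 2 ^ k) * ∑ a : ZMod q, G a + (1 / 2 ^ k) * ∑ a : ZMod q, G a := by ring
  rw [h4]
  exact add_le_add key2 key1

end lazysec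

theorem dev_lazy (v : ℕ → ℕ) {q : ℕ} (hq : q ≠ 0) (S : Finset ℕ) (W : ℕ → Finset ℕ)
    (hW : ∀ a ∈ S, ∀ b ∈ S, a ≠ b → Disjoint (W a) (W b)) (hne : ∀ j ∈ S, (W j).Nonempty)
    (hv : ∀ j ∈ S, ∀ n ∈ W j, IsUnit (v n : ZMod q)) (k : ℕ) (hk : 1 ≤ k)
    (hS : 22 ^ k * (16 * k) ≤ S.card) :
    (∀ c : ZMod q, |(cnt v (S.biUnion W) q c : ℝ) / 2 ^ (S.biUnion W).card - 1 / q|
      ≤ (3 / 2 ^ k) * ((∑ j ∈ S, plz v (W j) q) / S.card)) ∧
    plz v (S.biUnion W) q ≤ 1 / q + (3 / 2 ^ k) * ((∑ j ∈ S, plz v (W j) q) / S.card) := by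
  have : NeZero q := ⟨hq⟩
  have hq0 : (0 : ℝ) < q := by exact_mod_cast Nat.pos_of_ne_zero hq
  have hm := lazy_main v S W hW hne hv k hk hS
  set U := S.biUnion W with hU
  set X : ℝ := (∑ j ∈ S, plz v (W j) q) / S.card with hX
  have h0 : 1 / (q : ℝ) * (3 / 2 ^ k * (q * X)) = 3 / 2 ^ k * X := by
    field_simp
  constructor
  · intro c
    refine (dev_le v U c).trans ?_
    rw [← h0]
    apply mul_le_mul_of_nonneg_left _ (by positivity)
    exact (sum_le_sum fun a _ => ph_le v U a).trans hm
  · have h1 := sum_lz (q := q) v U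
    rw [← add_sum_erase _ _ (mem_univ (0 : ZMod q)), lazy_zero] at h1
    have h2 : ∑ a ∈ (univ : Finset (ZMod q)).erase 0, lz v U a ≤ 3 / 2 ^ k * (q * X) :=
      (sum_le_sum fun a _ => lazy_le v U a).trans hm
    have h3 : plz v U q = 1 / q * (1 + ∑ a ∈ (univ : Finset (ZMod q)).erase 0, lz v U a) := by
      rw [h1]
      field_simp
    rw [h3, mul_add, mul_one, ← h0]
    gcongr

end Pool.Agent.H70.PF
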