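import Pool.Agent.H70.PF.Abs4

set_option autoImplicit false

/-! # Few sums of distinct factorials are powerful: several scales, explicit parameters -/

namespace Pool.Agent.H70.PF

open Finset Nat

/-- the groups of primes -/
lemma exists_groups4 {i0 : ℕ} (h0 : ∀ a ≥ i0, ∀ r : ℕ,
      (r : ℝ) / 16 ≤ ∑ p ∈ prm (4 ^ a) (4 ^ (a * 2 ^ r)), (1 : ℝ) / p)
    (a : ℕ → ℕ) (ha : ∀ j, i0 ≤ a j) (ha2 : ∀ j, 2 ≤ a j) :
    ∃ G : ℕ → Finset ℕ, ∀ j, G j ⊆ prm (4 ^ a j) (4 ^ (2 ^ 16 * a j)) ∧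
      1 ≤ ∑ p ∈ G j, (1 : ℝ) / p ∧ ∑ p ∈ G j, (1 : ℝ) / p ≤ 17 / 16 := by
  have hex : ∀ j, ∃ P : Finset ℕ, P ⊆ prm (4 ^ a j) (4 ^ (2 ^ 16 * a j)) ∧
      1 ≤ ∑ p ∈ P, (1 : ℝ) / p ∧ ∑ p ∈ P, (1 : ℝ) / p ≤ 17 / 16 := by
    intro j
    have h1 := h0 (a j) (ha j) 16
    rw [mul_comm (a j)] at h1
    obtain ⟨P, hP, hP1, hP2⟩ := exists_sub_sum (prm (4 ^ a j) (4 ^ (2 ^ 16 * a j)))
      (fun p => (1 : ℝ) / p) (d := 1 / 16) (t := 1) (fun p _ => by positivity)
      (fun p hp => by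
        have e1 : 4 ^ a j < p := (mem_prm.mp hp).1
        have e2 : 4 ^ 2 ≤ 4 ^ a j := Nat.pow_le_pow_right (by norm_num) (ha2 j)
        have e3 : (16 : ℝ) ≤ p := by
          have : 16 ≤ p := by omega
          exact_mod_cast this
        exact one_div_le_one_div_of_le (by norm_num) e3) (by norm_num) (by norm_num) (by
        norm_num at h1 ⊢
        exact h1)
    exact ⟨P, hP, hP1, by linarith⟩
  choose G hG using hex
  exact ⟨G, hG⟩

/-- the exponents -/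
lemma exp_arith4 {l n lam d : ℕ} (hbig : 240 * (n + 1) * (2 * lam + d + 27) ≤ l) :
    5 + 6 * (4 + 2 * (2 * lam + d + 22) + 3 * (n + 1) + (d + 2 * lam + 23 + l / 16
      + n * (d + lam + 6 + 6 * (2 * (2 * lam + d + 22) + 3)))) + (d + 2 * lam + 23 + l / 16
      + n * (d + lam + 6 + 6 * (2 * (2 * lam + d + 22) + 3))) + d ≤ l := by
  have h1 : 5 + 6 * (4 + 2 * (2 * lam + d + 22) + 3 * (n + 1) + (d + 2 * lam + 23
      + n * (d + lam + 6 + 6 * (2 * (2 * lam + d + 22) + 3)))) + (d + 2 * lam + 23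
      + n * (d + lam + 6 + 6 * (2 * (2 * lam + d + 22) + 3))) + d
      ≤ 120 * (n + 1) * (2 * lam + d + 27) := by
    nlinarith [Nat.zero_le (n * lam), Nat.zero_le (n * d), Nat.zero_le n, Nat.zero_le lam,
      Nat.zero_le d]
  have h2 : 2 * (120 * (n + 1) * (2 * lam + d + 27)) ≤ l := by
    refine le_trans (le_of_eq ?_) hbig
    ring
  omega

theorem par4 {B : ℝ} {N n lam d i0 : ℕ} {U : Finset ℕ} (hi0 : ∀ a ≥ i0, ∀ r : ℕ,
      (r : ℝ) / 16 ≤ ∑ p ∈ prm (4 ^ a) (4 ^ (a * 2 ^ r)), (1 : ℝ) / p)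
    (hU : U ⊆ Icc 1 N) (hN : N ≠ 0) (hNi : i0 ≤ Nat.log 2 N)
    (hlam : Nat.log 2 N + 3 ≤ 2 ^ lam) (hd : N ≤ 2 ^ d * U.card)
    (hbig : 240 * (n + 1) * (2 * lam + d + 27) ≤ Nat.log 2 N)
    (hB : B < 4 ^ ((Nat.log 2 N + 2) * 2 ^ (Nat.log 2 N / 16))) (R : ℤ) :
    (num U (fun F => pwAZ B (R + ((∑ j ∈ F, j ! : ℕ) : ℤ))) : ℝ) / 2 ^ U.card
      ≤ 4 * (3 / 5) ^ (n + 1) := by
  obtain ⟨l, hl⟩ : ∃ l, l = Nat.log 2 N := ⟨_, rfl⟩
  rw [← hl] at hNi hlam hbig hB
  obtain ⟨g, hg⟩ : ∃ g, g = 2 ^ (d + lam + 2) := ⟨_, rfl⟩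
  obtain ⟨dl, hdl⟩ : ∃ dl, dl = 2 * lam + d + 22 := ⟨_, rfl⟩
  obtain ⟨k, hk⟩ : ∃ k, k = 2 * dl + 3 := ⟨_, rfl⟩
  obtain ⟨J, hJ⟩ : ∃ J, J = 22 ^ k * (16 * k) := ⟨_, rfl⟩
  obtain ⟨rho, hrho⟩ : ∃ rho, rho = d + lam + 6 + 6 * k := ⟨_, rfl⟩
  obtain ⟨sg, hsg⟩ : ∃ sg, sg = d + 2 * lam + 23 + l / 16 + n * rho := ⟨_, rfl⟩
  obtain ⟨kf, hkf⟩ : ∃ kf, kf = 4 + 2 * dl + 3 * (n + 1) + sg := ⟨_, rfl⟩
  obtain ⟨a, ha⟩ : ∃ a : ℕ → ℕ, ∀ j, a j = (l + 2) * 2 ^ (l / 16) * (g * J) ^ j :=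
    ⟨_, fun _ => rfl⟩
  obtain ⟨s, hs⟩ : ∃ s : ℕ → ℕ, ∀ j, s j = 24 * (2 ^ 16 * a j) := ⟨_, fun _ => rfl⟩
  have hg0 : 0 < g := by rw [hg]; positivity
  have hk0 : 0 < k := by omega
  have hJ0 : 0 < J := by rw [hJ]; positivity
  have hgJ0 : 0 < g * J := Nat.mul_pos hg0 hJ0
  have hgJ1 : 2 ^ 17 ≤ g * J := by
    have e1 : 2 ^ 17 ≤ 22 ^ k := by
      calc 2 ^ 17 ≤ 22 ^ 17 := Nat.pow_le_pow_left (by norm_num) 17
        _ ≤ 22 ^ k := Nat.pow_le_pow_right (by norm_num) (by omega)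
    calc 2 ^ 17 ≤ 22 ^ k := e1
      _ ≤ J := by
        rw [hJ]
        exact Nat.le_mul_of_pos_right _ (by omega)
      _ ≤ g * J := Nat.le_mul_of_pos_left _ hg0
  have hal' : ∀ j, (l + 2) * 2 ^ (l / 16) ≤ a j := fun j => by
    rw [ha]
    exact Nat.le_mul_of_pos_right _ (by positivity)
  have hal : ∀ j, l + 2 ≤ a j := fun j =>
    (Nat.le_mul_of_pos_right _ (by positivity)).trans (hal' j)
  have ha0 : ∀ j, 0 < a j := fun j => lt_of_lt_of_le (by omega) (hal j)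
  have hasucc : ∀ j, a (j + 1) = (g * J) * a j := fun j => by
    rw [ha, ha, _root_.pow_succ]
    ring
  have hamono : ∀ j j', j ≤ j' → a j ≤ a j' := by
    intro j j' hjj
    rw [ha, ha]
    exact Nat.mul_le_mul_left _ (Nat.pow_le_pow_right hgJ0 hjj)
  have hab : ∀ j j', j < j' → 2 ^ 16 * a j ≤ a j' := by
    intro j j' hjj
    refine le_trans ?_ (hamono (j + 1) j' hjj)
    rw [hasucc]
    exact Nat.mul_le_mul_right _ (le_trans (by norm_num) hgJ1)
  obtain ⟨G, hG⟩ := exists_groups4 hi0 a (fun j => by have := hal j; omega)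
    (fun j => by have := hal j; omega)
  have hGp : ∀ j, ∀ p ∈ G j, p.Prime := fun j p hp => (mem_prm.mp ((hG j).1 hp)).2.2
  have hGa : ∀ j, ∀ p ∈ G j, 4 ^ a j < p := fun j p hp => (mem_prm.mp ((hG j).1 hp)).1
  have hGb : ∀ j, ∀ p ∈ G j, p ≤ 4 ^ (2 ^ 16 * a j) := fun j p hp =>
    (mem_prm.mp ((hG j).1 hp)).2.1
  have h4Y : ∀ j, 2 ^ (l + 2) ≤ 4 ^ a j := by
    intro j
    calc 2 ^ (l + 2) ≤ 4 ^ (l + 2) := Nat.pow_le_pow_left (by norm_num) _
      _ ≤ 4 ^ a j := Nat.pow_le_pow_right (by norm_num) (hal j)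
  have hGd : ∀ j j', j ≠ j' → Disjoint (G j) (G j') := by
    have key : ∀ j j', j < j' → Disjoint (G j) (G j') := by
      intro j j' hjj
      rw [disjoint_left]
      intro p hp hp'
      have e1 := hGb j p hp
      have e2 := hGa j' p hp'
      have e3 : 4 ^ (2 ^ 16 * a j) ≤ 4 ^ a j' := Nat.pow_le_pow_right (by norm_num) (hab j j' hjj)
      omega
    intro j j' hjj
    rcases lt_or_gt_of_ne hjj with h | h
    · exact key j j' h
    · exact (key j' j h).symm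
  have hGc : ∀ j, (G j).card + 1 ≤ 4 ^ (2 ^ 16 * a j) := by
    intro j
    have e1 : (G j).card ≤ 4 ^ (2 ^ 16 * a j) - 4 ^ a j := by
      refine (card_le_card (hG j).1).trans ?_
      unfold prm
      refine (card_filter_le _ _).trans ?_
      rw [Nat.card_Ioc]
    have e2 : 4 ^ a j ≤ 4 ^ (2 ^ 16 * a j) := by
      apply Nat.pow_le_pow_right (by norm_num)
      exact Nat.le_mul_of_pos_left _ (by positivity)
    have e3 : 1 ≤ 4 ^ a j := Nat.one_le_pow _ _ (by norm_num)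
    omega
  -- sizes
  have hs0 : ∀ j, 0 < s j := fun j => by
    have := ha0 j
    rw [hs]
    positivity
  have hsR : ∀ i < n, s (i + 1) = (g * J) * s i := by
    intro i _
    rw [hs, hs, hasucc]
    ring
  have hJle : J ≤ 2 ^ (6 * k + 4) := by
    have e1 : 22 ^ k ≤ 2 ^ (5 * k) := by
      rw [pow_mul]
      exact Nat.pow_le_pow_left (by norm_num) k
    have e2 : k ≤ 2 ^ k := Nat.lt_two_pow_self.le
    calc J ≤ 2 ^ (5 * k) * (2 ^ 4 * 2 ^ k) := by
          rw [hJ]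
          gcongr
          norm_num
      _ = 2 ^ (6 * k + 4) := by
          rw [← pow_add, ← pow_add]
          congr 1
          ring
  have hgJle : g * J ≤ 2 ^ rho := by
    calc g * J ≤ 2 ^ (d + lam + 2) * 2 ^ (6 * k + 4) := by
          rw [hg]
          exact Nat.mul_le_mul_left _ hJle
      _ = 2 ^ rho := by
          rw [← pow_add, hrho]
          congr 1
          ring
  have hgs : g * s n ≤ 2 ^ sg := by
    have e1 : a n ≤ 2 ^ lam * 2 ^ (l / 16) * 2 ^ (n * rho) := by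
      rw [ha]
      have e2 : (g * J) ^ n ≤ 2 ^ (n * rho) := by
        calc (g * J) ^ n ≤ (2 ^ rho) ^ n := Nat.pow_le_pow_left hgJle n
          _ = 2 ^ (n * rho) := by rw [← pow_mul, mul_comm]
      exact Nat.mul_le_mul (Nat.mul_le_mul_right _ (by omega)) e2
    calc g * s n = 2 ^ (d + lam + 2) * (24 * (2 ^ 16 * a n)) := by rw [hg, hs]
      _ ≤ 2 ^ (d + lam + 2) * (2 ^ 5 * (2 ^ 16 * (2 ^ lam * 2 ^ (l / 16) * 2 ^ (n * rho)))) := by
          gcongr
          norm_num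
      _ = 2 ^ sg := by
          rw [← pow_add, ← pow_add, ← pow_add, ← pow_add, ← pow_add, hsg]
          congr 1
          ring
  have harith := exp_arith4 hbig
  have harith2 : 5 + 6 * kf + sg + d ≤ l := by
    rw [hkf, hsg, hrho, hk, hdl]
    exact harith
  have hkf0 : 0 < kf := by omega
  have hnl : n ≤ l := by omega
  obtain ⟨Jf, hJf⟩ : ∃ Jf, Jf = 22 ^ kf * (16 * kf) := ⟨_, rfl⟩
  have hJfle : Jf ≤ 2 ^ (6 * kf + 4) := by
    have e1 : 22 ^ kf ≤ 2 ^ (5 * kf) := by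
      rw [pow_mul]
      exact Nat.pow_le_pow_left (by norm_num) kf
    have e2 : kf ≤ 2 ^ kf := Nat.lt_two_pow_self.le
    calc Jf ≤ 2 ^ (5 * kf) * (2 ^ 4 * 2 ^ kf) := by
          rw [hJf]
          gcongr
          norm_num
      _ = 2 ^ (6 * kf + 4) := by
          rw [← pow_add, ← pow_add]
          congr 1
          ring
  have hNl : 2 ^ l ≤ N := by rw [hl]; exact Nat.pow_log_le_self 2 hN
  have hNl' : N < 2 ^ (l + 1) := by rw [hl]; exact Nat.lt_pow_succ_log_self (by norm_num) N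
  have hfit : 2 ^ d * (2 * (Jf * (g * s n))) ≤ 2 ^ l := by
    calc 2 ^ d * (2 * (Jf * (g * s n))) ≤ 2 ^ d * (2 ^ 1 * (2 ^ (6 * kf + 4) * 2 ^ sg)) := by
          gcongr
          norm_num
      _ = 2 ^ (5 + 6 * kf + sg + d) := by
          rw [← pow_add, ← pow_add, ← pow_add]
          congr 1
          ring
      _ ≤ 2 ^ l := Nat.pow_le_pow_right (by norm_num) harith2
  have hJf0 : 0 < Jf := by rw [hJf]; positivity
  have hgsn0 : 0 < g * s n := Nat.mul_pos hg0 (hs0 n)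
  have hgsl : g * s n ≤ 2 ^ l := by
    refine le_trans ?_ hfit
    calc g * s n ≤ Jf * (g * s n) := Nat.le_mul_of_pos_left _ hJf0
      _ ≤ 2 * (Jf * (g * s n)) := by omega
      _ ≤ 2 ^ d * (2 * (Jf * (g * s n))) := Nat.le_mul_of_pos_left _ (by positivity)
  have h22 : 2 ^ (l + 2) = 2 * 2 ^ (l + 1) := by rw [_root_.pow_succ' 2 (l + 1)]
  have h21 : 2 ^ (l + 1) = 2 * 2 ^ l := by rw [_root_.pow_succ' 2 l]
  obtain ⟨Rf, hRf⟩ : ∃ Rf, Rf = N / (g * s n) + 1 := ⟨_, rfl⟩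
  have hRf1 : g * (Rf * s n) = (g * s n) * (N / (g * s n)) + g * s n := by
    rw [hRf]
    ring
  have hdiv1 := Nat.div_add_mod N (g * s n)
  have hdiv2 := Nat.mod_lt N hgsn0
  have hD1 : 2 ^ dl - 1 + 1 = 2 ^ dl := by
    have : 1 ≤ 2 ^ dl := Nat.one_le_two_pow
    omega
  have hD1R : ((2 ^ dl - 1 : ℕ) : ℝ) + 1 = 2 ^ dl := by exact_mod_cast hD1
  have hGB : ∀ j ≤ n, ∀ p ∈ G j, B < p := by
    intro j _ p hp
    refine hB.trans ?_
    have e1 : 4 ^ ((l + 2) * 2 ^ (l / 16)) < p :=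
      lt_of_le_of_lt (Nat.pow_le_pow_right (by norm_num) (hal' j)) (hGa j p hp)
    exact_mod_cast e1
  apply abs4 (B := B) (U := U) (N := N) (n := n) (g := g) (J := J) (Y := 2 ^ (l + 2)) (Rf := Rf) (k := k)
    (kf := kf) (D := 2 ^ dl - 1) G s hU (fun j _ => hGp j)
    (fun j _ p hp => le_trans (h4Y j) (hGa j p hp).le) hGB (fun j _ j' _ => hGd j j')
    (fun j _ => (hG j).2.1) (fun j _ => (hG j).2.2) hg0 (hs0 0) hsR hJ0 hk0 (le_of_eq hJ.symm)
  · -- hkD
    rw [hD1]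
    calc 6 * (2 ^ dl) ^ 2 ≤ 2 ^ 3 * (2 ^ dl) ^ 2 := by gcongr; norm_num
      _ = 2 ^ k := by
          rw [← pow_mul, ← pow_add, hk]
          congr 1
          ring
  · -- hT
    intro i _
    have hsum : ∀ i, ∑ j ∈ range (i + 1), 2 ^ 16 * a j ≤ 2 * (2 ^ 16 * a i) := by
      intro i
      induction i with
      | zero => rw [zero_add, sum_range_one]; omega
      | succ i ih =>
        rw [sum_range_succ]
        have e1 : 2 * (2 ^ 16 * a i) ≤ 2 ^ 16 * a (i + 1) := by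
          rw [hasucc]
          calc 2 * (2 ^ 16 * a i) = 2 ^ 16 * (2 * a i) := by ring
            _ ≤ 2 ^ 16 * (g * J * a i) := by
                apply Nat.mul_le_mul_left
                exact Nat.mul_le_mul_right _ (by omega)
        omega
    have e1 : (Tf G (i + 1)).card ≤ 2 ^ (8 * (2 ^ 16 * a i)) := by
      rw [card_Tf]
      calc ∏ j ∈ range (i + 1), (sub2 (G j)).card
          ≤ ∏ j ∈ range (i + 1), 2 ^ (4 * (2 ^ 16 * a j)) := by
            apply prod_le_prod'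
            intro j _
            refine (card_sub2 (G j)).trans ?_
            calc ((G j).card + 1) ^ 2 ≤ (4 ^ (2 ^ 16 * a j)) ^ 2 := Nat.pow_le_pow_left (hGc j) 2
              _ = 2 ^ (4 * (2 ^ 16 * a j)) := by
                  have : (4 : ℕ) = 2 ^ 2 := by norm_num
                  rw [this, ← pow_mul, ← pow_mul]
                  congr 1
                  ring
        _ = 2 ^ (∑ j ∈ range (i + 1), 4 * (2 ^ 16 * a j)) := by rw [prod_pow_eq_pow_sum]
        _ ≤ 2 ^ (8 * (2 ^ 16 * a i)) := by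
            apply Nat.pow_le_pow_right (by norm_num)
            rw [← mul_sum]
            have := hsum i
            omega
    calc ((Tf G (i + 1)).card : ℝ) ≤ ((2 ^ (8 * (2 ^ 16 * a i)) : ℕ) : ℝ) := by exact_mod_cast e1
      _ = (2 : ℝ) ^ (8 * (2 ^ 16 * a i)) := by rw [Nat.cast_pow, Nat.cast_ofNat]
      _ ≤ (4 / 3) ^ (3 * (8 * (2 ^ 16 * a i))) := two_pow_le _
      _ = (4 / 3) ^ (s i) := by
          rw [hs]
          congr 1
          ring
  · -- hD
    intro i _ z hz hzY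
    have e4 : 1 < 4 ^ a i := Nat.one_lt_pow (ha0 i).ne' (by norm_num)
    apply few_primes (G i) (hGp i) e4 (fun p hp => (hGa i p hp).le) hz
    refine lt_of_lt_of_le hzY ?_
    rw [hD1]
    have e1 : (l + 2) * (g * s i + 1) ≤ 2 * (a i * 2 ^ dl) := by
      have e2 : g * s i + 1 ≤ 2 ^ 21 * (g * a i) := by
        have e3 : 1 ≤ g * a i := Nat.mul_pos hg0 (ha0 i)
        have e5 : g * s i = 24 * 2 ^ 16 * (g * a i) := by
          rw [hs]
          ring
        rw [e5]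
        have e6 : 24 * 2 ^ 16 * (g * a i) + 1 ≤ 24 * 2 ^ 16 * (g * a i) + g * a i := by omega
        refine e6.trans ?_
        have e7 : 24 * 2 ^ 16 * (g * a i) + g * a i = (24 * 2 ^ 16 + 1) * (g * a i) := by ring
        rw [e7]
        exact Nat.mul_le_mul_right _ (by norm_num)
      calc (l + 2) * (g * s i + 1) ≤ 2 ^ lam * (2 ^ 21 * (g * a i)) :=
            Nat.mul_le_mul (by omega) e2
        _ = 2 * (a i * 2 ^ dl) := by
            have : 2 ^ dl = 2 ^ lam * (2 ^ 20 * 2 ^ (d + lam + 2)) := by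
              rw [← pow_add, ← pow_add, hdl]
              congr 1
              ring
            rw [this, hg]
            ring
    calc (2 ^ (l + 2)) ^ (g * s i + 1) = 2 ^ ((l + 2) * (g * s i + 1)) := by rw [← pow_mul]
      _ ≤ 2 ^ (2 * (a i * 2 ^ dl)) := Nat.pow_le_pow_right (by norm_num) e1
      _ = (4 ^ a i) ^ 2 ^ dl := by
          have : (4 : ℕ) = 2 ^ 2 := by norm_num
          rw [this, ← pow_mul, ← pow_mul]
  · -- hcov
    rw [hRf1]
    omega
  · -- hY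
    omega
  · exact hkf0
  · -- hUc
    rw [← hJf]
    have e1 : 2 * (Jf * (g * s n)) ≤ U.card := by
      have := le_trans hfit (le_trans hNl hd)
      exact Nat.le_of_mul_le_mul_left this (by positivity)
    have e2 : 2 * ((n + 1) * (Rf * s n)) ≤ U.card := by
      have e3 : g * (Rf * s n) ≤ 2 * N := by
        rw [hRf1]
        omega
      have e4 : 2 ^ d * (4 * (n + 1)) ≤ g := by
        have e5 : 4 * (n + 1) ≤ 2 ^ (lam + 2) := by
          have : 2 ^ (lam + 2) = 4 * 2 ^ lam := by ring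
          rw [this]
          omega
        calc 2 ^ d * (4 * (n + 1)) ≤ 2 ^ d * 2 ^ (lam + 2) := Nat.mul_le_mul_left _ e5
          _ = g := by
            rw [hg, ← pow_add]
            congr 1
      have e6 : 2 ^ d * (2 * (2 * ((n + 1) * (Rf * s n)))) ≤ 2 ^ d * (2 * U.card) := by
        calc 2 ^ d * (2 * (2 * ((n + 1) * (Rf * s n))))
            = (2 ^ d * (4 * (n + 1))) * (Rf * s n) := by ring
          _ ≤ g * (Rf * s n) := Nat.mul_le_mul_right _ e4
          _ ≤ 2 * N := e3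
          _ ≤ 2 * (2 ^ d * U.card) := by omega
          _ = 2 ^ d * (2 * U.card) := by ring
      have e7 := Nat.le_of_mul_le_mul_left e6 (by positivity)
      omega
    omega
  · -- hP
    have e1 : ((range (n + 1)).biUnion G).card ≤ 2 ^ (8 * (2 ^ 16 * a n)) := by
      calc ((range (n + 1)).biUnion G).card ≤ (Ioc 0 (4 ^ (2 ^ 16 * a n))).card := by
            apply card_le_card
            intro p hp
            rw [mem_biUnion] at hp
            obtain ⟨j, hj, hp⟩ := hp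
            rw [mem_range] at hj
            rw [mem_Ioc]
            refine ⟨(hGp j p hp).pos, (hGb j p hp).trans ?_⟩
            apply Nat.pow_le_pow_right (by norm_num)
            exact Nat.mul_le_mul_left _ (hamono j n (by omega))
        _ = 4 ^ (2 ^ 16 * a n) := by rw [Nat.card_Ioc, Nat.sub_zero]
        _ = 2 ^ (2 * (2 ^ 16 * a n)) := by
            have : (4 : ℕ) = 2 ^ 2 := by norm_num
            rw [this, ← pow_mul]
        _ ≤ 2 ^ (8 * (2 ^ 16 * a n)) := Nat.pow_le_pow_right (by norm_num) (by omega)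
    calc (((range (n + 1)).biUnion G).card : ℝ) ≤ ((2 ^ (8 * (2 ^ 16 * a n)) : ℕ) : ℝ) := by
          exact_mod_cast e1
      _ = (2 : ℝ) ^ (8 * (2 ^ 16 * a n)) := by rw [Nat.cast_pow, Nat.cast_ofNat]
      _ ≤ (4 / 3) ^ (3 * (8 * (2 ^ 16 * a n))) := two_pow_le _
      _ = (4 / 3) ^ (s n) := by
          rw [hs]
          congr 1
          ring
  · -- hE1
    rw [hD1R, div_mul_eq_mul_div, div_le_iff₀ (by positivity)]
    have e1 : (3 : ℝ) ^ (n + 1) ≤ 4 ^ (n + 1) := pow_le_pow_left₀ (by norm_num) (by norm_num) _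
    have e2 : (1 / 2 : ℝ) ^ (n + 1) * 2 ^ kf = 2 ^ (4 + 2 * dl + 2 * (n + 1) + sg) := by
      have : kf = (n + 1) + (4 + 2 * dl + 2 * (n + 1) + sg) := by omega
      rw [this, pow_add 2 (n + 1), ← mul_assoc, ← mul_pow]
      norm_num
    rw [e2]
    calc 3 * (2 * ((2 : ℝ) ^ dl) ^ 2 * 3 ^ (n + 1)) ≤ 2 ^ 4 * (((2 : ℝ) ^ dl) ^ 2 * 4 ^ (n + 1)) := by
          have e3 : (0 : ℝ) ≤ ((2 : ℝ) ^ dl) ^ 2 := by positivity
          have e4 := mul_le_mul_of_nonneg_left e1 e3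
          have e5 : (0 : ℝ) ≤ ((2 : ℝ) ^ dl) ^ 2 * 4 ^ (n + 1) := by positivity
          nlinarith
      _ = 2 ^ (4 + 2 * dl + 2 * (n + 1)) := by
          have e6 : (4 : ℝ) ^ (n + 1) = 2 ^ (2 * (n + 1)) := by rw [pow_mul]; norm_num
          rw [e6, ← pow_mul, ← pow_add, ← pow_add]
          congr 1
          ring
      _ ≤ 2 ^ (4 + 2 * dl + 2 * (n + 1) + sg) :=
          pow_le_pow_right₀ (by norm_num) (by omega)
  · -- hE2
    rw [div_mul_eq_mul_div, div_le_iff₀ (by positivity)]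
    have e2 : (1 / 2 : ℝ) ^ (n + 1) * 2 ^ kf = 2 ^ (4 + 2 * dl + 2 * (n + 1) + sg) := by
      have : kf = (n + 1) + (4 + 2 * dl + 2 * (n + 1) + sg) := by omega
      rw [this, pow_add 2 (n + 1), ← mul_assoc, ← mul_pow]
      norm_num
    rw [e2]
    have e3 : ((g * s n : ℕ) : ℝ) ≤ 2 ^ sg := by exact_mod_cast hgs
    have e4 : (1 : ℝ) ≤ 2 ^ sg := one_le_pow₀ (by norm_num)
    calc 3 * (1 + ((g * s n : ℕ) : ℝ)) ≤ 2 ^ 4 * 2 ^ sg := by linarith
      _ = 2 ^ (4 + sg) := by rw [← pow_add]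
      _ ≤ 2 ^ (4 + 2 * dl + 2 * (n + 1) + sg) := pow_le_pow_right₀ (by norm_num) (by omega)
  · -- hE3
    have e0 : (0 : ℝ) < 4 ^ (l + 2) := by positivity
    calc ∑ j ∈ range (n + 1), ∑ p ∈ G j, 1 / (p : ℝ) ^ 2
        ≤ ∑ j ∈ range (n + 1), (1 / 4 ^ (l + 2)) * 2 := by
          refine sum_le_sum fun j _ => ?_
          calc ∑ p ∈ G j, 1 / (p : ℝ) ^ 2 ≤ ∑ p ∈ G j, (1 / 4 ^ (l + 2)) * ((1 : ℝ) / p) := by
                refine sum_le_sum fun p hp => ?_
                have e1 : (4 : ℝ) ^ (l + 2) ≤ p := by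
                  have e5 : 4 ^ (l + 2) ≤ p :=
                    le_trans (Nat.pow_le_pow_right (by norm_num) (hal j)) (hGa j p hp).le
                  exact_mod_cast e5
                have e2 : (0 : ℝ) < p := lt_of_lt_of_le e0 e1
                have e3 : (1 : ℝ) / (p : ℝ) ^ 2 = (1 / p) * (1 / p) := by
                  rw [pow_two, one_div_mul_one_div]
                rw [e3]
                gcongr
            _ = (1 / 4 ^ (l + 2)) * ∑ p ∈ G j, (1 : ℝ) / p := by rw [mul_sum]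
            _ ≤ (1 / 4 ^ (l + 2)) * 2 := by
                have := (hG j).2.2
                gcongr
                linarith
      _ = ((n : ℝ) + 1) * 2 / 4 ^ (l + 2) := by
          rw [sum_const, card_range, nsmul_eq_mul]
          push_cast
          ring
      _ ≤ (1 / 2) ^ (n + 1) := by
          rw [div_le_iff₀ e0]
          have e1 : ((n : ℝ) + 1) ≤ 2 ^ (n + 1) := by
            have : n + 1 < 2 ^ (n + 1) := Nat.lt_two_pow_self
            exact_mod_cast this.le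
          have e2 : (4 : ℝ) ^ (n + 1) * 4 ≤ 4 ^ (l + 2) := by
            rw [← _root_.pow_succ]
            exact pow_le_pow_right₀ (by norm_num) (by omega)
          have e3 : (1 / 2 : ℝ) ^ (n + 1) * 4 ^ (n + 1) = 2 ^ (n + 1) := by
            rw [← mul_pow]
            norm_num
          have e4 : (0 : ℝ) < (1 / 2) ^ (n + 1) := by positivity
          calc ((n : ℝ) + 1) * 2 ≤ 2 ^ (n + 1) * 4 := by linarith
            _ = (1 / 2) ^ (n + 1) * (4 ^ (n + 1) * 4) := by rw [← mul_assoc, e3]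
            _ ≤ (1 / 2) ^ (n + 1) * 4 ^ (l + 2) := mul_le_mul_of_nonneg_left e2 e4.le

end Pool.Agent.H70.PF
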