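import Pool.Agent.H70.PF.Num

set_option autoImplicit false

/-! # The almost sure version -/

namespace Pool.Agent.H70.PF

open Finset Nat

namespace ProbA

open MeasureTheory ProbabilityTheory

variable {Ω : Type*} [MeasurableSpace Ω] (P : Measure Ω) [IsProbabilityMeasure P]
  (ξ : ℕ → Ω → Bool)

/-- the chosen elements of `D` -/
def rs (D : Finset ℕ) (ω : Ω) : Finset ℕ := D.filter (fun n => ξ n ω = true)

omit [MeasurableSpace Ω] in
lemma rs_subset (D : Finset ℕ) (ω : Ω) : rs ξ D ω ⊆ D := filter_subset _ _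

/-- each pattern has probability `2 ^ (-|D|)` -/
lemma measure_pattern (hm : ∀ n, Measurable (ξ n)) (hi : iIndepFun ξ P)
    (hh : ∀ n, P (ξ n ⁻¹' {true}) = 1 / 2) (D F : Finset ℕ) (hF : F ⊆ D) :
    P {ω | rs ξ D ω = F} = (1 / 2 : ENNReal) ^ D.card := by
  classical
  have hfalse : ∀ n, P (ξ n ⁻¹' {false}) = 1 / 2 := by
    intro n
    have h1 : ξ n ⁻¹' {false} = (ξ n ⁻¹' {true})ᶜ := by
      ext ω
      simp
    rw [h1, measure_compl (hm n (measurableSet_singleton _)) (measure_ne_top _ _), hh n,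
      measure_univ, ENNReal.sub_eq_of_eq_add]
    · simp
    · simp [ENNReal.inv_two_add_inv_two]
  have hset : {ω | rs ξ D ω = F} = ⋂ n ∈ D, ξ n ⁻¹' {decide (n ∈ F)} := by
    ext ω
    simp only [Set.mem_ofPred_eq, Set.mem_iInter, Set.mem_preimage, Set.mem_singleton_iff]
    constructor
    · intro h n hn
      by_cases hnF : n ∈ F
      · have h2 : n ∈ rs ξ D ω := by rw [h]; exact hnF
        have := (mem_filter.1 h2).2
        rw [this]
        simp [hnF]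
      · have : ¬ (ξ n ω = true) := by
          intro ht
          apply hnF
          rw [← h]
          exact mem_filter.2 ⟨hn, ht⟩
        simp only [Bool.not_eq_true] at this
        rw [this]
        simp [hnF]
    · intro h
      ext n
      unfold rs
      rw [mem_filter]
      constructor
      · rintro ⟨h1, h2⟩
        have := h n h1
        rw [h2] at this
        simpa using this.symm
      · intro hn
        refine ⟨hF hn, ?_⟩
        rw [h n (hF hn)]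
        simp [hn]
  rw [hset, hi.measure_inter_preimage_eq_mul D (fun n _ => measurableSet_singleton _)]
  rw [Finset.prod_congr rfl (g := fun _ => (1 / 2 : ENNReal)), Finset.prod_const]
  intro n _
  cases hc : decide (n ∈ F) with
  | true => exact hh n
  | false => exact hfalse n

/-- probability and counting -/
lemma measure_num (hm : ∀ n, Measurable (ξ n)) (hi : iIndepFun ξ P)
    (hh : ∀ n, P (ξ n ⁻¹' {true}) = 1 / 2) (D : Finset ℕ) (Q : Finset ℕ → Prop) :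
    P {ω | Q (rs ξ D ω)} ≤ (num D Q : ENNReal) * (1 / 2 : ENNReal) ^ D.card := by
  classical
  have hsub : {ω | Q (rs ξ D ω)} ⊆ ⋃ F ∈ D.powerset.filter Q, {ω | rs ξ D ω = F} := by
    intro ω hω
    simp only [Set.mem_iUnion]
    exact ⟨rs ξ D ω, mem_filter.2 ⟨mem_powerset.2 (rs_subset ξ D ω), hω⟩, rfl⟩
  refine (measure_mono hsub).trans ((measure_biUnion_finset_le _ _).trans ?_)
  rw [Finset.sum_congr rfl (g := fun _ => (1 / 2 : ENNReal) ^ D.card), Finset.sum_const,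
    nsmul_eq_mul, num_eq]
  intro F hF
  rw [mem_filter, mem_powerset] at hF
  exact measure_pattern P ξ hm hi hh D F hF.1

end ProbA

open Classical in
open MeasureTheory ProbabilityTheory in
theorem almost_sure (h : ∃ c : ℝ, 0 < c ∧ ∀ x0 : ℕ, ∃ C : ℝ, ∀ N M : ℕ, 2 ≤ N → N ≤ M →
      ∀ V Z : Finset ℕ, V ⊆ Finset.Icc 1 M → Disjoint V Z →
      (∀ x : ℕ, x0 ≤ x → 4 * x ≤ N → x ^ 15 ≤ ((V ∩ Finset.Ioc x (4 * x)).card) ^ 16) →
      (num V (fun F => ∃ y, N < y ∧ y ≤ M + 1 ∧ pw (fs (Z ∪ F) y)) : ℝ)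
        ≤ C * 2 ^ V.card * (Real.log N) ^ (-c))
    (V Z : Set ℕ) (hVZ : Disjoint V Z)
    (hV : ∃ x0 : ℕ, ∀ x : ℕ, x0 ≤ x → x ^ 15 ≤ ((V ∩ Set.Ioc x (4 * x)).ncard) ^ 16)
    {Ω : Type*} [MeasurableSpace Ω] (P : Measure Ω) [IsProbabilityMeasure P] (ξ : ℕ → Ω → Bool)
    (hm : ∀ n, Measurable (ξ n)) (hi : iIndepFun ξ P) (hh : ∀ n, P (ξ n ⁻¹' {true}) = 1 / 2) :
    ∀ᵐ ω ∂P, {y : ℕ | pw (∑ n ∈ Finset.Icc 1 y,
      if n ∈ Z ∨ (n ∈ V ∧ ξ n ω = true) then n ! else 0)}.Finite := by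
  obtain ⟨c, hc, h⟩ := h
  obtain ⟨x0, hx0⟩ := hV
  obtain ⟨C, hC⟩ := h x0
  -- the sum in terms of `fs`
  have hsum : ∀ (M y : ℕ) (ω : Ω), y ≤ M →
      (∑ n ∈ Finset.Icc 1 y, if n ∈ Z ∨ (n ∈ V ∧ ξ n ω = true) then n ! else 0) =
      fs ((Finset.Icc 1 M).filter (fun n => n ∈ Z) ∪
        ProbA.rs ξ ((Finset.Icc 1 M).filter (fun n => n ∈ V)) ω) (y + 1) := by
    intro M y ω hy
    rw [fs, ← Finset.sum_filter]
    apply Finset.sum_congr _ (fun _ _ => rfl)
    ext n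
    simp only [mem_filter, mem_union, mem_Icc, ProbA.rs]
    constructor
    · rintro ⟨⟨h1, h2⟩, h3 | ⟨h3, h4⟩⟩
      · exact ⟨Or.inl ⟨⟨h1, h2.trans hy⟩, h3⟩, by omega⟩
      · exact ⟨Or.inr ⟨⟨⟨h1, h2.trans hy⟩, h3⟩, h4⟩, by omega⟩
    · rintro ⟨⟨⟨h1, h2⟩, h3⟩ | ⟨⟨⟨h1, h2⟩, h3⟩, h4⟩, h5⟩
      · exact ⟨⟨h1, by omega⟩, Or.inl h3⟩
      · exact ⟨⟨h1, by omega⟩, Or.inr ⟨h3, h4⟩⟩
  -- the events
  let E : ℕ → ℕ → Set Ω := fun N M => {ω | ∃ y, N ≤ y ∧ y ≤ M ∧
    pw (∑ n ∈ Finset.Icc 1 y, if n ∈ Z ∨ (n ∈ V ∧ ξ n ω = true) then n ! else 0)}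
  have hE : ∀ N M : ℕ, 2 ≤ N → N ≤ M →
      P (E N M) ≤ ENNReal.ofReal (C * (Real.log N) ^ (-c)) := by
    intro N M hN hNM
    set VM := (Finset.Icc 1 M).filter (fun n => n ∈ V) with hVM
    set ZM := (Finset.Icc 1 M).filter (fun n => n ∈ Z) with hZM
    have h1 : E N M ⊆ {ω | (fun F => ∃ y, N < y ∧ y ≤ M + 1 ∧ pw (fs (ZM ∪ F) y))
        (ProbA.rs ξ VM ω)} := by
      rintro ω ⟨y, hy1, hy2, hy3⟩
      refine ⟨y + 1, by omega, by omega, ?_⟩
      rw [← hsum M y ω hy2]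
      exact hy3
    have h2 := ProbA.measure_num P ξ hm hi hh VM
      (fun F => ∃ y, N < y ∧ y ≤ M + 1 ∧ pw (fs (ZM ∪ F) y))
    have hdis : Disjoint VM ZM := by
      rw [Finset.disjoint_left]
      intro n h3 h4
      exact Set.disjoint_left.1 hVZ (mem_filter.1 h3).2 (mem_filter.1 h4).2
    have h3 := hC N M hN hNM VM ZM (filter_subset _ _) hdis (by
      intro x hx hx4
      have h4 := hx0 x hx
      have h5 : (V ∩ Set.Ioc x (4 * x)).ncard = (VM ∩ Finset.Ioc x (4 * x)).card := by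
        rw [← Set.ncard_coe_finset]
        congr 1
        ext n
        simp only [hVM, Set.mem_inter_iff, Set.mem_Ioc, coe_inter, coe_filter, mem_Icc, coe_Ioc,
          Set.mem_ofPred_eq]
        constructor
        · rintro ⟨a1, a2, a3⟩
          exact ⟨⟨⟨by omega, by omega⟩, a1⟩, a2, a3⟩
        · rintro ⟨⟨_, a1⟩, a2, a3⟩
          exact ⟨a1, a2, a3⟩
      rwa [h5] at h4)
    refine (measure_mono h1).trans (h2.trans ?_)
    have h6 : (num VM (fun F => ∃ y, N < y ∧ y ≤ M + 1 ∧ pw (fs (ZM ∪ F) y)) : ENNReal) *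
        (1 / 2 : ENNReal) ^ VM.card =
        ENNReal.ofReal ((num VM (fun F => ∃ y, N < y ∧ y ≤ M + 1 ∧ pw (fs (ZM ∪ F) y)) : ℝ) *
          (1 / 2) ^ VM.card) := by
      rw [ENNReal.ofReal_mul (by positivity), ENNReal.ofReal_natCast,
        ENNReal.ofReal_pow (by positivity), ENNReal.ofReal_div_of_pos (by norm_num)]
      simp
    rw [h6]
    apply ENNReal.ofReal_le_ofReal
    calc (num VM (fun F => ∃ y, N < y ∧ y ≤ M + 1 ∧ pw (fs (ZM ∪ F) y)) : ℝ) * (1 / 2) ^ VM.card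
        ≤ (C * 2 ^ VM.card * (Real.log N) ^ (-c)) * (1 / 2) ^ VM.card := by
          apply mul_le_mul_of_nonneg_right h3 (by positivity)
      _ = C * (Real.log N) ^ (-c) * (2 ^ VM.card * (1 / 2) ^ VM.card) := by ring
      _ = C * (Real.log N) ^ (-c) := by
          rw [← mul_pow]; norm_num
  have hmono : ∀ N, Monotone (E N) := by
    intro N M M' hMM ω
    rintro ⟨y, hy1, hy2, hy3⟩
    exact ⟨y, hy1, hy2.trans hMM, hy3⟩
  have hEN : ∀ N, 2 ≤ N → P (⋃ M, E N M) ≤ ENNReal.ofReal (C * (Real.log N) ^ (-c)) := by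
    intro N hN
    rw [(hmono N).measure_iUnion]
    apply iSup_le
    intro M
    refine (measure_mono (hmono N (le_max_left M N))).trans (hE N (max M N) hN (le_max_right _ _))
  have hlim : Filter.Tendsto (fun N : ℕ => ENNReal.ofReal (C * (Real.log N) ^ (-c))) Filter.atTop
      (nhds 0) := by
    have h1 : Filter.Tendsto (fun N : ℕ => (Real.log N) ^ (-c)) Filter.atTop (nhds 0) :=
      (tendsto_rpow_neg_atTop hc).comp (Real.tendsto_log_atTop.comp tendsto_natCast_atTop_atTop)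
    have h2 := h1.const_mul C
    rw [mul_zero] at h2
    have h3 := ENNReal.tendsto_ofReal h2
    rwa [ENNReal.ofReal_zero] at h3
  rw [ae_iff]
  have hB : ∀ N, {ω | ¬ {y : ℕ | pw (∑ n ∈ Finset.Icc 1 y,
      if n ∈ Z ∨ (n ∈ V ∧ ξ n ω = true) then n ! else 0)}.Finite} ⊆ ⋃ M, E N M := by
    intro N ω hω
    have hinf : {y : ℕ | pw (∑ n ∈ Finset.Icc 1 y,
      if n ∈ Z ∨ (n ∈ V ∧ ξ n ω = true) then n ! else 0)}.Infinite := hω
    obtain ⟨y, hy, hNy⟩ := hinf.exists_gt N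
    rw [Set.mem_iUnion]
    exact ⟨y, y, hNy.le, le_rfl, hy⟩
  rw [← nonpos_iff_eq_zero]
  refine ge_of_tendsto hlim ?_
  filter_upwards [Filter.eventually_ge_atTop 2] with N hN
  exact (measure_mono (hB N)).trans (hEN N hN)

end Pool.Agent.H70.PF
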