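import Pool.Agent.H70.PF.Lazy
import Pool.Agent.H70.PF.Block

set_option autoImplicit false

/-! # The sieve with several groups of primes -/

namespace Pool.Agent.H70.PF

open Finset Nat

lemma mem_Tf {G : ℕ → Finset ℕ} {i : ℕ} {x : Fin i → Finset ℕ} :
    x ∈ Tf G i ↔ ∀ j : Fin i, x j ⊆ G j ∧ (x j).card ≤ 2 := by
  unfold Tf sub2
  rw [Fintype.mem_piFinset]
  simp only [mem_filter, mem_powerset]

lemma sub2_eq (P : Finset ℕ) : sub2 P = P.powerset.filter (fun A => A.card < 3) := by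
  unfold sub2
  apply filter_congr
  intro A _
  omega

lemma alt_sub2 (x : ℕ → ℝ) (P : Finset ℕ) :
    alt x P 3 = ∑ A ∈ sub2 P, (-1) ^ A.card * ∏ p ∈ A, x p := by
  rw [alt_eq_sum, sub2_eq]

lemma prod_alt_three (G : ℕ → Finset ℕ) (i : ℕ) (x : ℕ → ℝ) :
    ∏ j : Fin i, alt x (G j) 3
      = ∑ y ∈ Tf G i, (∏ j : Fin i, (-1 : ℝ) ^ (y j).card) * ∏ j : Fin i, ∏ p ∈ y j, x p := by
  rw [Finset.prod_congr rfl (fun (j : Fin i) _ => alt_sub2 x (G (j : ℕ)))]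
  rw [prod_univ_sum]
  unfold Tf
  refine sum_congr rfl fun y _ => ?_
  rw [prod_mul_distrib]

lemma qq_eq {G : ℕ → Finset ℕ} {i : ℕ} (hGd : ∀ j < i, ∀ j' < i, j ≠ j' → Disjoint (G j) (G j'))
    {x : Fin i → Finset ℕ} (hx : x ∈ Tf G i) : ∏ p ∈ univ.biUnion x, p = qq x := by
  rw [mem_Tf] at hx
  unfold qq
  rw [prod_biUnion]
  intro a _ b _ hab
  exact disjoint_of_subset_left (hx a).1 (disjoint_of_subset_right (hx b).1
    (hGd a a.2 b b.2 (fun h => hab (Fin.ext h))))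

/-- CRT for a choice -/
lemma exists_res {G : ℕ → Finset ℕ} {i : ℕ} (hG : ∀ j < i, ∀ p ∈ G j, p.Prime)
    (hGd : ∀ j < i, ∀ j' < i, j ≠ j' → Disjoint (G j) (G j')) (c : ℕ → ℕ)
    {x : Fin i → Finset ℕ} (hx : x ∈ Tf G i) :
    ∃ z : ℕ, ∀ s : ℕ, (∀ j : Fin i, ∀ p ∈ x j, p ∣ s + c p) ↔ qq x ∣ s + z := by
  have hx' := mem_Tf.mp hx
  have hA : ∀ p ∈ univ.biUnion x, p.Prime := by
    intro p hp
    rw [mem_biUnion] at hp
    obtain ⟨j, _, hj⟩ := hp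
    exact hG j j.2 p ((hx' j).1 hj)
  obtain ⟨z, hz⟩ := crt (univ.biUnion x) hA c
  refine ⟨z, fun s => ?_⟩
  rw [← qq_eq hGd hx, ← all_dvd_iff (univ.biUnion x) hA hz s]
  constructor
  · intro h p hp
    rw [mem_biUnion] at hp
    obtain ⟨j, _, hj⟩ := hp
    exact h j p hj
  · intro h j p hp
    exact h p (mem_biUnion.mpr ⟨j, mem_univ j, hp⟩)

lemma qq_ne_zero {G : ℕ → Finset ℕ} {i : ℕ} (hG : ∀ j < i, ∀ p ∈ G j, p.Prime)
    {x : Fin i → Finset ℕ} (hx : x ∈ Tf G i) : qq x ≠ 0 := by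
  rw [mem_Tf] at hx
  unfold qq
  rw [prod_ne_zero_iff]
  intro j _
  rw [prod_ne_zero_iff]
  intro p hp
  exact (hG j j.2 p ((hx j).1 hp)).ne_zero

lemma coprime_of_lt {p n Y : ℕ} (hp : p.Prime) (hn : n < Y) (hY : Y ≤ p) :
    Nat.Coprime (n !) p := by
  apply Nat.Coprime.symm
  rw [Nat.Prime.coprime_iff_not_dvd hp, hp.dvd_factorial]
  omega

lemma qq_unit {G : ℕ → Finset ℕ} {i Y n : ℕ} (hG : ∀ j < i, ∀ p ∈ G j, p.Prime)
    (hGY : ∀ j < i, ∀ p ∈ G j, Y ≤ p) {x : Fin i → Finset ℕ} (hx : x ∈ Tf G i) (hn : n < Y) :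
    IsUnit ((n ! : ℕ) : ZMod (qq x)) := by
  rw [mem_Tf] at hx
  rw [ZMod.isUnit_iff_coprime]
  unfold qq
  apply Nat.Coprime.prod_right
  intro j _
  apply Nat.Coprime.prod_right
  intro p hp
  exact coprime_of_lt (hG j j.2 p ((hx j).1 hp)) hn (hGY j j.2 p ((hx j).1 hp))

theorem block_tower (G : ℕ → Finset ℕ) {i k Y : ℕ} {B B2 : ℝ}
    (hG : ∀ j < i, ∀ p ∈ G j, p.Prime) (hGY : ∀ j < i, ∀ p ∈ G j, Y ≤ p)
    (hGd : ∀ j < i, ∀ j' < i, j ≠ j' → Disjoint (G j) (G j'))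
    (S : Finset ℕ) (Ws : ℕ → Finset ℕ) (hk : 1 ≤ k) (hS : 22 ^ k * (16 * k) ≤ S.card)
    (hWd : ∀ a ∈ S, ∀ b ∈ S, a ≠ b → Disjoint (Ws a) (Ws b)) (hne : ∀ a ∈ S, (Ws a).Nonempty)
    (hWY : ∀ a ∈ S, ∀ n ∈ Ws a, n < Y) (hB : ∀ a ∈ S, Lam G i (Ws a) ≤ B)
    (hB2 : ∀ a ∈ S, ∑ j ∈ range i, ∑ p ∈ G j, plz Nat.factorial (Ws a) (p ^ 2) ≤ B2)
    {U : Finset ℕ} (hU : S.biUnion Ws ⊆ U) (c : ℕ → ℕ) :
    (num U (fun F => (∀ j < i, ∀ p ∈ G j, ¬ p ∣ (∑ n ∈ F, n !) + c p)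
        ∨ ∃ j < i, ∃ p ∈ G j, p ^ 2 ∣ (∑ n ∈ F, n !) + c p) : ℝ) / 2 ^ U.card
      ≤ ∏ j ∈ range i, alt (fun p : ℕ => 1 / (p : ℝ)) (G j) 3 + (3 / 2 ^ k) * B
        + (∑ j ∈ range i, ∑ p ∈ G j, 1 / (p : ℝ) ^ 2 + (3 / 2 ^ k) * B2) := by
  classical
  set U0 := S.biUnion Ws with hU0
  set E := ∏ j ∈ range i, alt (fun p : ℕ => 1 / (p : ℝ)) (G j) 3 + (3 / 2 ^ k) * B
        + (∑ j ∈ range i, ∑ p ∈ G j, 1 / (p : ℝ) ^ 2 + (3 / 2 ^ k) * B2) with hE
  have hScard : 0 < S.card := lt_of_lt_of_le (by positivity) hS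
  have hScR : (0 : ℝ) < S.card := by exact_mod_cast hScard
  have hWYu : ∀ a ∈ S, ∀ n ∈ Ws a, ∀ x ∈ Tf G i, IsUnit ((n ! : ℕ) : ZMod (qq x)) :=
    fun a ha n hn x hx => qq_unit hG hGY hx (hWY a ha n hn)
  -- the average over the windows
  have havg : ∀ (g : ℕ → ℝ) (b : ℝ), (∀ a ∈ S, g a ≤ b) → (∑ a ∈ S, g a) / S.card ≤ b := by
    intro g b hg
    rw [div_le_iff₀ hScR]
    calc ∑ a ∈ S, g a ≤ ∑ a ∈ S, b := sum_le_sum hg
      _ = b * S.card := by rw [sum_const, nsmul_eq_mul, mul_comm]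
  -- first part: no prime divides
  have part1 : ∀ c : ℕ → ℕ,
      (num U0 (fun F => ∀ j < i, ∀ p ∈ G j, ¬ p ∣ (∑ n ∈ F, n !) + c p) : ℝ) / 2 ^ U0.card
      ≤ ∏ j ∈ range i, alt (fun p : ℕ => 1 / (p : ℝ)) (G j) 3 + (3 / 2 ^ k) * B := by
    intro c
    have hex : ∀ x : Fin i → Finset ℕ, ∃ z : ℕ, x ∈ Tf G i →
        ∀ s : ℕ, (∀ j : Fin i, ∀ p ∈ x j, p ∣ s + c p) ↔ qq x ∣ s + z := by
      intro x
      by_cases hx : x ∈ Tf G i
      · obtain ⟨z, hz⟩ := exists_res hG hGd c hx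
        exact ⟨z, fun _ => hz⟩
      · exact ⟨0, fun h => absurd h hx⟩
    choose z hz using hex
    have h1 : ∀ F : Finset ℕ,
        (if (∀ j < i, ∀ p ∈ G j, ¬ p ∣ (∑ n ∈ F, n !) + c p) then (1 : ℝ) else 0)
        ≤ ∑ x ∈ Tf G i, (∏ j : Fin i, (-1 : ℝ) ^ (x j).card) *
          (if ((∑ n ∈ F, n ! : ℕ) : ZMod (qq x)) = -(z x : ZMod (qq x)) then (1 : ℝ) else 0) := by
      intro F
      set X : ℕ → ℝ := fun p => if p ∣ (∑ n ∈ F, n !) + c p then (1 : ℝ) else 0 with hX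
      have hX0 : ∀ p, 0 ≤ X p := fun p => by rw [hX]; simp only; split_ifs <;> norm_num
      have hX1 : ∀ p, X p ≤ 1 := fun p => by rw [hX]; simp only; split_ifs <;> norm_num
      have h2 : ∏ j : Fin i, ∏ p ∈ G j, (1 - X p) ≤ ∏ j : Fin i, alt X (G j) 3 := by
        apply prod_le_prod
        · intro j _
          exact prod_nonneg fun p _ => by linarith [hX1 p]
        · intro j _
          exact prod_le_alt X (G j) (fun p _ => hX0 p) (fun p _ => hX1 p) 1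
      rw [prod_alt_three] at h2
      refine le_trans (le_of_eq ?_) (h2.trans (le_of_eq ?_))
      · by_cases hF : ∀ j < i, ∀ p ∈ G j, ¬ p ∣ (∑ n ∈ F, n !) + c p
        · rw [if_pos hF, eq_comm]
          apply prod_eq_one
          intro j _
          apply prod_eq_one
          intro p hp
          rw [hX]
          simp only
          rw [if_neg (hF j j.2 p hp), sub_zero]
        · rw [if_neg hF, eq_comm]
          push Not at hF
          obtain ⟨j, hj, p, hp, hpd⟩ := hF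
          apply prod_eq_zero (mem_univ (⟨j, hj⟩ : Fin i))
          apply prod_eq_zero hp
          rw [hX]
          simp only
          rw [if_pos hpd, sub_self]
      · refine sum_congr rfl fun x hx => ?_
        congr 1
        have h3 := hz x hx (∑ n ∈ F, n !)
        rw [← eq_neg_iff] at h3
        by_cases h4 : ∀ j : Fin i, ∀ p ∈ x j, p ∣ (∑ n ∈ F, n !) + c p
        · rw [if_pos (h3.mp h4)]
          apply prod_eq_one
          intro j _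
          apply prod_eq_one
          intro p hp
          rw [hX]
          simp only
          rw [if_pos (h4 j p hp)]
        · rw [if_neg (fun h => h4 (h3.mpr h))]
          push Not at h4
          obtain ⟨j, p, hp, hpd⟩ := h4
          apply prod_eq_zero (mem_univ j)
          apply prod_eq_zero hp
          rw [hX]
          simp only
          rw [if_neg hpd]
    have h2 : (num U0 (fun F => ∀ j < i, ∀ p ∈ G j, ¬ p ∣ (∑ n ∈ F, n !) + c p) : ℝ)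
        ≤ ∑ x ∈ Tf G i, (∏ j : Fin i, (-1 : ℝ) ^ (x j).card) *
          (cnt Nat.factorial U0 (qq x) (-(z x : ZMod (qq x))) : ℝ) := by
      rw [num_eq, card_filter]
      push_cast
      refine (sum_le_sum fun F _ => h1 F).trans (le_of_eq ?_)
      rw [sum_comm]
      refine sum_congr rfl fun x _ => ?_
      rw [← mul_sum]
      congr 1
      unfold cnt
      rw [card_filter]
      push_cast
      rfl
    have hdev : ∀ x ∈ Tf G i, |(cnt Nat.factorial U0 (qq x) (-(z x : ZMod (qq x))) : ℝ)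
        / 2 ^ U0.card - 1 / (qq x : ℝ)|
        ≤ (3 / 2 ^ k) * ((∑ a ∈ S, plz Nat.factorial (Ws a) (qq x)) / S.card) := by
      intro x hx
      exact (dev_lazy Nat.factorial (qq_ne_zero hG hx) S Ws hWd hne
        (fun a ha n hn => hWYu a ha n hn x hx) k hk hS).1 _
    have hsign : ∀ x : Fin i → Finset ℕ, (∏ j : Fin i, (-1 : ℝ) ^ (x j).card) = 1
        ∨ (∏ j : Fin i, (-1 : ℝ) ^ (x j).card) = -1 := by
      intro x
      rw [prod_pow_eq_pow_sum]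
      exact neg_one_pow_eq_or ℝ _
    have h3 : ∀ x ∈ Tf G i, (∏ j : Fin i, (-1 : ℝ) ^ (x j).card) *
          (cnt Nat.factorial U0 (qq x) (-(z x : ZMod (qq x))) : ℝ) / 2 ^ U0.card
        ≤ (∏ j : Fin i, (-1 : ℝ) ^ (x j).card) * ∏ j : Fin i, ∏ p ∈ x j, (1 / (p : ℝ))
          + (3 / 2 ^ k) * ((∑ a ∈ S, plz Nat.factorial (Ws a) (qq x)) / S.card) := by
      intro x hx
      have h4 : ∏ j : Fin i, ∏ p ∈ x j, (1 / (p : ℝ)) = 1 / (qq x : ℝ) := by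
        unfold qq
        push_cast
        simp only [prod_div_distrib, prod_const_one]
      rw [h4]
      have h5 := hdev x hx
      set y := (cnt Nat.factorial U0 (qq x) (-(z x : ZMod (qq x))) : ℝ)
      set y' := 1 / (qq x : ℝ)
      rcases hsign x with h6 | h6
      · rw [h6]
        have := le_abs_self (y / 2 ^ U0.card - y')
        rw [one_mul, one_mul]
        linarith
      · rw [h6]
        have := neg_abs_le (y / 2 ^ U0.card - y')
        rw [neg_one_mul, neg_one_mul, neg_div]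
        linarith
    calc (num U0 (fun F => ∀ j < i, ∀ p ∈ G j, ¬ p ∣ (∑ n ∈ F, n !) + c p) : ℝ) / 2 ^ U0.card
        ≤ (∑ x ∈ Tf G i, (∏ j : Fin i, (-1 : ℝ) ^ (x j).card) *
          (cnt Nat.factorial U0 (qq x) (-(z x : ZMod (qq x))) : ℝ)) / 2 ^ U0.card := by
          gcongr
      _ = ∑ x ∈ Tf G i, (∏ j : Fin i, (-1 : ℝ) ^ (x j).card) *
          (cnt Nat.factorial U0 (qq x) (-(z x : ZMod (qq x))) : ℝ) / 2 ^ U0.card := by
          rw [sum_div]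
      _ ≤ _ := sum_le_sum h3
      _ = ∏ j : Fin i, alt (fun p : ℕ => 1 / (p : ℝ)) (G j) 3
          + (3 / 2 ^ k) * ((∑ a ∈ S, Lam G i (Ws a)) / S.card) := by
          have e1 : ∑ a ∈ S, Lam G i (Ws a)
              = ∑ x ∈ Tf G i, ∑ a ∈ S, plz Nat.factorial (Ws a) (qq x) := by
            unfold Lam
            exact sum_comm
          rw [sum_add_distrib, prod_alt_three, e1, ← mul_sum, ← sum_div]
      _ ≤ ∏ j ∈ range i, alt (fun p : ℕ => 1 / (p : ℝ)) (G j) 3 + (3 / 2 ^ k) * B := by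
          rw [Fin.prod_univ_eq_prod_range (fun j => alt (fun p : ℕ => 1 / (p : ℝ)) (G j) 3) i]
          gcongr
          exact havg _ _ hB
  -- second part: no square of a prime divides
  have part2 : ∀ c : ℕ → ℕ,
      (num U0 (fun F => ∃ j < i, ∃ p ∈ G j, p ^ 2 ∣ (∑ n ∈ F, n !) + c p) : ℝ) / 2 ^ U0.card
      ≤ ∑ j ∈ range i, ∑ p ∈ G j, 1 / (p : ℝ) ^ 2 + (3 / 2 ^ k) * B2 := by
    intro c
    have h1 : (num U0 (fun F => ∃ j < i, ∃ p ∈ G j, p ^ 2 ∣ (∑ n ∈ F, n !) + c p) : ℝ)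
        ≤ ∑ j ∈ range i, ∑ p ∈ G j,
          (cnt Nat.factorial U0 (p ^ 2) (-((c p : ℕ) : ZMod (p ^ 2))) : ℝ) := by
      have h2 : num U0 (fun F => ∃ j < i, ∃ p ∈ G j, p ^ 2 ∣ (∑ n ∈ F, n !) + c p)
          ≤ ∑ j ∈ range i, ∑ p ∈ G j, cnt Nat.factorial U0 (p ^ 2)
            (-((c p : ℕ) : ZMod (p ^ 2))) := by
        calc num U0 (fun F => ∃ j < i, ∃ p ∈ G j, p ^ 2 ∣ (∑ n ∈ F, n !) + c p)
            ≤ num U0 (fun F => ∃ j ∈ range i, ∃ p ∈ G j, p ^ 2 ∣ (∑ n ∈ F, n !) + c p) := by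
              apply num_mono
              rintro F _ ⟨j, hj, h⟩
              exact ⟨j, mem_range.mpr hj, h⟩
          _ ≤ ∑ j ∈ range i, num U0 (fun F => ∃ p ∈ G j, p ^ 2 ∣ (∑ n ∈ F, n !) + c p) :=
              num_exists U0 (range i) (fun j F => ∃ p ∈ G j, p ^ 2 ∣ (∑ n ∈ F, n !) + c p)
          _ ≤ _ := by
              refine sum_le_sum fun j _ => ?_
              refine (num_exists U0 (G j) (fun p F => p ^ 2 ∣ (∑ n ∈ F, n !) + c p)).trans ?_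
              refine sum_le_sum fun p _ => le_of_eq ?_
              rw [cnt_eq_num]
              apply num_congr
              intro F _
              rw [eq_neg_iff]
      exact_mod_cast h2
    have h2 : ∀ j ∈ range i, ∀ p ∈ G j,
        (cnt Nat.factorial U0 (p ^ 2) (-((c p : ℕ) : ZMod (p ^ 2))) : ℝ) / 2 ^ U0.card
        ≤ 1 / (p : ℝ) ^ 2
          + (3 / 2 ^ k) * ((∑ a ∈ S, plz Nat.factorial (Ws a) (p ^ 2)) / S.card) := by
      intro j hj p hp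
      rw [mem_range] at hj
      have hpp := hG j hj p hp
      have h3 := (dev_lazy Nat.factorial (pow_ne_zero 2 hpp.ne_zero) S Ws hWd hne
        (fun a ha n hn => by
          rw [ZMod.isUnit_iff_coprime]
          exact Nat.Coprime.pow_right 2 (coprime_of_lt hpp (hWY a ha n hn) (hGY j hj p hp)))
        k hk hS).1 (-((c p : ℕ) : ZMod (p ^ 2)))
      have h4 : ((p ^ 2 : ℕ) : ℝ) = (p : ℝ) ^ 2 := by push_cast; rfl
      rw [h4] at h3
      have := le_abs_self ((cnt Nat.factorial U0 (p ^ 2)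
        (-((c p : ℕ) : ZMod (p ^ 2))) : ℝ) / 2 ^ U0.card - 1 / (p : ℝ) ^ 2)
      rw [← hU0] at h3
      linarith
    calc (num U0 (fun F => ∃ j < i, ∃ p ∈ G j, p ^ 2 ∣ (∑ n ∈ F, n !) + c p) : ℝ) / 2 ^ U0.card
        ≤ (∑ j ∈ range i, ∑ p ∈ G j,
          (cnt Nat.factorial U0 (p ^ 2) (-((c p : ℕ) : ZMod (p ^ 2))) : ℝ)) / 2 ^ U0.card := by
          gcongr
      _ = ∑ j ∈ range i, ∑ p ∈ G j,
          (cnt Nat.factorial U0 (p ^ 2) (-((c p : ℕ) : ZMod (p ^ 2))) : ℝ) / 2 ^ U0.card := by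
          rw [sum_div]
          exact sum_congr rfl fun j _ => by rw [sum_div]
      _ ≤ ∑ j ∈ range i, ∑ p ∈ G j, (1 / (p : ℝ) ^ 2
          + (3 / 2 ^ k) * ((∑ a ∈ S, plz Nat.factorial (Ws a) (p ^ 2)) / S.card)) :=
          sum_le_sum fun j hj => sum_le_sum fun p hp => h2 j hj p hp
      _ = ∑ j ∈ range i, ∑ p ∈ G j, 1 / (p : ℝ) ^ 2
          + (3 / 2 ^ k) * ((∑ a ∈ S, ∑ j ∈ range i, ∑ p ∈ G j,
            plz Nat.factorial (Ws a) (p ^ 2)) / S.card) := by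
          have e1 : ∑ a ∈ S, ∑ j ∈ range i, ∑ p ∈ G j, plz Nat.factorial (Ws a) (p ^ 2)
              = ∑ j ∈ range i, ∑ p ∈ G j, ∑ a ∈ S, plz Nat.factorial (Ws a) (p ^ 2) := by
            rw [sum_comm]
            refine sum_congr rfl fun j _ => ?_
            rw [sum_comm]
          rw [e1, sum_div, mul_sum, ← sum_add_distrib]
          refine sum_congr rfl fun j _ => ?_
          rw [sum_div, mul_sum, ← sum_add_distrib]
      _ ≤ _ := by
          gcongr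
          exact havg _ _ hB2
  -- fixed digits outside `U0`
  have key : ∀ F1 ⊆ U \ U0, (num U0 (fun F2 =>
        (∀ j < i, ∀ p ∈ G j, ¬ p ∣ (∑ n ∈ F1 ∪ F2, n !) + c p)
        ∨ ∃ j < i, ∃ p ∈ G j, p ^ 2 ∣ (∑ n ∈ F1 ∪ F2, n !) + c p) : ℝ)
      ≤ 2 ^ U0.card * E := by
    intro F1 hF1
    set c' : ℕ → ℕ := fun p => (∑ n ∈ F1, n !) + c p with hc'
    have hb1 := part1 c'
    have hb2 := part2 c'
    rw [div_le_iff₀ (by positivity)] at hb1 hb2
    have e0 : num U0 (fun F2 => (∀ j < i, ∀ p ∈ G j, ¬ p ∣ (∑ n ∈ F1 ∪ F2, n !) + c p)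
        ∨ ∃ j < i, ∃ p ∈ G j, p ^ 2 ∣ (∑ n ∈ F1 ∪ F2, n !) + c p)
        = num U0 (fun F => (∀ j < i, ∀ p ∈ G j, ¬ p ∣ (∑ n ∈ F, n !) + c' p)
        ∨ ∃ j < i, ∃ p ∈ G j, p ^ 2 ∣ (∑ n ∈ F, n !) + c' p) := by
      apply num_congr
      intro F2 hF2
      have e1 : ∀ p, (∑ n ∈ F1 ∪ F2, n !) + c p = (∑ n ∈ F2, n !) + c' p := by
        intro p
        rw [sum_union (disjoint_of_subset_left hF1 (disjoint_of_subset_right hF2 sdiff_disjoint)),
          hc']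
        ring
      simp_rw [e1]
    rw [e0]
    have h2 := num_or U0 (fun F => ∀ j < i, ∀ p ∈ G j, ¬ p ∣ (∑ n ∈ F, n !) + c' p)
      (fun F => ∃ j < i, ∃ p ∈ G j, p ^ 2 ∣ (∑ n ∈ F, n !) + c' p)
    have h3 : (num U0 (fun F => (∀ j < i, ∀ p ∈ G j, ¬ p ∣ (∑ n ∈ F, n !) + c' p)
        ∨ ∃ j < i, ∃ p ∈ G j, p ^ 2 ∣ (∑ n ∈ F, n !) + c' p) : ℝ)
        ≤ (num U0 (fun F => ∀ j < i, ∀ p ∈ G j, ¬ p ∣ (∑ n ∈ F, n !) + c' p) : ℝ)
          + (num U0 (fun F => ∃ j < i, ∃ p ∈ G j, p ^ 2 ∣ (∑ n ∈ F, n !) + c' p) : ℝ) := by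
      exact_mod_cast h2
    rw [hE, mul_add]
    linarith
  have hUU : U = (U \ U0) ∪ U0 := (sdiff_union_of_subset hU).symm
  have e1 : num U (fun F => (∀ j < i, ∀ p ∈ G j, ¬ p ∣ (∑ n ∈ F, n !) + c p)
        ∨ ∃ j < i, ∃ p ∈ G j, p ^ 2 ∣ (∑ n ∈ F, n !) + c p)
      = ∑ F1 ∈ (U \ U0).powerset, num U0 (fun F2 =>
        (∀ j < i, ∀ p ∈ G j, ¬ p ∣ (∑ n ∈ F1 ∪ F2, n !) + c p)
        ∨ ∃ j < i, ∃ p ∈ G j, p ^ 2 ∣ (∑ n ∈ F1 ∪ F2, n !) + c p) := by
    conv_lhs => rw [hUU]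
    rw [num_split sdiff_disjoint]
  rw [div_le_iff₀ (by positivity), e1]
  push_cast
  calc _ ≤ ∑ F1 ∈ (U \ U0).powerset, 2 ^ U0.card * E :=
        sum_le_sum fun F1 hF1 => key F1 (mem_powerset.mp hF1)
    _ = 2 ^ (U \ U0).card * (2 ^ U0.card * E) := by
        rw [sum_const, card_powerset, nsmul_eq_mul]
        push_cast
        rfl
    _ = E * 2 ^ U.card := by
        have e2 : U.card = (U \ U0).card + U0.card := (card_sdiff_add_card_eq_card hU).symm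
        rw [e2, pow_add]
        ring

end Pool.Agent.H70.PF
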