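import Mathlib

/-! # Definitions used in the statement (MP_b4eed3_nt) -/

namespace Pool.Agent.H70.PF

/-- Every prime divisor `p > B` of the integer `z` satisfies `p ^ 2 ∣ z`.  In particular
`PowerfulAbove 1 z` says that `z` is powerful or zero. -/
def PowerfulAbove (B : ℝ) (z : ℤ) : Prop :=
  ∀ p : ℕ, p.Prime → B < p → (p : ℤ) ∣ z → (p : ℤ) ^ 2 ∣ z

/-- The set `A` of all finite sums of distinct factorials with positive indices. -/
def SumsOfFactorials : Set ℕ := {a | ∃ S : Finset ℕ, (∀ n ∈ S, 0 < n) ∧ a = ∑ n ∈ S, n.factorial}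

end Pool.Agent.H70.PF
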